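import Pool.Agent.Run7.h589.Main

open Finset

namespace Run7.h589

/-- sign given by the binary digit -/
def sg (τ l : ℕ) : ℝ := if (τ / 2 ^ l) % 2 = 0 then 1 else -1

theorem sg_sq (τ l : ℕ) : sg τ l * sg τ l = 1 := by
  unfold sg; split_ifs <;> norm_num

theorem sg_abs (τ l : ℕ) : |sg τ l| = 1 := by
  unfold sg; split_ifs <;> norm_num

theorem kernel (τ τ' j : ℕ) :
    (1 / 2 : ℝ) ^ j * (if τ / 2 ^ j = τ' / 2 ^ j then 1 else 0) +
      ∑ l ∈ range j, sg τ l * sg τ' l * (1 / 2) ^ (l + 1) *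
        (if τ / 2 ^ (l + 1) = τ' / 2 ^ (l + 1) then 1 else 0) = if τ = τ' then 1 else 0 := by
  induction j with
  | zero => simp
  | succ j ih =>
    rw [Finset.sum_range_succ, ← ih]
    have h1 : τ / 2 ^ (j + 1) = τ / 2 ^ j / 2 := by rw [pow_succ, Nat.div_div_eq_div_mul]
    have h2 : τ' / 2 ^ (j + 1) = τ' / 2 ^ j / 2 := by rw [pow_succ, Nat.div_div_eq_div_mul]
    have key : (1 / 2 : ℝ) ^ (j + 1) * (if τ / 2 ^ (j + 1) = τ' / 2 ^ (j + 1) then 1 else 0) +
        sg τ j * sg τ' j * (1 / 2) ^ (j + 1) *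
        (if τ / 2 ^ (j + 1) = τ' / 2 ^ (j + 1) then 1 else 0) =
        (1 / 2 : ℝ) ^ j * (if τ / 2 ^ j = τ' / 2 ^ j then 1 else 0) := by
      rw [h1, h2]
      unfold sg
      generalize τ / 2 ^ j = a
      generalize τ' / 2 ^ j = a'
      by_cases hab : a = a'
      · subst hab
        simp only [if_true]
        split_ifs <;> ring
      · rw [if_neg hab]
        by_cases h3 : a / 2 = a' / 2
        · rw [if_pos h3]
          have h4 : (a % 2 = 0 ∧ ¬ a' % 2 = 0) ∨ (¬ a % 2 = 0 ∧ a' % 2 = 0) := by omega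
          rcases h4 with ⟨h5, h6⟩ | ⟨h5, h6⟩
          · rw [if_pos h5, if_neg h6]; ring
          · rw [if_neg h5, if_pos h6]; ring
        · rw [if_neg h3]; ring
    linarith

/-- the rows after mixing -/
noncomputable def bv {n : ℕ} {ι : Type} (v : ι → E n) (lev : ι → ℕ)
    (f : (Σ _ : ι, Σ _ : ℕ, ℕ) → ι) (k : ι) (τ : ℕ) : E n :=
  (Real.sqrt (1 / 2)) ^ (lev k) • v k +
    ∑ l ∈ range (lev k), (sg τ l * (Real.sqrt (1 / 2)) ^ (l + 1)) • v (f ⟨k, l, τ / 2 ^ (l + 1)⟩)

theorem sqrt_half_sq (j : ℕ) : Real.sqrt (1 / 2) ^ j * Real.sqrt (1 / 2) ^ j = (1 / 2 : ℝ) ^ j := by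
  rw [← mul_pow, Real.mul_self_sqrt (by norm_num)]

theorem absorb {n : ℕ} {ι : Type} [Fintype ι] [DecidableEq ι] (hcard : Fintype.card ι = n)
    (v : ι → E n) (hv : Orthonormal ℝ v) (lev : ι → ℕ)
    (hsum : ∑ k, (2 ^ (lev k) - 1) ≤ (univ.filter (fun k => lev k = 0)).card) :
    ∃ (b : Fin n → E n) (rt : Fin n → ι) (fr : Fin n → ℕ → ι), Orthonormal ℝ b ∧
      (∀ i x, |inner ℝ x (b i)| ≤ (Real.sqrt (1 / 2)) ^ (lev (rt i)) * |inner ℝ x (v (rt i))| +
        ∑ l ∈ range (lev (rt i)), (Real.sqrt (1 / 2)) ^ (l + 1) * |inner ℝ x (v (fr i l))|) ∧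
      (∀ k, (univ.filter (fun i => rt i = k)).card ≤ 2 ^ (lev k)) ∧
      (∀ l k, (univ.filter (fun i => l < lev (rt i) ∧ fr i l = k)).card ≤ 2 ^ (l + 1)) ∧
      (∀ i l, l < lev (rt i) → lev (fr i l) = 0) := by
  classical
  -- index set of the fresh vectors
  let ST : Finset (Σ _ : ι, Σ _ : ℕ, ℕ) := Finset.sigma univ
    (fun k => Finset.sigma (range (lev k)) (fun l => range (2 ^ (lev k - 1 - l))))
  have hgeom : ∀ j : ℕ, ∑ l ∈ range j, 2 ^ (j - 1 - l) = 2 ^ j - 1 := by
    intro j
    rw [Finset.sum_range_reflect (fun l => 2 ^ l) j]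
    exact Nat.geomSum_eq (le_refl 2) j |>.trans (by simp)
  have hSTcard : ST.card = ∑ k, (2 ^ (lev k) - 1) := by
    simp only [ST]
    rw [Finset.card_sigma]
    apply Finset.sum_congr rfl
    intro k _
    rw [Finset.card_sigma]
    simp only [card_range]
    exact hgeom (lev k)
  let FS : Finset ι := univ.filter (fun k => lev k = 0)
  have hle : ST.card ≤ FS.card := by rw [hSTcard]; exact hsum
  obtain ⟨FS', hFS', hFScard⟩ := Finset.exists_subset_card_eq hle
  have heq : Fintype.card ST = Fintype.card FS' := by simp [hFScard]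
  let eqv : ST ≃ FS' := Fintype.equivOfCardEq heq
  let f : (Σ _ : ι, Σ _ : ℕ, ℕ) → ι := fun t => if h : t ∈ ST then (eqv ⟨t, h⟩ : ι) else t.1
  have hfmem : ∀ t ∈ ST, f t ∈ FS' := by
    intro t ht
    simp only [f, dif_pos ht]
    exact (eqv ⟨t, ht⟩).2
  have hflev : ∀ t ∈ ST, lev (f t) = 0 := by
    intro t ht
    have := hFS' (hfmem t ht)
    simpa [FS] using this
  have hfinj : ∀ t ∈ ST, ∀ t' ∈ ST, f t = f t' → t = t' := by
    intro t ht t' ht' h
    simp only [f, dif_pos ht, dif_pos ht'] at h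
    have h2 : eqv ⟨t, ht⟩ = eqv ⟨t', ht'⟩ := Subtype.ext h
    have h3 := eqv.injective h2
    exact congrArg Subtype.val h3
  -- roots
  let Rt : Finset ι := univ.filter (fun k => k ∉ FS')
  let FI : Finset (Σ _ : ι, ℕ) := Finset.sigma Rt (fun k => range (2 ^ (lev k)))
  have hFIcard : FI.card = n := by
    simp only [FI]
    rw [Finset.card_sigma]
    simp only [card_range]
    have h1 : ∑ k, 2 ^ (lev k) = ∑ k ∈ Rt, 2 ^ (lev k) + ∑ k ∈ FS', 2 ^ (lev k) := by
      rw [← Finset.sum_filter_add_sum_filter_not univ (fun k => k ∉ FS')]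
      congr 1
      apply Finset.sum_congr _ (fun _ _ => rfl)
      ext k
      simp
    have h2 : ∑ k ∈ FS', 2 ^ (lev k) = FS'.card := by
      rw [Finset.card_eq_sum_ones]
      apply Finset.sum_congr rfl
      intro k hk
      have := hFS' hk
      have h3 : lev k = 0 := by simpa [FS] using this
      rw [h3]; simp
    have h3 : ∑ k, 2 ^ (lev k) = ∑ k : ι, (2 ^ (lev k) - 1) + n := by
      rw [← hcard]
      have : (Fintype.card ι) = ∑ _k : ι, 1 := by simp
      rw [this, ← Finset.sum_add_distrib]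
      apply Finset.sum_congr rfl
      intro k _
      have : 1 ≤ 2 ^ (lev k) := Nat.one_le_two_pow
      omega
    rw [h2, hFScard, hSTcard] at h1
    omega
  have hFIc : Fintype.card FI = n := by simp [hFIcard]
  let eF : Fin n ≃ FI := (Fintype.equivFinOfCardEq hFIc).symm
  have hmemST : ∀ (k : ι) (τ l : ℕ), τ < 2 ^ (lev k) → l < lev k →
      (⟨k, l, τ / 2 ^ (l + 1)⟩ : Σ _ : ι, Σ _ : ℕ, ℕ) ∈ ST := by
    intro k τ l hτ hl
    simp only [ST, Finset.mem_sigma, Finset.mem_univ, true_and, Finset.mem_range]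
    refine ⟨hl, ?_⟩
    rw [Nat.div_lt_iff_lt_mul (by positivity), ← pow_add]
    have : lev k - 1 - l + (l + 1) = lev k := by omega
    rw [this]
    exact hτ
  have hmemFI : ∀ p : FI, p.1.1 ∉ FS' ∧ p.1.2 < 2 ^ (lev p.1.1) := by
    intro p
    have := p.2
    simp only [FI, Rt, Finset.mem_sigma, Finset.mem_filter, Finset.mem_univ, true_and,
      Finset.mem_range] at this
    exact this
  have hvite := orthonormal_iff_ite.mp hv
  -- inner products
  have hinner : ∀ (k k' : ι) (τ τ' : ℕ), k ∉ FS' → k' ∉ FS' → τ < 2 ^ (lev k) → τ' < 2 ^ (lev k') →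
      inner ℝ (bv v lev f k τ) (bv v lev f k' τ') = if k = k' ∧ τ = τ' then (1 : ℝ) else 0 := by
    intro k k' τ τ' hk hk' hτ hτ'
    unfold bv
    rw [inner_add_left, inner_add_right, inner_add_right]
    have h1 : inner ℝ (Real.sqrt (1 / 2) ^ lev k • v k) (Real.sqrt (1 / 2) ^ lev k' • v k') =
        if k = k' then (1 / 2 : ℝ) ^ (lev k) else 0 := by
      rw [inner_smul_left, inner_smul_right, hvite]
      simp only [conj_trivial]
      split_ifs with h
      · rw [← h, mul_one, sqrt_half_sq]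
      · simp
    have h2 : inner ℝ (Real.sqrt (1 / 2) ^ lev k • v k) (∑ l ∈ range (lev k'),
        (sg τ' l * Real.sqrt (1 / 2) ^ (l + 1)) • v (f ⟨k', l, τ' / 2 ^ (l + 1)⟩)) = 0 := by
      rw [inner_sum]
      apply Finset.sum_eq_zero
      intro l hl
      rw [inner_smul_left, inner_smul_right, hvite, if_neg]
      · simp
      · intro h
        apply hk
        rw [h]
        exact hfmem _ (hmemST k' τ' l hτ' (Finset.mem_range.mp hl))
    have h3 : inner ℝ (∑ l ∈ range (lev k),
        (sg τ l * Real.sqrt (1 / 2) ^ (l + 1)) • v (f ⟨k, l, τ / 2 ^ (l + 1)⟩))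
        (Real.sqrt (1 / 2) ^ lev k' • v k') = 0 := by
      rw [sum_inner]
      apply Finset.sum_eq_zero
      intro l hl
      rw [inner_smul_left, inner_smul_right, hvite, if_neg]
      · simp
      · intro h
        apply hk'
        rw [← h]
        exact hfmem _ (hmemST k τ l hτ (Finset.mem_range.mp hl))
    have h4 : inner ℝ (∑ l ∈ range (lev k),
        (sg τ l * Real.sqrt (1 / 2) ^ (l + 1)) • v (f ⟨k, l, τ / 2 ^ (l + 1)⟩))
        (∑ l ∈ range (lev k'),
        (sg τ' l * Real.sqrt (1 / 2) ^ (l + 1)) • v (f ⟨k', l, τ' / 2 ^ (l + 1)⟩)) =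
        if k = k' then ∑ l ∈ range (lev k), sg τ l * sg τ' l * (1 / 2) ^ (l + 1) *
        (if τ / 2 ^ (l + 1) = τ' / 2 ^ (l + 1) then 1 else 0) else 0 := by
      rw [sum_inner]
      have h5 : ∀ l ∈ range (lev k), ∀ l' ∈ range (lev k'),
          inner ℝ ((sg τ l * Real.sqrt (1 / 2) ^ (l + 1)) • v (f ⟨k, l, τ / 2 ^ (l + 1)⟩))
            ((sg τ' l' * Real.sqrt (1 / 2) ^ (l' + 1)) • v (f ⟨k', l', τ' / 2 ^ (l' + 1)⟩)) =
          if (k = k' ∧ l = l') then sg τ l * sg τ' l * (1 / 2) ^ (l + 1) *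
            (if τ / 2 ^ (l + 1) = τ' / 2 ^ (l + 1) then 1 else 0) else 0 := by
        intro l hl l' hl'
        rw [inner_smul_left, inner_smul_right, hvite]
        simp only [conj_trivial]
        by_cases hkl : k = k' ∧ l = l'
        · obtain ⟨h6, h7⟩ := hkl
          subst h6 h7
          rw [if_pos (⟨rfl, rfl⟩ : k = k ∧ l = l)]
          by_cases h8 : τ / 2 ^ (l + 1) = τ' / 2 ^ (l + 1)
          · rw [if_pos h8, h8, if_pos rfl, mul_one, mul_one, ← sqrt_half_sq]
            ring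
          · rw [if_neg h8, if_neg]
            · simp
            · intro h9
              have h10 := hfinj _ (hmemST k τ l hτ (Finset.mem_range.mp hl)) _
                (hmemST k τ' l hτ' (Finset.mem_range.mp hl')) h9
              apply h8
              have h11 := congrArg (fun t : (Σ _ : ι, Σ _ : ℕ, ℕ) => t.2.2) h10
              exact h11
        · rw [if_neg hkl, if_neg]
          · simp
          · intro h9
            have h10 := hfinj _ (hmemST k τ l hτ (Finset.mem_range.mp hl)) _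
              (hmemST k' τ' l' hτ' (Finset.mem_range.mp hl')) h9
            apply hkl
            have h11 := congrArg (fun t : (Σ _ : ι, Σ _ : ℕ, ℕ) => t.1) h10
            have h12 := congrArg (fun t : (Σ _ : ι, Σ _ : ℕ, ℕ) => t.2.1) h10
            exact ⟨h11, h12⟩
      have h6 : ∀ l ∈ range (lev k), inner ℝ
          ((sg τ l * Real.sqrt (1 / 2) ^ (l + 1)) • v (f ⟨k, l, τ / 2 ^ (l + 1)⟩))
          (∑ l ∈ range (lev k'),
          (sg τ' l * Real.sqrt (1 / 2) ^ (l + 1)) • v (f ⟨k', l, τ' / 2 ^ (l + 1)⟩)) =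
          if k = k' then sg τ l * sg τ' l * (1 / 2) ^ (l + 1) *
            (if τ / 2 ^ (l + 1) = τ' / 2 ^ (l + 1) then 1 else 0) else 0 := by
        intro l hl
        rw [inner_sum, Finset.sum_congr rfl (h5 l hl)]
        by_cases hkk : k = k'
        · subst hkk
          simp only [true_and]
          rw [Finset.sum_ite_eq (range (lev k)) l, if_pos hl, if_pos trivial]
        · simp [hkk]
      rw [Finset.sum_congr rfl h6]
      split_ifs with h
      · rfl
      · simp
    rw [h1, h2, h3, h4]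
    by_cases hkk : k = k'
    · subst hkk
      simp only [if_true, true_and, add_zero, zero_add]
      have := kernel τ τ' (lev k)
      rw [Nat.div_eq_of_lt hτ, Nat.div_eq_of_lt hτ', if_pos rfl, mul_one] at this
      rw [this]
    · simp [hkk]
  refine ⟨fun i => bv v lev f (eF i).1.1 (eF i).1.2, fun i => (eF i).1.1,
    fun i l => f ⟨(eF i).1.1, l, (eF i).1.2 / 2 ^ (l + 1)⟩, ?_, ?_, ?_, ?_, ?_⟩
  · rw [orthonormal_iff_ite]
    intro i i'
    have hi := hmemFI (eF i)
    have hi' := hmemFI (eF i')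
    rw [hinner _ _ _ _ hi.1 hi'.1 hi.2 hi'.2]
    have : ((eF i).1.1 = (eF i').1.1 ∧ (eF i).1.2 = (eF i').1.2) ↔ i = i' := by
      constructor
      · intro h
        apply eF.injective
        apply Subtype.ext
        exact Sigma.ext h.1 (heq_of_eq h.2)
      · intro h
        rw [h]
        exact ⟨rfl, rfl⟩
    simp only [this]
  · intro i x
    unfold bv
    rw [inner_add_right, inner_sum]
    refine (abs_add_le _ _).trans ?_
    apply add_le_add
    · rw [inner_smul_right, abs_mul, abs_of_nonneg (by positivity)]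
    · refine (Finset.abs_sum_le_sum_abs _ _).trans ?_
      apply Finset.sum_le_sum
      intro l _
      rw [inner_smul_right, abs_mul, abs_mul, sg_abs, one_mul, abs_of_nonneg (by positivity)]
  · intro k
    rw [← Finset.card_range (2 ^ lev k)]
    apply Finset.card_le_card_of_injOn (fun i => (eF i).1.2)
    · intro i hi
      simp only [coe_filter, mem_univ, true_and, Set.mem_ofPred_eq] at hi
      have := (hmemFI (eF i)).2
      rw [hi] at this
      simpa using this
    · intro i hi i' hi' h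
      simp only [coe_filter, mem_univ, true_and, Set.mem_ofPred_eq] at hi hi'
      apply eF.injective
      apply Subtype.ext
      exact Sigma.ext (hi.trans hi'.symm) (heq_of_eq h)
  · intro l k
    rw [← Finset.card_range (2 ^ (l + 1))]
    apply Finset.card_le_card_of_injOn (fun i => (eF i).1.2 % 2 ^ (l + 1))
    · intro i _
      simp only [coe_range, Set.mem_Iio]
      exact Nat.mod_lt _ (by positivity)
    · intro i hi i' hi' h
      simp only [coe_filter, mem_univ, true_and, Set.mem_ofPred_eq] at hi hi'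
      have h1 := hfinj _ (hmemST _ _ _ (hmemFI (eF i)).2 hi.1) _
        (hmemST _ _ _ (hmemFI (eF i')).2 hi'.1) (hi.2.trans hi'.2.symm)
      have h2 : (eF i).1.1 = (eF i').1.1 :=
        congrArg (fun t : (Σ _ : ι, Σ _ : ℕ, ℕ) => t.1) h1
      have h3 : (eF i).1.2 / 2 ^ (l + 1) = (eF i').1.2 / 2 ^ (l + 1) :=
        congrArg (fun t : (Σ _ : ι, Σ _ : ℕ, ℕ) => t.2.2) h1
      have h' : (eF i).1.2 % 2 ^ (l + 1) = (eF i').1.2 % 2 ^ (l + 1) := h
      have h4 : (eF i).1.2 = (eF i').1.2 := by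
        rw [← Nat.div_add_mod (eF i).1.2 (2 ^ (l + 1)), ← Nat.div_add_mod (eF i').1.2 (2 ^ (l + 1)),
          h3, h']
      apply eF.injective
      apply Subtype.ext
      exact Sigma.ext h2 (heq_of_eq h4)
  · intro i l hl
    exact hflev _ (hmemST _ _ _ (hmemFI (eF i)).2 hl)

end Run7.h589
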