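import Pool.Agent.Run7.h589.PMain

open Finset

namespace Run7.h589

theorem cap_event {n : ℕ} {p : ℝ} (h0 : 0 ≤ p) (h1 : p ≤ 1) (lab : Fin n → Option (Fin n))
    (k : Fin n) (s a b : ℝ) (hs : 0 ≤ s)
    (hcard : ((univ.filter (fun i => lab i = some k)).card : ℝ) ≤ b) :
    bP p (fun Ω => a ≤ (cN lab Ω k : ℝ)) ≤ Real.exp (p * b * (Real.exp s - 1) - s * a) := by
  have h2 := cap_moment h0 h1 (univ.filter (fun i => lab i = some k)) s a hs
  have h3 : (fun Ω : Finset (Fin n) => a ≤ (cN lab Ω k : ℝ)) = (fun Ω => a ≤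
      ((Ω.filter (fun i => i ∈ univ.filter (fun i => lab i = some k))).card : ℝ)) := by
    ext Ω
    unfold cN
    simp
  rw [h3]
  refine h2.trans ?_
  apply Real.exp_le_exp.mpr
  have : 0 ≤ Real.exp s - 1 := by linarith [Real.one_le_exp hs]
  have : p * ((univ.filter (fun i => lab i = some k)).card : ℝ) * (Real.exp s - 1) ≤
    p * b * (Real.exp s - 1) := by gcongr
  linarith

theorem exp_one_le : Real.exp 1 - 1 ≤ 2 := by
  have := Real.exp_one_lt_d9
  linarith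

theorem caps_prob {n : ℕ} (rt : Fin n → Fin n) (fr : Fin n → ℕ → Fin n) (lev : Fin n → ℕ)
    (Un : Finset (Fin n)) (Lm h : ℕ) (Q p kk s : ℝ) (h0 : 0 ≤ p) (h1 : p ≤ 1) (hn : 1 ≤ n)
    (hkk : kk = p * n) (hs : 0 ≤ s) (hs1 : p * Q * (Real.exp s - 1) ≤ 1)
    (hs2 : 9 * Real.log n + 1 ≤ s * (h + 1)) (hLn : Lm ≤ n)
    (hF1 : ∀ k, ((univ.filter (fun i => labN rt i = some k)).card : ℝ) ≤ 2 ^ (lev k))
    (hF2 : ∀ l k, ((univ.filter (fun i => labM rt fr lev l i = some k)).card : ℝ) ≤ 2 ^ (l + 1))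
    (hQ : ∀ k, k ∉ Un → (2 : ℝ) ^ (lev k) ≤ Q) :
    bP p (fun Ω => ¬ Caps rt fr lev Un Lm h Q p kk Ω) ≤
      5 * (n : ℝ) ^ 2 * Real.exp (-(9 * Real.log n)) := by
  classical
  set e9 := Real.exp (-(9 * Real.log n)) with he9
  have he90 : 0 ≤ e9 := (Real.exp_pos _).le
  have hes : 0 ≤ Real.exp s - 1 := by linarith [Real.one_le_exp hs]
  -- the five events
  let B1 : Finset (Fin n) → Prop := fun Ω => ∃ k ∈ univ.filter (fun k => k ∉ Un),
    ((h : ℝ) + 1) ≤ (cN (labN rt) Ω k : ℝ)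
  let B2 : Finset (Fin n) → Prop := fun Ω => ∃ q ∈ (range Lm ×ˢ (univ : Finset (Fin n))).filter
    (fun q => (2 : ℝ) ^ (q.1 + 1) ≤ Q), ((h : ℝ) + 1) ≤ (cN (labM rt fr lev q.1) Ω q.2 : ℝ)
  let B3 : Finset (Fin n) → Prop := fun Ω => ∃ k ∈ (univ : Finset (Fin n)),
    9 * Real.log n + 2 * p * 2 ^ (lev k) ≤ (cN (labN rt) Ω k : ℝ)
  let B4 : Finset (Fin n) → Prop := fun Ω => ∃ q ∈ (range Lm ×ˢ (univ : Finset (Fin n))),
    9 * Real.log n + 2 * p * 2 ^ (q.1 + 1) ≤ (cN (labM rt fr lev q.1) Ω q.2 : ℝ)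
  let B5 : Finset (Fin n) → Prop := fun Ω => 9 * Real.log n + 2 * kk ≤ (Ω.card : ℝ)
  have hsub : ∀ Ω, ¬ Caps rt fr lev Un Lm h Q p kk Ω →
      (((B1 Ω ∨ B2 Ω) ∨ B3 Ω) ∨ B4 Ω) ∨ B5 Ω := by
    intro Ω hΩ
    by_contra hc
    push Not at hc
    obtain ⟨⟨⟨⟨n1, n2⟩, n3⟩, n4⟩, n5⟩ := hc
    apply hΩ
    refine ⟨?_, ?_, ?_, ?_, ?_⟩
    · intro k hk
      by_contra hh
      push Not at hh
      apply n1
      refine ⟨k, by simpa using hk, ?_⟩
      exact_mod_cast hh
    · intro l hl hlQ k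
      by_contra hh
      push Not at hh
      apply n2
      refine ⟨(l, k), ?_, ?_⟩
      · simp only [Finset.mem_filter, Finset.mem_product, Finset.mem_range, Finset.mem_univ,
          and_true]
        exact ⟨hl, hlQ⟩
      · exact_mod_cast hh
    · intro k
      by_contra hh
      push Not at hh
      exact n3 ⟨k, Finset.mem_univ _, hh.le⟩
    · intro l hl k
      by_contra hh
      push Not at hh
      apply n4
      refine ⟨(l, k), ?_, hh.le⟩
      simp only [Finset.mem_product, Finset.mem_range, Finset.mem_univ, and_true]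
      exact hl
    · by_contra hh
      push Not at hh
      exact n5 hh.le
  have hb1 : bP p B1 ≤ n * e9 := by
    refine (bP_union h0 h1 _ _).trans ?_
    have : ∀ k ∈ univ.filter (fun k => k ∉ Un),
        bP p (fun Ω => ((h : ℝ) + 1) ≤ (cN (labN rt) Ω k : ℝ)) ≤ e9 := by
      intro k hk
      have hkU : k ∉ Un := by simpa using hk
      refine (cap_event h0 h1 (labN rt) k s ((h : ℝ) + 1) Q hs ((hF1 k).trans (hQ k hkU))).trans ?_
      apply Real.exp_le_exp.mpr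
      linarith
    refine (Finset.sum_le_sum this).trans ?_
    rw [Finset.sum_const, nsmul_eq_mul]
    have h3 : ((univ.filter (fun k => k ∉ Un)).card : ℝ) ≤ n := by
      have := Finset.card_filter_le (univ : Finset (Fin n)) (fun k => k ∉ Un)
      simp only [card_univ, Fintype.card_fin] at this
      exact_mod_cast this
    gcongr
  have hcardprod : ((range Lm ×ˢ (univ : Finset (Fin n))).card : ℝ) ≤ n * n := by
    rw [Finset.card_product, card_range, card_univ, Fintype.card_fin]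
    push_cast
    have : (Lm : ℝ) ≤ n := by exact_mod_cast hLn
    gcongr
  have hb2 : bP p B2 ≤ (n * n) * e9 := by
    refine (bP_union h0 h1 _ _).trans ?_
    have : ∀ q ∈ (range Lm ×ˢ (univ : Finset (Fin n))).filter
        (fun q => (2 : ℝ) ^ (q.1 + 1) ≤ Q),
        bP p (fun Ω => ((h : ℝ) + 1) ≤ (cN (labM rt fr lev q.1) Ω q.2 : ℝ)) ≤ e9 := by
      intro q hq
      have hq2 := (Finset.mem_filter.mp hq).2
      refine (cap_event h0 h1 (labM rt fr lev q.1) q.2 s ((h : ℝ) + 1) Q hs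
        ((hF2 q.1 q.2).trans hq2)).trans ?_
      apply Real.exp_le_exp.mpr
      linarith
    refine (Finset.sum_le_sum this).trans ?_
    rw [Finset.sum_const, nsmul_eq_mul]
    have h3 : (((range Lm ×ˢ (univ : Finset (Fin n))).filter
        (fun q => (2 : ℝ) ^ (q.1 + 1) ≤ Q)).card : ℝ) ≤ n * n := by
      refine le_trans ?_ hcardprod
      exact_mod_cast Finset.card_filter_le _ _
    gcongr
  have hb3 : bP p B3 ≤ n * e9 := by
    refine (bP_union h0 h1 _ _).trans ?_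
    have : ∀ k ∈ (univ : Finset (Fin n)),
        bP p (fun Ω => 9 * Real.log n + 2 * p * 2 ^ (lev k) ≤ (cN (labN rt) Ω k : ℝ)) ≤ e9 := by
      intro k _
      refine (cap_event h0 h1 (labN rt) k 1 (9 * Real.log n + 2 * p * 2 ^ (lev k)) (2 ^ (lev k))
        (by norm_num) (hF1 k)).trans ?_
      apply Real.exp_le_exp.mpr
      have h3 := exp_one_le
      have h4 : 0 ≤ p * 2 ^ (lev k) := by positivity
      nlinarith
    refine (Finset.sum_le_sum this).trans ?_
    rw [Finset.sum_const, nsmul_eq_mul, card_univ, Fintype.card_fin]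
  have hb4 : bP p B4 ≤ (n * n) * e9 := by
    refine (bP_union h0 h1 _ _).trans ?_
    have : ∀ q ∈ (range Lm ×ˢ (univ : Finset (Fin n))),
        bP p (fun Ω => 9 * Real.log n + 2 * p * 2 ^ (q.1 + 1) ≤
          (cN (labM rt fr lev q.1) Ω q.2 : ℝ)) ≤ e9 := by
      intro q _
      refine (cap_event h0 h1 (labM rt fr lev q.1) q.2 1 (9 * Real.log n + 2 * p * 2 ^ (q.1 + 1))
        (2 ^ (q.1 + 1)) (by norm_num) (hF2 q.1 q.2)).trans ?_
      apply Real.exp_le_exp.mpr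
      have h3 := exp_one_le
      have h4 : 0 ≤ p * 2 ^ (q.1 + 1) := by positivity
      nlinarith
    refine (Finset.sum_le_sum this).trans ?_
    rw [Finset.sum_const, nsmul_eq_mul]
    gcongr
  have hb5 : bP p B5 ≤ e9 := by
    have h2 := cap_moment h0 h1 (univ : Finset (Fin n)) 1 (9 * Real.log n + 2 * kk) (by norm_num)
    simp only [Finset.mem_univ, Finset.filter_true, card_univ, Fintype.card_fin] at h2
    refine h2.trans ?_
    apply Real.exp_le_exp.mpr
    have h3 := exp_one_le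
    have h4 : 0 ≤ p * n := by positivity
    rw [hkk]
    nlinarith
  have hn' : (1 : ℝ) ≤ n := by exact_mod_cast hn
  calc bP p (fun Ω => ¬ Caps rt fr lev Un Lm h Q p kk Ω) ≤
      bP p (fun Ω => (((B1 Ω ∨ B2 Ω) ∨ B3 Ω) ∨ B4 Ω) ∨ B5 Ω) := bP_mono h0 h1 hsub
    _ ≤ (((bP p B1 + bP p B2) + bP p B3) + bP p B4) + bP p B5 := by
      refine (bP_or h0 h1 _ _).trans ?_
      gcongr
      refine (bP_or h0 h1 _ _).trans ?_
      gcongr
      refine (bP_or h0 h1 _ _).trans ?_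
      gcongr
      exact bP_or h0 h1 _ _
    _ ≤ (((n * e9 + (n * n) * e9) + n * e9) + (n * n) * e9) + e9 := by gcongr
    _ ≤ 5 * (n : ℝ) ^ 2 * e9 := by
      have h3 : (n : ℝ) ≤ (n : ℝ) ^ 2 := by nlinarith
      have h4 : (1 : ℝ) ≤ (n : ℝ) ^ 2 := by nlinarith
      nlinarith [mul_le_mul_of_nonneg_right h3 he90, mul_le_mul_of_nonneg_right h4 he90]

theorem E1_prob {n : ℕ} (rt : Fin n → Fin n) (lev : Fin n → ℕ)
    (Un : Finset (Fin n)) (p lam θ H a1 : ℝ) (bb : Fin n → ℝ) (h0 : 0 ≤ p) (h1 : p ≤ 1)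
    (hθ : 0 ≤ θ) (hF1 : ∀ k, ((univ.filter (fun i => labN rt i = some k)).card : ℝ) ≤ 2 ^ (lev k))
    (P1 : ∏ k ∈ univ.filter (fun k => k ∉ Un),
      (1 + p * 2 ^ (lev k) * Real.exp (θ * ((1 / 2) ^ (lev k) * bb k - lam))) ≤ Real.exp H)
    (ha1 : 0 ≤ a1) :
    bP p (fun Ω => a1 < ∑ k ∈ univ.filter (fun k => k ∉ Un), (if cN (labN rt) Ω k = 0 then 0
      else max ((1 / 2) ^ (lev k) * bb k - lam) 0)) ≤ Real.exp (H - θ / 2 * a1) := by
  have h2 := hitting h0 h1 (labN rt) (univ.filter (fun k => k ∉ Un))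
    (fun k => max ((1 / 2) ^ (lev k) * bb k - lam) 0) (fun k => le_max_right _ _) θ a1 hθ
  refine h2.trans ?_
  have h3 : ∏ k ∈ univ.filter (fun k => k ∉ Un),
      (1 + p * (univ.filter (fun i => labN rt i = some k)).card *
        (Real.exp (θ * max ((1 / 2) ^ (lev k) * bb k - lam) 0) - 1)) ≤ Real.exp H := by
    refine le_trans (Finset.prod_le_prod ?_ ?_) P1
    · intro k _
      have : 0 ≤ Real.exp (θ * max ((1 / 2) ^ (lev k) * bb k - lam) 0) - 1 := by
        have := Real.one_le_exp (mul_nonneg hθ (le_max_right ((1 / 2) ^ (lev k) * bb k - lam) 0))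
        linarith
      positivity
    · intro k _
      have h4 := hF1 k
      have h5 : Real.exp (θ * max ((1 / 2) ^ (lev k) * bb k - lam) 0) - 1 ≤
          Real.exp (θ * ((1 / 2) ^ (lev k) * bb k - lam)) := by
        rcases le_total ((1 / 2) ^ (lev k) * bb k - lam) 0 with h | h
        · rw [max_eq_right h, mul_zero, Real.exp_zero]
          have := Real.exp_pos (θ * ((1 / 2) ^ (lev k) * bb k - lam))
          linarith
        · rw [max_eq_left h]
          linarith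
      have h6 : 0 ≤ Real.exp (θ * max ((1 / 2) ^ (lev k) * bb k - lam) 0) - 1 := by
        have := Real.one_le_exp (mul_nonneg hθ (le_max_right ((1 / 2) ^ (lev k) * bb k - lam) 0))
        linarith
      have h7 : p * (univ.filter (fun i => labN rt i = some k)).card *
        (Real.exp (θ * max ((1 / 2) ^ (lev k) * bb k - lam) 0) - 1) ≤
        p * 2 ^ (lev k) * Real.exp (θ * ((1 / 2) ^ (lev k) * bb k - lam)) := by gcongr
      linarith
  calc Real.exp (-(θ * a1)) * ∏ k ∈ univ.filter (fun k => k ∉ Un),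
      (1 + p * (univ.filter (fun i => labN rt i = some k)).card *
        (Real.exp (θ * max ((1 / 2) ^ (lev k) * bb k - lam) 0) - 1)) ≤
      Real.exp (-(θ * a1)) * Real.exp H := by gcongr
    _ = Real.exp (H - θ * a1) := by rw [← Real.exp_add]; congr 1; ring
    _ ≤ _ := by
      apply Real.exp_le_exp.mpr
      nlinarith [mul_nonneg hθ ha1]

theorem P1_flat {n : ℕ} (lev : Fin n → ℕ) (Un : Finset (Fin n)) (p lam θ H : ℝ) (bb : Fin n → ℝ)
    (h0 : 0 ≤ p)
    (P1 : ∏ k ∈ univ.filter (fun k => k ∉ Un),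
      (1 + p * 2 ^ (lev k) * Real.exp (θ * ((1 / 2) ^ (lev k) * bb k - lam))) ≤ Real.exp H) :
    ∏ k ∈ univ.filter (fun k => k ∉ Un ∧ lev k = 0),
      (1 + p * Real.exp (θ * (bb k - lam))) ≤ Real.exp H := by
  refine le_trans ?_ P1
  have hsub : univ.filter (fun k => k ∉ Un ∧ lev k = 0) ⊆ univ.filter (fun k => k ∉ Un) := by
    intro k hk
    simp only [Finset.mem_filter, Finset.mem_univ, true_and] at hk ⊢
    exact hk.1
  rw [← Finset.prod_sdiff hsub]
  have h1 : ∏ k ∈ univ.filter (fun k => k ∉ Un ∧ lev k = 0),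
      (1 + p * 2 ^ (lev k) * Real.exp (θ * ((1 / 2) ^ (lev k) * bb k - lam))) =
      ∏ k ∈ univ.filter (fun k => k ∉ Un ∧ lev k = 0), (1 + p * Real.exp (θ * (bb k - lam))) := by
    apply Finset.prod_congr rfl
    intro k hk
    simp only [Finset.mem_filter, Finset.mem_univ, true_and] at hk
    rw [hk.2]
    simp
  rw [h1]
  have h2 : 1 ≤ ∏ k ∈ univ.filter (fun k => k ∉ Un) \ univ.filter (fun k => k ∉ Un ∧ lev k = 0),
      (1 + p * 2 ^ (lev k) * Real.exp (θ * ((1 / 2) ^ (lev k) * bb k - lam))) := by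
    calc (1 : ℝ) = ∏ k ∈ univ.filter (fun k => k ∉ Un) \
          univ.filter (fun k => k ∉ Un ∧ lev k = 0), 1 := by simp
      _ ≤ _ := by
        apply Finset.prod_le_prod (fun _ _ => zero_le_one)
        intro k _
        have : 0 ≤ p * 2 ^ (lev k) * Real.exp (θ * ((1 / 2) ^ (lev k) * bb k - lam)) := by
          positivity
        linarith
  have h3 : 0 ≤ ∏ k ∈ univ.filter (fun k => k ∉ Un ∧ lev k = 0),
      (1 + p * Real.exp (θ * (bb k - lam))) := Finset.prod_nonneg fun k _ => by positivity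
  nlinarith

theorem E2_prob {n : ℕ} (rt : Fin n → Fin n) (fr : Fin n → ℕ → Fin n) (lev : Fin n → ℕ)
    (Un : Finset (Fin n)) (p lam Λ0 θ H a1 : ℝ) (bb : Fin n → ℝ) (h0 : 0 ≤ p) (h1 : p ≤ 1)
    (hθ : 0 < θ) (l : ℕ)
    (hF2 : ∀ k, ((univ.filter (fun i => labM rt fr lev l i = some k)).card : ℝ) ≤ 2 ^ (l + 1))
    (P1 : ∏ k ∈ univ.filter (fun k => k ∉ Un ∧ lev k = 0),
      (1 + p * Real.exp (θ * (bb k - lam))) ≤ Real.exp H)
    (hlam : 0 ≤ lam) (hΛ : 1 + θ * lam ≤ θ * Λ0) :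
    bP p (fun Ω => a1 < ∑ k ∈ univ.filter (fun k => k ∉ Un ∧ lev k = 0),
      (if cN (labM rt fr lev l) Ω k = 0 then 0 else max (bb k - Λ0 * (l + 1)) 0)) ≤
      Real.exp (H - θ / 2 * a1) := by
  have h2 := hitting h0 h1 (labM rt fr lev l) (univ.filter (fun k => k ∉ Un ∧ lev k = 0))
    (fun k => max (bb k - Λ0 * (l + 1)) 0) (fun k => le_max_right _ _) (θ / 2) a1 (by positivity)
  refine h2.trans ?_
  have h3 : ∏ k ∈ univ.filter (fun k => k ∉ Un ∧ lev k = 0),
      (1 + p * (univ.filter (fun i => labM rt fr lev l i = some k)).card *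
        (Real.exp (θ / 2 * max (bb k - Λ0 * (l + 1)) 0) - 1)) ≤ Real.exp H := by
    refine le_trans (Finset.prod_le_prod ?_ ?_) P1
    · intro k _
      have : 0 ≤ Real.exp (θ / 2 * max (bb k - Λ0 * (l + 1)) 0) - 1 := by
        have := Real.one_le_exp (mul_nonneg (by positivity : (0 : ℝ) ≤ θ / 2)
          (le_max_right (bb k - Λ0 * (l + 1)) 0))
        linarith
      positivity
    · intro k _
      have h4 := hF2 k
      have h6 : 0 ≤ Real.exp (θ / 2 * max (bb k - Λ0 * (l + 1)) 0) - 1 := by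
        have := Real.one_le_exp (mul_nonneg (by positivity : (0 : ℝ) ≤ θ / 2)
          (le_max_right (bb k - Λ0 * (l + 1)) 0))
        linarith
      have h5 : 2 ^ (l + 1) * (Real.exp (θ / 2 * max (bb k - Λ0 * (l + 1)) 0) - 1) ≤
          Real.exp (θ * (bb k - lam)) := by
        rcases le_total (bb k - Λ0 * (l + 1)) 0 with h | h
        · rw [max_eq_right h, mul_zero, Real.exp_zero]
          have := Real.exp_pos (θ * (bb k - lam))
          linarith
        · rw [max_eq_left h]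
          have h8 : (2 : ℝ) ^ (l + 1) ≤ Real.exp (l + 1) := by
            have h9 : (2 : ℝ) ≤ Real.exp 1 := by
              have := Real.exp_one_gt_d9
              linarith
            calc (2 : ℝ) ^ (l + 1) ≤ (Real.exp 1) ^ (l + 1) := by gcongr
              _ = Real.exp (l + 1) := by
                rw [← Real.exp_nat_mul]
                congr 1
                push_cast
                ring
          have h9 : 2 ^ (l + 1) * (Real.exp (θ / 2 * (bb k - Λ0 * (l + 1))) - 1) ≤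
              Real.exp (l + 1) * Real.exp (θ / 2 * (bb k - Λ0 * (l + 1))) := by
            have h10 : 0 < Real.exp (θ / 2 * (bb k - Λ0 * (l + 1))) := Real.exp_pos _
            have h11 : (0 : ℝ) < 2 ^ (l + 1) := by positivity
            nlinarith
          refine h9.trans ?_
          rw [← Real.exp_add]
          apply Real.exp_le_exp.mpr
          have hl0 : (0 : ℝ) ≤ l := by positivity
          have h12 : (l + 1) * (1 + θ * lam) ≤ (l + 1) * (θ * Λ0) := by gcongr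
          have h13 : 0 ≤ θ * (bb k - Λ0 * (l + 1)) := mul_nonneg hθ.le h
          have h14 : 0 ≤ (l : ℝ) * (θ * lam) := by positivity
          nlinarith
      have h7 : p * (univ.filter (fun i => labM rt fr lev l i = some k)).card *
        (Real.exp (θ / 2 * max (bb k - Λ0 * (l + 1)) 0) - 1) ≤
        p * Real.exp (θ * (bb k - lam)) := by
        calc p * (univ.filter (fun i => labM rt fr lev l i = some k)).card *
              (Real.exp (θ / 2 * max (bb k - Λ0 * (l + 1)) 0) - 1) ≤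
            p * 2 ^ (l + 1) * (Real.exp (θ / 2 * max (bb k - Λ0 * (l + 1)) 0) - 1) := by gcongr
          _ = p * (2 ^ (l + 1) * (Real.exp (θ / 2 * max (bb k - Λ0 * (l + 1)) 0) - 1)) := by ring
          _ ≤ _ := by gcongr
      linarith
  calc Real.exp (-(θ / 2 * a1)) * ∏ k ∈ univ.filter (fun k => k ∉ Un ∧ lev k = 0),
      (1 + p * (univ.filter (fun i => labM rt fr lev l i = some k)).card *
        (Real.exp (θ / 2 * max (bb k - Λ0 * (l + 1)) 0) - 1)) ≤
      Real.exp (-(θ / 2 * a1)) * Real.exp H := by gcongr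
    _ = _ := by rw [← Real.exp_add]; congr 1; ring

theorem Sb_bound {n : ℕ} (lev : Fin n → ℕ) (Un : Finset (Fin n)) (p lam Λ θ H : ℝ)
    (bb : Fin n → ℝ) (hn : 1 ≤ n) (h0 : 0 < p) (hpn : 1 ≤ p * n) (hθ : 0 < θ) (hbb : ∀ k, 0 ≤ bb k)
    (P1 : ∏ k ∈ univ.filter (fun k => k ∉ Un ∧ lev k = 0),
      (1 + p * Real.exp (θ * (bb k - lam))) ≤ Real.exp H)
    (hΛ : θ * lam + Real.log n ≤ θ / 2 * Λ) :
    ∑ k ∈ univ.filter (fun k => k ∉ Un ∧ lev k = 0), max (bb k - Λ) 0 ≤ 2 / θ * H := by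
  have hn' : (0 : ℝ) < n := by exact_mod_cast hn
  have h1 : ∀ k ∈ univ.filter (fun k => k ∉ Un ∧ lev k = 0),
      Real.exp (θ / 2 * max (bb k - Λ) 0) ≤ 1 + p * Real.exp (θ * (bb k - lam)) := by
    intro k _
    rcases le_total (bb k - Λ) 0 with h | h
    · rw [max_eq_right h, mul_zero, Real.exp_zero]
      have := mul_pos h0 (Real.exp_pos (θ * (bb k - lam)))
      linarith
    · rw [max_eq_left h]
      have h2 : Real.exp (θ / 2 * (bb k - Λ)) ≤ p * Real.exp (θ * (bb k - lam)) := by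
        have h3 : Real.exp (-(Real.log n)) ≤ p := by
          rw [Real.exp_neg, Real.exp_log hn', inv_le_iff_one_le_mul₀ hn']
          exact hpn
        calc Real.exp (θ / 2 * (bb k - Λ)) ≤
            Real.exp (-(Real.log n)) * Real.exp (θ * (bb k - lam)) := by
              rw [← Real.exp_add]
              apply Real.exp_le_exp.mpr
              have hlog : 0 ≤ Real.log n := Real.log_nonneg (by exact_mod_cast hn)
              nlinarith [mul_nonneg hθ.le (hbb k)]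
          _ ≤ _ := by gcongr
      linarith
  have h2 : Real.exp (∑ k ∈ univ.filter (fun k => k ∉ Un ∧ lev k = 0),
      θ / 2 * max (bb k - Λ) 0) ≤ Real.exp H := by
    rw [Real.exp_sum]
    exact (Finset.prod_le_prod (fun k _ => (Real.exp_pos _).le) h1).trans P1
  rw [Real.exp_le_exp, ← Finset.mul_sum] at h2
  have h3 : ∑ k ∈ univ.filter (fun k => k ∉ Un ∧ lev k = 0), max (bb k - Λ) 0 =
      2 / θ * (θ / 2 * ∑ k ∈ univ.filter (fun k => k ∉ Un ∧ lev k = 0), max (bb k - Λ) 0) := by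
    field_simp
  rw [h3]
  gcongr

theorem bP_ite {n : ℕ} (p : ℝ) (S : Finset (Fin n) → Prop) [∀ Ω, Decidable (S Ω)] :
    bE p (fun Ω => if S Ω then (1 : ℝ) else 0) = bP p S := by
  unfold bP
  congr 1
  ext Ω
  by_cases h : S Ω <;> simp [h]

theorem bE_sum_elem {n : ℕ} (p : ℝ) (f : Fin n → ℝ) :
    bE p (fun Ω => ∑ i ∈ Ω, f i) = p * ∑ i, f i := by
  have h1 : (fun Ω : Finset (Fin n) => ∑ i ∈ Ω, f i) =
      fun Ω => ∑ i ∈ univ, f i * ((if i ∈ Ω then 1 else 0) * 1) := by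
    ext Ω
    rw [← Finset.sum_filter_add_sum_filter_not univ (fun i => i ∈ Ω)]
    have h2 : ∑ i ∈ univ.filter (fun i => ¬ i ∈ Ω), f i * ((if i ∈ Ω then 1 else 0) * 1) = 0 := by
      apply Finset.sum_eq_zero
      intro i hi
      rw [Finset.mem_filter] at hi
      rw [if_neg hi.2]
      ring
    rw [h2, add_zero]
    have h3 : univ.filter (fun i => i ∈ Ω) = Ω := by ext i; simp
    rw [h3]
    apply Finset.sum_congr rfl
    intro i hi
    rw [if_pos hi]
    ring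
  rw [h1, bE_sum, Finset.mul_sum]
  apply Finset.sum_congr rfl
  intro i _
  rw [bE_mul, bE_indep p (fun _ => 1) i (fun _ => rfl), bE_one]
  ring

theorem per_x {n : ℕ} (rt : Fin n → Fin n) (fr : Fin n → ℕ → Fin n) (lev : Fin n → ℕ)
    (Un : Finset (Fin n)) (Lm h : ℕ) (Q p kk lam Λ0 Λs εU εn θ H a1 pc : ℝ) (bb G : Fin n → ℝ)
    (h0 : 0 < p) (h1 : p ≤ 1) (hQ : 0 < Q) (hn : 1 ≤ n) (hεU : 0 ≤ εU) (hkk : kk = p * n)
    (hkk1 : 1 ≤ kk) (hθ : 0 < θ) (ha1 : 0 ≤ a1) (hH : 0 ≤ H)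
    (hbb : ∀ k, 0 ≤ bb k) (hG0 : ∀ i, 0 ≤ G i) (hGn : ∀ i, G i ≤ n) (hGsum : ∑ i, G i = n)
    (hG : ∀ i, G i ≤ 2 * (1 / 2) ^ (lev (rt i)) * bb (rt i) +
      4 * ∑ l ∈ range (lev (rt i)), ((l : ℝ) + 1) ^ 2 * (1 / 2) ^ (l + 1) * bb (fr i l))
    (hF1 : ∀ k, ((univ.filter (fun i => labN rt i = some k)).card : ℝ) ≤ 2 ^ (lev k))
    (hF2 : ∀ l k, ((univ.filter (fun i => labM rt fr lev l i = some k)).card : ℝ) ≤ 2 ^ (l + 1))
    (hF3 : ∀ i l, l < lev (rt i) → lev (fr i l) = 0) (hF4 : ∀ k ∈ Un, 1 ≤ lev k)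
    (hLm : ∀ k, lev k ≤ Lm) (hΛs : Λs = 2 * lam + 104 * Λ0) (hlam : 0 ≤ lam)
    (hΛ0 : 1 + θ * lam ≤ θ * Λ0)
    (P1 : ∏ k ∈ univ.filter (fun k => k ∉ Un),
      (1 + p * 2 ^ (lev k) * Real.exp (θ * ((1 / 2) ^ (lev k) * bb k - lam))) ≤ Real.exp H)
    (P2 : ∀ A, A ⊆ Un → ∑ k ∈ A, (1 / 2) ^ (lev k) * bb k ≤ εU * (H + 2 * A.card * Real.log n))
    (P2' : ∑ k ∈ Un, bb k ≤ εn)
    (hhigh : ∀ l < Lm, Q < (2 : ℝ) ^ (l + 1) → θ * lam + Real.log n ≤ θ / 2 * (Λ0 * (l + 1)))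
    (hcaps : bP p (fun Ω => ¬ Caps rt fr lev Un Lm h Q p kk Ω) ≤ pc)
    (hsmall : (pc + (1 + Lm) * Real.exp (H - θ / 2 * a1)) * (n : ℝ) ^ 2 ≤ 1 / 32)
    (hX : 26 * h * a1 +
      18 * Real.log n * (εU * (H + 2 * (9 * Real.log n + 2 * kk) * Real.log n)) + 4 * p * εn +
      4 * (Lm : ℝ) ^ 3 * (9 * Real.log n / Q + 2 * p) * (2 / θ * H) ≤ kk / 32) :
    bP p (fun Ω => Caps rt fr lev Un Lm h Q p kk Ω ∧
      ¬ (7 / 8 * kk ≤ ∑ i ∈ Ω, G i ∧ ∑ i ∈ Ω, G i ≤ 9 / 8 * kk)) ≤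
      (1 + Lm) * Real.exp (H - θ / 2 * a1) + 2 * Real.exp (-(kk / (4096 * Λs))) := by
  classical
  have hn' : (0 : ℝ) < n := by exact_mod_cast hn
  have hΛ0' : 0 < Λ0 := by
    by_contra hc
    push Not at hc
    have : θ * Λ0 ≤ 0 := mul_nonpos_of_nonneg_of_nonpos hθ.le hc
    have : 0 ≤ θ * lam := by positivity
    linarith
  have hΛs0 : 0 < Λs := by rw [hΛs]; positivity
  have P1f := P1_flat lev Un p lam θ H bb h0.le P1
  let F1 : Finset (Fin n) → Prop := fun Ω => a1 < ∑ k ∈ univ.filter (fun k => k ∉ Un),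
    (if cN (labN rt) Ω k = 0 then 0 else max ((1 / 2) ^ (lev k) * bb k - lam) 0)
  let F2 : ℕ → Finset (Fin n) → Prop := fun l Ω =>
    a1 < ∑ k ∈ univ.filter (fun k => k ∉ Un ∧ lev k = 0),
      (if cN (labM rt fr lev l) Ω k = 0 then 0 else max (bb k - Λ0 * (l + 1)) 0)
  let F12 : Finset (Fin n) → Prop := fun Ω => F1 Ω ∨ ∃ l ∈ range Lm, F2 l Ω
  have hP1 : bP p F1 ≤ Real.exp (H - θ / 2 * a1) :=
    E1_prob rt lev Un p lam θ H a1 bb h0.le h1 hθ.le hF1 P1 ha1
  have hP2 : ∀ l, bP p (F2 l) ≤ Real.exp (H - θ / 2 * a1) := fun l =>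
    E2_prob rt fr lev Un p lam Λ0 θ H a1 bb h0.le h1 hθ l (hF2 l) P1f hlam hΛ0
  have hP12 : bP p F12 ≤ (1 + Lm) * Real.exp (H - θ / 2 * a1) := by
    refine (bP_or h0.le h1 _ _).trans ?_
    have h3 := bP_union h0.le h1 (range Lm) F2
    have h4 : ∑ l ∈ range Lm, bP p (F2 l) ≤ Lm * Real.exp (H - θ / 2 * a1) := by
      refine (Finset.sum_le_sum fun l _ => hP2 l).trans ?_
      rw [Finset.sum_const, card_range, nsmul_eq_mul]
    linarith
  -- deterministic bound of the excess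
  have hexc : ∀ Ω, Caps rt fr lev Un Lm h Q p kk Ω → ¬ F12 Ω →
      ∑ i ∈ Ω, max (G i - Λs) 0 ≤ kk / 32 := by
    intro Ω hc hf
    have hf' : ¬ F1 Ω ∧ ¬ ∃ l ∈ range Lm, F2 l Ω := not_or.mp hf
    refine le_trans ?_ hX
    apply excess rt fr lev Un Lm h Q p kk lam Λ0 Λs εU εn H a1 (2 / θ * H) bb G Ω hc h0.le hQ hn
      (by positivity) hεU hbb hG hF3 hF4 hLm hΛs hlam hΛ0'.le (not_lt.mp hf'.1) ?_ P2 P2' ?_
    · intro l hl _
      by_contra hcc
      exact hf'.2 ⟨l, Finset.mem_range.mpr hl, not_le.mp hcc⟩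
    · intro l hl hlQ
      exact Sb_bound lev Un p lam (Λ0 * (l + 1)) θ H bb hn h0 (by rw [← hkk]; exact hkk1) hθ hbb P1f
        (hhigh l hl hlQ)
  set Se := ∑ i, max (G i - Λs) 0 with hSe
  have hSe0 : 0 ≤ Se := Finset.sum_nonneg fun i _ => le_max_right _ _
  -- the total excess
  have hSeb : p * Se ≤ kk / 16 := by
    rw [hSe, ← bE_sum_elem]
    have h3 : ∀ Ω : Finset (Fin n), ∑ i ∈ Ω, max (G i - Λs) 0 ≤ kk / 32 +
        (n : ℝ) ^ 2 * ((if ¬ Caps rt fr lev Un Lm h Q p kk Ω then 1 else 0) +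
          (if F12 Ω then 1 else 0)) := by
      intro Ω
      have h4 : ∑ i ∈ Ω, max (G i - Λs) 0 ≤ (n : ℝ) ^ 2 := by
        have h5 : ∀ i ∈ Ω, max (G i - Λs) 0 ≤ (n : ℝ) := by
          intro i _
          apply max_le _ hn'.le
          have := hGn i
          linarith
        refine (Finset.sum_le_sum h5).trans ?_
        rw [Finset.sum_const, nsmul_eq_mul, sq]
        have : (Ω.card : ℝ) ≤ n := by
          have := Finset.card_le_univ Ω
          simp only [Fintype.card_fin] at this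
          exact_mod_cast this
        gcongr
      have hkk0 : 0 ≤ kk / 32 := by linarith
      have hn2 : 0 ≤ (n : ℝ) ^ 2 := by positivity
      by_cases hc : Caps rt fr lev Un Lm h Q p kk Ω
      · by_cases hf : F12 Ω
        · rw [if_neg (not_not.mpr hc), if_pos hf]
          linarith
        · rw [if_neg (not_not.mpr hc), if_neg hf]
          have := hexc Ω hc hf
          linarith
      · rw [if_pos hc]
        have : (0 : ℝ) ≤ if F12 Ω then 1 else 0 := by split_ifs <;> norm_num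
        nlinarith
    refine (bE_mono h0.le h1 h3).trans ?_
    rw [bE_add, bE_const, bE_mul, bE_add]
    have h4 : bE p (fun Ω => if ¬ Caps rt fr lev Un Lm h Q p kk Ω then (1 : ℝ) else 0) ≤ pc := by
      refine le_trans (le_of_eq ?_) hcaps
      exact bP_ite p (fun Ω => ¬ Caps rt fr lev Un Lm h Q p kk Ω)
    have h5 : bE p (fun Ω => if F12 Ω then (1 : ℝ) else 0) ≤
        (1 + Lm) * Real.exp (H - θ / 2 * a1) := by
      refine le_trans (le_of_eq ?_) hP12
      exact bP_ite p F12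
    have h6 : (n : ℝ) ^ 2 * (bE p (fun Ω => if ¬ Caps rt fr lev Un Lm h Q p kk Ω then (1 : ℝ) else 0)
        + bE p (fun Ω => if F12 Ω then (1 : ℝ) else 0)) ≤ 1 / 32 := by
      refine le_trans ?_ hsmall
      rw [mul_comm]
      gcongr
    linarith
  -- truncated sums
  have hmm : ∀ i, min (G i) Λs + max (G i - Λs) 0 = G i := by
    intro i
    rcases le_total (G i) Λs with h | h
    · rw [min_eq_left h, max_eq_right (by linarith)]; ring
    · rw [min_eq_right h, max_eq_left (by linarith)]; ring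
  set Sm := ∑ i, min (G i) Λs with hSm
  have hSmSe : Sm + Se = n := by
    rw [hSm, hSe, ← Finset.sum_add_distrib, ← hGsum]
    exact Finset.sum_congr rfl fun i _ => hmm i
  have hSmn : Sm ≤ n := by linarith
  have hSm0 : 0 ≤ Sm := Finset.sum_nonneg fun i _ => le_min (hG0 i) hΛs0.le
  have hP3 := bounded_tail (n := n) h0.le h1 (fun i => min (G i) Λs) Λs (1 / (64 * Λs)) (kk / 32) Sm
    (fun i => le_min (hG0 i) hΛs0.le) (fun i => min_le_right _ _) (by positivity)
    (by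
      have : 1 / (64 * Λs) * Λs = 1 / 64 := by field_simp
      rw [this]; norm_num) hΛs0.le rfl
  have hP3' : bP p (fun Ω => p * Sm + kk / 32 ≤ ∑ i ∈ Ω, min (G i) Λs ∨
      ∑ i ∈ Ω, min (G i) Λs ≤ p * Sm - kk / 32) ≤ 2 * Real.exp (-(kk / (4096 * Λs))) := by
    refine hP3.trans ?_
    have h3 : -(1 / (64 * Λs) * (kk / 32)) + p * (1 / (64 * Λs)) ^ 2 * Λs * Sm ≤
        -(kk / (4096 * Λs)) := by
      have h4 : p * Sm ≤ kk := by rw [hkk]; gcongr
      have h5 : p * (1 / (64 * Λs)) ^ 2 * Λs * Sm = (p * Sm) / (4096 * Λs) := by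
        field_simp
        ring
      have h6 : (p * Sm) / (4096 * Λs) ≤ kk / (4096 * Λs) := by gcongr
      have h7 : 1 / (64 * Λs) * (kk / 32) = 2 * (kk / (4096 * Λs)) := by
        field_simp
        ring
      rw [h5, h7]
      linarith
    have := Real.exp_le_exp.mpr h3
    linarith
  have hfin : ∀ Ω, (Caps rt fr lev Un Lm h Q p kk Ω ∧
      ¬ (7 / 8 * kk ≤ ∑ i ∈ Ω, G i ∧ ∑ i ∈ Ω, G i ≤ 9 / 8 * kk)) →
      (F12 Ω ∨ (p * Sm + kk / 32 ≤ ∑ i ∈ Ω, min (G i) Λs ∨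
        ∑ i ∈ Ω, min (G i) Λs ≤ p * Sm - kk / 32)) := by
    intro Ω hΩ
    by_contra hc
    have hf : ¬ F12 Ω := fun h => hc (Or.inl h)
    have h3 : ∑ i ∈ Ω, min (G i) Λs < p * Sm + kk / 32 :=
      not_le.mp fun h => hc (Or.inr (Or.inl h))
    have h4 : p * Sm - kk / 32 < ∑ i ∈ Ω, min (G i) Λs :=
      not_le.mp fun h => hc (Or.inr (Or.inr h))
    apply hΩ.2
    have h5 := hexc Ω hΩ.1 hf
    have h6 : ∑ i ∈ Ω, G i = ∑ i ∈ Ω, min (G i) Λs + ∑ i ∈ Ω, max (G i - Λs) 0 := by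
      rw [← Finset.sum_add_distrib]
      exact Finset.sum_congr rfl fun i _ => (hmm i).symm
    have h7 : 0 ≤ ∑ i ∈ Ω, max (G i - Λs) 0 := Finset.sum_nonneg fun i _ => le_max_right _ _
    have h8 : p * Sm + p * Se = kk := by rw [← mul_add, hSmSe, hkk]
    have h9 : 0 ≤ p * Se := by positivity
    rw [h6]
    constructor <;> linarith
  refine (bP_mono h0.le h1 hfin).trans ?_
  refine (bP_or h0.le h1 _ _).trans ?_
  linarith

end Run7.h589
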