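import Pool.Agent.Run7.h589.Levels
import Pool.Agent.Run7.h589.PX

open Finset

namespace Run7.h589

/-- normalised squared inner product -/
noncomputable def nq {n : ℕ} (z : Fin n → ℤ) (w : E n) : ℝ :=
  n * (inner ℝ (iv z) w) ^ 2 / ‖iv z‖ ^ 2

theorem nq_nonneg {n : ℕ} (z : Fin n → ℤ) (w : E n) : 0 ≤ nq z w := by
  unfold nq; positivity

theorem level_sum {n T : ℕ} (tag : Fin n → ℕ ⊕ ℕ)
    (h1 : ∀ i t, tag i = Sum.inl t → t < T)
    (h2 : ∀ t, ((univ.filter (fun i => tag i = Sum.inl t)).card : ℝ) ≤ n / 2 ^ t)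
    (h3 : ∀ r, (univ.filter (fun i => tag i = Sum.inr r)).card ≤ 1)
    (h4 : ∀ i r, tag i = Sum.inr r → 1 ≤ r ∧ r ≤ n)
    (hT : 2 * Real.exp (-(T / 50)) * (1 + Real.log n) ≤ 1 / 4) :
    ∑ i, ((2 : ℝ) ^ (Sum.elim jj (jU n T) (tag i)) - 1) ≤ n / 2 := by
  classical
  let f : ℕ ⊕ ℕ → ℝ := fun x => (2 : ℝ) ^ (Sum.elim jj (jU n T) x) - 1
  have hf0 : ∀ x, 0 ≤ f x := by
    intro x
    have : (1 : ℝ) ≤ (2 : ℝ) ^ (Sum.elim jj (jU n T) x) := one_le_pow₀ (by norm_num)
    simp only [f]
    linarith
  have hmaps : ∀ i ∈ (univ : Finset (Fin n)), tag i ∈ (range T).disjSum (Icc 1 n) := by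
    intro i _
    rcases h : tag i with t | r
    · rw [Finset.inl_mem_disjSum]
      exact Finset.mem_range.mpr (h1 i t h)
    · rw [Finset.inr_mem_disjSum]
      exact Finset.mem_Icc.mpr (h4 i r h)
  have hfib := Finset.sum_fiberwise_of_maps_to hmaps (fun i => f (tag i))
  have hin : ∀ x, ∑ i ∈ univ.filter (fun i => tag i = x), f (tag i) =
      ((univ.filter (fun i => tag i = x)).card : ℝ) * f x := by
    intro x
    rw [← nsmul_eq_mul, ← Finset.sum_const]
    apply Finset.sum_congr rfl
    intro i hi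
    rw [(Finset.mem_filter.mp hi).2]
  have h5 : ∑ i, ((2 : ℝ) ^ (Sum.elim jj (jU n T) (tag i)) - 1) = ∑ i, f (tag i) := rfl
  rw [h5, ← hfib, Finset.sum_disjSum]
  simp_rw [hin]
  have hn0 : (0 : ℝ) ≤ n := by positivity
  have ha : ∑ t ∈ range T, ((univ.filter (fun i => tag i = Sum.inl t)).card : ℝ) *
      f (Sum.inl t) ≤ n * (40 / 1024) := by
    calc ∑ t ∈ range T, ((univ.filter (fun i => tag i = Sum.inl t)).card : ℝ) *
        f (Sum.inl t) ≤ ∑ t ∈ range T, n * ((1 / 2 : ℝ) ^ t * (2 ^ (jj t) - 1)) := by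
          apply Finset.sum_le_sum
          intro t _
          have h6 : f (Sum.inl t) = 2 ^ (jj t) - 1 := rfl
          have h7 : (n : ℝ) / 2 ^ t = n * (1 / 2) ^ t := by
            rw [one_div, inv_pow]; rfl
          have h8 := h2 t
          rw [h7] at h8
          rw [← h6, ← mul_assoc]
          exact mul_le_mul_of_nonneg_right h8 (hf0 _)
      _ = n * ∑ t ∈ range T, ((1 / 2 : ℝ) ^ t * (2 ^ (jj t) - 1)) := by rw [Finset.mul_sum]
      _ ≤ _ := by
        have := sum_jj T
        gcongr
  have hb : ∑ r ∈ Icc 1 n, ((univ.filter (fun i => tag i = Sum.inr r)).card : ℝ) *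
      f (Sum.inr r) ≤ n * (1 / 4) := by
    calc ∑ r ∈ Icc 1 n, ((univ.filter (fun i => tag i = Sum.inr r)).card : ℝ) *
        f (Sum.inr r) ≤ ∑ r ∈ Icc 1 n, (2 * Real.exp (-(T / 50)) * n) * ((r : ℝ)⁻¹) := by
          apply Finset.sum_le_sum
          intro r _
          have h6 : f (Sum.inr r) = 2 ^ (jU n T r) - 1 := rfl
          have h7 := jU_le n T r
          rw [← h6] at h7
          have h8 : ((univ.filter (fun i => tag i = Sum.inr r)).card : ℝ) ≤ 1 := by
            exact_mod_cast h3 r
          have h9 := hf0 (Sum.inr r)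
          calc ((univ.filter (fun i => tag i = Sum.inr r)).card : ℝ) * f (Sum.inr r) ≤
              1 * f (Sum.inr r) := by gcongr
            _ ≤ 2 * (Real.exp (-(T / 50)) * n / r) := by linarith
            _ = _ := by rw [div_eq_mul_inv]; ring
      _ = (2 * Real.exp (-(T / 50)) * n) * ∑ r ∈ Icc 1 n, ((r : ℝ)⁻¹) := by rw [Finset.mul_sum]
      _ ≤ (2 * Real.exp (-(T / 50)) * n) * (1 + Real.log n) := by
        have h6 := harmonic_le_one_add_log n
        rw [harmonic_eq_sum_Icc] at h6
        push_cast at h6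
        gcongr
      _ = n * (2 * Real.exp (-(T / 50)) * (1 + Real.log n)) := by ring
      _ ≤ _ := by gcongr
  have : (n : ℝ) * (40 / 1024) + n * (1 / 4) ≤ n / 2 := by linarith
  linarith

theorem MT_ge (t : ℕ) : 16 ≤ MT t := by
  unfold MT
  have h1 : 1 ≤ eM t := by
    rcases t with _ | t
    · unfold eM; norm_num
    · unfold eM; omega
  calc 16 = 2 ^ (1 + 3) := by norm_num
    _ ≤ 2 ^ (eM t + 3) := Nat.pow_le_pow_right (by norm_num) (by omega)

theorem card_YY16 {n m : ℕ} (hm : 1 ≤ m) (hmn : m ≤ n) :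
    ((YY n m 16).card : ℝ) ≤ Real.exp (m * (5.5 + Real.log n)) := by
  have hm' : (1 : ℝ) ≤ m := by exact_mod_cast hm
  have hn' : (1 : ℝ) ≤ n := by exact_mod_cast hm.trans hmn
  refine (YY_card n m 16 hm hmn (by norm_num)).trans ?_
  apply Real.exp_le_exp.mpr
  have h1 : Real.log (2 * n * (16 : ℕ) / m) ≤ 3.5 + Real.log n := by
    have h2 : (2 * n * (16 : ℕ) / m : ℝ) ≤ 2 ^ 5 * n := by
      rw [div_le_iff₀ (by linarith)]
      push_cast
      nlinarith
    have h3 := Real.log_le_log (by positivity) h2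
    rw [Real.log_mul (by positivity) (by positivity), Real.log_pow] at h3
    have h4 := log_two_lt
    push_cast at h3
    push_cast
    linarith
  refine mul_le_mul_of_nonneg_left ?_ (by linarith)
  linarith

/-- the numeric budget for one sparse vector -/
theorem budget {n m : ℕ} (hm : 1 ≤ m) (hmn : m ≤ n) (hlog : 8 ≤ Real.log n) (SB : ℝ)
    (hSB : SB ≤ 0.53 * (m * Real.log n)) :
    4 * (n : ℝ) ^ 2 * ((YY n m 16).card : ℝ) * Real.exp (1 + SB) ≤
      Real.exp (5 * (m * Real.log n)) := by
  have hm' : (1 : ℝ) ≤ m := by exact_mod_cast hm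
  have hn' : (1 : ℝ) ≤ n := by exact_mod_cast hm.trans hmn
  have h1 := card_YY16 hm hmn
  have h2 : (4 : ℝ) ≤ Real.exp 1.4 := by
    have h3 : Real.log 4 ≤ 1.4 := by
      have : (4 : ℝ) = 2 ^ 2 := by norm_num
      rw [this, Real.log_pow]
      have := log_two_lt
      push_cast
      linarith
    calc (4 : ℝ) = Real.exp (Real.log 4) := by rw [Real.exp_log (by norm_num)]
      _ ≤ _ := Real.exp_le_exp.mpr h3
  have h3 : (n : ℝ) = Real.exp (Real.log n) := by rw [Real.exp_log (by linarith)]
  have h3' : (n : ℝ) ^ 2 ≤ Real.exp (2 * Real.log n) := by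
    have h4 : Real.exp (2 * Real.log n) = (n : ℝ) ^ 2 := by
      rw [two_mul, Real.exp_add, ← h3]
      ring
    exact h4.ge
  calc 4 * (n : ℝ) ^ 2 * ((YY n m 16).card : ℝ) * Real.exp (1 + SB) ≤
      Real.exp 1.4 * Real.exp (2 * Real.log n) * Real.exp (m * (5.5 + Real.log n)) *
        Real.exp (1 + SB) := by
        apply mul_le_mul_of_nonneg_right _ (Real.exp_pos _).le
        apply mul_le_mul _ h1 (Nat.cast_nonneg _) (mul_pos (Real.exp_pos _) (Real.exp_pos _)).le
        exact mul_le_mul h2 h3' (sq_nonneg _) (Real.exp_pos _).le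
    _ = Real.exp (1.4 + 2 * Real.log n + m * (5.5 + Real.log n) + (1 + SB)) := by
        rw [← Real.exp_add, ← Real.exp_add, ← Real.exp_add]
    _ ≤ _ := by
        apply Real.exp_le_exp.mpr
        have h4 : Real.log n ≤ m * Real.log n := by nlinarith
        have h5 : (m : ℝ) * 8 ≤ m * Real.log n := by gcongr
        nlinarith

/-- product estimates for one sparse vector -/
theorem prod_part {n T : ℕ} (hn : 1 ≤ n) (z : Fin n → ℤ) (hz : z ≠ 0) (v : Fin n → E n)
    (tag : Fin n → ℕ ⊕ ℕ)
    (hr1 : ∀ i r, tag i = Sum.inr r → 1 ≤ r)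
    (θ lam p w K H : ℝ) (hp : 0 ≤ p) (A B : ℕ → ℝ)
    (hA : ∀ t, A t = θ * n / (2 ^ (jj t) * ‖iv z‖ ^ 2))
    (hB : ∀ t, B t = p * 2 ^ (jj t) * Real.exp (1 / 25 - θ * lam))
    (hK : (∏ i, Sum.elim (fun t => fX ⟨w, A t, B t, iv z⟩ (v i)) (fun _ => 1) (tag i)) *
      (∏ i, Sum.elim (fun _ => (1 : ℝ)) (fun r : ℕ => fX ⟨w, (r : ℝ) /
        (1000 * (piT T * ‖iv z‖ ^ 2)), 1 / n, iv z⟩ (v i)) (tag i)) ≤ K)
    (hH : K * Real.exp (1 + p * Real.exp (1 / 25 - θ * lam) *
      ∑ i, (2 : ℝ) ^ (Sum.elim jj (jU n T) (tag i))) ≤ Real.exp H) :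
    (∏ k ∈ univ.filter (fun k => ¬ (tag k).isRight = true),
      (1 + p * 2 ^ (Sum.elim jj (jU n T) (tag k)) *
        Real.exp (θ * ((1 / 2) ^ (Sum.elim jj (jU n T) (tag k)) * nq z (v k) - lam))) ≤
        Real.exp H) ∧
    (∀ S : Finset (Fin n), (∀ k ∈ S, (tag k).isRight = true) →
      ∑ k ∈ S, (1 / 2) ^ (Sum.elim jj (jU n T) (tag k)) * nq z (v k) ≤
        1000 * Real.exp (-(T / 50)) * (H + S.card * (1 / 25 + Real.log n))) := by
  classical
  have hn' : (1 : ℝ) ≤ n := by exact_mod_cast hn
  have hn0 : (0 : ℝ) < n := by linarith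
  have hzn : 0 < ‖iv z‖ := norm_pos_iff.mpr (iv_ne_zero hz)
  set lev : Fin n → ℕ := fun k => Sum.elim jj (jU n T) (tag k) with hlev
  set SB := p * Real.exp (1 / 25 - θ * lam) * ∑ i, (2 : ℝ) ^ (lev i) with hSB
  set Pm := ∏ i, Sum.elim (fun t => fX ⟨w, A t, B t, iv z⟩ (v i)) (fun _ => 1) (tag i) with hPm
  set Pu := ∏ i, Sum.elim (fun _ => (1 : ℝ)) (fun r : ℕ => fX ⟨w, (r : ℝ) /
    (1000 * (piT T * ‖iv z‖ ^ 2)), 1 / n, iv z⟩ (v i)) (tag i) with hPu
  have hSB' : SB = ∑ i, p * 2 ^ (lev i) * Real.exp (1 / 25 - θ * lam) := by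
    rw [hSB, Finset.mul_sum]
    apply Finset.sum_congr rfl
    intro i _
    ring
  have hBn : ∀ t, 0 ≤ B t := by
    intro t
    rw [hB]
    positivity
  -- lower bound of the main part
  have hPm_pos : 0 < Pm := by
    apply Finset.prod_pos
    intro i _
    rcases tag i with t | r
    · exact fX_pos _ (hBn t) _
    · exact one_pos
  have hPm_low : Real.exp (-SB) ≤ Pm := by
    rw [hSB', ← Finset.sum_neg_distrib, Real.exp_sum]
    apply Finset.prod_le_prod
    · intro i _; exact (Real.exp_pos _).le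
    · intro i _
      rcases h : tag i with t | r
      · simp only [Sum.elim_inl, hlev, h]
        have h1 : p * 2 ^ (jj t) * Real.exp (1 / 25 - θ * lam) = B t := (hB t).symm
        rw [h1]
        unfold fX
        have h2 := Real.add_one_le_exp (B t)
        have h3 := hBn t
        rw [le_div_iff₀ (by linarith)]
        have h4 : Real.exp (-B t) * (1 + B t) ≤ 1 := by
          rw [Real.exp_neg, inv_mul_le_iff₀ (Real.exp_pos _)]
          linarith
        refine h4.trans ?_
        have : 0 ≤ B t * Real.exp (A t * (inner ℝ (iv z) (v i)) ^ 2 - 1 / 25) := by positivity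
        simpa using this
      · simp only [Sum.elim_inr]
        rw [Real.exp_le_one_iff]
        have : 0 ≤ p * 2 ^ (lev i) * Real.exp (1 / 25 - θ * lam) := by positivity
        linarith
  -- lower bound of the last part
  have hPu_low : ∀ S : Finset (Fin n), (∀ k ∈ S, (tag k).isRight = true) →
      Real.exp (-1 + ∑ k ∈ S, (1 / (1000 * Real.exp (-(T / 50))) * ((1 / 2) ^ (lev k) * nq z (v k)) -
        (1 / 25 + Real.log n))) ≤ Pu := by
    intro S hS
    have h1 : (-1 : ℝ) + ∑ k ∈ S, (1 / (1000 * Real.exp (-(T / 50))) *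
        ((1 / 2) ^ (lev k) * nq z (v k)) - (1 / 25 + Real.log n)) =
        ∑ k, (-(1 / (n : ℝ)) + if k ∈ S then (1 / (1000 * Real.exp (-(T / 50))) *
        ((1 / 2) ^ (lev k) * nq z (v k)) - (1 / 25 + Real.log n)) else 0) := by
      rw [Finset.sum_add_distrib, Finset.sum_const, card_univ, Fintype.card_fin, nsmul_eq_mul,
        ← Finset.sum_filter]
      have h2 : univ.filter (fun k => k ∈ S) = S := by ext k; simp
      rw [h2]
      congr 1
      field_simp
    rw [h1, Real.exp_sum]
    apply Finset.prod_le_prod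
    · intro i _; exact (Real.exp_pos _).le
    · intro i _
      have hb : Real.exp (-(1 / (n : ℝ))) * (1 + 1 / n) ≤ 1 := by
        have h2 := Real.add_one_le_exp (1 / (n : ℝ))
        rw [Real.exp_neg, inv_mul_le_iff₀ (Real.exp_pos _)]
        linarith
      rcases h : tag i with t | r
      · have hiS : i ∉ S := by
          intro hc
          have := hS i hc
          rw [h] at this
          simp at this
        rw [if_neg hiS]
        simp only [Sum.elim_inl, add_zero]
        rw [Real.exp_le_one_iff]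
        have : 0 < 1 / (n : ℝ) := by positivity
        linarith
      · simp only [Sum.elim_inr]
        unfold fX
        rw [le_div_iff₀ (by positivity)]
        simp only
        have hr : 1 ≤ r := hr1 i r h
        have hr' : (0 : ℝ) < r := by exact_mod_cast hr
        split_ifs with hiS
        · have h3 : 1 / (1000 * Real.exp (-(T / 50))) * ((1 / 2) ^ (lev i) * nq z (v i)) ≤
              (r : ℝ) / (1000 * (piT T * ‖iv z‖ ^ 2)) * (inner ℝ (iv z) (v i)) ^ 2 := by
            have h4 : lev i = jU n T r := by simp [hlev, h]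
            rw [h4]
            have h5 := jU_ge n T r
            have h6 : (1 / 2 : ℝ) ^ (jU n T r) ≤ r / (Real.exp (-(T / 50)) * n) := by
              rw [one_div, inv_pow, ← inv_div]
              apply inv_anti₀ (by positivity) h5
            calc 1 / (1000 * Real.exp (-(T / 50))) * ((1 / 2) ^ (jU n T r) * nq z (v i)) ≤
                1 / (1000 * Real.exp (-(T / 50))) * (r / (Real.exp (-(T / 50)) * n) *
                  nq z (v i)) := by
                  have := nq_nonneg z (v i)
                  gcongr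
              _ = (r : ℝ) / (1000 * ((Real.exp (-(T / 50)) * Real.exp (-(T / 50))) *
                    ‖iv z‖ ^ 2)) * (inner ℝ (iv z) (v i)) ^ 2 := by
                  unfold nq
                  field_simp
              _ = _ := by
                  rw [← Real.exp_add]
                  unfold piT
                  congr 5
                  ring
          have h7 : Real.exp (-(1 / (n : ℝ)) + (1 / (1000 * Real.exp (-(T / 50))) *
              ((1 / 2) ^ (lev i) * nq z (v i)) - (1 / 25 + Real.log n))) * (1 + 1 / n) =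
              (Real.exp (-(1 / (n : ℝ))) * (1 + 1 / n)) *
              Real.exp (1 / (1000 * Real.exp (-(T / 50))) *
              ((1 / 2) ^ (lev i) * nq z (v i)) - (1 / 25 + Real.log n)) := by
            rw [Real.exp_add]
            ring
          rw [h7]
          have h8 : Real.exp (1 / (1000 * Real.exp (-(T / 50))) *
              ((1 / 2) ^ (lev i) * nq z (v i)) - (1 / 25 + Real.log n)) ≤
              1 / n * Real.exp ((r : ℝ) / (1000 * (piT T * ‖iv z‖ ^ 2)) *
                (inner ℝ (iv z) (v i)) ^ 2 - 1 / 25) := by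
            have h9 : (1 / n : ℝ) = Real.exp (-Real.log n) := by
              rw [Real.exp_neg, Real.exp_log hn0, one_div]
            rw [h9, ← Real.exp_add]
            apply Real.exp_le_exp.mpr
            linarith
          calc _ ≤ 1 * (1 / n * Real.exp ((r : ℝ) / (1000 * (piT T * ‖iv z‖ ^ 2)) *
                (inner ℝ (iv z) (v i)) ^ 2 - 1 / 25)) := by gcongr
            _ ≤ _ := by linarith
        · rw [add_zero]
          refine hb.trans ?_
          have : 0 ≤ 1 / n * Real.exp ((r : ℝ) / (1000 * (piT T * ‖iv z‖ ^ 2)) *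
                (inner ℝ (iv z) (v i)) ^ 2 - 1 / 25) := by positivity
          linarith
  have hPu_one : Real.exp (-1) ≤ Pu := by
    have := hPu_low ∅ (by simp)
    simpa using this
  constructor
  · -- the main part
    have h1 : ∏ k ∈ univ.filter (fun k => ¬ (tag k).isRight = true),
        (1 + p * 2 ^ (lev k) * Real.exp (θ * ((1 / 2) ^ (lev k) * nq z (v k) - lam))) ≤
        Pm * Real.exp SB := by
      rw [Finset.prod_filter, hSB', Real.exp_sum, hPm, ← Finset.prod_mul_distrib]
      apply Finset.prod_le_prod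
      · intro i _
        split_ifs
        · exact zero_le_one
        · positivity
      · intro i _
        rcases h : tag i with t | r
        · have h2 : lev i = jj t := by simp [hlev, h]
          have h3 : ¬ ((Sum.inl t : ℕ ⊕ ℕ).isRight = true) := by simp
          rw [if_pos h3, h2]
          simp only [Sum.elim_inl]
          have h4 : p * 2 ^ (jj t) * Real.exp (θ * ((1 / 2) ^ (jj t) * nq z (v i) - lam)) =
              B t * Real.exp (A t * (inner ℝ (iv z) (v i)) ^ 2 - 1 / 25) := by
            rw [hB, hA, mul_assoc (p * 2 ^ (jj t)) (Real.exp _) (Real.exp _), ← Real.exp_add]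
            congr 2
            unfold nq
            rw [one_div, inv_pow]
            field_simp
            ring
          rw [h4, ← hB t]
          unfold fX
          simp only
          have h5 := hBn t
          have h6 := Real.add_one_le_exp (B t)
          rw [div_mul_eq_mul_div, le_div_iff₀ (by linarith)]
          have h7 : 0 ≤ B t * Real.exp (A t * (inner ℝ (iv z) (v i)) ^ 2 - 1 / 25) := by positivity
          gcongr
          linarith
        · have h3 : ((Sum.inr r : ℕ ⊕ ℕ).isRight = true) := by simp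
          rw [if_neg (by simp)]
          simp only [Sum.elim_inr, one_mul]
          rw [Real.one_le_exp_iff]
          positivity
    refine h1.trans ?_
    refine le_trans ?_ hH
    have h2 : Pm ≤ K * Real.exp 1 := by
      have h3 : Pm * Real.exp (-1) ≤ K := by
        refine le_trans ?_ hK
        gcongr
      have h4 : Pm = Pm * Real.exp (-1) * Real.exp 1 := by
        rw [mul_assoc, ← Real.exp_add]
        simp
      rw [h4]
      gcongr
    calc Pm * Real.exp SB ≤ K * Real.exp 1 * Real.exp SB := by gcongr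
      _ = _ := by rw [mul_assoc, ← Real.exp_add]
  · intro S hS
    have h1 := hPu_low S hS
    have h2 : Real.exp (-SB) * Real.exp (-1 + ∑ k ∈ S, (1 / (1000 * Real.exp (-(T / 50))) *
        ((1 / 2) ^ (lev k) * nq z (v k)) - (1 / 25 + Real.log n))) ≤ K := by
      refine le_trans ?_ hK
      gcongr
    have h3 : Real.exp (∑ k ∈ S, (1 / (1000 * Real.exp (-(T / 50))) *
        ((1 / 2) ^ (lev k) * nq z (v k)) - (1 / 25 + Real.log n))) ≤ Real.exp H := by
      refine le_trans ?_ hH
      have h4 : Real.exp (∑ k ∈ S, (1 / (1000 * Real.exp (-(T / 50))) *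
        ((1 / 2) ^ (lev k) * nq z (v k)) - (1 / 25 + Real.log n))) =
        Real.exp (-SB) * Real.exp (-1 + ∑ k ∈ S, (1 / (1000 * Real.exp (-(T / 50))) *
        ((1 / 2) ^ (lev k) * nq z (v k)) - (1 / 25 + Real.log n))) * Real.exp (1 + SB) := by
        rw [← Real.exp_add, ← Real.exp_add]
        congr 1
        ring
      rw [h4]
      gcongr
    rw [Real.exp_le_exp, Finset.sum_sub_distrib, ← Finset.mul_sum, Finset.sum_const,
      nsmul_eq_mul] at h3
    have h5 : 0 < 1000 * Real.exp (-(T / 50 : ℝ)) := by positivity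
    have h6 : 1 / (1000 * Real.exp (-(T / 50 : ℝ))) * ∑ k ∈ S, (1 / 2) ^ (lev k) * nq z (v k) ≤
        H + S.card * (1 / 25 + Real.log n) := by linarith
    rw [one_div, inv_mul_le_iff₀ h5] at h6
    exact h6

end Run7.h589
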