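import Pool.Agent.Run7.h589.Assemble

open Finset

namespace Run7.h589

theorem assemble {n T Mx : ℕ} (lam : ℕ → ℝ) (pm : ℕ → ℕ → ℝ) (hlog : 8 ≤ Real.log n)
    (hMx1 : 1 ≤ Mx) (hMxn : Mx ≤ n) (hT : 1 ≤ T) (hBig : ∀ t < T, BigN n t)
    (hρ : ∀ t < T, (80 : ℝ) ≤ n / 2 ^ t) (hMs : ∀ t < T, Mx ≤ sT n t)
    (hTT : 2 * Real.exp (-(T / 50)) * (1 + Real.log n) ≤ 1 / 4)
    (hpm : ∀ j m, 1 ≤ m → 0 ≤ pm j m ∧
      3 * (pm j m * n) * Real.exp (-(1 / 10 ^ 7 * lam j)) ≤ m * Real.log n) :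
    ∃ (b v : Fin n → E n) (rt : Fin n → Fin n) (fr : Fin n → ℕ → Fin n) (lev : Fin n → ℕ)
      (Un : Finset (Fin n)), Orthonormal ℝ b ∧ (∀ i j, |b i j| ≤ 52500000 / Real.sqrt n) ∧
      (∀ k, ((univ.filter (fun i => labN rt i = some k)).card : ℝ) ≤ 2 ^ (lev k)) ∧
      (∀ l k, ((univ.filter (fun i => labM rt fr lev l i = some k)).card : ℝ) ≤ 2 ^ (l + 1)) ∧
      (∀ i l, l < lev (rt i) → lev (fr i l) = 0) ∧ (∀ k ∈ Un, 1 ≤ lev k) ∧
      (∀ k, (2 : ℝ) ^ (lev k) ≤ n) ∧ (∀ k, k ∉ Un → (2 : ℝ) ^ (lev k) ≤ 2 ^ T) ∧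
      ∀ j, 1 ≤ j → j ≤ n → ∀ m, 1 ≤ m → m ≤ Mx → ∀ z ∈ YY n m 16,
        (∀ i, nq z (b i) ≤ 2 * (1 / 2) ^ (lev (rt i)) * nq z (v (rt i)) +
          4 * ∑ l ∈ range (lev (rt i)), ((l : ℝ) + 1) ^ 2 * (1 / 2) ^ (l + 1) *
            nq z (v (fr i l))) ∧
        (∏ k ∈ univ.filter (fun k => k ∉ Un), (1 + pm j m * 2 ^ (lev k) *
          Real.exp (1 / 10 ^ 7 * ((1 / 2) ^ (lev k) * nq z (v k) - lam j))) ≤
            Real.exp (5 * (m * Real.log n))) ∧
        (∀ S ⊆ Un, ∑ k ∈ S, (1 / 2) ^ (lev k) * nq z (v k) ≤ 1000 * Real.exp (-(T / 50)) *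
          (5 * (m * Real.log n) + 2 * S.card * Real.log n)) ∧
        (∑ k ∈ Un, nq z (v k) ≤ n * piT T) := by
  classical
  have hn : 1 ≤ n := hMx1.trans hMxn
  have hn' : (1 : ℝ) ≤ n := by exact_mod_cast hn
  have hn0 : (0 : ℝ) < n := by linarith
  have hexpT : 0 < Real.exp (-(T / 50 : ℝ)) := Real.exp_pos _
  have hTT1 : Real.exp (-(T / 50 : ℝ)) ≤ 1 / 8 := by nlinarith only [hTT, hexpT, hlog]
  have hTT2 : Real.exp (-(T / 50 : ℝ)) * Real.log n ≤ 1 / 8 := by nlinarith only [hTT, hexpT, hlog]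
  let S0 : Finset (Σ _ : ℕ × ℕ, (Fin n → ℤ)) := ((Icc 1 n) ×ˢ (Icc 1 Mx)).sigma
    (fun q => YY n q.2 16)
  have hS0 : ∀ e : S0, 1 ≤ e.1.1.2 ∧ e.1.1.2 ≤ Mx ∧ e.1.2 ∈ YY n e.1.1.2 16 := by
    intro e
    have := e.2
    simp only [S0, Finset.mem_sigma, Finset.mem_product, Finset.mem_Icc] at this
    exact ⟨this.1.2.1, this.1.2.2, this.2⟩
  let W : S0 → ℝ := fun e => 1 / ((n : ℝ) ^ 2 * ((YY n e.1.1.2 16).card : ℝ))
  let zz : S0 → (Fin n → ℤ) := fun e => e.1.2
  let A : ℕ → S0 → ℝ := fun t e => 1 / 10 ^ 7 * n / (2 ^ (jj t) * ‖iv (zz e)‖ ^ 2)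
  let B : ℕ → S0 → ℝ := fun t e => pm e.1.1.1 e.1.1.2 * 2 ^ (jj t) *
    Real.exp (1 / 25 - 1 / 10 ^ 7 * lam e.1.1.1)
  have hz0 : ∀ e, zz e ≠ 0 := fun e => (mem_YY.mp (hS0 e).2.2).1
  have hzn : ∀ e, 0 < ‖iv (zz e)‖ := fun e => norm_pos_iff.mpr (iv_ne_zero (hz0 e))
  have hcardpos : ∀ e : S0, (0 : ℝ) < (YY n e.1.1.2 16).card := by
    intro e
    exact_mod_cast Finset.card_pos.mpr ⟨_, (hS0 e).2.2⟩
  have hW : ∀ e, 0 < W e := by
    intro e
    have := hcardpos e
    simp only [W]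
    positivity
  have hW2 : ∑ e, W e ≤ 1 := by
    have h1 : ∑ e, W e = ∑ e ∈ S0, 1 / ((n : ℝ) ^ 2 * ((YY n e.1.2 16).card : ℝ)) :=
      Finset.sum_coe_sort S0 (fun e => 1 / ((n : ℝ) ^ 2 * ((YY n e.1.2 16).card : ℝ)))
    rw [h1]
    simp only [S0]
    rw [Finset.sum_sigma]
    have h2 : ∀ q ∈ (Icc 1 n) ×ˢ (Icc 1 Mx), ∑ _z ∈ YY n q.2 16,
        1 / ((n : ℝ) ^ 2 * ((YY n q.2 16).card : ℝ)) ≤ 1 / (n : ℝ) ^ 2 := by
      intro q hm
      rw [Finset.sum_const, nsmul_eq_mul]
      rcases Nat.eq_zero_or_pos (YY n q.2 16).card with h | h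
      · rw [h]; simp
      · have : (0 : ℝ) < (YY n q.2 16).card := by exact_mod_cast h
        apply le_of_eq
        field_simp
    refine (Finset.sum_le_sum h2).trans ?_
    rw [Finset.sum_const, nsmul_eq_mul, Finset.card_product, Nat.card_Icc, Nat.card_Icc]
    have : (Mx : ℝ) ≤ n := by exact_mod_cast hMxn
    simp only [Nat.add_sub_cancel]
    rw [mul_one_div, div_le_one (by positivity)]
    push_cast
    nlinarith only [this, hn0]
  have hA : ∀ t e, 0 ≤ A t e := by
    intro t e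
    simp only [A]
    positivity
  have hB : ∀ t e, 0 ≤ B t e := by
    intro t e
    have := (hpm e.1.1.1 e.1.1.2 (hS0 e).1).1
    simp only [B]
    positivity
  have hAX : ∀ t < T, ∀ e, A t e * (piT t * ‖iv (zz e)‖ ^ 2) ≤ 3 * (n / 2 ^ t) / 8000 := by
    intro t _ e
    have h1 := pow_le_jj t
    have h2 := pi_pow' t
    have h3 := piT_pos t
    have h4 := hzn e
    have h5 : A t e * (piT t * ‖iv (zz e)‖ ^ 2) = 1 / 10 ^ 7 * n * piT t / 2 ^ (jj t) := by
      simp only [A]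
      field_simp
    have h6 : (3 * (n / 2 ^ t) / 8000 : ℝ) = 3 * n / 8000 / 2 ^ t := by
      field_simp
    rw [h5, h6, div_le_div_iff₀ (by positivity) (by positivity)]
    calc 1 / 10 ^ 7 * (n : ℝ) * piT t * 2 ^ t ≤
        1 / 10 ^ 7 * (n : ℝ) * piT t * (2 ^ (jj t) * 2 ^ 10 * 2 ^ (t / 20)) := by gcongr
      _ = 1 / 10 ^ 7 * 2 ^ 10 * n * 2 ^ (jj t) * (piT t * 2 ^ (t / 20)) := by ring
      _ ≤ 1 / 10 ^ 7 * 2 ^ 10 * n * 2 ^ (jj t) * 1 := by gcongr
      _ ≤ _ := by
        have : (0 : ℝ) ≤ n * 2 ^ (jj t) := by positivity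
        linarith only [this]
  have hz : ∀ t < T, ∀ e, zz e ∈ YY n (sT n t) (MT t) := by
    intro t ht e
    have h1 := hS0 e
    have h2 : e.1.1.2 ≤ sT n t := h1.2.1.trans (hMs t ht)
    exact YY_mono h2 (Nat.mul_le_mul h2 (MT_ge t)) h1.2.2
  have hne : Nonempty S0 := by
    refine ⟨⟨⟨(1, 1), Pi.single ⟨0, hn⟩ 1⟩, ?_⟩⟩
    simp only [S0, Finset.mem_sigma, Finset.mem_product, Finset.mem_Icc]
    exact ⟨⟨⟨le_rfl, hn⟩, ⟨le_rfl, hMx1⟩⟩, single_mem_YY le_rfl (by norm_num) _⟩
  obtain ⟨v, tag, hv, htagm, hcntm, hcntu, htagu, hpot, hcapu⟩ := rows_exist W zz A B T (1 / n)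
    (by positivity) hn hBig hρ hW hW2 hA hB hAX hz hz0
  let lev : Fin n → ℕ := fun k => Sum.elim jj (jU n T) (tag k)
  let Un : Finset (Fin n) := univ.filter (fun k => (tag k).isRight = true)
  have hmemUn : ∀ k, k ∈ Un ↔ (tag k).isRight = true := by
    intro k; simp [Un]
  have htagu' : ∀ i r, tag i = Sum.inr r → 1 ≤ r ∧ r ≤ n := by
    intro i r h
    have h1 := htagu i r h
    refine ⟨h1.1, ?_⟩
    have h2 : (r : ℝ) ≤ n := by
      refine h1.2.trans ?_
      apply div_le_self hn0.le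
      exact one_le_pow₀ (by norm_num)
    exact_mod_cast h2
  have hlevsum := level_sum (n := n) (T := T) tag (fun i t h => (htagm i t h).1) hcntm hcntu htagu'
    hTT
  -- levels of the last part
  have hUn1 : ∀ k ∈ Un, 1 ≤ lev k := by
    intro k hk
    rw [hmemUn] at hk
    rcases h : tag k with t | r
    · rw [h] at hk; simp at hk
    · have h1 : lev k = jU n T r := by simp [lev, h]
      rw [h1]
      by_contra hc
      have h2 : jU n T r = 0 := by omega
      have h3 := jU_ge n T r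
      rw [h2, pow_zero] at h3
      have h4 := htagu k r h
      have hr0 : (0 : ℝ) < r := by exact_mod_cast h4.1
      have h5 : (2 : ℝ) ^ T ≤ n / r := by
        rw [le_div_iff₀ hr0]
        have := h4.2
        rw [le_div_iff₀ (by positivity)] at this
        linarith
      have h6 : 1 < Real.exp (-(T / 50 : ℝ)) * 2 ^ T := by
        have h7 : (2 : ℝ) ^ T = Real.exp (T * Real.log 2) := by
          rw [← Real.exp_log (show (0 : ℝ) < 2 by norm_num), ← Real.exp_nat_mul,
            Real.exp_log (show (0 : ℝ) < 2 by norm_num)]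
        rw [h7, ← Real.exp_add]
        have h8 := Real.log_two_gt_d9
        have h9 : (1 : ℝ) ≤ T := by exact_mod_cast hT
        rw [Real.one_lt_exp_iff]
        nlinarith only [h8, h9]
      have h7 : Real.exp (-(T / 50 : ℝ)) * 2 ^ T ≤ Real.exp (-(T / 50 : ℝ)) * n / r := by
        rw [mul_div_assoc]
        gcongr
      linarith
  -- the sum of the levels
  have hpow1 : ∀ k, (1 : ℝ) ≤ 2 ^ (lev k) := fun k => one_le_pow₀ (by norm_num)
  have hsum : ∑ k, (2 ^ (lev k) - 1) ≤ (univ.filter (fun k => lev k = 0)).card := by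
    have hc1 : ((∑ k, (2 ^ (lev k) - 1) : ℕ) : ℝ) = ∑ k, ((2 : ℝ) ^ (lev k) - 1) := by
      push_cast
      apply Finset.sum_congr rfl
      intro k _
      rw [Nat.cast_sub Nat.one_le_two_pow]
      push_cast
      ring
    have hc2 : (((univ.filter (fun k => ¬ lev k = 0)).card : ℕ) : ℝ) ≤
        ∑ k, ((2 : ℝ) ^ (lev k) - 1) := by
      rw [Finset.card_filter]
      push_cast
      apply Finset.sum_le_sum
      intro k _
      split_ifs with h
      · have := hpow1 k
        linarith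
      · have h9 : (2 : ℝ) ^ 1 ≤ 2 ^ (lev k) :=
          pow_le_pow_right₀ (by norm_num) (Nat.one_le_iff_ne_zero.mpr h)
        rw [pow_one] at h9
        linarith
    have hc3 : (univ.filter (fun k => lev k = 0)).card +
        (univ.filter (fun k => ¬ lev k = 0)).card = n := by
      have := Finset.card_filter_add_card_filter_not (s := (univ : Finset (Fin n)))
        (fun k => lev k = 0)
      simpa using this
    have hc4 : (((univ.filter (fun k => lev k = 0)).card : ℕ) : ℝ) +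
        ((univ.filter (fun k => ¬ lev k = 0)).card : ℕ) = n := by exact_mod_cast hc3
    have hlevsum' : ∑ k, ((2 : ℝ) ^ (lev k) - 1) ≤ n / 2 := hlevsum
    have : ((∑ k, (2 ^ (lev k) - 1) : ℕ) : ℝ) ≤ ((univ.filter (fun k => lev k = 0)).card : ℕ) := by
      rw [hc1]
      linarith
    exact_mod_cast this
  obtain ⟨b, rt, fr, hb, hmix, hF1, hF2, hF3⟩ := absorb (Fintype.card_fin n) v hv lev hsum
  -- the estimates for one vector
  have hmain : ∀ j, 1 ≤ j → j ≤ n → ∀ m, 1 ≤ m → m ≤ Mx → ∀ z ∈ YY n m 16,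
        (∏ k ∈ univ.filter (fun k => k ∉ Un), (1 + pm j m * 2 ^ (lev k) *
          Real.exp (1 / 10 ^ 7 * ((1 / 2) ^ (lev k) * nq z (v k) - lam j))) ≤
            Real.exp (5 * (m * Real.log n))) ∧
        (∀ S ⊆ Un, ∑ k ∈ S, (1 / 2) ^ (lev k) * nq z (v k) ≤ 1000 * Real.exp (-(T / 50)) *
          (5 * (m * Real.log n) + 2 * S.card * Real.log n)) := by
    intro j hj1 hjn m hm1 hmM z hzm
    have hmn : m ≤ n := hmM.trans hMxn
    have hm' : (1 : ℝ) ≤ m := by exact_mod_cast hm1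
    have hmem : (⟨(j, m), z⟩ : Σ _ : ℕ × ℕ, (Fin n → ℤ)) ∈ S0 := by
      simp only [S0, Finset.mem_sigma, Finset.mem_product, Finset.mem_Icc]
      exact ⟨⟨⟨hj1, hjn⟩, ⟨hm1, hmM⟩⟩, hzm⟩
    let e : S0 := ⟨⟨(j, m), z⟩, hmem⟩
    have hpe := hpot e
    have hcard0 : (0 : ℝ) < (YY n m 16).card := hcardpos e
    have hWe : W e = 1 / ((n : ℝ) ^ 2 * ((YY n m 16).card : ℝ)) := rfl
    have hK : (∏ i, Sum.elim (fun t => fX ⟨W e, A t e, B t e, iv (zz e)⟩ (v i)) (fun _ => 1)
        (tag i)) * (∏ i, Sum.elim (fun _ => (1 : ℝ)) (fun r : ℕ => fX ⟨W e, (r : ℝ) /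
        (1000 * (piT T * ‖iv (zz e)‖ ^ 2)), 1 / n, iv (zz e)⟩ (v i)) (tag i)) ≤
        4 * (n : ℝ) ^ 2 * ((YY n m 16).card : ℝ) := by
      have h1 : ∀ X : ℝ, W e * X ≤ 4 → X ≤ 4 * (n : ℝ) ^ 2 * ((YY n m 16).card : ℝ) := by
        intro X hX
        rw [hWe, one_div, inv_mul_le_iff₀ (by positivity)] at hX
        linarith
      exact h1 _ hpe
    have hz1 : zz e = z := rfl
    rw [hz1] at hK
    have hSB : pm j m * Real.exp (1 / 25 - 1 / 10 ^ 7 * lam j) *
        ∑ i, (2 : ℝ) ^ (Sum.elim jj (jU n T) (tag i)) ≤ 0.53 * (m * Real.log n) := by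
      have h1 : ∑ i, (2 : ℝ) ^ (Sum.elim jj (jU n T) (tag i)) ≤ 3 / 2 * n := by
        rw [Finset.sum_sub_distrib, Finset.sum_const, card_univ, Fintype.card_fin,
          nsmul_eq_mul, mul_one] at hlevsum
        linarith
      have h2 := hpm j m hm1
      have h3 : Real.exp (1 / 25 - 1 / 10 ^ 7 * lam j) = Real.exp (1 / 25) *
          Real.exp (-(1 / 10 ^ 7 * lam j)) := by
        rw [← Real.exp_add]; congr 1
      have h4 : Real.exp (1 / 25 : ℝ) ≤ 1.05 := by
        have h5 : Real.exp (-(1 / 25) : ℝ) ≥ 1 - 1 / 25 := by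
          have := Real.add_one_le_exp (-(1 / 25) : ℝ)
          linarith
        rw [Real.exp_neg] at h5
        have h6 : 0 < Real.exp (1 / 25 : ℝ) := Real.exp_pos _
        have h7 : (1 - 1 / 25) * Real.exp (1 / 25 : ℝ) ≤ 1 := by
          calc (1 - 1 / 25) * Real.exp (1 / 25 : ℝ) ≤
              (Real.exp (1 / 25 : ℝ))⁻¹ * Real.exp (1 / 25 : ℝ) := by gcongr
            _ = 1 := inv_mul_cancel₀ h6.ne'
        linarith
      rw [h3]
      have h5 : 0 < Real.exp (-(1 / 10 ^ 7 * lam j)) := Real.exp_pos _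
      calc pm j m * (Real.exp (1 / 25) * Real.exp (-(1 / 10 ^ 7 * lam j))) *
            ∑ i, (2 : ℝ) ^ (Sum.elim jj (jU n T) (tag i)) ≤
          pm j m * (1.05 * Real.exp (-(1 / 10 ^ 7 * lam j))) * (3 / 2 * n) := by
            have := h2.1
            gcongr
        _ = 0.525 * (3 * (pm j m * n) * Real.exp (-(1 / 10 ^ 7 * lam j))) := by ring
        _ ≤ 0.525 * (m * Real.log n) := by
            have := h2.2
            gcongr
        _ ≤ _ := by
            have : 0 ≤ m * Real.log n := by positivity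
            linarith
    have hH := budget hm1 hmn hlog _ hSB
    have hpp := prod_part (T := T) hn z (hz0 e) v tag (fun i r h => (htagu i r h).1)
      (1 / 10 ^ 7) (lam j) (pm j m) (W e) (4 * (n : ℝ) ^ 2 * ((YY n m 16).card : ℝ))
      (5 * (m * Real.log n)) (hpm j m hm1).1 (fun t => A t e) (fun t => B t e) (fun t => rfl) (fun t => rfl) hK hH
    constructor
    · have h1 := hpp.1
      have h2 : univ.filter (fun k => k ∉ Un) = univ.filter (fun k => ¬ (tag k).isRight = true) := by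
        ext k
        simp only [Finset.mem_filter, Finset.mem_univ, true_and, hmemUn]
      rw [h2]
      exact h1
    · intro S hS
      have h1 := hpp.2 S (fun k hk => (hmemUn k).mp (hS hk))
      refine h1.trans ?_
      have h2 : (0 : ℝ) ≤ S.card := Nat.cast_nonneg _
      have h3 : (S.card : ℝ) * (1 / 25 + Real.log n) ≤ 2 * S.card * Real.log n := by
        nlinarith only [h2, hlog]
      gcongr
  -- flatness
  have hflat : ∀ k j, Real.sqrt (1 / 2) ^ (lev k) * |v k j| ≤ 15000000 / Real.sqrt n := by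
    intro k j
    apply le_of_pow_le_pow_left₀ (n := 2) (by norm_num) (by positivity)
    rw [mul_pow, div_pow, Real.sq_sqrt hn0.le, sq_abs, ← pow_mul, mul_comm (lev k) 2, pow_mul,
      Real.sq_sqrt (by norm_num), le_div_iff₀ hn0]
    rcases h : tag k with t | r
    · have h1 : lev k = jj t := by simp [lev, h]
      have h2 := (htagm k t h).2 j
      have h3 : (v k j) ^ 2 ≤ lamT t / n := by
        rw [← sq_abs]
        have h4 : 0 ≤ lamT t / n := by
          unfold lamT
          have := piT_pos t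
          positivity
        calc |v k j| ^ 2 ≤ (Real.sqrt (lamT t / n)) ^ 2 := by gcongr
          _ = _ := Real.sq_sqrt h4
      rw [h1]
      have h4 := lamT_le t
      calc (1 / 2 : ℝ) ^ (jj t) * (v k j) ^ 2 * n ≤ (1 / 2 : ℝ) ^ (jj t) * (lamT t / n) * n := by
            gcongr
        _ = (1 / 2 : ℝ) ^ (jj t) * lamT t := by field_simp
        _ ≤ (1 / 2 : ℝ) ^ (jj t) * (15000000 ^ 2 * 2 ^ (jj t)) := by gcongr
        _ = 15000000 ^ 2 * ((1 / 2 : ℝ) ^ (jj t) * 2 ^ (jj t)) := by ring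
        _ = _ := by rw [← mul_pow]; norm_num
    · have hkU : k ∈ Un := by rw [hmemUn, h]; simp
      have h1 := (hmain 1 le_rfl hn 1 le_rfl hMx1 (Pi.single j 1)
        (single_mem_YY le_rfl (by norm_num) j)).2
        {k} (Finset.singleton_subset_iff.mpr hkU)
      rw [Finset.sum_singleton, Finset.card_singleton] at h1
      have h2 : nq (Pi.single j 1 : Fin n → ℤ) (v k) = n * (v k j) ^ 2 := by
        unfold nq
        rw [iv_single, coord_eq_inner]
        simp
      rw [h2] at h1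
      have h3 : 1000 * Real.exp (-(T / 50 : ℝ)) * (5 * ((1 : ℕ) * Real.log n) +
          2 * ((1 : ℕ) : ℝ) * Real.log n) ≤ 875 := by
        push_cast
        nlinarith only [hTT2, hexpT]
      have h4 : (1 / 2 : ℝ) ^ (lev k) * (v k j) ^ 2 * n = (1 / 2 : ℝ) ^ (lev k) *
          (n * (v k j) ^ 2) := by ring
      rw [h4]
      refine (h1.trans h3).trans ?_
      norm_num
  refine ⟨b, v, rt, fr, lev, Un, hb, ?_, ?_, ?_, hF3, hUn1, ?_, ?_, ?_⟩
  · intro i j
    have h1 := hmix i (EuclideanSpace.single j (1 : ℝ))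
    rw [coord_eq_inner, coord_eq_inner] at h1
    refine h1.trans ?_
    have h2 : ∑ l ∈ range (lev (rt i)), Real.sqrt (1 / 2) ^ (l + 1) *
        |inner ℝ (EuclideanSpace.single j (1 : ℝ)) (v (fr i l))| ≤
        ∑ l ∈ range (lev (rt i)), Real.sqrt (1 / 2) ^ (l + 1) * (15000000 / Real.sqrt n) := by
      apply Finset.sum_le_sum
      intro l hl
      have h3 := hflat (fr i l) j
      rw [hF3 i l (Finset.mem_range.mp hl), pow_zero, one_mul] at h3
      rw [coord_eq_inner]
      gcongr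
    rw [← Finset.sum_mul] at h2
    have h3 := hflat (rt i) j
    have h4 := geom_s (lev (rt i))
    have h5 : (∑ l ∈ range (lev (rt i)), Real.sqrt (1 / 2) ^ (l + 1)) * (15000000 / Real.sqrt n) ≤
        5 / 2 * (15000000 / Real.sqrt n) := by gcongr
    have h6 : (52500000 / Real.sqrt n : ℝ) = 15000000 / Real.sqrt n +
        5 / 2 * (15000000 / Real.sqrt n) := by ring
    rw [h6]
    linarith
  · intro k
    have h1 : univ.filter (fun i => labN rt i = some k) = univ.filter (fun i => rt i = k) := by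
      ext i
      simp [labN]
    rw [h1]
    exact_mod_cast hF1 k
  · intro l k
    have h1 : univ.filter (fun i => labM rt fr lev l i = some k) =
        univ.filter (fun i => l < lev (rt i) ∧ fr i l = k) := by
      ext i
      simp only [Finset.mem_filter, Finset.mem_univ, true_and]
      unfold labM
      split_ifs with h
      · simp [h]
      · simp [h]
    rw [h1]
    exact_mod_cast hF2 l k
  · intro k
    rcases h : tag k with t | r
    · have h1 : lev k = jj t := by simp [lev, h]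
      rw [h1]
      have h2 := hρ t (htagm k t h).1
      rw [le_div_iff₀ (by positivity)] at h2
      have h3 : (2 : ℝ) ^ (jj t) ≤ 2 ^ t := pow_le_pow_right₀ (by norm_num) (jj_le t)
      have h4 : (0 : ℝ) < 2 ^ t := by positivity
      linarith
    · have h1 : lev k = jU n T r := by simp [lev, h]
      rw [h1]
      have h2 := jU_le n T r
      have h3 := htagu' k r h
      have hr1 : (1 : ℝ) ≤ r := by exact_mod_cast h3.1
      have h4 : Real.exp (-(T / 50 : ℝ)) * n / r ≤ Real.exp (-(T / 50 : ℝ)) * n := by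
        apply div_le_self (by positivity) hr1
      have h5 : Real.exp (-(T / 50 : ℝ)) * n ≤ 1 / 8 * n := by gcongr
      have h6 : (2 : ℝ) ≤ n := by
        by_contra hc
        push Not at hc
        have := Real.log_le_log hn0 hc.le
        have := log_two_lt
        linarith
      linarith
  · intro k hk
    rcases h : tag k with t | r
    · have h1 : lev k = jj t := by simp [lev, h]
      rw [h1]
      apply pow_le_pow_right₀ (by norm_num)
      have := jj_le t
      have := (htagm k t h).1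
      omega
    · exfalso
      apply hk
      rw [hmemUn, h]
      simp
  · intro j hj1 hjn m hm1 hmM z hzm
    have hmem : (⟨(j, m), z⟩ : Σ _ : ℕ × ℕ, (Fin n → ℤ)) ∈ S0 := by
      simp only [S0, Finset.mem_sigma, Finset.mem_product, Finset.mem_Icc]
      exact ⟨⟨⟨hj1, hjn⟩, ⟨hm1, hmM⟩⟩, hzm⟩
    let e : S0 := ⟨⟨(j, m), z⟩, hmem⟩
    have hz1 : 0 < ‖iv z‖ := hzn e
    refine ⟨?_, (hmain j hj1 hjn m hm1 hmM z hzm).1, (hmain j hj1 hjn m hm1 hmM z hzm).2, ?_⟩
    · intro i
      have h1 := mix_bound (lev (rt i)) (inner ℝ (iv z) (v (rt i))) (inner ℝ (iv z) (b i))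
        (fun l => inner ℝ (iv z) (v (fr i l))) (hmix i (iv z))
      have h2 : (0 : ℝ) ≤ n / ‖iv z‖ ^ 2 := by positivity
      have h3 := mul_le_mul_of_nonneg_left h1 h2
      have h4 : nq z (b i) = n / ‖iv z‖ ^ 2 * (inner ℝ (iv z) (b i)) ^ 2 := by
        unfold nq; ring
      rw [h4]
      refine h3.trans (le_of_eq ?_)
      rw [mul_add]
      congr 1
      · unfold nq; ring
      · rw [mul_left_comm, Finset.mul_sum]
        congr 1
        apply Finset.sum_congr rfl
        intro l _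
        unfold nq
        ring
    · have h1 := hcapu e
      have h2 : ∑ k ∈ Un, nq z (v k) = n / ‖iv z‖ ^ 2 * ∑ i, Sum.elim (fun _ => (0 : ℝ))
          (fun _ => (inner ℝ (iv z) (v i)) ^ 2) (tag i) := by
        rw [Finset.mul_sum, Finset.sum_filter]
        apply Finset.sum_congr rfl
        intro k _
        rcases h : tag k with t | r
        · simp
        · simp only [Sum.isRight_inr, if_true, Sum.elim_inr]
          unfold nq
          ring
      rw [h2]
      have h3 : (0 : ℝ) ≤ n / ‖iv z‖ ^ 2 := by positivity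
      refine (mul_le_mul_of_nonneg_left h1 h3).trans (le_of_eq ?_)
      have h4 : zz e = z := rfl
      rw [h4]
      field_simp

end Run7.h589
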