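import Mathlib

open Finset

namespace Run7.h589

/-- the real euclidean space of dimension `n` -/
abbrev E (n : ℕ) := EuclideanSpace ℝ (Fin n)

/-- the subspace of vectors vanishing on `J` -/
def Z {n : ℕ} (J : Finset (Fin n)) : Submodule ℝ (E n) where
  carrier := {h | ∀ j ∈ J, h j = 0}
  add_mem' := by
    intro a b ha hb j hj
    simp [ha j hj, hb j hj]
  zero_mem' := by
    intro j _
    simp
  smul_mem' := by
    intro c x hx j hj
    simp [hx j hj]

theorem mem_Z {n : ℕ} {J : Finset (Fin n)} {h : E n} : h ∈ Z J ↔ ∀ j ∈ J, h j = 0 := Iff.rfl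

/-- the part of `R` vanishing on `J` -/
def EJ {n : ℕ} (R : Submodule ℝ (E n)) (J : Finset (Fin n)) : Submodule ℝ (E n) := R ⊓ Z J

theorem EJ_le {n : ℕ} (R : Submodule ℝ (E n)) (J : Finset (Fin n)) : EJ R J ≤ R := inf_le_left

theorem mem_EJ {n : ℕ} {R : Submodule ℝ (E n)} {J : Finset (Fin n)} {h : E n} :
    h ∈ EJ R J ↔ h ∈ R ∧ ∀ j ∈ J, h j = 0 := Iff.rfl

theorem EJ_anti {n : ℕ} (R : Submodule ℝ (E n)) {J J' : Finset (Fin n)} (h : J ⊆ J') :
    EJ R J' ≤ EJ R J := by
  intro x hx
  rw [mem_EJ] at hx ⊢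
  exact ⟨hx.1, fun j hj => hx.2 j (h hj)⟩

theorem EJ_empty {n : ℕ} (R : Submodule ℝ (E n)) : EJ R ∅ = R := by
  ext x
  rw [mem_EJ]
  simp

/-- squared norm of the projection to `R` -/
noncomputable def pn {n : ℕ} (R : Submodule ℝ (E n)) (y : E n) : ℝ := ‖R.starProjection y‖ ^ 2

theorem pn_nonneg {n : ℕ} (R : Submodule ℝ (E n)) (y : E n) : 0 ≤ pn R y := by
  unfold pn; positivity

theorem pn_le {n : ℕ} (R : Submodule ℝ (E n)) (y : E n) : pn R y ≤ ‖y‖ ^ 2 := by
  unfold pn
  have := R.norm_starProjection_apply_le y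
  gcongr

theorem inner_proj {n : ℕ} (R : Submodule ℝ (E n)) (y v : E n) (hv : v ∈ R) :
    inner ℝ (R.starProjection y) v = inner ℝ y v := by
  rw [Submodule.inner_starProjection_left_eq_right, Submodule.starProjection_eq_self_iff.mpr hv]

theorem pn_eq_inner {n : ℕ} (R : Submodule ℝ (E n)) (y : E n) :
    pn R y = inner ℝ y (R.starProjection y) := by
  unfold pn
  rw [← real_inner_self_eq_norm_sq, inner_proj R y _ (R.starProjection_apply_mem y)]

theorem pn_mono {n : ℕ} {S R : Submodule ℝ (E n)} (h : S ≤ R) (y : E n) : pn S y ≤ pn R y := by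
  have h1 : S.starProjection (R.starProjection y) = S.starProjection y := by
    have := Submodule.starProjection_comp_starProjection_of_le h
    have h2 := congrArg (fun f : E n →L[ℝ] E n => f y) this
    simpa using h2
  unfold pn
  rw [← h1]
  have := S.norm_starProjection_apply_le (R.starProjection y)
  gcongr

theorem inner_sq_le {n : ℕ} (R : Submodule ℝ (E n)) (y v : E n) (hv : v ∈ R) :
    (inner ℝ y v) ^ 2 ≤ pn R y * ‖v‖ ^ 2 := by
  rw [← inner_proj R y v hv]
  have := abs_real_inner_le_norm (R.starProjection y) v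
  unfold pn
  rw [← mul_pow, ← sq_abs]
  gcongr

theorem sum_onb {n : ℕ} {ι : Type*} [Fintype ι] (S : Submodule ℝ (E n))
    (b : OrthonormalBasis ι ℝ S) (y : E n) :
    ∑ i, (inner ℝ y (b i : E n)) ^ 2 = pn S y := by
  have h1 : ∀ i, inner ℝ y (b i : E n) = inner ℝ (S.orthogonalProjectionOnto y) (b i) := by
    intro i
    rw [← inner_proj S y (b i) (b i).2]
    rw [Submodule.starProjection_apply]
    rfl
  simp_rw [h1]
  have h2 := b.sum_sq_inner_left (S.orthogonalProjectionOnto y)
  rw [h2]
  unfold pn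
  rw [Submodule.starProjection_apply]
  rfl

/-- second derivative test -/
theorem second_test (f f1 : ℝ → ℝ) (c : ℝ) (h1 : ∀ t, HasDerivAt f (f1 t) t)
    (h2 : HasDerivAt f1 c 0) (hmin : IsLocalMin f 0) : 0 ≤ c := by
  by_contra hc
  push Not at hc
  have hd : deriv f = f1 := by
    ext t
    exact (h1 t).deriv
  have hf0 : f1 0 = 0 := by
    have := hmin.deriv_eq_zero
    rw [hd] at this
    exact this
  have hmax : IsLocalMin (-f) 0 := by
    apply isLocalMin_of_deriv_deriv_pos
    · have : deriv (-f) = -f1 := by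
        ext t
        have := (h1 t).neg.deriv
        simpa using this
      rw [this]
      have h3 := h2.neg.deriv
      rw [h3]
      linarith
    · have := (h1 0).neg.deriv
      rw [this, hf0]
      simp
    · exact (h1 0).continuousAt.neg
  have hconst : f =ᶠ[nhds 0] fun _ => f 0 := by
    filter_upwards [hmin, hmax] with t ht1 ht2
    simp only [Pi.neg_apply] at ht2
    linarith
  have h3 : f1 =ᶠ[nhds 0] fun _ => 0 := by
    have := hconst.deriv
    rw [hd] at this
    simpa using this
  have h4 : deriv f1 0 = 0 := by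
    rw [h3.deriv_eq]
    simp
  rw [h2.deriv] at h4
  linarith

end Run7.h589
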