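import Pool.Agent.Run7.h589.Step

open Finset

namespace Run7.h589

theorem single_mem_YY {n s M : ℕ} (hs : 1 ≤ s) (hM : 1 ≤ M) (j : Fin n) :
    (Pi.single j 1 : Fin n → ℤ) ∈ YY n s M := by
  rw [mem_YY]
  refine ⟨?_, ?_, ?_⟩
  · intro h
    have := congrFun h j
    simp at this
  · refine le_trans (Finset.card_le_card (t := {j}) ?_) (by simpa using hs)
    intro i hi
    simp only [Finset.mem_filter, Finset.mem_univ, true_and] at hi
    by_contra hc
    apply hi
    have : i ≠ j := by simpa using hc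
    simp [Pi.single_eq_of_ne this]
  · rw [Finset.sum_eq_single j]
    · simp only [Pi.single_eq_same, abs_one]
      have : 1 ≤ s * M := Nat.one_le_iff_ne_zero.mpr (by positivity)
      exact_mod_cast this
    · intro i _ hi
      simp [Pi.single_eq_of_ne hi]
    · intro h
      exact absurd (Finset.mem_univ j) h

theorem iv_single {n : ℕ} (j : Fin n) :
    iv (Pi.single j 1 : Fin n → ℤ) = EuclideanSpace.single j (1 : ℝ) := by
  ext i
  by_cases h : i = j
  · subst h; simp
  · simp [h]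

theorem iv_ne_zero {n : ℕ} {z : Fin n → ℤ} (hz : z ≠ 0) : iv z ≠ 0 := by
  intro h
  apply hz
  ext i
  have := congrArg (fun v : E n => v i) h
  simpa using this

/-- the sign vector test -/
theorem sign_test {n s M : ℕ} (hs : 1 ≤ s) (hM : 1 ≤ M) (κ : ℝ) (v : E n)
    (hcard : s ≤ (act κ v).card) :
    ∃ z ∈ YY n s M, inner ℝ (iv z) v = s * κ ∧ ‖iv z‖ ^ 2 = s := by
  obtain ⟨J, hJ, hJs⟩ := Finset.exists_subset_card_eq hcard
  let z : Fin n → ℤ := fun j => if j ∈ J then (if 0 ≤ v j then 1 else -1) else 0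
  have hz1 : ∀ j ∈ J, z j = 1 ∨ z j = -1 := by
    intro j hj
    simp only [z, if_pos hj]
    split_ifs
    · exact Or.inl rfl
    · exact Or.inr rfl
  have hz0 : ∀ j, j ∉ J → z j = 0 := fun j hj => by simp only [z, if_neg hj]
  refine ⟨z, ?_, ?_, ?_⟩
  · rw [mem_YY]
    refine ⟨?_, ?_, ?_⟩
    · intro h
      have hne : J.Nonempty := by
        rw [← Finset.card_pos]
        omega
      obtain ⟨j, hj⟩ := hne
      have := congrFun h j
      rcases hz1 j hj with h1 | h1 <;> rw [h1] at this <;> simp at this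
    · refine le_trans (Finset.card_le_card (t := J) ?_) hJs.le
      intro i hi
      simp only [Finset.mem_filter, Finset.mem_univ, true_and] at hi
      by_contra hc
      exact hi (hz0 i hc)
    · have h1 : ∑ i, |z i| = ∑ i ∈ J, |z i| := by
        symm
        apply Finset.sum_subset (Finset.subset_univ J)
        intro i _ hi
        simp [hz0 i hi]
      rw [h1]
      have h2 : ∑ i ∈ J, |z i| = s := by
        have : ∀ i ∈ J, |z i| = 1 := by
          intro i hi
          rcases hz1 i hi with h1 | h1 <;> rw [h1] <;> simp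
        rw [Finset.sum_congr rfl this]
        simp [hJs]
      rw [h2]
      have : s ≤ s * M := Nat.le_mul_of_pos_right s (by omega)
      exact_mod_cast this
  · rw [PiLp.inner_apply]
    have h1 : ∑ i, inner ℝ (iv z i) (v i) = ∑ i ∈ J, (z i : ℝ) * v i := by
      symm
      have : ∀ i, inner ℝ (iv z i) (v i) = (z i : ℝ) * v i := by
        intro i
        simp [mul_comm]
      simp_rw [this]
      apply Finset.sum_subset (Finset.subset_univ J)
      intro i _ hi
      simp [hz0 i hi]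
    rw [h1]
    have h2 : ∀ i ∈ J, (z i : ℝ) * v i = κ := by
      intro i hi
      have h3 := mem_act.mp (hJ hi)
      simp only [z, if_pos hi]
      split_ifs with h4
      · rw [abs_of_nonneg h4] at h3
        simp [h3]
      · push Not at h4
        rw [abs_of_neg h4] at h3
        simp [h3]
    rw [Finset.sum_congr rfl h2]
    simp [hJs]
  · rw [norm_sq_eq]
    have h1 : ∑ j, (iv z j) ^ 2 = ∑ j ∈ J, ((z j : ℝ)) ^ 2 := by
      symm
      apply Finset.sum_subset (Finset.subset_univ J)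
      intro i _ hi
      simp [hz0 i hi]
    rw [h1]
    have h2 : ∀ i ∈ J, ((z i : ℝ)) ^ 2 = 1 := by
      intro i hi
      rcases hz1 i hi with h1 | h1 <;> rw [h1] <;> simp
    rw [Finset.sum_congr rfl h2]
    simp [hJs]

/-- the item controlling the column `j` -/
noncomputable def cX {n : ℕ} (R0 : Submodule ℝ (E n)) (r0 : ℕ) (lam : ℝ) (j : Fin n) : XItem n :=
  ⟨1 / (n : ℝ) ^ 2, Az R0 r0 (EuclideanSpace.single j 1),
    Real.exp (-(Az R0 r0 (EuclideanSpace.single j 1) * lam / n) / 2), EuclideanSpace.single j 1⟩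

theorem cX_prod {n : ℕ} (R0 : Submodule ℝ (E n)) (r0 : ℕ) (lam κ : ℝ) (j : Fin n)
    (hκ2 : κ ^ 2 = lam / n) (L : List (E n)) :
    Real.exp (cnt κ j L * ((Az R0 r0 (EuclideanSpace.single j 1) * lam / n) / 2 - 1 / 25) -
      L.length * Real.exp (-(Az R0 r0 (EuclideanSpace.single j 1) * lam / n) / 2)) ≤
      (L.map (fX (cX R0 r0 lam j))).prod := by
  set a := Az R0 r0 (EuclideanSpace.single j 1) * lam / n with ha
  set B := Real.exp (-a / 2) with hB
  have hBpos : 0 < B := Real.exp_pos _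
  induction L with
  | nil => simp [cnt]
  | cons v L ih =>
    rw [List.map_cons, List.prod_cons, cnt_cons, List.length_cons]
    have hexp : Real.exp (((if |v j| = κ then (1 : ℝ) else 0) + cnt κ j L) * (a / 2 - 1 / 25) -
        ((L.length + 1 : ℕ) : ℝ) * B) =
        Real.exp ((if |v j| = κ then (1 : ℝ) else 0) * (a / 2 - 1 / 25) - B) *
        Real.exp (cnt κ j L * (a / 2 - 1 / 25) - L.length * B) := by
      rw [← Real.exp_add]
      congr 1
      push_cast
      ring
    rw [hexp]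
    apply mul_le_mul _ ih (Real.exp_pos _).le
    · exact (fX_pos _ hBpos.le v).le
    · have h1 : fX (cX R0 r0 lam j) v = (1 + B * Real.exp (Az R0 r0 (EuclideanSpace.single j 1) *
          (v j) ^ 2 - 1 / 25)) / (1 + B) := by
        unfold fX cX
        simp only [coord_eq_inner]
        rfl
      rw [h1, Real.exp_sub, div_le_div_iff₀ (Real.exp_pos _) (by positivity)]
      have h2 : 1 + B ≤ Real.exp B := by linarith [Real.add_one_le_exp B]
      have h3 : Real.exp ((if |v j| = κ then (1 : ℝ) else 0) * (a / 2 - 1 / 25)) ≤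
          1 + B * Real.exp (Az R0 r0 (EuclideanSpace.single j 1) * (v j) ^ 2 - 1 / 25) := by
        split_ifs with h
        · have h4 : (v j) ^ 2 = lam / n := by rw [← sq_abs, h, hκ2]
          have h5 : B * Real.exp (Az R0 r0 (EuclideanSpace.single j 1) * (v j) ^ 2 - 1 / 25) =
              Real.exp (1 * (a / 2 - 1 / 25)) := by
            rw [h4, hB, ← Real.exp_add]
            congr 1
            rw [ha]
            ring
          rw [h5]
          linarith
        · rw [zero_mul, Real.exp_zero]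
          have := Real.exp_pos (Az R0 r0 (EuclideanSpace.single j 1) * (v j) ^ 2 - 1 / 25)
          have : 0 < B * Real.exp (Az R0 r0 (EuclideanSpace.single j 1) * (v j) ^ 2 - 1 / 25) := by
            positivity
          linarith
      gcongr

theorem batch {n : ℕ} {ιX : Type} [Fintype ιX] (XS : ιX → XItem n) (R0 : Submodule ℝ (E n))
    (r0 s M q : ℕ) (ξ ϖ lam : ℝ) (hn : 1 ≤ n) (hr0 : r0 = Module.finrank ℝ R0) (hs1 : 1 ≤ s)
    (hM : 1 ≤ M) (hξ0 : 0 < ξ) (hξ1 : ξ ≤ 1) (hϖ0 : 0 < ϖ) (hlam : 0 < lam)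
    (hlow : ∀ z ∈ YY n s M, ξ * ‖iv z‖ ^ 2 ≤ pn R0 (iv z))
    (hup : ∀ z ∈ YY n s M, pn R0 (iv z) ≤ ϖ * ‖iv z‖ ^ 2)
    (hXW : ∀ e, 0 ≤ (XS e).W) (hXB : ∀ e, 0 ≤ (XS e).B) (hXA : ∀ e, 0 ≤ (XS e).A)
    (hXX : ∀ e, (XS e).A * pn R0 (XS e).x ≤ 3 * r0 / 4000)
    (hX5 : TX XS [] ≤ 5)
    (hq4 : 4 * q ≤ r0) (hr40 : 40 ≤ r0) (hMξ : 4 ≤ M * Real.sqrt (ξ / 2))
    (h4 : Real.log (8 * n * (YY n s M).card) ≤ q / 10000)
    (h5 : ((q : ℝ) + 1) / 25 + Real.log (8 * n * (YY n s M).card) <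
      s * (r0 * lam / (2000 * ϖ * n)))
    (h6 : 8 * s ≤ 3 * r0) (h8 : 81 * (q : ℝ) / r0 ≤ ξ / 640)
    (h7a : Real.log (8 * (n : ℝ) ^ 2) ≤ ξ * q / 1280)
    (h7b : Real.exp (-(r0 * lam / (2000 * ϖ * n)) / 2) ≤ ξ / 1280)
    (h7c : 3 ≤ r0 * lam / (2000 * ϖ * n)) :
    ∃ L : List (E n), L.length = q ∧ Ch R0 L ∧ (∀ v ∈ L, ∀ j, |v j| ≤ Real.sqrt (lam / n)) ∧
      TX XS L ≤ TX XS [] + 3 / n ∧ ∀ z ∈ YY n s M,
        (q : ℝ) / (10 * r0) * pn R0 (iv z) ≤ cap (iv z) L ∧
        cap (iv z) L ≤ 81 * (q : ℝ) / r0 * pn R0 (iv z) := by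
  have hn' : (0 : ℝ) < n := by exact_mod_cast hn
  have hn1' : (1 : ℝ) ≤ n := by exact_mod_cast hn
  have hs' : (0 : ℝ) < s := by exact_mod_cast hs1
  have hr0' : (0 : ℝ) < r0 := by
    have : 0 < r0 := by omega
    exact_mod_cast this
  set κ := Real.sqrt (lam / n) with hκ
  have hκ2 : κ ^ 2 = lam / n := Real.sq_sqrt (by positivity)
  have hYne : (YY n s M).Nonempty := ⟨_, single_mem_YY hs1 hM (⟨0, hn⟩ : Fin n)⟩
  have hYc : (0 : ℝ) < (YY n s M).card := by exact_mod_cast Finset.card_pos.mpr hYne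
  let ιY : Type := {z // z ∈ YY n s M}
  haveI : Nonempty ιY := ⟨⟨_, single_mem_YY hs1 hM (⟨0, hn⟩ : Fin n)⟩⟩
  haveI : Fintype ιY := inferInstanceAs (Fintype {z // z ∈ YY n s M})
  have hcardY : (Fintype.card ιY : ℝ) = (YY n s M).card := by
    have : Fintype.card ιY = (YY n s M).card := Fintype.card_coe _
    exact_mod_cast this
  let yv : ιY → E n := fun y => iv y.1
  set w0 : ℝ := 1 / (n * (YY n s M).card : ℝ) with hw0
  have hw0pos : 0 < w0 := by positivity
  set ℓ := Real.log (8 * n * (YY n s M).card) with hℓ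
  have hℓe : 8 / w0 ≤ Real.exp ℓ := by
    rw [hℓ, Real.exp_log (by positivity), hw0]
    apply le_of_eq
    field_simp
  have hX0 : ∀ z ∈ YY n s M, 0 < pn R0 (iv z) := by
    intro z hz
    have h1 := hlow z hz
    have h2 : 0 < ‖iv z‖ := norm_pos_iff.mpr (iv_ne_zero (mem_YY.mp hz).1)
    have h3 : 0 < ξ * ‖iv z‖ ^ 2 := by positivity
    linarith
  have hXj : ∀ j : Fin n, 0 < pn R0 (EuclideanSpace.single j 1) ∧
      pn R0 (EuclideanSpace.single j 1) ≤ ϖ := by
    intro j
    have h1 := hX0 _ (single_mem_YY hs1 hM j)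
    have h2 := hup _ (single_mem_YY hs1 hM j)
    rw [iv_single] at h1 h2
    refine ⟨h1, ?_⟩
    simpa using h2
  -- extended family
  let XC : ιX ⊕ Fin n → XItem n := Sum.elim XS (cX R0 r0 lam)
  have hXCW : ∀ e, 0 ≤ (XC e).W := by
    rintro (e | j)
    · exact hXW e
    · simp only [XC, Sum.elim_inr, cX]; positivity
  have hXCB : ∀ e, 0 ≤ (XC e).B := by
    rintro (e | j)
    · exact hXB e
    · simp only [XC, Sum.elim_inr, cX]; positivity
  have hXCA : ∀ e, 0 ≤ (XC e).A := by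
    rintro (e | j)
    · exact hXA e
    · have := (hXj j).1
      simp only [XC, Sum.elim_inr, cX, Az]
      positivity
  have hXCX : ∀ e, (XC e).A * pn R0 (XC e).x ≤ 3 * r0 / 4000 := by
    rintro (e | j)
    · exact hXX e
    · have := (hXj j).1
      simp only [XC, Sum.elim_inr, cX, Az]
      have h1 : (r0 : ℝ) / (2000 * pn R0 (EuclideanSpace.single j 1)) *
        pn R0 (EuclideanSpace.single j 1) = r0 / 2000 := by field_simp
      rw [h1]
      linarith
  have hTXC : ∀ L, TX XC L = TX XS L + TX (cX R0 r0 lam) L := by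
    intro L
    unfold TX
    rw [Fintype.sum_sum_type]
    rfl
  have hTc0 : TX (cX R0 r0 lam) [] = 1 / n := by
    unfold TX cX
    simp
    field_simp
  have hTU0 : TU yv R0 r0 w0 [] = 1 / n := by
    unfold TU cap
    simp only [List.map_nil, List.sum_nil, mul_zero, List.length_nil, Nat.cast_zero, zero_div,
      sub_zero, Real.exp_zero, mul_one, Finset.sum_const, Finset.card_univ, nsmul_eq_mul]
    rw [hcardY, hw0]
    field_simp
  have hTL0 : TL yv R0 r0 w0 [] (fun _ => 0) = 1 / n := by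
    unfold TL cap
    simp only [List.map_nil, List.sum_nil, mul_zero, add_zero, Real.exp_zero, mul_one,
      Finset.sum_const, Finset.card_univ, nsmul_eq_mul]
    rw [hcardY, hw0]
    field_simp
  have hsign : ∀ v : E n, s ≤ (act κ v).card → ∃ y : ιY, inner ℝ (yv y) v = s * κ ∧
      ‖yv y‖ ^ 2 = s := by
    intro v hv
    obtain ⟨z, hz, h1, h2⟩ := sign_test (M := M) hs1 hM κ v hv
    exact ⟨⟨z, hz⟩, h1, h2⟩
  have hsp : ∀ R : Submodule ℝ (E n), (∀ y : ιY, ξ / 2 * ‖yv y‖ ^ 2 ≤ pn R (yv y)) →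
      ∀ x : E n, ∀ T : Finset (Fin n), T.card ≤ s → (∀ j, j ∉ T → x j = 0) →
      ξ / 8 * ‖x‖ ^ 2 ≤ pn R x := by
    intro R hR x T hT hx
    have := sparse_lower s M hs1 hM R (ξ / 2) (by positivity) (by linarith) hMξ
      (fun z hz => hR ⟨z, hz⟩) x T hT hx
    have e : ξ / 2 / 4 = ξ / 8 := by ring
    rw [← e]
    exact this
  have hyne : ∀ y : ιY, yv y ≠ 0 := fun y => iv_ne_zero (mem_YY.mp y.2).1
  -- the induction
  have hind : ∀ i : ℕ, i ≤ q → ∃ (L : List (E n)) (bs : ιY → ℝ), L.length = i ∧ Ch R0 L ∧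
      (∀ v ∈ L, ∀ j, |v j| ≤ κ) ∧
      TX XC L + TU yv R0 r0 w0 L + TL yv R0 r0 w0 L bs ≤ TX XS [] + 3 / n ∧
      (∀ y, bsLow R0 r0 ξ κ L (yv y) ≤ bs y) := by
    intro i
    induction i with
    | zero =>
      intro _
      refine ⟨[], fun _ => 0, rfl, trivial, by simp, ?_, ?_⟩
      · rw [hTXC, hTc0, hTU0, hTL0]
        apply le_of_eq
        ring
      · intro y
        unfold bsLow cap cnt
        simp
    | succ i ih =>
      intro hi
      obtain ⟨L, bs, hlen, hCh, hfl, hT, hbs⟩ := ih (by omega)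
      have hT8 : TX XC L + TU yv R0 r0 w0 L + TL yv R0 r0 w0 L bs ≤ 8 := by
        refine hT.trans ?_
        have : 3 / (n : ℝ) ≤ 3 := by
          rw [div_le_iff₀ hn']
          linarith
        linarith
      obtain ⟨v, bs', hvR, hv1, hvf, hvT, hvb⟩ := batch_step XC yv R0 r0 s q ξ ϖ lam κ ℓ w0 hn hr0
        hs1 hξ0 hξ1 hϖ0 hlam hκ hw0pos hℓe hsign hsp hyne (fun y => hlow y.1 y.2)
        (fun y => hup y.1 y.2) hXCW hXCB hXCA hXCX hq4 hr40 h4 h5 h6 h8 L bs (by omega) hCh hT8 hbs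
      refine ⟨v :: L, bs', by simp [hlen], ⟨hCh, hvR, hv1⟩, ?_, hvT.trans hT, hvb⟩
      intro u hu
      rcases List.mem_cons.mp hu with h | h
      · rw [h]; exact hvf
      · exact hfl u h
  obtain ⟨L, bs, hlen, hCh, hfl, hT, hbs⟩ := hind q le_rfl
  have hTXC0 := TX_nonneg (cX R0 r0 lam) L (fun j => hXCW (Sum.inr j)) (fun j => hXCB (Sum.inr j))
  have hTX0 := TX_nonneg XS L hXW hXB
  have hTU0' := TU_nonneg yv R0 r0 w0 hw0pos.le L
  have hTL0' := TL_nonneg yv R0 r0 w0 hw0pos.le L bs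
  have h3n : 3 / (n : ℝ) ≤ 3 := by
    rw [div_le_iff₀ hn']
    linarith
  rw [hTXC] at hT
  refine ⟨L, hlen, hCh, hfl, by linarith, ?_⟩
  intro z hz
  have hXz := hX0 z hz
  have hlen' : (L.length : ℝ) ≤ q := by rw [hlen]
  have hU := cap_upper2 yv R0 r0 q ℓ w0 hr0' hw0pos hℓe h4 L hlen' (by linarith)
    (⟨z, hz⟩ : ιY) hXz
  refine ⟨?_, hU⟩
  -- column counts
  have hcnt : ∀ j, cnt κ j L ≤ ξ * q / 640 := by
    intro j
    have hXj' := hXj j
    set aj := Az R0 r0 (EuclideanSpace.single j 1) * lam / n with haj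
    have h1 := cX_prod R0 r0 lam κ j hκ2 L
    rw [← haj] at h1
    have h2 : (1 / (n : ℝ) ^ 2) * (L.map (fX (cX R0 r0 lam j))).prod ≤ 8 := by
      have h3 : (cX R0 r0 lam j).W * (L.map (fX (cX R0 r0 lam j))).prod ≤
          TX (cX R0 r0 lam) L :=
        Finset.single_le_sum (f := fun j => (cX R0 r0 lam j).W * (L.map (fX (cX R0 r0 lam j))).prod)
          (fun j _ => mul_nonneg (hXCW (Sum.inr j)) (prod_fX_nonneg _ (hXCB (Sum.inr j)) _))
          (Finset.mem_univ j)
      have h4 : (cX R0 r0 lam j).W = 1 / (n : ℝ) ^ 2 := rfl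
      rw [h4] at h3
      linarith
    have h3 : (L.map (fX (cX R0 r0 lam j))).prod ≤ 8 * (n : ℝ) ^ 2 := by
      rw [one_div, inv_mul_le_iff₀ (by positivity)] at h2
      linarith
    have h4' : cnt κ j L * (aj / 2 - 1 / 25) - L.length * Real.exp (-aj / 2) ≤
        Real.log (8 * (n : ℝ) ^ 2) := by
      rw [Real.le_log_iff_exp_le (by positivity)]
      exact h1.trans h3
    have haa : r0 * lam / (2000 * ϖ * n) ≤ aj := by
      rw [haj]
      unfold Az
      have h5' := hXj'.1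
      have h6' := hXj'.2
      calc r0 * lam / (2000 * ϖ * n) = r0 / (2000 * ϖ) * lam / n := by field_simp
        _ ≤ _ := by gcongr
    have h6' : Real.exp (-aj / 2) ≤ ξ / 1280 := by
      refine le_trans ?_ h7b
      apply Real.exp_le_exp.mpr
      linarith
    have h7' : cnt κ j L * 1 ≤ cnt κ j L * (aj / 2 - 1 / 25) := by
      have := cnt_nonneg κ j L
      gcongr
      linarith
    have h8' : (L.length : ℝ) * Real.exp (-aj / 2) ≤ q * (ξ / 1280) := by
      rw [hlen]
      gcongr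
    linarith
  -- lower bound for the captured part
  set y : E n := iv z with hy
  set X := pn R0 y with hX
  set c := cap y L with hc
  have hc0 : 0 ≤ c := cap_nonneg _ _
  have hL := (TL_single yv R0 r0 w0 hw0pos.le L bs (⟨z, hz⟩ : ιY)).trans (show _ ≤ (8 : ℝ) by linarith)
  have hL2 : -(5 / 4) * Az R0 r0 y * c + bs ⟨z, hz⟩ ≤ ℓ := by
    have h1 : Real.exp (-(5 / 4) * Az R0 r0 y * c + bs ⟨z, hz⟩) ≤ Real.exp ℓ := by
      refine le_trans ?_ hℓe
      rw [le_div_iff₀ hw0pos]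
      have : w0 * Real.exp (-(5 / 4) * Az R0 r0 y * c + bs ⟨z, hz⟩) ≤ 8 := hL
      linarith
    exact Real.exp_le_exp.mp h1
  have hb := hbs ⟨z, hz⟩
  have hb' : Az R0 r0 y / (2 * r0) * (L.length * (X - c) -
    (16 / ξ) * (∑ j, cnt κ j L * (R0.starProjection y j) ^ 2 + L.length * c)) ≤ bs ⟨z, hz⟩ := hb
  have hS : ∑ j, cnt κ j L * (R0.starProjection y j) ^ 2 ≤ ξ * q / 640 * X := by
    calc ∑ j, cnt κ j L * (R0.starProjection y j) ^ 2 ≤
        ∑ j, ξ * q / 640 * (R0.starProjection y j) ^ 2 := by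
          apply Finset.sum_le_sum
          intro j _
          have := hcnt j
          gcongr
      _ = ξ * q / 640 * X := by
        rw [← Finset.mul_sum, ← norm_sq_eq]
        rfl
  rw [hlen] at hb'
  have hA : Az R0 r0 y = r0 / (2000 * X) := rfl
  have hq0 : (0 : ℝ) ≤ q := by positivity
  have hcX : c ≤ ξ / 640 * X := hU.trans (by gcongr)
  have hcX1 : c ≤ 1 / 640 * X := by nlinarith only [hcX, hξ1, hXz]
  have hin : q * X * (9 / 10) ≤ q * (X - c) -
    (16 / ξ) * (∑ j, cnt κ j L * (R0.starProjection y j) ^ 2 + q * c) := by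
    have k1 : (16 / ξ) * (∑ j, cnt κ j L * (R0.starProjection y j) ^ 2 + q * c) ≤
        (16 / ξ) * (ξ * q / 640 * X + q * (ξ / 640 * X)) := by gcongr
    have k2 : (16 / ξ) * (ξ * q / 640 * X + q * (ξ / 640 * X)) = q * X / 20 := by
      field_simp
      ring
    have k3 : q * c ≤ q * (1 / 640 * X) := by gcongr
    linarith only [k1, k2, k3, (by positivity : 0 ≤ (q : ℝ) * X)]
  have hb2 : Az R0 r0 y / (2 * r0) * (q * X * (9 / 10)) ≤ bs ⟨z, hz⟩ := by
    refine le_trans ?_ hb'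
    apply mul_le_mul_of_nonneg_left hin
    rw [hA]
    positivity
  have hb3 : Az R0 r0 y / (2 * r0) * (q * X * (9 / 10)) = q * (9 / 40000) := by
    rw [hA]
    field_simp
    ring
  have hfin : q * (1 / 10000 : ℝ) ≤ Az R0 r0 y * c := by
    rw [hb3] at hb2
    linarith
  rw [hA] at hfin
  have hfin2 : q * (1 / 10000 : ℝ) * (2000 * X) ≤ r0 * c := by
    have : r0 / (2000 * X) * c = r0 * c / (2000 * X) := by ring
    rw [this, le_div_iff₀ (by positivity)] at hfin
    exact hfin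
  rw [div_mul_eq_mul_div, div_le_iff₀ (by positivity)]
  linarith only [hfin2, (by positivity : 0 ≤ (r0 : ℝ) * c)]

end Run7.h589
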