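import Mathlib

open Finset

namespace Run7.h589

/-- The Euclidean norm of a finite complex vector. -/
noncomputable def l2 {ι : Type} [Fintype ι] (x : ι → ℂ) : ℝ := Real.sqrt (∑ i, ‖x i‖ ^ 2)

/-- The `m`-RIP: after multiplication by one positive scalar `c`, every submatrix formed by `m`
(distinct) columns satisfies `‖x‖ ≤ ‖Φ₀ x‖ ≤ 2 ‖x‖` for all complex vectors `x`. -/
def mRIP {κ : Type} [Fintype κ] {d : ℕ} (Φ : Matrix κ (Fin d) ℂ) (m : ℕ) : Prop :=
  ∃ c : ℝ, 0 < c ∧ ∀ (f : Fin m ↪ Fin d) (x : Fin m → ℂ),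
    l2 x ≤ l2 ((((c : ℂ) • Φ).submatrix id f).mulVec x) ∧
      l2 ((((c : ℂ) • Φ).submatrix id f).mulVec x) ≤ 2 * l2 x

/-- The submatrix of `U` formed by the rows with index in `Ω`. -/
def rowsOf {d : ℕ} (U : Matrix (Fin d) (Fin d) ℂ) (Ω : Finset (Fin d)) : Matrix Ω (Fin d) ℂ :=
  U.submatrix (fun i : Ω => (i : Fin d)) id

open Classical in
/-- The probability that the submatrix formed by a uniformly random `k`-element set of rows of `U`
has the `m`-RIP. -/
noncomputable def ripProb {d : ℕ} (U : Matrix (Fin d) (Fin d) ℂ) (m k : ℕ) : ℝ :=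
  (((univ : Finset (Fin d)).powersetCard k).filter (fun Ω => mRIP (rowsOf U Ω) m)).card /
    ((univ : Finset (Fin d)).powersetCard k).card

/-- The least `k` for which a random `k`-row submatrix of `U` has the `m`-RIP with probability at
least `1/2`. -/
noncomputable def kU {d : ℕ} (U : Matrix (Fin d) (Fin d) ℂ) (m : ℕ) : ℕ :=
  sInf {k : ℕ | 1 / 2 ≤ ripProb U m k}

end Run7.h589
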