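import Pool.Agent.Run7.h589.Rip
import Pool.Agent.Run7.h589.Defs

open Finset

namespace Run7.h589

theorem l2_sq {ι : Type} [Fintype ι] (x : ι → ℂ) : l2 x ^ 2 = ∑ i, ‖x i‖ ^ 2 := by
  unfold l2
  exact Real.sq_sqrt (Finset.sum_nonneg fun _ _ => by positivity)

theorem l2_nonneg {ι : Type} [Fintype ι] (x : ι → ℂ) : 0 ≤ l2 x := Real.sqrt_nonneg _

/-- extension by zero along an embedding -/
noncomputable def xt {n m : ℕ} (f : Fin m ↪ Fin n) (y : Fin m → ℝ) : E n :=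
  WithLp.toLp 2 (fun j => ∑ a, if f a = j then y a else 0)

theorem xt_off {n m : ℕ} (f : Fin m ↪ Fin n) (y : Fin m → ℝ) (j : Fin n)
    (hj : j ∉ univ.map f) : xt f y j = 0 := by
  have h1 : xt f y j = ∑ a, if f a = j then y a else 0 := rfl
  rw [h1]
  apply Finset.sum_eq_zero
  intro a _
  rw [if_neg]
  intro h
  apply hj
  rw [Finset.mem_map]
  exact ⟨a, Finset.mem_univ _, h⟩

theorem xt_on {n m : ℕ} (f : Fin m ↪ Fin n) (y : Fin m → ℝ) (a : Fin m) :
    xt f y (f a) = y a := by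
  have h1 : xt f y (f a) = ∑ a', if f a' = f a then y a' else 0 := rfl
  rw [h1]
  rw [Finset.sum_eq_single a]
  · simp
  · intro a' _ h
    rw [if_neg]
    intro h2
    exact h (f.injective h2)
  · intro h
    exact absurd (Finset.mem_univ a) h

theorem sum_emb {n m : ℕ} (f : Fin m ↪ Fin n) (F : Fin n → ℝ)
    (hF : ∀ j, j ∉ univ.map f → F j = 0) : ∑ j, F j = ∑ a, F (f a) := by
  rw [← Finset.sum_subset (Finset.subset_univ (univ.map f)) (fun j _ hj => hF j hj),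
    Finset.sum_map]

theorem xt_norm {n m : ℕ} (f : Fin m ↪ Fin n) (y : Fin m → ℝ) :
    ‖xt f y‖ ^ 2 = ∑ a, (y a) ^ 2 := by
  rw [norm_sq_eq, sum_emb f (fun j => (xt f y j) ^ 2)]
  · apply Finset.sum_congr rfl
    intro a _
    rw [xt_on]
  · intro j hj
    rw [xt_off f y j hj]
    norm_num

theorem xt_inner {n m : ℕ} (f : Fin m ↪ Fin n) (y : Fin m → ℝ) (w : E n) :
    inner ℝ (xt f y) w = ∑ a, w (f a) * y a := by
  rw [PiLp.inner_apply, sum_emb f (fun j => inner ℝ (xt f y j) (w j))]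
  · apply Finset.sum_congr rfl
    intro a _
    rw [xt_on]
    rfl
  · intro j hj
    rw [xt_off f y j hj]
    simp

theorem mRIP_of_net {n m : ℕ} (hm : 1 ≤ m) (hn : 1 ≤ n) (b : Fin n → E n) (Ω : Finset (Fin n))
    (kk : ℝ) (hkk : 0 < kk)
    (hnet : ∀ z ∈ YY n m 16, 7 / 8 * kk ≤ ∑ i ∈ Ω, nq z (b i) ∧ ∑ i ∈ Ω, nq z (b i) ≤ 9 / 8 * kk)
    (U : Matrix (Fin n) (Fin n) ℂ) (hU : ∀ i j, U i j = ((b i j : ℝ) : ℂ)) :
    mRIP (rowsOf U Ω) m := by
  have hn' : (0 : ℝ) < n := by exact_mod_cast hn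
  set c0 := Real.sqrt (n / kk) with hc0
  have hc00 : 0 < c0 := Real.sqrt_pos.mpr (by positivity)
  have hc2 : c0 ^ 2 = n / kk := Real.sq_sqrt (by positivity)
  refine ⟨5 / 4 * c0, by positivity, ?_⟩
  intro f x
  have hS : (univ.map f).card ≤ m := by simp
  set xr := xt f (fun a => (x a).re) with hxr
  set xi := xt f (fun a => (x a).im) with hxi
  have hr := sample_rip hm hn b Ω kk hkk hnet (univ.map f) hS xr (fun j hj => xt_off f _ j hj)
  have hi := sample_rip hm hn b Ω kk hkk hnet (univ.map f) hS xi (fun j hj => xt_off f _ j hj)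
  have hx2 : l2 x ^ 2 = ‖xr‖ ^ 2 + ‖xi‖ ^ 2 := by
    rw [l2_sq, hxr, hxi, xt_norm, xt_norm, ← Finset.sum_add_distrib]
    apply Finset.sum_congr rfl
    intro a _
    rw [Complex.sq_norm, Complex.normSq_apply]
    ring
  have hy2 : l2 (((((5 / 4 * c0 : ℝ) : ℂ) • rowsOf U Ω).submatrix id f).mulVec x) ^ 2 =
      (5 / 4) ^ 2 * (n / kk * ∑ i ∈ Ω, (inner ℝ xr (b i)) ^ 2 +
        n / kk * ∑ i ∈ Ω, (inner ℝ xi (b i)) ^ 2) := by
    rw [l2_sq, ← mul_add, ← Finset.sum_add_distrib, ← hc2, ← mul_assoc, ← mul_pow,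
      Finset.mul_sum]
    have h1 : ∀ i : Ω, ‖(((((5 / 4 * c0 : ℝ) : ℂ) • rowsOf U Ω).submatrix id f).mulVec x) i‖ ^ 2 =
        (fun i : Fin n => (5 / 4 * c0) ^ 2 * ((inner ℝ xr (b i)) ^ 2 +
          (inner ℝ xi (b i)) ^ 2)) i := by
      intro i
      have h2 : (((((5 / 4 * c0 : ℝ) : ℂ) • rowsOf U Ω).submatrix id f).mulVec x) i =
          ∑ a, (((5 / 4 * c0 : ℝ) : ℂ) * U i (f a)) * x a := rfl
      rw [h2, Complex.sq_norm, Complex.normSq_apply]
      have hre : (∑ a, (((5 / 4 * c0 : ℝ) : ℂ) * U i (f a)) * x a).re =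
          5 / 4 * c0 * inner ℝ xr (b i) := by
        rw [hxr, xt_inner, Finset.mul_sum, Complex.re_sum]
        apply Finset.sum_congr rfl
        intro a _
        rw [hU, ← Complex.ofReal_mul, Complex.re_ofReal_mul]
        ring
      have him : (∑ a, (((5 / 4 * c0 : ℝ) : ℂ) * U i (f a)) * x a).im =
          5 / 4 * c0 * inner ℝ xi (b i) := by
        rw [hxi, xt_inner, Finset.mul_sum, Complex.im_sum]
        apply Finset.sum_congr rfl
        intro a _
        rw [hU, ← Complex.ofReal_mul, Complex.im_ofReal_mul]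
        ring
      rw [hre, him]
      simp only
      ring
    simp_rw [h1]
    exact Finset.sum_coe_sort Ω (fun i : Fin n => (5 / 4 * c0) ^ 2 * ((inner ℝ xr (b i)) ^ 2 +
          (inner ℝ xi (b i)) ^ 2))
  have hl1 := l2_nonneg x
  have hl2 := l2_nonneg (((((5 / 4 * c0 : ℝ) : ℂ) • rowsOf U Ω).submatrix id f).mulVec x)
  constructor
  · apply le_of_pow_le_pow_left₀ (n := 2) (by norm_num) hl2
    rw [hy2, hx2]
    have := hr.1
    have := hi.1
    linarith
  · apply le_of_pow_le_pow_left₀ (n := 2) (by norm_num) (by positivity)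
    rw [hy2, mul_pow, hx2]
    have h1 := hr.2
    have h2 := hi.2
    have h3 : 0 ≤ ‖xr‖ ^ 2 := by positivity
    have h4 : 0 ≤ ‖xi‖ ^ 2 := by positivity
    linarith

end Run7.h589
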