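import Pool.Agent.Run7.h589.Assemble2
import Pool.Agent.Run7.h589.Cplx

open Finset

namespace Run7.h589

theorem parseval {n : ℕ} (hn : 1 ≤ n) (b : Fin n → E n) (hb : Orthonormal ℝ b) (x : E n) :
    ∑ i, (inner ℝ x (b i)) ^ 2 = ‖x‖ ^ 2 := by
  have : Nonempty (Fin n) := ⟨⟨0, hn⟩⟩
  have hc : Fintype.card (Fin n) = Module.finrank ℝ (E n) := by simp
  let B := basisOfOrthonormalOfCardEqFinrank hb hc
  have hB : (B : Fin n → E n) = b := coe_basisOfOrthonormalOfCardEqFinrank hb hc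
  let OB := B.toOrthonormalBasis (by rw [hB]; exact hb)
  have h1 := OB.sum_sq_norm_inner_right x
  have h2 : ∀ i, OB i = b i := by
    intro i
    have : (OB : Fin n → E n) = B := by simp [OB]
    rw [this, hB]
  rw [← h1]
  apply Finset.sum_congr rfl
  intro i _
  rw [h2, Real.norm_eq_abs, sq_abs, real_inner_comm]

theorem nq_sum {n : ℕ} (hn : 1 ≤ n) (b : Fin n → E n) (hb : Orthonormal ℝ b) (z : Fin n → ℤ)
    (hz : z ≠ 0) : ∑ i, nq z (b i) = n := by
  have hz0 : 0 < ‖iv z‖ := norm_pos_iff.mpr (iv_ne_zero hz)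
  have h1 : ∑ i, nq z (b i) = n / ‖iv z‖ ^ 2 * ∑ i, (inner ℝ (iv z) (b i)) ^ 2 := by
    rw [Finset.mul_sum]
    apply Finset.sum_congr rfl
    intro i _
    unfold nq
    ring
  rw [h1, parseval hn b hb]
  field_simp

theorem nq_le {n : ℕ} (hn : 1 ≤ n) (b : Fin n → E n) (hb : Orthonormal ℝ b) (z : Fin n → ℤ)
    (hz : z ≠ 0) (i : Fin n) : nq z (b i) ≤ n := by
  rw [← nq_sum hn b hb z hz]
  exact Finset.single_le_sum (f := fun i => nq z (b i)) (fun i _ => nq_nonneg z (b i))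
    (Finset.mem_univ i)

/-- the failure probability for one sparsity level -/
theorem fail_prob {n T J m k : ℕ} (C0 lam : ℝ) (b v : Fin n → E n) (rt : Fin n → Fin n)
    (fr : Fin n → ℕ → Fin n) (lev : Fin n → ℕ) (Un : Finset (Fin n)) (hn : 1 ≤ n)
    (hb : Orthonormal ℝ b)
    (hF1 : ∀ k, ((univ.filter (fun i => labN rt i = some k)).card : ℝ) ≤ 2 ^ (lev k))
    (hF2 : ∀ l k, ((univ.filter (fun i => labM rt fr lev l i = some k)).card : ℝ) ≤ 2 ^ (l + 1))
    (hF3 : ∀ i l, l < lev (rt i) → lev (fr i l) = 0) (hF4 : ∀ k ∈ Un, 1 ≤ lev k)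
    (hlevn : ∀ k, (2 : ℝ) ^ (lev k) ≤ n) (hlevT : ∀ k, k ∉ Un → (2 : ℝ) ^ (lev k) ≤ 2 ^ T)
    (hz : ∀ z ∈ YY n m 16,
        (∀ i, nq z (b i) ≤ 2 * (1 / 2) ^ (lev (rt i)) * nq z (v (rt i)) +
          4 * ∑ l ∈ range (lev (rt i)), ((l : ℝ) + 1) ^ 2 * (1 / 2) ^ (l + 1) *
            nq z (v (fr i l))) ∧
        (∏ k' ∈ univ.filter (fun k' => k' ∉ Un), (1 + (k : ℝ) / n * 2 ^ (lev k') *
          Real.exp (1 / 10 ^ 7 * ((1 / 2) ^ (lev k') * nq z (v k') - lam))) ≤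
            Real.exp (5 * (m * Real.log n))) ∧
        (∀ S ⊆ Un, ∑ k ∈ S, (1 / 2) ^ (lev k) * nq z (v k) ≤ 1000 * Real.exp (-(T / 50)) *
          (5 * (m * Real.log n) + 2 * S.card * Real.log n)) ∧
        (∑ k ∈ Un, nq z (v k) ≤ n * piT T))
    (hJ : 1 ≤ J) (hm : 1 ≤ m) (hC1 : 1 ≤ C0) (hlam : 0 ≤ lam)
    (hC2 : 20480 * (2 * lam + 104 * (12 * J * 10 ^ 7 + (10 ^ 7 + lam))) ≤ C0)
    (hC3 : 46592 * 20 * J * 10 ^ 7 ≤ C0)
    (hk1 : C0 * m * Real.log n ≤ k) (hk2 : k ≤ (C0 + 1) * m * Real.log n)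
    (hmn : m * Real.exp (Real.log n / J) ≤ n)
    (N1 : 8 ≤ Real.log n) (N3 : (2 : ℝ) ^ T ≤ Real.exp (Real.log n / (4 * J)))
    (N4 : 1 / 10 ^ 7 * lam ≤ Real.log n / 2)
    (N5a : Real.exp (-(T / 50)) * Real.log n ^ 2 * 10 ^ 8 ≤ 1)
    (N5b : Real.log n ^ 4 * Real.exp (-(Real.log n / (4 * J))) *
      (320 * 10 ^ 7 * (9 + 2 * (C0 + 1)) * 192) ≤ 1) :
    k < n ∧ bP ((k : ℝ) / n) (fun Ω => ¬ ∀ z ∈ YY n m 16,
      7 / 8 * (k : ℝ) ≤ ∑ i ∈ Ω, nq z (b i) ∧ ∑ i ∈ Ω, nq z (b i) ≤ 9 / 8 * (k : ℝ)) ≤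
      9 * Real.exp (-(3 * Real.log n)) := by
  classical
  set L := Real.log n with hL
  have hn' : (0 : ℝ) < n := by exact_mod_cast hn
  have hnL : (n : ℝ) = Real.exp L := by rw [hL, Real.exp_log hn']
  have hm' : (1 : ℝ) ≤ m := by exact_mod_cast hm
  have hJ' : (1 : ℝ) ≤ J := by exact_mod_cast hJ
  have hL0 : 0 < L := by linarith
  have hLmLx : L ≤ m * L := le_mul_of_one_le_left hL0.le hm'
  have hmL : 8 ≤ m * L := N1.trans hLmLx
  set X := Real.exp (-(L / (4 * J))) with hX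
  have hX0 : 0 < X := Real.exp_pos _
  -- consequences of N5b
  have hN5b' : (C0 + 1) * L * X ≤ 1 / 1000 := by
    have h1 : L ^ 4 * X * (320 * 10 ^ 7 * (9 + 2 * (C0 + 1)) * 192) =
      ((C0 + 1) * L * X) * (L ^ 3 * (320 * 10 ^ 7 * 2 * 192)) +
        L ^ 4 * X * (320 * 10 ^ 7 * 9 * 192) := by ring
    rw [h1] at N5b
    have h2 : 0 ≤ L ^ 4 * X * (320 * 10 ^ 7 * 9 * 192) := by positivity
    have h3 : (1 : ℝ) ≤ L ^ 3 := by
      have : (1 : ℝ) ^ 3 ≤ L ^ 3 := by gcongr; linarith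
      linarith
    have h4 : 0 ≤ (C0 + 1) * L * X := by positivity
    have h5 : (C0 + 1) * L * X * 1 ≤ (C0 + 1) * L * X * L ^ 3 := mul_le_mul_of_nonneg_left h3 h4
    have h6 : ((C0 + 1) * L * X) * (L ^ 3 * (320 * 10 ^ 7 * 2 * 192)) ≤ 1 := by linarith only [N5b, h2]
    linarith only [h5, h6, h4]
  -- m ≤ n exp(-L/J)
  have hmn' : (m : ℝ) ≤ n * Real.exp (-(L / J)) := by
    rw [Real.exp_neg, ← div_eq_mul_inv, le_div_iff₀ (Real.exp_pos _)]
    exact hmn
  have hexp4 : Real.exp (-(L / J)) = X * X * X * X := by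
    rw [hX, ← Real.exp_add, ← Real.exp_add, ← Real.exp_add]
    congr 1
    field_simp
    ring
  have hX1 : X ≤ 1 := by
    rw [hX, Real.exp_le_one_iff]
    have : 0 ≤ L / (4 * J) := by positivity
    linarith
  have hp4 : (k : ℝ) / n ≤ (C0 + 1) * L * (X * X * X * X) := by
    rw [div_le_iff₀ hn', ← hexp4]
    calc (k : ℝ) ≤ (C0 + 1) * m * L := hk2
      _ ≤ (C0 + 1) * (n * Real.exp (-(L / J))) * L := by gcongr
      _ = _ := by ring
  have hkpos : (0 : ℝ) < k := by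
    refine lt_of_lt_of_le ?_ hk1
    positivity
  have hk1' : (1 : ℝ) ≤ k := by
    have : 0 < k := by exact_mod_cast hkpos
    exact_mod_cast this
  set p : ℝ := (k : ℝ) / n with hp
  have hp0 : 0 < p := by positivity
  have hpX : p ≤ X / 1000 := by
    calc p ≤ ((C0 + 1) * L * X) * (X * X * X) := by linarith
      _ ≤ (1 / 1000) * (X * 1 * 1) := by gcongr
      _ = _ := by ring
  have hp1 : p ≤ 1 := by linarith
  have hkn : k < n := by
    have : (k : ℝ) < n := by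
      have h1 : (k : ℝ) = p * n := by rw [hp]; field_simp
      rw [h1]
      have : p < 1 := by linarith only [hpX, hX1]
      exact mul_lt_of_lt_one_left hn' this
    exact_mod_cast this
  refine ⟨hkn, ?_⟩
  have hkk : (k : ℝ) = p * n := by rw [hp]; field_simp
  have hkmL : m * L ≤ k := by
    refine le_trans ?_ hk1
    rw [mul_assoc]
    exact le_mul_of_one_le_left (by positivity) hC1
  -- parameters
  set Q := Real.exp (L / (4 * J)) with hQ
  have hQ0 : 0 < Q := Real.exp_pos _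
  have hQX : X = 1 / Q := by rw [hX, hQ, Real.exp_neg, one_div]
  set s := L / (2 * J) with hs
  set Lm := Nat.log 2 n with hLm
  set Λ0 : ℝ := 12 * J * 10 ^ 7 + (10 ^ 7 + lam) with hΛ0
  set Λs : ℝ := 2 * lam + 104 * Λ0 with hΛs
  set a1 : ℝ := k / (33280 * J) with ha1
  set H : ℝ := 5 * (m * L) with hH
  have hΛ00 : 0 < Λ0 := by positivity
  have hΛs0 : 0 < Λs := by positivity
  have hLmn : 2 ^ Lm ≤ n := Nat.pow_log_le_self 2 (by omega)
  have hLmL : (Lm : ℝ) ≤ 2 * L := by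
    have h1 : ((2 : ℝ) ^ Lm) ≤ n := by exact_mod_cast hLmn
    have h2 := Real.log_le_log (by positivity) h1
    rw [Real.log_pow] at h2
    have h3 := Real.log_two_gt_d9
    have h4 : (0 : ℝ) ≤ Lm := Nat.cast_nonneg _
    have h5 : (Lm : ℝ) * (1 / 2) ≤ Lm * Real.log 2 := by
      apply mul_le_mul_of_nonneg_left _ h4
      linarith only [h3]
    linarith only [h2, h5]
  have hLmn' : Lm ≤ n := by
    have := Nat.lt_two_pow_self (n := Lm)
    omega
  have hlevLm : ∀ k, lev k ≤ Lm := by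
    intro k
    have h1 := hlevn k
    have h2 : 2 ^ (lev k) ≤ n := by exact_mod_cast h1
    exact Nat.le_log_of_pow_le (by norm_num) h2
  have hexpLm : (1 + (Lm : ℝ)) ≤ 2 * n := by
    have : (Lm : ℝ) ≤ n := by exact_mod_cast hLmn'
    have : (1 : ℝ) ≤ n := by exact_mod_cast hn
    linarith
  -- the exponent for the excess events
  have hθa : H - 1 / 10 ^ 7 / 2 * a1 ≤ -(9 * (m * L)) := by
    have h1 : 14 * (m * L) ≤ 1 / 10 ^ 7 / 2 * a1 := by
      rw [ha1]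
      have h2 : 1 / 10 ^ 7 / 2 * ((k : ℝ) / (33280 * J)) = k / (2 * 10 ^ 7 * 33280 * J) := by
        field_simp
      rw [h2, le_div_iff₀ (by positivity)]
      calc 14 * (m * L) * (2 * 10 ^ 7 * 33280 * J) = (46592 * 20 * J * 10 ^ 7) * (m * L) := by ring
        _ ≤ C0 * (m * L) := by gcongr
        _ = C0 * m * L := by ring
        _ ≤ _ := hk1
    rw [hH]
    linarith
  have hexp9 : Real.exp (H - 1 / 10 ^ 7 / 2 * a1) ≤ Real.exp (-(9 * (m * L))) :=
    Real.exp_le_exp.mpr hθa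
  have hexpΛ : Real.exp (-((k : ℝ) / (4096 * Λs))) ≤ Real.exp (-(5 * (m * L))) := by
    apply Real.exp_le_exp.mpr
    have h1 : 5 * (m * L) ≤ (k : ℝ) / (4096 * Λs) := by
      rw [le_div_iff₀ (by positivity)]
      calc 5 * (m * L) * (4096 * Λs) = (20480 * Λs) * (m * L) := by ring
        _ ≤ C0 * (m * L) := by gcongr
        _ = C0 * m * L := by ring
        _ ≤ _ := hk1
    linarith
  -- caps
  have hcaps := caps_prob rt fr lev Un Lm (20 * J) Q p k s hp0.le hp1 hn hkk (by positivity)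
    (by
      have h1 : Real.exp s = Q * Q := by
        rw [hQ, ← Real.exp_add, hs]
        congr 1
        field_simp
        ring
      rw [h1]
      have h2 : p * Q * (Q * Q - 1) ≤ p * (Q * Q * Q) := by
        have : 0 ≤ p * Q := by positivity
        linarith only [this]
      refine h2.trans ?_
      have h3 : p * (Q * Q * Q) ≤ (C0 + 1) * L * (X * X * X * X) * (Q * Q * Q) := by gcongr
      refine h3.trans ?_
      have h4 : X * Q = 1 := by rw [hQX]; field_simp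
      calc (C0 + 1) * L * (X * X * X * X) * (Q * Q * Q) =
          ((C0 + 1) * L * X) * ((X * Q) * (X * Q) * (X * Q)) := by ring
        _ = (C0 + 1) * L * X := by rw [h4]; ring
        _ ≤ 1 := by linarith)
    (by
      push_cast
      have h1 : s * (20 * J + 1) = 10 * L + s := by
        rw [hs]; field_simp; ring
      rw [h1]
      have : 0 ≤ s := by positivity
      linarith) hLmn' hF1 hF2
    (fun k hk => (hlevT k hk).trans N3)
  rw [← hL] at hcaps
  -- smallness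
  have hpow : ∀ a : ℕ, Real.exp (-(a * L)) = 1 / (n : ℝ) ^ a := by
    intro a
    rw [hnL, Real.exp_neg, ← Real.exp_nat_mul, one_div]
  have hn2000 : (2000 : ℝ) ≤ n := by
    rw [hnL]
    have h1 : Real.exp 8 ≤ Real.exp L := Real.exp_le_exp.mpr N1
    have h2 : (2.7 : ℝ) ^ 8 ≤ Real.exp 8 := by
      have h3 : (2.7 : ℝ) ≤ Real.exp 1 := by
        have := Real.exp_one_gt_d9
        linarith
      calc (2.7 : ℝ) ^ 8 ≤ (Real.exp 1) ^ 8 := by gcongr
        _ = Real.exp 8 := by rw [← Real.exp_nat_mul]; norm_num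
    have h4 : (2000 : ℝ) ≤ 2.7 ^ 8 := by norm_num
    linarith
  have hpc : 5 * (n : ℝ) ^ 2 * Real.exp (-(9 * L)) = 5 / (n : ℝ) ^ 7 := by
    have := hpow 9
    push_cast at this
    rw [this]
    field_simp
  have hexc : (1 + (Lm : ℝ)) * Real.exp (H - 1 / 10 ^ 7 / 2 * a1) ≤ 2 / (n : ℝ) ^ 8 := by
    have h1 : Real.exp (-(9 * (m * L))) ≤ Real.exp (-(9 * L)) := by
      apply Real.exp_le_exp.mpr
      linarith
    have h2 := hpow 9
    push_cast at h2
    rw [h2] at h1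
    calc (1 + (Lm : ℝ)) * Real.exp (H - 1 / 10 ^ 7 / 2 * a1) ≤ 2 * n * (1 / (n : ℝ) ^ 9) := by
          apply mul_le_mul hexpLm (hexp9.trans h1) (Real.exp_pos _).le (by positivity)
      _ = _ := by field_simp
  have hsmall : (5 * (n : ℝ) ^ 2 * Real.exp (-(9 * L)) +
      (1 + (Lm : ℝ)) * Real.exp (H - 1 / 10 ^ 7 / 2 * a1)) * (n : ℝ) ^ 2 ≤ 1 / 32 := by
    rw [hpc]
    have h1 : (5 / (n : ℝ) ^ 7 + (1 + (Lm : ℝ)) * Real.exp (H - 1 / 10 ^ 7 / 2 * a1)) *
        (n : ℝ) ^ 2 ≤ (5 / (n : ℝ) ^ 7 + 2 / (n : ℝ) ^ 8) * (n : ℝ) ^ 2 := by gcongr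
    refine h1.trans ?_
    have h2 : (2 : ℝ) / (n : ℝ) ^ 8 ≤ 2 / (n : ℝ) ^ 7 := by
      apply div_le_div_of_nonneg_left (by norm_num) (by positivity)
      exact pow_le_pow_right₀ (by linarith) (by norm_num)
    have h3 : (5 / (n : ℝ) ^ 7 + 2 / (n : ℝ) ^ 7) * (n : ℝ) ^ 2 = 7 / (n : ℝ) ^ 5 := by
      field_simp
      norm_num
    have h4 : (5 / (n : ℝ) ^ 7 + 2 / (n : ℝ) ^ 8) * (n : ℝ) ^ 2 ≤ 7 / (n : ℝ) ^ 5 := by
      rw [← h3]
      gcongr
    refine h4.trans ?_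
    rw [div_le_div_iff₀ (by positivity) (by norm_num)]
    have h5 : (n : ℝ) ^ 1 ≤ (n : ℝ) ^ 5 := pow_le_pow_right₀ (by linarith) (by norm_num)
    linarith
  -- the deterministic budget
  have hXb : 26 * ((20 * J : ℕ) : ℝ) * a1 +
      18 * L * (1000 * Real.exp (-(T / 50)) * (H + 2 * (9 * L + 2 * k) * L)) +
      4 * p * (n * piT T) +
      4 * (Lm : ℝ) ^ 3 * (9 * L / Q + 2 * p) * (2 / (1 / 10 ^ 7) * H) ≤ (k : ℝ) / 32 := by
    have t1 : 26 * ((20 * J : ℕ) : ℝ) * a1 = k / 64 := by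
      rw [ha1]; push_cast; field_simp; ring
    have eT : 0 < Real.exp (-(T / 50 : ℝ)) := Real.exp_pos _
    have t2 : 18 * L * (1000 * Real.exp (-(T / 50)) * (H + 2 * (9 * L + 2 * k) * L)) ≤
        (k : ℝ) / 192 := by
      have h1 : H + 2 * (9 * L + 2 * k) * L ≤ 27 * (k * L) := by
        rw [hH]
        have h2 : m * L ≤ k * L := by
          have h3 : (k : ℝ) * 1 ≤ k * L := by gcongr; linarith
          linarith
        have h4 : L * L ≤ k * L := by
          have : L ≤ k := by exact hLmLx.trans hkmL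
          gcongr
        linarith only [h2, h4]
      calc 18 * L * (1000 * Real.exp (-(T / 50)) * (H + 2 * (9 * L + 2 * k) * L)) ≤
          18 * L * (1000 * Real.exp (-(T / 50)) * (27 * (k * L))) := by gcongr
        _ = (Real.exp (-(T / 50)) * L ^ 2 * 10 ^ 8) * (k * (486000 / 10 ^ 8)) := by ring
        _ ≤ 1 * (k * (486000 / 10 ^ 8)) := by gcongr
        _ ≤ _ := by linarith only [hkpos]
    have t3 : 4 * p * (n * piT T) ≤ (k : ℝ) / 192 := by
      have h1 : 4 * p * (n * piT T) = 4 * k * piT T := by rw [hkk]; ring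
      rw [h1]
      have h2 : piT T ≤ Real.exp (-(T / 50 : ℝ)) := by
        unfold piT
        apply Real.exp_le_exp.mpr
        have : (0 : ℝ) ≤ T := Nat.cast_nonneg _
        linarith
      have h3 : Real.exp (-(T / 50 : ℝ)) * 10 ^ 8 ≤ 1 := by
        refine le_trans ?_ N5a
        have : (1 : ℝ) ≤ L ^ 2 := one_le_pow₀ (by linarith only [N1])
        calc Real.exp (-(T / 50 : ℝ)) * 10 ^ 8 = Real.exp (-(T / 50 : ℝ)) * 1 * 10 ^ 8 := by ring
          _ ≤ _ := by gcongr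
      have h4 : piT T ≤ 1 / 10 ^ 8 := by linarith only [h2, h3]
      calc 4 * (k : ℝ) * piT T ≤ 4 * k * (1 / 10 ^ 8) := by gcongr
        _ ≤ _ := by linarith only [hkpos]
    have t4 : 4 * (Lm : ℝ) ^ 3 * (9 * L / Q + 2 * p) * (2 / (1 / 10 ^ 7) * H) ≤ (k : ℝ) / 192 := by
      have h1 : 9 * L / Q + 2 * p ≤ L * X * (9 + 2 * (C0 + 1)) := by
        have h2 : 9 * L / Q = 9 * L * X := by rw [hQX]; ring
        have h3 : p ≤ (C0 + 1) * L * X := by
          refine hp4.trans ?_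
          calc (C0 + 1) * L * (X * X * X * X) ≤ (C0 + 1) * L * (X * 1 * 1 * 1) := by gcongr
            _ = _ := by ring
        rw [h2]
        linarith only [h3]
      have h2 : 2 / (1 / 10 ^ 7) * H ≤ 10 ^ 8 * k := by
        rw [hH]
        have h3 : (2 : ℝ) / (1 / 10 ^ 7) = 2 * 10 ^ 7 := by norm_num
        rw [h3]
        linarith only [hkmL]
      have h2' : 0 ≤ 2 / (1 / 10 ^ 7) * H := by positivity
      have h3 : (Lm : ℝ) ^ 3 ≤ (2 * L) ^ 3 := by gcongr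
      calc 4 * (Lm : ℝ) ^ 3 * (9 * L / Q + 2 * p) * (2 / (1 / 10 ^ 7) * H) ≤
          4 * (2 * L) ^ 3 * (L * X * (9 + 2 * (C0 + 1))) * (10 ^ 8 * k) := by gcongr
        _ = (L ^ 4 * X * (320 * 10 ^ 7 * (9 + 2 * (C0 + 1)) * 192)) * (k / 192) := by ring
        _ ≤ 1 * (k / 192) := by gcongr
        _ = _ := by ring
    rw [t1]
    linarith
  -- one vector
  have hone : ∀ z ∈ YY n m 16, bP p (fun Ω => Caps rt fr lev Un Lm (20 * J) Q p k Ω ∧
      ¬ (7 / 8 * (k : ℝ) ≤ ∑ i ∈ Ω, nq z (b i) ∧ ∑ i ∈ Ω, nq z (b i) ≤ 9 / 8 * (k : ℝ))) ≤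
      (1 + Lm) * Real.exp (H - 1 / 10 ^ 7 / 2 * a1) + 2 * Real.exp (-((k : ℝ) / (4096 * Λs))) := by
    intro z hzm
    have hz1 := hz z hzm
    have hz0 : z ≠ 0 := (mem_YY.mp hzm).1
    apply per_x rt fr lev Un Lm (20 * J) Q p k lam Λ0 Λs (1000 * Real.exp (-(T / 50)))
      (n * piT T) (1 / 10 ^ 7) H a1 (5 * (n : ℝ) ^ 2 * Real.exp (-(9 * L)))
      (fun k => nq z (v k)) (fun i => nq z (b i)) hp0 hp1 hQ0 hn (by positivity) hkk hk1'
      (by norm_num) (by positivity) (by positivity) (fun k => nq_nonneg z (v k))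
      (fun i => nq_nonneg z (b i)) (fun i => nq_le hn b hb z hz0 i) (nq_sum hn b hb z hz0)
      hz1.1 hF1 hF2 hF3 hF4 hlevLm hΛs hlam
    · rw [hΛ0]
      have : (0 : ℝ) ≤ 12 * J := by positivity
      ring_nf
      linarith
    · exact hz1.2.1
    · intro A hA
      exact hz1.2.2.1 A hA
    · exact hz1.2.2.2
    · intro l _ hl
      rw [← hL]
      have h1 : L / (4 * J) < (l + 1 : ℝ) := by
        have h2 := Real.log_lt_log hQ0 hl
        rw [hQ, Real.log_exp, Real.log_pow] at h2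
        have h3 := log_two_lt
        push_cast at h2
        have h4 : (0 : ℝ) ≤ l := Nat.cast_nonneg _
        have h5 : ((l : ℝ) + 1) * Real.log 2 ≤ ((l : ℝ) + 1) * 1 := by
          apply mul_le_mul_of_nonneg_left _ (by positivity)
          linarith only [h3]
        linarith only [h2, h5]
      have h2 : L < 4 * J * (l + 1) := by
        rw [div_lt_iff₀ (by positivity)] at h1
        linarith
      have h3 : 12 * (J : ℝ) * 10 ^ 7 ≤ Λ0 := by
        rw [hΛ0]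
        linarith
      have h4 : (0 : ℝ) ≤ (l : ℝ) + 1 := by positivity
      have h5 : 1 / 10 ^ 7 / 2 * (12 * (J : ℝ) * 10 ^ 7 * (l + 1)) ≤
          1 / 10 ^ 7 / 2 * (Λ0 * (l + 1)) := by gcongr
      refine le_trans ?_ h5
      linarith
    · exact hcaps
    · exact hsmall
    · rw [← hL]
      exact hXb
  -- union bound
  have hcover : ∀ Ω : Finset (Fin n), (¬ ∀ z ∈ YY n m 16,
      7 / 8 * (k : ℝ) ≤ ∑ i ∈ Ω, nq z (b i) ∧ ∑ i ∈ Ω, nq z (b i) ≤ 9 / 8 * (k : ℝ)) →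
      (¬ Caps rt fr lev Un Lm (20 * J) Q p k Ω ∨ ∃ z ∈ YY n m 16,
        (Caps rt fr lev Un Lm (20 * J) Q p k Ω ∧
        ¬ (7 / 8 * (k : ℝ) ≤ ∑ i ∈ Ω, nq z (b i) ∧ ∑ i ∈ Ω, nq z (b i) ≤ 9 / 8 * (k : ℝ)))) := by
    intro Ω h
    by_cases hc : Caps rt fr lev Un Lm (20 * J) Q p k Ω
    · right
      by_contra h2
      apply h
      intro z hzm
      by_contra h3
      exact h2 ⟨z, hzm, hc, h3⟩
    · left
      exact hc
  refine (bP_mono hp0.le hp1 hcover).trans ?_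
  refine (bP_or hp0.le hp1 _ _).trans ?_
  have hun := bP_union hp0.le hp1 (YY n m 16) (fun z Ω => Caps rt fr lev Un Lm (20 * J) Q p k Ω ∧
        ¬ (7 / 8 * (k : ℝ) ≤ ∑ i ∈ Ω, nq z (b i) ∧ ∑ i ∈ Ω, nq z (b i) ≤ 9 / 8 * (k : ℝ)))
  have hun2 := Finset.sum_le_sum hone
  rw [Finset.sum_const, nsmul_eq_mul] at hun2
  have hmle : m ≤ n := by
    have : (m : ℝ) ≤ n := by
      refine hmn'.trans ?_
      have : Real.exp (-(L / J)) ≤ 1 := by
        rw [Real.exp_le_one_iff]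
        have : 0 ≤ L / J := by positivity
        linarith
      exact mul_le_of_le_one_right hn'.le this
    exact_mod_cast this
  have hYY : ((YY n m 16).card : ℝ) ≤ Real.exp (2 * (m * L)) := by
    refine (card_YY16 hm hmle).trans ?_
    apply Real.exp_le_exp.mpr
    rw [← hL]
    have h1 : (m : ℝ) * 8 ≤ m * L := by gcongr
    linarith only [h1, hm']
  have hfin : ((YY n m 16).card : ℝ) * ((1 + Lm) * Real.exp (H - 1 / 10 ^ 7 / 2 * a1) +
      2 * Real.exp (-((k : ℝ) / (4096 * Λs)))) ≤ 2 / (n : ℝ) ^ 6 + 2 / (n : ℝ) ^ 3 := by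
    have h7 := hpow 7
    have h3 := hpow 3
    push_cast at h7 h3
    have e1 : Real.exp (2 * (m * L)) * Real.exp (-(9 * (m * L))) ≤ 1 / (n : ℝ) ^ 7 := by
      rw [← h7, ← Real.exp_add]
      apply Real.exp_le_exp.mpr
      linarith
    have e2 : Real.exp (2 * (m * L)) * Real.exp (-(5 * (m * L))) ≤ 1 / (n : ℝ) ^ 3 := by
      rw [← h3, ← Real.exp_add]
      apply Real.exp_le_exp.mpr
      linarith
    calc ((YY n m 16).card : ℝ) * ((1 + Lm) * Real.exp (H - 1 / 10 ^ 7 / 2 * a1) +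
          2 * Real.exp (-((k : ℝ) / (4096 * Λs)))) ≤
        Real.exp (2 * (m * L)) * ((2 * n) * Real.exp (-(9 * (m * L))) +
          2 * Real.exp (-(5 * (m * L)))) := by gcongr
      _ = 2 * n * (Real.exp (2 * (m * L)) * Real.exp (-(9 * (m * L)))) +
          2 * (Real.exp (2 * (m * L)) * Real.exp (-(5 * (m * L)))) := by ring
      _ ≤ 2 * n * (1 / (n : ℝ) ^ 7) + 2 * (1 / (n : ℝ) ^ 3) := by gcongr
      _ = _ := by field_simp
  have h3 := hpow 3
  push_cast at h3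
  rw [h3]
  rw [hpc] at hcaps
  have g1 : (5 : ℝ) / (n : ℝ) ^ 7 ≤ 5 / (n : ℝ) ^ 3 := by
    apply div_le_div_of_nonneg_left (by norm_num) (by positivity)
    exact pow_le_pow_right₀ (by linarith) (by norm_num)
  have g2 : (2 : ℝ) / (n : ℝ) ^ 6 ≤ 2 / (n : ℝ) ^ 3 := by
    apply div_le_div_of_nonneg_left (by norm_num) (by positivity)
    exact pow_le_pow_right₀ (by linarith) (by norm_num)
  have g3 : 5 / (n : ℝ) ^ 3 + (2 / (n : ℝ) ^ 3 + 2 / (n : ℝ) ^ 3) = 9 * (1 / (n : ℝ) ^ 3) := by ring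
  linarith

end Run7.h589
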