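import Pool.Agent.Run7.h589.Levels

open Finset

namespace Run7.h589

theorem consts (J : ℕ) : ∃ C0 lam : ℝ, 1 ≤ C0 ∧ 0 ≤ lam ∧
    3 * (C0 + 1) * Real.exp (-(1 / 10 ^ 7 * lam)) ≤ 1 ∧
    20480 * (2 * lam + 104 * (12 * J * 10 ^ 7 + (10 ^ 7 + lam))) ≤ C0 ∧
    46592 * 20 * J * 10 ^ 7 ≤ C0 := by
  set B : ℝ := 20480 * 106 * 10 ^ 7 with hB
  set D : ℝ := 20480 * 104 * (12 * J + 1) * 10 ^ 7 + 46592 * 20 * J * 10 ^ 7 with hD
  have hJ : (0 : ℝ) ≤ J := Nat.cast_nonneg _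
  have hB1 : 1 ≤ B := by rw [hB]; norm_num
  have hD0 : 0 ≤ D := by rw [hD]; positivity
  have hlog : 0 ≤ Real.log (6 * B) := Real.log_nonneg (by linarith)
  set C0 : ℝ := 1 + 2 * (B * Real.log (6 * B)) + 2 * D with hC0
  have hBl : 0 ≤ B * Real.log (6 * B) := by positivity
  have hC1 : 1 ≤ C0 := by rw [hC0]; linarith
  have h1 : Real.log (3 * (C0 + 1)) ≤ Real.log (6 * B) + ((C0 + 1) / (2 * B) - 1) := by
    have h2 : 3 * (C0 + 1) = (6 * B) * ((C0 + 1) / (2 * B)) := by field_simp; ring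
    rw [h2, Real.log_mul (by positivity) (by positivity)]
    have := Real.log_le_sub_one_of_pos (show 0 < (C0 + 1) / (2 * B) by positivity)
    linarith
  have h2 : B * Real.log (3 * (C0 + 1)) ≤ B * Real.log (6 * B) + (C0 + 1) / 2 - B := by
    calc B * Real.log (3 * (C0 + 1)) ≤ B * (Real.log (6 * B) + ((C0 + 1) / (2 * B) - 1)) := by
          gcongr
      _ = _ := by field_simp; ring
  have h3 : B * Real.log (3 * (C0 + 1)) + D ≤ C0 := by
    have : C0 / 2 = 1 / 2 + B * Real.log (6 * B) + D := by rw [hC0]; ring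
    linarith
  have hl0 : 0 ≤ Real.log (3 * (C0 + 1)) := Real.log_nonneg (by linarith)
  refine ⟨C0, 10 ^ 7 * Real.log (3 * (C0 + 1)), hC1, by positivity, ?_, ?_, ?_⟩
  · have h4 : 1 / 10 ^ 7 * (10 ^ 7 * Real.log (3 * (C0 + 1))) = Real.log (3 * (C0 + 1)) := by ring
    rw [h4, Real.exp_neg, Real.exp_log (by positivity)]
    rw [mul_inv_cancel₀ (by positivity)]
  · have h4 : 20480 * (2 * (10 ^ 7 * Real.log (3 * (C0 + 1))) + 104 * (12 * J * 10 ^ 7 +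
        (10 ^ 7 + 10 ^ 7 * Real.log (3 * (C0 + 1))))) =
        B * Real.log (3 * (C0 + 1)) + 20480 * 104 * (12 * J + 1) * 10 ^ 7 := by
      rw [hB]; ring
    rw [h4]
    have h5 : 20480 * 104 * (12 * (J : ℝ) + 1) * 10 ^ 7 ≤ D := by
      rw [hD]
      have : 0 ≤ 46592 * 20 * (J : ℝ) * 10 ^ 7 := by positivity
      linarith
    linarith
  · have h5 : 46592 * 20 * (J : ℝ) * 10 ^ 7 ≤ D := by
      rw [hD]
      have : 0 ≤ 20480 * 104 * (12 * (J : ℝ) + 1) * 10 ^ 7 := by positivity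
      linarith
    have h6 : 0 ≤ B * Real.log (3 * (C0 + 1)) := by positivity
    linarith

/-- number of stages -/
def Tn (n : ℕ) : ℕ := Nat.sqrt (Nat.log 2 n)

theorem Tn_ge {n N : ℕ} (h : 2 ^ (N ^ 2) ≤ n) : N ≤ Tn n := by
  unfold Tn
  have h1 : N ^ 2 ≤ Nat.log 2 n := Nat.le_log_of_pow_le (by norm_num) h
  rw [Nat.le_sqrt]
  rw [pow_two] at h1
  exact h1

theorem Tn_lo {n : ℕ} (hn : 1 ≤ n) : 2 ^ (Tn n ^ 2) ≤ n := by
  have h1 : Tn n ^ 2 ≤ Nat.log 2 n := by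
    unfold Tn
    exact Nat.sqrt_le' _
  exact (Nat.pow_le_pow_right (by norm_num) h1).trans (Nat.pow_log_le_self 2 (by omega))

theorem Tn_lo_real {n : ℕ} (hn : 1 ≤ n) : (Tn n : ℝ) ^ 2 * Real.log 2 ≤ Real.log n := by
  have h1 : ((2 : ℝ)) ^ (Tn n ^ 2) ≤ n := by exact_mod_cast Tn_lo hn
  have h2 := Real.log_le_log (by positivity) h1
  rw [Real.log_pow] at h2
  push_cast at h2
  exact h2

theorem Tn_hi {n : ℕ} (hn : 1 ≤ n) : Real.log n ≤ ((Tn n : ℝ) + 1) ^ 2 := by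
  have h1 : n < 2 ^ (Nat.log 2 n + 1) := Nat.lt_pow_succ_log_self (by norm_num) n
  have h2 : Nat.log 2 n + 1 ≤ (Tn n + 1) ^ 2 := by
    have := Nat.lt_succ_sqrt' (Nat.log 2 n)
    unfold Tn
    exact this
  have h3 : n ≤ 2 ^ ((Tn n + 1) ^ 2) :=
    h1.le.trans (Nat.pow_le_pow_right (by norm_num) h2)
  have hn' : (0 : ℝ) < n := by exact_mod_cast hn
  have h4 : (n : ℝ) ≤ 2 ^ ((Tn n + 1) ^ 2) := by exact_mod_cast h3
  have h5 := Real.log_le_log hn' h4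
  rw [Real.log_pow] at h5
  push_cast at h5
  have h6 := log_two_lt
  have h7 : 0 ≤ ((Tn n : ℝ) + 1) ^ 2 := by positivity
  nlinarith

theorem ev_exp (k : ℕ) (c C : ℝ) (hc : 0 < c) :
    ∃ x0 : ℝ, ∀ x, x0 ≤ x → C * x ^ k * Real.exp (-(c * x)) ≤ 1 := by
  have h1 := Real.tendsto_pow_mul_exp_neg_atTop_nhds_zero k
  have h2 : Filter.Tendsto (fun x : ℝ => c * x) Filter.atTop Filter.atTop :=
    Filter.tendsto_id.const_mul_atTop hc
  have h3 := (h1.comp h2).const_mul (C / c ^ k)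
  rw [mul_zero] at h3
  have h4 := h3.eventually_le_const (show (0 : ℝ) < 1 by norm_num)
  rw [Filter.eventually_atTop] at h4
  obtain ⟨x0, hx0⟩ := h4
  refine ⟨x0, fun x hx => ?_⟩
  have h5 := hx0 x hx
  simp only [Function.comp] at h5
  have h6 : C / c ^ k * ((c * x) ^ k * Real.exp (-(c * x))) = C * x ^ k * Real.exp (-(c * x)) := by
    rw [mul_pow]
    field_simp
  rw [← h6]
  exact h5

theorem eS_bd {t T : ℕ} (h : t < T) : eS t ≤ 320 * T := by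
  unfold eS
  omega

theorem eX_bd {t T : ℕ} (h : t < T) : eX (t + 1) ≤ 260 * T := by
  unfold eX
  omega

theorem abs_hyps : ∃ n1 : ℕ, 2 ≤ n1 ∧ ∀ n, n1 ≤ n → 8 ≤ Real.log n ∧ 1 ≤ n / 2 ^ (320 * Tn n) ∧
    1 ≤ Tn n ∧ (∀ t < Tn n, BigN n t) ∧ (∀ t < Tn n, (80 : ℝ) ≤ n / 2 ^ t) ∧
    (∀ t < Tn n, n / 2 ^ (320 * Tn n) ≤ sT n t) ∧
    2 * Real.exp (-((Tn n : ℝ) / 50)) * (1 + Real.log n) ≤ 1 / 4 := by
  obtain ⟨x0, hx0⟩ := ev_exp 2 (1 / 50) 64 (by norm_num)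
  set N := max 1000 ⌈x0⌉₊ with hN
  refine ⟨2 ^ (N ^ 2), ?_, ?_⟩
  · have h1 : 1 ≤ N ^ 2 := by
      have : 1 ≤ N := le_trans (by norm_num) (le_max_left _ _)
      exact Nat.one_le_pow _ _ this
    calc 2 = 2 ^ 1 := by norm_num
      _ ≤ 2 ^ (N ^ 2) := Nat.pow_le_pow_right (by norm_num) h1
  intro n hn
  have hn1 : 1 ≤ n := Nat.one_le_two_pow.trans hn
  have hTN := Tn_ge hn
  set T := Tn n with hT
  have hT1000 : 1000 ≤ T := (le_max_left _ _).trans hTN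
  have hTx : x0 ≤ T := by
    have h1 : x0 ≤ ⌈x0⌉₊ := Nat.le_ceil _
    have h2 : ((⌈x0⌉₊ : ℕ) : ℝ) ≤ T := by exact_mod_cast (le_max_right _ _).trans hTN
    linarith
  have hlo := Tn_lo hn1
  have hlor := Tn_lo_real hn1
  have hhi := Tn_hi hn1
  rw [← hT] at hlo hlor hhi
  have hT' : (1000 : ℝ) ≤ T := by exact_mod_cast hT1000
  have hn' : (0 : ℝ) < n := by exact_mod_cast hn1
  have hTT : 1000 * T ≤ T ^ 2 := by nlinarith
  refine ⟨?_, ?_, ?_, ?_, ?_, ?_, ?_⟩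
  · have := Real.log_two_gt_d9
    nlinarith
  · rw [Nat.le_div_iff_mul_le (by positivity), one_mul]
    refine le_trans ?_ hlo
    exact Nat.pow_le_pow_right (by norm_num) (by omega)
  · omega
  · intro t ht
    unfold BigN
    have h1 : Real.log (8 * (n : ℝ) ^ 2) ≤ 2 ^ (2 * T + 3) := by
      rw [Real.log_mul (by norm_num) (by positivity), Real.log_pow]
      have h2 : Real.log 8 ≤ 3 := by
        have : (8 : ℝ) = 2 ^ 3 := by norm_num
        rw [this, Real.log_pow]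
        have := log_two_lt
        push_cast
        linarith
      have h3 : ((T : ℝ) + 1) ≤ 2 ^ T := by
        have := Nat.lt_two_pow_self (n := T)
        exact_mod_cast this
      have h4 : ((T : ℝ) + 1) ^ 2 ≤ 2 ^ (2 * T) := by
        calc ((T : ℝ) + 1) ^ 2 ≤ (2 ^ T) ^ 2 := by gcongr
          _ = 2 ^ (2 * T) := by rw [← pow_mul, mul_comm]
      have h5 : (1 : ℝ) ≤ 2 ^ (2 * T) := one_le_pow₀ (by norm_num)
      have h6 : (2 : ℝ) ^ (2 * T + 3) = 8 * 2 ^ (2 * T) := by rw [pow_add]; ring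
      rw [h6]
      push_cast
      linarith
    have h2 : (2 : ℝ) ^ (eX (t + 1)) ≤ 2 ^ (260 * T) :=
      pow_le_pow_right₀ (by norm_num) (eX_bd ht)
    have h3 : 2 ^ (T ^ 2 - 320 * T) ≤ sT n t := by
      unfold sT
      rw [← Nat.pow_div (by omega) (by norm_num)]
      exact Nat.div_le_div hlo (Nat.pow_le_pow_right (by norm_num) (eS_bd ht)) (by positivity)
    have h4 : ((2 : ℝ) ^ (T ^ 2 - 320 * T)) ≤ sT n t := by exact_mod_cast h3
    refine le_trans ?_ h4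
    have h0 : 0 ≤ Real.log (8 * (n : ℝ) ^ 2) := by
      apply Real.log_nonneg
      have : (1 : ℝ) ≤ n := by exact_mod_cast hn1
      nlinarith
    calc (2 : ℝ) ^ (eX (t + 1)) * Real.log (8 * (n : ℝ) ^ 2) ≤ 2 ^ (260 * T) * 2 ^ (2 * T + 3) := by
          gcongr
      _ = 2 ^ (260 * T + (2 * T + 3)) := by rw [← pow_add]
      _ ≤ _ := pow_le_pow_right₀ (by norm_num) (by omega)
  · intro t ht
    rw [le_div_iff₀ (by positivity)]
    have h1 : 2 ^ 7 * 2 ^ t ≤ n := by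
      rw [← pow_add]
      refine le_trans ?_ hlo
      exact Nat.pow_le_pow_right (by norm_num) (by omega)
    have h2 : (2 : ℝ) ^ 7 * 2 ^ t ≤ n := by exact_mod_cast h1
    have h3 : (0 : ℝ) < 2 ^ t := by positivity
    linarith
  · intro t ht
    unfold sT
    exact Nat.div_le_div_left (Nat.pow_le_pow_right (by norm_num) (eS_bd ht)) (by positivity)
  · have h1 := hx0 T hTx
    have h2 : Real.exp (-((1 : ℝ) / 50 * T)) = Real.exp (-((T : ℝ) / 50)) := by congr 1; ring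
    rw [h2] at h1
    have h3 : 0 < Real.exp (-((T : ℝ) / 50)) := Real.exp_pos _
    have h4 : 1 + Real.log n ≤ 8 * (T : ℝ) ^ 2 := by nlinarith
    calc 2 * Real.exp (-((T : ℝ) / 50)) * (1 + Real.log n) ≤
        2 * Real.exp (-((T : ℝ) / 50)) * (8 * (T : ℝ) ^ 2) := by gcongr
      _ = 1 / 4 * (64 * (T : ℝ) ^ 2 * Real.exp (-((T : ℝ) / 50))) := by ring
      _ ≤ 1 / 4 * 1 := by gcongr
      _ = _ := by norm_num

theorem J_hyps (J : ℕ) (hJ : 1 ≤ J) (C0 lam : ℝ) :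
    ∃ n2 : ℕ, 2 ≤ n2 ∧ ∀ n, n2 ≤ n → J ≤ n ∧ 8 ≤ Real.log n ∧
      (2 : ℝ) ^ (Tn n) ≤ Real.exp (Real.log n / (4 * J)) ∧
      1 / 10 ^ 7 * lam ≤ Real.log n / 2 ∧
      Real.exp (-((Tn n : ℝ) / 50)) * Real.log n ^ 2 * 10 ^ 8 ≤ 1 ∧
      Real.log n ^ 4 * Real.exp (-(Real.log n / (4 * J))) *
        (320 * 10 ^ 7 * (9 + 2 * (C0 + 1)) * 192) ≤ 1 ∧
      (∀ m : ℕ, m * Real.exp (Real.log n / J) ≤ n → m ≤ n / 2 ^ (320 * Tn n)) := by
  have hJ' : (1 : ℝ) ≤ J := by exact_mod_cast hJ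
  obtain ⟨x1, hx1⟩ := ev_exp 4 (1 / 50) (16 * 10 ^ 8) (by norm_num)
  obtain ⟨x2, hx2⟩ := ev_exp 4 (1 / (4 * J)) (320 * 10 ^ 7 * (9 + 2 * (C0 + 1)) * 192)
    (by positivity)
  set N := 1000 + 320 * J + ⌈x1⌉₊ + ⌈x2⌉₊ + ⌈lam⌉₊ with hN
  refine ⟨2 ^ (N ^ 2), ?_, ?_⟩
  · have h1 : 1 ≤ N ^ 2 := by
      have : 1 ≤ N := by omega
      exact Nat.one_le_pow _ _ this
    calc 2 = 2 ^ 1 := by norm_num
      _ ≤ 2 ^ (N ^ 2) := Nat.pow_le_pow_right (by norm_num) h1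
  intro n hn
  have hn1 : 1 ≤ n := Nat.one_le_two_pow.trans hn
  have hTN := Tn_ge hn
  set T := Tn n with hT
  have hlo := Tn_lo hn1
  have hlor := Tn_lo_real hn1
  have hhi := Tn_hi hn1
  rw [← hT] at hlo hlor hhi
  have hT1000 : 1000 ≤ T := by omega
  have hTJ : 320 * J ≤ T := by omega
  have hT1 : ⌈x1⌉₊ ≤ T := by omega
  have hT2 : ⌈x2⌉₊ ≤ T := by omega
  have hT3 : ⌈lam⌉₊ ≤ T := by omega
  have hT1' : x1 ≤ T := (Nat.le_ceil _).trans (by exact_mod_cast hT1)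
  have hT2' : x2 ≤ T := (Nat.le_ceil _).trans (by exact_mod_cast hT2)
  have hT3' : lam ≤ T := (Nat.le_ceil _).trans (by exact_mod_cast hT3)
  have hT' : (1000 : ℝ) ≤ T := by exact_mod_cast hT1000
  have hTJ' : 320 * (J : ℝ) ≤ T := by exact_mod_cast hTJ
  have hn' : (0 : ℝ) < n := by exact_mod_cast hn1
  have hTT : 1000 * T ≤ T ^ 2 := by nlinarith
  have hl2 := Real.log_two_gt_d9
  have hLT : (T : ℝ) ≤ Real.log n := by nlinarith
  have hpowexp : ∀ a : ℕ, (2 : ℝ) ^ a = Real.exp (a * Real.log 2) := by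
    intro a
    rw [Real.exp_nat_mul, Real.exp_log (by norm_num)]
  refine ⟨?_, ?_, ?_, ?_, ?_, ?_, ?_⟩
  · have h1 : J < 2 ^ J := Nat.lt_two_pow_self
    have h2 : 2 ^ J ≤ 2 ^ (T ^ 2) := Nat.pow_le_pow_right (by norm_num) (by omega)
    omega
  · linarith
  · rw [hpowexp]
    apply Real.exp_le_exp.mpr
    rw [le_div_iff₀ (by positivity)]
    have h1 : (T : ℝ) * Real.log 2 * (4 * J) ≤ T * Real.log 2 * T := by
      gcongr
      linarith
    nlinarith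
  · have : 1 / 10 ^ 7 * lam ≤ 1 / 10 ^ 7 * T := by gcongr
    have : (0 : ℝ) ≤ T := by positivity
    nlinarith
  · have h1 := hx1 T hT1'
    have h2 : Real.exp (-((1 : ℝ) / 50 * T)) = Real.exp (-((T : ℝ) / 50)) := by congr 1; ring
    rw [h2] at h1
    have h4 : Real.log n ≤ 4 * (T : ℝ) ^ 2 := by nlinarith
    have h5 : 0 ≤ Real.log n := by linarith
    have h6 : Real.log n ^ 2 ≤ 16 * (T : ℝ) ^ 4 := by
      calc Real.log n ^ 2 ≤ (4 * (T : ℝ) ^ 2) ^ 2 := by gcongr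
        _ = _ := by ring
    calc Real.exp (-((T : ℝ) / 50)) * Real.log n ^ 2 * 10 ^ 8 ≤
        Real.exp (-((T : ℝ) / 50)) * (16 * (T : ℝ) ^ 4) * 10 ^ 8 := by gcongr
      _ = 16 * 10 ^ 8 * (T : ℝ) ^ 4 * Real.exp (-((T : ℝ) / 50)) := by ring
      _ ≤ 1 := h1
  · have h1 := hx2 (Real.log n) (by linarith)
    have h2 : Real.exp (-(1 / (4 * (J : ℝ)) * Real.log n)) =
        Real.exp (-(Real.log n / (4 * J))) := by congr 1; ring
    rw [h2] at h1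
    linarith
  · intro m hm
    rw [Nat.le_div_iff_mul_le (by positivity)]
    have h1 : (2 : ℝ) ^ (320 * T) ≤ Real.exp (Real.log n / J) := by
      rw [hpowexp]
      apply Real.exp_le_exp.mpr
      rw [le_div_iff₀ (by positivity)]
      push_cast
      have h2 : 320 * (T : ℝ) * Real.log 2 * J = (320 * J) * T * Real.log 2 := by ring
      rw [h2]
      have h3 : (320 * (J : ℝ)) * T * Real.log 2 ≤ T * T * Real.log 2 := by gcongr
      nlinarith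
    have h2 : (m : ℝ) * 2 ^ (320 * T) ≤ n := by
      refine le_trans ?_ hm
      gcongr
    exact_mod_cast h2

end Run7.h589
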