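import Pool.Agent.Run7.h589.Fin1
import Pool.Agent.Run7.h589.Num

open Finset

namespace Run7.h589

/-- the structure behind a good orthonormal basis -/
def GoodB (n : ℕ) (C0 lam : ℕ → ℝ) (b : Fin n → E n) : Prop :=
  ∃ (v : Fin n → E n) (rt : Fin n → Fin n) (fr : Fin n → ℕ → Fin n) (lev : Fin n → ℕ)
      (Un : Finset (Fin n)),
      (∀ k, ((univ.filter (fun i => labN rt i = some k)).card : ℝ) ≤ 2 ^ (lev k)) ∧
      (∀ l k, ((univ.filter (fun i => labM rt fr lev l i = some k)).card : ℝ) ≤ 2 ^ (l + 1)) ∧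
      (∀ i l, l < lev (rt i) → lev (fr i l) = 0) ∧ (∀ k ∈ Un, 1 ≤ lev k) ∧
      (∀ k, (2 : ℝ) ^ (lev k) ≤ n) ∧ (∀ k, k ∉ Un → (2 : ℝ) ^ (lev k) ≤ 2 ^ (Tn n)) ∧
      ∀ j, 1 ≤ j → j ≤ n → ∀ m, 1 ≤ m → m ≤ n / 2 ^ (320 * Tn n) → ∀ z ∈ YY n m 16,
        (∀ i, nq z (b i) ≤ 2 * (1 / 2) ^ (lev (rt i)) * nq z (v (rt i)) +
          4 * ∑ l ∈ range (lev (rt i)), ((l : ℝ) + 1) ^ 2 * (1 / 2) ^ (l + 1) *
            nq z (v (fr i l))) ∧
        (∏ k ∈ univ.filter (fun k => k ∉ Un),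
          (1 + ((⌈C0 j * m * Real.log n⌉₊ : ℕ) : ℝ) / n * 2 ^ (lev k) *
          Real.exp (1 / 10 ^ 7 * ((1 / 2) ^ (lev k) * nq z (v k) - lam j))) ≤
            Real.exp (5 * (m * Real.log n))) ∧
        (∀ S ⊆ Un, ∑ k ∈ S, (1 / 2) ^ (lev k) * nq z (v k) ≤
          1000 * Real.exp (-((Tn n : ℝ) / 50)) *
          (5 * (m * Real.log n) + 2 * S.card * Real.log n)) ∧
        (∑ k ∈ Un, nq z (v k) ≤ n * piT (Tn n))

theorem exists_good (C0 lam : ℕ → ℝ) (hC1 : ∀ j, 1 ≤ C0 j)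
    (hC2 : ∀ j, 3 * (C0 j + 1) * Real.exp (-(1 / 10 ^ 7 * lam j)) ≤ 1) :
    ∃ n1 : ℕ, 2 ≤ n1 ∧ ∀ n, n1 ≤ n → ∃ b : Fin n → E n, Orthonormal ℝ b ∧
      (∀ i j, |b i j| ≤ 52500000 / Real.sqrt n) ∧ GoodB n C0 lam b := by
  obtain ⟨n1, hn12, hn1⟩ := abs_hyps
  refine ⟨n1, hn12, fun n hn => ?_⟩
  obtain ⟨h1, h2, h3, h4, h5, h6, h7⟩ := hn1 n hn
  have hnpos : (0 : ℝ) < n := by
    have : 0 < n := by omega
    exact_mod_cast this
  obtain ⟨b, v, rt, fr, lev, Un, hb, hfl, hF1, hF2, hF3, hF4, hF5, hF6, hall⟩ :=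
    assemble (n := n) (T := Tn n) (Mx := n / 2 ^ (320 * Tn n)) lam
      (fun j m => ((⌈C0 j * m * Real.log n⌉₊ : ℕ) : ℝ) / n) h1 h2 (Nat.div_le_self _ _) h3 h4 h5 h6
      h7 (by
        intro j m hm
        refine ⟨by positivity, ?_⟩
        have hm' : (1 : ℝ) ≤ m := by exact_mod_cast hm
        have hmL : 1 ≤ m * Real.log n := by nlinarith
        have g1 : ((⌈C0 j * m * Real.log n⌉₊ : ℕ) : ℝ) / n * n = ⌈C0 j * m * Real.log n⌉₊ := by
          field_simp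
        rw [g1]
        have g2 : ((⌈C0 j * m * Real.log n⌉₊ : ℕ) : ℝ) ≤ (C0 j + 1) * (m * Real.log n) := by
          have g3 : 0 ≤ C0 j * m * Real.log n := by
            have := hC1 j
            positivity
          have g4 := Nat.ceil_lt_add_one g3
          nlinarith
        have g5 : 0 < Real.exp (-(1 / 10 ^ 7 * lam j)) := Real.exp_pos _
        calc 3 * ((⌈C0 j * m * Real.log n⌉₊ : ℕ) : ℝ) * Real.exp (-(1 / 10 ^ 7 * lam j)) ≤
            3 * ((C0 j + 1) * (m * Real.log n)) * Real.exp (-(1 / 10 ^ 7 * lam j)) := by gcongr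
          _ = (3 * (C0 j + 1) * Real.exp (-(1 / 10 ^ 7 * lam j))) * (m * Real.log n) := by ring
          _ ≤ 1 * (m * Real.log n) := by
              have := hC2 j
              gcongr
          _ = _ := one_mul _)
  exact ⟨b, hb, hfl, v, rt, fr, lev, Un, hF1, hF2, hF3, hF4, hF5, hF6, hall⟩

/-- the real matrix with the given rows -/
noncomputable def Umat {n : ℕ} (b : Fin n → E n) : Matrix (Fin n) (Fin n) ℂ :=
  Matrix.of (fun i j => ((b i j : ℝ) : ℂ))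

theorem Umat_unitary {n : ℕ} (b : Fin n → E n) (hb : Orthonormal ℝ b) :
    Umat b ∈ Matrix.unitaryGroup (Fin n) ℂ := by
  rw [Matrix.mem_unitaryGroup_iff]
  ext i k
  have h1 : (Umat b * star (Umat b)) i k = ((inner ℝ (b k) (b i) : ℝ) : ℂ) := by
    rw [PiLp.inner_apply, Matrix.mul_apply]
    push_cast
    apply Finset.sum_congr rfl
    intro j _
    have h2 : (star (Umat b)) j k = ((b k j : ℝ) : ℂ) := by
      rw [Matrix.star_apply]
      simp [Umat]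
    rw [h2]
    have h3 : inner ℝ ((b k) j) ((b i) j) = (b i j) * (b k j) := rfl
    rw [h3]
    push_cast
    rfl
  rw [h1]
  have h2 := (orthonormal_iff_ite.mp hb) k i
  rw [h2, Matrix.one_apply]
  by_cases h : k = i
  · simp [h]
  · simp [h, Ne.symm h]

theorem unitary_l2 {n : ℕ} (U : Matrix (Fin n) (Fin n) ℂ) (hU : U ∈ Matrix.unitaryGroup (Fin n) ℂ)
    (y : Fin n → ℂ) : ∑ i, ‖(U.mulVec y) i‖ ^ 2 = ∑ j, ‖y j‖ ^ 2 := by
  have h1 : ∀ w : Fin n → ℂ, ((∑ i, ‖w i‖ ^ 2 : ℝ) : ℂ) = star w ⬝ᵥ w := by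
    intro w
    unfold dotProduct
    push_cast
    apply Finset.sum_congr rfl
    intro i _
    have : (star w) i = (starRingEnd ℂ) (w i) := rfl
    rw [this, Complex.conj_mul']
  have h2 : star (U.mulVec y) ⬝ᵥ (U.mulVec y) = star y ⬝ᵥ y := by
    rw [Matrix.star_mulVec, Matrix.dotProduct_mulVec, Matrix.vecMul_vecMul]
    have h3 : U.conjTranspose * U = 1 := Matrix.mem_unitaryGroup_iff'.mp hU
    rw [h3, Matrix.vecMul_one]
  have h3 : ((∑ i, ‖(U.mulVec y) i‖ ^ 2 : ℝ) : ℂ) = ((∑ j, ‖y j‖ ^ 2 : ℝ) : ℂ) := by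
    rw [h1, h1, h2]
  exact_mod_cast h3

theorem mRIP_full {n : ℕ} (U : Matrix (Fin n) (Fin n) ℂ) (hU : U ∈ Matrix.unitaryGroup (Fin n) ℂ)
    (m : ℕ) : mRIP (rowsOf U univ) m := by
  refine ⟨1, one_pos, ?_⟩
  intro f x
  set y : Fin n → ℂ := fun j => ∑ a, if f a = j then x a else 0 with hy
  have hyon : ∀ a, y (f a) = x a := by
    intro a
    rw [hy]
    simp only
    rw [Finset.sum_eq_single a]
    · simp
    · intro a' _ h
      rw [if_neg]
      intro h2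
      exact h (f.injective h2)
    · intro h
      exact absurd (Finset.mem_univ a) h
  have hyoff : ∀ j, j ∉ univ.map f → y j = 0 := by
    intro j hj
    apply Finset.sum_eq_zero
    intro a _
    rw [if_neg]
    intro h
    apply hj
    rw [Finset.mem_map]
    exact ⟨a, Finset.mem_univ _, h⟩
  have hmul : ∀ i : (univ : Finset (Fin n)),
      (((((1 : ℝ) : ℂ) • rowsOf U univ).submatrix id f).mulVec x) i = (U.mulVec y) i := by
    intro i
    have h1 : (((((1 : ℝ) : ℂ) • rowsOf U univ).submatrix id f).mulVec x) i =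
        ∑ a, (((1 : ℝ) : ℂ) * U i (f a)) * x a := rfl
    have h2 : (U.mulVec y) i = ∑ j, U i j * y j := rfl
    rw [h1, h2, ← Finset.sum_subset (Finset.subset_univ (univ.map f))
      (fun j _ hj => by rw [hyoff j hj, mul_zero]), Finset.sum_map]
    apply Finset.sum_congr rfl
    intro a _
    rw [hyon, Complex.ofReal_one, one_mul]
  have hsq : l2 (((((1 : ℝ) : ℂ) • rowsOf U univ).submatrix id f).mulVec x) ^ 2 = l2 x ^ 2 := by
    rw [l2_sq, l2_sq]
    simp_rw [hmul]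
    have h1 : ∑ i : (univ : Finset (Fin n)), ‖(U.mulVec y) i‖ ^ 2 =
        ∑ i : Fin n, ‖(U.mulVec y) i‖ ^ 2 :=
      Finset.sum_coe_sort (univ : Finset (Fin n)) (fun i => ‖(U.mulVec y) i‖ ^ 2)
    rw [h1, unitary_l2 U hU y, sum_emb f (fun j => ‖y j‖ ^ 2)
      (fun j hj => by rw [hyoff j hj]; norm_num)]
    apply Finset.sum_congr rfl
    intro a _
    rw [hyon]
  have h1 := l2_nonneg x
  have h2 := l2_nonneg (((((1 : ℝ) : ℂ) • rowsOf U univ).submatrix id f).mulVec x)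
  have h3 : l2 (((((1 : ℝ) : ℂ) • rowsOf U univ).submatrix id f).mulVec x) = l2 x := by
    exact (pow_left_inj₀ h2 h1 (by norm_num)).mp hsq
  rw [h3]
  constructor
  · exact le_rfl
  · linarith

end Run7.h589
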