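import Pool.Agent.Run7.h589.Fin2

open Finset

namespace Run7.h589

theorem rip_half {n m k : ℕ} (b : Fin n → E n) (hm : 1 ≤ m) (hlog : 8 ≤ Real.log n)
    (hkn : k < n) (hkpos : 0 < k)
    (hbad : bP ((k : ℝ) / n) (fun Ω => ¬ ∀ z ∈ YY n m 16,
      7 / 8 * (k : ℝ) ≤ ∑ i ∈ Ω, nq z (b i) ∧ ∑ i ∈ Ω, nq z (b i) ≤ 9 / 8 * (k : ℝ)) ≤
      9 * Real.exp (-(3 * Real.log n))) :
    1 / 2 ≤ ripProb (Umat b) m k := by
  classical
  have hn : 1 ≤ n := by omega
  have hn' : (0 : ℝ) < n := by exact_mod_cast hn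
  have hk' : (0 : ℝ) < k := by exact_mod_cast hkpos
  have hn8 : (8 : ℝ) ≤ n := by
    have := Real.log_le_sub_one_of_pos hn'
    linarith
  have ht := transfer n k hkn ((k : ℝ) / n) rfl (fun Ω => ¬ ∀ z ∈ YY n m 16,
      7 / 8 * (k : ℝ) ≤ ∑ i ∈ Ω, nq z (b i) ∧ ∑ i ∈ Ω, nq z (b i) ≤ 9 / 8 * (k : ℝ))
  have hall : ((univ : Finset (Fin n)).powersetCard k).card = n.choose k := by
    rw [Finset.card_powersetCard, Finset.card_univ, Fintype.card_fin]
  have hchpos : (0 : ℝ) < n.choose k := by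
    exact_mod_cast Nat.choose_pos hkn.le
  have h3 : Real.exp (-(3 * Real.log n)) = 1 / (n : ℝ) ^ 3 := by
    have : (3 : ℝ) * Real.log n = ((3 : ℕ) : ℝ) * Real.log n := by norm_num
    rw [this, Real.exp_neg, Real.exp_nat_mul, Real.exp_log hn', one_div]
  have h4 : ((n : ℝ) + 1) * (9 * Real.exp (-(3 * Real.log n))) ≤ 1 / 2 := by
    rw [h3]
    have h5 : ((n : ℝ) + 1) * (9 * (1 / (n : ℝ) ^ 3)) = 9 * (n + 1) / (n : ℝ) ^ 3 := by ring
    rw [h5, div_le_iff₀ (by positivity)]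
    nlinarith [pow_pos hn' 2, pow_pos hn' 3]
  have hbadc : ((((univ : Finset (Fin n)).powersetCard k).filter (fun Ω => ¬ ∀ z ∈ YY n m 16,
      7 / 8 * (k : ℝ) ≤ ∑ i ∈ Ω, nq z (b i) ∧ ∑ i ∈ Ω, nq z (b i) ≤ 9 / 8 * (k : ℝ))).card : ℝ) ≤
      n.choose k * (1 / 2) := by
    refine le_trans (le_of_eq ?_) (ht.trans (mul_le_mul_of_nonneg_left (le_trans
      (mul_le_mul_of_nonneg_left hbad (by positivity)) h4) hchpos.le))
    congr!
  have hsplit := Finset.card_filter_add_card_filter_not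
    (s := (univ : Finset (Fin n)).powersetCard k) (fun Ω => mRIP (rowsOf (Umat b) Ω) m)
  have hsub : (((univ : Finset (Fin n)).powersetCard k).filter
      (fun Ω => ¬ mRIP (rowsOf (Umat b) Ω) m)).card ≤
      (((univ : Finset (Fin n)).powersetCard k).filter (fun Ω => ¬ ∀ z ∈ YY n m 16,
      7 / 8 * (k : ℝ) ≤ ∑ i ∈ Ω, nq z (b i) ∧ ∑ i ∈ Ω, nq z (b i) ≤ 9 / 8 * (k : ℝ))).card := by
    apply Finset.card_le_card
    intro Ω hΩ
    rw [Finset.mem_filter] at hΩ ⊢
    refine ⟨hΩ.1, fun hc => hΩ.2 ?_⟩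
    exact mRIP_of_net hm hn b Ω k hk' hc (Umat b) (fun i j => rfl)
  rw [hall] at hsplit
  have hsplit' : (((((univ : Finset (Fin n)).powersetCard k).filter
      (fun Ω => mRIP (rowsOf (Umat b) Ω) m)).card : ℕ) : ℝ) +
      ((((univ : Finset (Fin n)).powersetCard k).filter
      (fun Ω => ¬ mRIP (rowsOf (Umat b) Ω) m)).card : ℕ) = n.choose k := by exact_mod_cast hsplit
  have hsub' : (((((univ : Finset (Fin n)).powersetCard k).filter
      (fun Ω => ¬ mRIP (rowsOf (Umat b) Ω) m)).card : ℕ) : ℝ) ≤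
      ((((univ : Finset (Fin n)).powersetCard k).filter (fun Ω => ¬ ∀ z ∈ YY n m 16,
      7 / 8 * (k : ℝ) ≤ ∑ i ∈ Ω, nq z (b i) ∧ ∑ i ∈ Ω, nq z (b i) ≤ 9 / 8 * (k : ℝ))).card : ℕ) := by
    exact_mod_cast hsub
  unfold ripProb
  rw [hall, le_div_iff₀ hchpos]
  have hgoal : 1 / 2 * (n.choose k : ℝ) ≤ ((((univ : Finset (Fin n)).powersetCard k).filter
      (fun Ω => mRIP (rowsOf (Umat b) Ω) m)).card : ℕ) := by linarith
  convert hgoal using 3

theorem ripProb_full {n : ℕ} (U : Matrix (Fin n) (Fin n) ℂ)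
    (hU : U ∈ Matrix.unitaryGroup (Fin n) ℂ) (m : ℕ) : ripProb U m n = 1 := by
  classical
  unfold ripProb
  have h1 : (univ : Finset (Fin n)).powersetCard n = {univ} := by
    have h2 := Finset.powersetCard_self (univ : Finset (Fin n))
    rw [Finset.card_univ, Fintype.card_fin] at h2
    exact h2
  rw [h1]
  rw [Finset.filter_singleton, if_pos (mRIP_full U hU m)]
  simp

theorem main_theorem : ∃ K : ℝ, 0 < K ∧ ∃ U : (d : ℕ) → Matrix (Fin d) (Fin d) ℂ,
    (∀ d, 2 ≤ d → U d ∈ Matrix.unitaryGroup (Fin d) ℂ ∧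
      ∀ i j, ‖U d i j‖ ≤ K / Real.sqrt d) ∧
    ∀ ε : ℝ, 0 < ε → ε < 1 → ∃ C : ℝ, 0 < C ∧ ∀ d m : ℕ, 2 ≤ d → 1 ≤ m →
      (m : ℝ) ≤ (d : ℝ) ^ (1 - ε) →
      1 / 2 ≤ ripProb (U d) m (kU (U d) m) ∧ (kU (U d) m : ℝ) ≤ C * m * Real.log d := by
  classical
  choose C0 lam hC1 hlam hC2 hC3 hC4 using consts
  obtain ⟨n1, hn12, hn1⟩ := exists_good C0 lam hC1 hC2
  choose! b hb hfl hgood using hn1
  let U : (d : ℕ) → Matrix (Fin d) (Fin d) ℂ := fun d => if n1 ≤ d then Umat (b d) else 1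
  have hUbig : ∀ d, n1 ≤ d → U d = Umat (b d) := fun d h => if_pos h
  have hUsmall : ∀ d, ¬ n1 ≤ d → U d = 1 := fun d h => if_neg h
  have hunit : ∀ d, U d ∈ Matrix.unitaryGroup (Fin d) ℂ := by
    intro d
    by_cases h : n1 ≤ d
    · rw [hUbig d h]
      exact Umat_unitary (b d) (hb d h)
    · rw [hUsmall d h]
      exact one_mem _
  refine ⟨max 52500000 (Real.sqrt n1), by positivity, U, ?_, ?_⟩
  · intro d hd
    refine ⟨hunit d, ?_⟩
    have hd' : (0 : ℝ) < d := by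
      have : 0 < d := by omega
      exact_mod_cast this
    have hsd : 0 < Real.sqrt d := Real.sqrt_pos.mpr hd'
    intro i j
    by_cases h : n1 ≤ d
    · rw [hUbig d h]
      have h1 : ‖Umat (b d) i j‖ = |b d i j| := by
        have : Umat (b d) i j = ((b d i j : ℝ) : ℂ) := rfl
        rw [this, Complex.norm_real, Real.norm_eq_abs]
      rw [h1]
      refine (hfl d h i j).trans ?_
      gcongr
      exact le_max_left _ _
    · rw [hUsmall d h]
      have h1 : ‖(1 : Matrix (Fin d) (Fin d) ℂ) i j‖ ≤ 1 := by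
        rw [Matrix.one_apply]
        split_ifs <;> simp
      refine h1.trans ?_
      rw [le_div_iff₀ hsd, one_mul]
      refine le_trans ?_ (le_max_right _ _)
      apply Real.sqrt_le_sqrt
      have : d ≤ n1 := by omega
      exact_mod_cast this
  · intro ε hε hε1
    set J := ⌈1 / ε⌉₊ with hJ
    have hJ1 : 1 ≤ J := Nat.one_le_iff_ne_zero.mpr (by
      rw [hJ]
      have : 0 < 1 / ε := by positivity
      exact (Nat.ceil_pos.mpr this).ne')
    have hJ' : (1 : ℝ) ≤ J := by exact_mod_cast hJ1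
    have hJε : 1 / (J : ℝ) ≤ ε := by
      have h1 : 1 / ε ≤ J := Nat.le_ceil _
      rw [div_le_iff₀ (by linarith)]
      rw [div_le_iff₀ hε] at h1
      linarith
    obtain ⟨n2, hn22, hn2⟩ := J_hyps J hJ1 (C0 J) (lam J)
    set N := max n1 n2 with hN
    have hlog2 : 0 < Real.log 2 := Real.log_pos (by norm_num)
    have hC1J := hC1 J
    refine ⟨max (C0 J + 1) (N / Real.log 2), ?_, ?_⟩
    · apply lt_max_of_lt_left
      linarith
    intro d m hd hm hmd
    have hd' : (2 : ℝ) ≤ d := by exact_mod_cast hd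
    have hm' : (1 : ℝ) ≤ m := by exact_mod_cast hm
    have hlogd : Real.log 2 ≤ Real.log d := Real.log_le_log (by norm_num) hd'
    have hlogd0 : 0 < Real.log d := by linarith
    by_cases hdN : N ≤ d
    · -- large dimensions
      have hd1 : n1 ≤ d := (le_max_left _ _).trans hdN
      have hd2 : n2 ≤ d := (le_max_right _ _).trans hdN
      obtain ⟨g1, g2, g3, g4, g5, g6, g7⟩ := hn2 d hd2
      obtain ⟨v, rt, fr, lev, Un, hF1, hF2, hF3, hF4, hF5, hF6, hall⟩ := hgood d hd1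
      have hmJ : (m : ℝ) * Real.exp (Real.log d / J) ≤ d := by
        have h1 : (m : ℝ) ≤ (d : ℝ) ^ (1 - 1 / (J : ℝ)) := by
          refine hmd.trans ?_
          apply Real.rpow_le_rpow_of_exponent_le (by linarith)
          linarith
        have h2 : Real.exp (Real.log d / J) = (d : ℝ) ^ (1 / (J : ℝ)) := by
          rw [Real.rpow_def_of_pos (by linarith)]
          congr 1
          ring
        rw [h2]
        calc (m : ℝ) * (d : ℝ) ^ (1 / (J : ℝ)) ≤
            (d : ℝ) ^ (1 - 1 / (J : ℝ)) * (d : ℝ) ^ (1 / (J : ℝ)) := by gcongr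
          _ = d := by
            rw [← Real.rpow_add (by linarith)]
            simp
      have hmM := g7 m hmJ
      set k := ⌈C0 J * m * Real.log d⌉₊ with hk
      have hpos : 0 < C0 J * m * Real.log d := by positivity
      have hk1 : C0 J * m * Real.log d ≤ k := Nat.le_ceil _
      have hmL : 1 ≤ m * Real.log d := by nlinarith
      have hk2 : (k : ℝ) ≤ (C0 J + 1) * m * Real.log d := by
        have := Nat.ceil_lt_add_one hpos.le
        nlinarith
      have hkpos : 0 < k := Nat.ceil_pos.mpr hpos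
      have hfp := fail_prob (n := d) (T := Tn d) (J := J) (m := m) (k := k) (C0 J) (lam J) (b d)
        v rt fr lev Un (by omega) (hb d hd1) hF1 hF2 hF3 hF4 hF5 hF6
        (hall J hJ1 g1 m hm hmM) hJ1 hm hC1J (hlam J) (hC3 J) (hC4 J) hk1 hk2 hmJ g2 g3 g4 g5 g6
      have hhalf : 1 / 2 ≤ ripProb (U d) m k := by
        rw [hUbig d hd1]
        exact rip_half (b d) hm g2 hfp.1 hkpos hfp.2
      refine ⟨Nat.sInf_mem (s := {k : ℕ | 1 / 2 ≤ ripProb (U d) m k}) ⟨k, hhalf⟩, ?_⟩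
      have h1 : kU (U d) m ≤ k := Nat.sInf_le hhalf
      have h2 : (kU (U d) m : ℝ) ≤ k := by exact_mod_cast h1
      refine (h2.trans hk2).trans ?_
      gcongr
      exact le_max_left _ _
    · -- small dimensions
      have hhalf : 1 / 2 ≤ ripProb (U d) m d := by
        rw [ripProb_full (U d) (hunit d) m]
        norm_num
      refine ⟨Nat.sInf_mem (s := {k : ℕ | 1 / 2 ≤ ripProb (U d) m k}) ⟨d, hhalf⟩, ?_⟩
      have h1 : kU (U d) m ≤ d := Nat.sInf_le hhalf
      have h2 : (kU (U d) m : ℝ) ≤ d := by exact_mod_cast h1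
      have h3 : (d : ℝ) ≤ N := by
        have : d ≤ N := by omega
        exact_mod_cast this
      refine (h2.trans h3).trans ?_
      calc (N : ℝ) = N / Real.log 2 * 1 * Real.log 2 := by field_simp
        _ ≤ max (C0 J + 1) (N / Real.log 2) * m * Real.log d := by
          gcongr
          exact le_max_right _ _

end Run7.h589
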