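import Pool.Agent.Run7.h589.Rows

open Finset

namespace Run7.h589

/-- level of the main rows -/
def jj (t : ℕ) : ℕ := (t - t / 20) - 10

/-- level of the unconstrained rows -/
noncomputable def jU (n T r : ℕ) : ℕ := Nat.clog 2 ⌈Real.exp (-(T / 50)) * n / r⌉₊

theorem jj_le (t : ℕ) : jj t ≤ t := by unfold jj; omega

theorem pow_le_jj (t : ℕ) : (2 : ℝ) ^ t ≤ 2 ^ (jj t) * 2 ^ 10 * 2 ^ (t / 20) := by
  rw [← pow_add, ← pow_add]
  apply pow_le_pow_right₀ (by norm_num)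
  unfold jj
  omega

theorem jj_sum_term (t : ℕ) : (1 / 2 : ℝ) ^ t * (2 ^ (jj t) - 1) ≤ (1 / 2) ^ 10 * (1 / 2) ^ (t / 20) := by
  by_cases h : jj t = 0
  · rw [h]
    simp
  · have h1 : jj t + 10 + t / 20 = t := by
      unfold jj at h ⊢
      omega
    have h2 : (1 / 2 : ℝ) ^ t = (1 / 2) ^ (jj t) * (1 / 2) ^ 10 * (1 / 2) ^ (t / 20) := by
      rw [← pow_add, ← pow_add, h1]
    have h3 : (1 / 2 : ℝ) ^ (jj t) * 2 ^ (jj t) = 1 := by rw [← mul_pow]; norm_num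
    have h4 : (0 : ℝ) ≤ (1 / 2) ^ t := by positivity
    calc (1 / 2 : ℝ) ^ t * (2 ^ (jj t) - 1) ≤ (1 / 2 : ℝ) ^ t * 2 ^ (jj t) := by
          gcongr
          linarith
      _ = (1 / 2) ^ 10 * (1 / 2) ^ (t / 20) * ((1 / 2 : ℝ) ^ (jj t) * 2 ^ (jj t)) := by
          rw [h2]; ring
      _ = _ := by rw [h3, mul_one]

theorem sum_div20 (N : ℕ) : ∑ t ∈ range (20 * N), (1 / 2 : ℝ) ^ (t / 20) = 40 * (1 - (1 / 2) ^ N) := by
  induction N with
  | zero => simp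
  | succ N ih =>
    rw [Nat.mul_succ, Finset.sum_range_add, ih]
    have : ∀ i ∈ range 20, (1 / 2 : ℝ) ^ ((20 * N + i) / 20) = (1 / 2) ^ N := by
      intro i hi
      rw [Finset.mem_range] at hi
      congr 1
      omega
    rw [Finset.sum_congr rfl this, Finset.sum_const, card_range]
    rw [pow_succ]
    simp only [nsmul_eq_mul]
    push_cast
    ring

theorem sum_jj (T : ℕ) : ∑ t ∈ range T, (1 / 2 : ℝ) ^ t * (2 ^ (jj t) - 1) ≤ 40 / 1024 := by
  calc ∑ t ∈ range T, (1 / 2 : ℝ) ^ t * (2 ^ (jj t) - 1) ≤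
      ∑ t ∈ range T, (1 / 2) ^ 10 * (1 / 2) ^ (t / 20) := Finset.sum_le_sum fun t _ => jj_sum_term t
    _ ≤ ∑ t ∈ range (20 * T), (1 / 2) ^ 10 * (1 / 2) ^ (t / 20) := by
      apply Finset.sum_le_sum_of_subset_of_nonneg
      · exact Finset.range_subset_range.mpr (by omega)
      · intro t _ _; positivity
    _ = (1 / 2) ^ 10 * (40 * (1 - (1 / 2) ^ T)) := by
      rw [← Finset.mul_sum, sum_div20]
    _ ≤ _ := by
      have : (0 : ℝ) ≤ (1 / 2) ^ T := by positivity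
      nlinarith

theorem pi_pow (t : ℕ) : piT t * 2 ^ (t / 20) * ((t : ℝ) + 1) ≤ 200 := by
  have h1 : (2 : ℝ) ^ (t / 20) ≤ Real.exp (0.035 * t) := by
    have h2 : (2 : ℝ) ^ (t / 20) = Real.exp ((t / 20 : ℕ) * Real.log 2) := by
      rw [← Real.exp_log (show (0 : ℝ) < 2 by norm_num), ← Real.exp_nat_mul,
        Real.exp_log (show (0 : ℝ) < 2 by norm_num)]
    rw [h2]
    apply Real.exp_le_exp.mpr
    have h3 : ((t / 20 : ℕ) : ℝ) ≤ (t : ℝ) / 20 := by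
      have := @Nat.cast_div_le ℝ _ _ _ t 20
      push_cast at this
      exact this
    have h4 := log_two_lt
    have h5 : 0 < Real.log 2 := Real.log_pos (by norm_num)
    have h6 : (0 : ℝ) ≤ t := by positivity
    have h7 : (0 : ℝ) ≤ ((t / 20 : ℕ) : ℝ) := by positivity
    nlinarith
  have h8 : (t : ℝ) + 1 ≤ 200 * Real.exp (t / 200) := by
    have := Real.add_one_le_exp ((t : ℝ) / 200)
    linarith
  have h9 : piT t * 2 ^ (t / 20) * ((t : ℝ) + 1) ≤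
      piT t * Real.exp (0.035 * t) * (200 * Real.exp (t / 200)) := by
    have := piT_pos t
    gcongr
  refine h9.trans ?_
  unfold piT
  have h10 : Real.exp (-((t : ℝ) / 25)) * Real.exp (0.035 * t) * (200 * Real.exp (t / 200)) =
      200 * Real.exp (-((t : ℝ) / 25) + 0.035 * t + t / 200) := by
    rw [Real.exp_add, Real.exp_add]
    ring
  rw [h10]
  have h11 : Real.exp (-((t : ℝ) / 25) + 0.035 * t + t / 200) ≤ 1 := by
    rw [Real.exp_le_one_iff]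
    linarith
  linarith

theorem pi_pow' (t : ℕ) : piT t * 2 ^ (t / 20) ≤ 1 := by
  have h1 : (2 : ℝ) ^ (t / 20) ≤ Real.exp (0.035 * t) := by
    have h2 : (2 : ℝ) ^ (t / 20) = Real.exp ((t / 20 : ℕ) * Real.log 2) := by
      rw [← Real.exp_log (show (0 : ℝ) < 2 by norm_num), ← Real.exp_nat_mul,
        Real.exp_log (show (0 : ℝ) < 2 by norm_num)]
    rw [h2]
    apply Real.exp_le_exp.mpr
    have h3 : ((t / 20 : ℕ) : ℝ) ≤ (t : ℝ) / 20 := by
      have := @Nat.cast_div_le ℝ _ _ _ t 20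
      push_cast at this
      exact this
    have h4 := log_two_lt
    have h5 : 0 < Real.log 2 := Real.log_pos (by norm_num)
    have h6 : (0 : ℝ) ≤ t := by positivity
    have h7 : (0 : ℝ) ≤ ((t / 20 : ℕ) : ℝ) := by positivity
    nlinarith
  have h9 : piT t * 2 ^ (t / 20) ≤ piT t * Real.exp (0.035 * t) := by
    have := piT_pos t
    gcongr
  refine h9.trans ?_
  unfold piT
  rw [← Real.exp_add, Real.exp_le_one_iff]
  have h6 : (0 : ℝ) ≤ t := by positivity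
  linarith

theorem lamT_le (t : ℕ) : lamT t ≤ 15000000 ^ 2 * 2 ^ (jj t) := by
  have h1 := pow_le_jj t
  have h2 := pi_pow t
  have h3 := piT_pos t
  unfold lamT
  have h4 : (0 : ℝ) ≤ t := by positivity
  calc 2000000 * piT t * 2 ^ t * (500 * ((t : ℝ) + 1)) ≤
      2000000 * piT t * (2 ^ (jj t) * 2 ^ 10 * 2 ^ (t / 20)) * (500 * ((t : ℝ) + 1)) := by gcongr
    _ = 2000000 * 500 * 2 ^ 10 * 2 ^ (jj t) * (piT t * 2 ^ (t / 20) * ((t : ℝ) + 1)) := by ring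
    _ ≤ 2000000 * 500 * 2 ^ 10 * 2 ^ (jj t) * 200 := by gcongr
    _ ≤ _ := by
      have : (0 : ℝ) ≤ 2 ^ (jj t) := by positivity
      nlinarith

theorem jU_ge (n T r : ℕ) : Real.exp (-(T / 50)) * n / r ≤ 2 ^ (jU n T r) := by
  unfold jU
  have h1 := Nat.le_pow_clog (b := 2) (by norm_num) ⌈Real.exp (-(T / 50)) * n / r⌉₊
  have h2 : ((⌈Real.exp (-(T / 50)) * n / r⌉₊ : ℕ) : ℝ) ≤
      2 ^ (Nat.clog 2 ⌈Real.exp (-(T / 50)) * n / r⌉₊) := by exact_mod_cast h1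
  exact (Nat.le_ceil _).trans h2

theorem jU_le (n T r : ℕ) : (2 : ℝ) ^ (jU n T r) - 1 ≤ 2 * (Real.exp (-(T / 50)) * n / r) := by
  unfold jU
  set x := Real.exp (-(T / 50)) * n / r with hx
  have hx0 : 0 ≤ x := by positivity
  by_cases h : ⌈x⌉₊ ≤ 1
  · rw [Nat.clog_of_right_le_one h]
    simp
    exact hx0
  · push Not at h
    have h1 := Nat.pow_pred_clog_lt_self (b := 2) (by norm_num) h
    have h2 : 1 ≤ Nat.clog 2 ⌈x⌉₊ := Nat.clog_pos (by norm_num) (by omega)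
    have h3 : (2 : ℝ) ^ (Nat.clog 2 ⌈x⌉₊) = 2 * 2 ^ (Nat.clog 2 ⌈x⌉₊).pred := by
      rw [← pow_succ']
      congr 1
      rw [← Nat.succ_eq_add_one, Nat.succ_pred (by omega)]
    rw [h3]
    have h4 : 2 ^ (Nat.clog 2 ⌈x⌉₊).pred + 1 ≤ ⌈x⌉₊ := h1
    have h5 : ((2 : ℝ) ^ (Nat.clog 2 ⌈x⌉₊).pred) + 1 ≤ (⌈x⌉₊ : ℝ) := by exact_mod_cast h4
    have h6 : (⌈x⌉₊ : ℝ) < x + 1 := Nat.ceil_lt_add_one hx0
    linarith

theorem geom_s (N : ℕ) : ∑ l ∈ range N, Real.sqrt (1 / 2) ^ (l + 1) ≤ 5 / 2 := by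
  set s := Real.sqrt (1 / 2) with hs
  have hs0 : 0 ≤ s := Real.sqrt_nonneg _
  have hs1 : s ≤ 5 / 7 := by
    rw [hs]
    apply Real.sqrt_le_iff.mpr
    constructor <;> norm_num
  have h : ∀ N : ℕ, (∑ l ∈ range N, s ^ (l + 1)) * (1 - s) = s - s ^ (N + 1) := by
    intro N
    induction N with
    | zero => simp
    | succ N ih =>
      rw [Finset.sum_range_succ, add_mul, ih]
      ring
  have h1 := h N
  have h2 : 0 ≤ s ^ (N + 1) := by positivity
  have h3 : 0 ≤ ∑ l ∈ range N, s ^ (l + 1) := Finset.sum_nonneg fun _ _ => by positivity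
  nlinarith

end Run7.h589
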