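import Pool.Agent.Run7.h589.Stage

open Finset

namespace Run7.h589

theorem YY_succ (n t : ℕ) : YY n (sT n (t + 1)) (MT (t + 1)) ⊆ YY n (sT n t) (MT t) := by
  obtain ⟨k, hk⟩ := eS_succ t
  have h1 : sT n (t + 1) * 2 ^ eG ≤ sT n t := by
    unfold sT
    rw [hk, pow_add, ← Nat.div_div_eq_div_mul, pow_add, ← Nat.div_div_eq_div_mul]
    calc n / 2 ^ eS t / 2 ^ k / 2 ^ eG * 2 ^ eG ≤ n / 2 ^ eS t / 2 ^ k := Nat.div_mul_le_self _ _
      _ ≤ n / 2 ^ eS t := Nat.div_le_self _ _
  apply YY_mono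
  · calc sT n (t + 1) = sT n (t + 1) * 1 := by ring
      _ ≤ sT n (t + 1) * 2 ^ eG := Nat.mul_le_mul_left _ Nat.one_le_two_pow
      _ ≤ sT n t := h1
  · unfold MT
    rw [eM_succ]
    calc sT n (t + 1) * 2 ^ (eM t + eG + 3) = sT n (t + 1) * 2 ^ eG * 2 ^ (eM t + 3) := by
          rw [mul_assoc, ← pow_add]
          congr 2
          ring
      _ ≤ sT n t * 2 ^ (eM t + 3) := Nat.mul_le_mul_right _ h1

/-- the potential of tagged rows -/
noncomputable def PotX {n : ℕ} {ιX : Type} [Fintype ιX] (W : ιX → ℝ) (x : ιX → E n)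
    (A B : ℕ → ιX → ℝ) (LL : List (ℕ × E n)) : ℝ :=
  ∑ e, W e * (LL.map (fun p => fX ⟨W e, A p.1 e, B p.1 e, x e⟩ p.2)).prod

theorem fX_W {n : ℕ} (w w' A B : ℝ) (x : E n) : fX ⟨w, A, B, x⟩ = fX ⟨w', A, B, x⟩ := rfl

theorem pn_top {n : ℕ} (y : E n) : pn (⊤ : Submodule ℝ (E n)) y = ‖y‖ ^ 2 := by
  unfold pn
  rw [Submodule.starProjection_eq_self_iff.mpr Submodule.mem_top]

theorem main_phase {n : ℕ} {ιX : Type} [Fintype ιX] (W : ιX → ℝ) (zz : ιX → (Fin n → ℤ))
    (A B : ℕ → ιX → ℝ) (T : ℕ) (hn : 1 ≤ n) (hBig : ∀ t < T, BigN n t)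
    (hρ : ∀ t < T, (80 : ℝ) ≤ n / 2 ^ t) (hW : ∀ e, 0 ≤ W e) (hW2 : ∑ e, W e ≤ 2)
    (hA : ∀ t e, 0 ≤ A t e) (hB : ∀ t e, 0 ≤ B t e)
    (hAX : ∀ t < T, ∀ e, A t e * (piT t * ‖iv (zz e)‖ ^ 2) ≤ 3 * (n / 2 ^ t) / 8000)
    (hz : ∀ t < T, ∀ e, zz e ∈ YY n (sT n t) (MT t)) :
    ∀ t ≤ T, ∃ LL : List (ℕ × E n), Ch ⊤ (LL.map Prod.snd) ∧
      (∀ p ∈ LL, p.1 < t ∧ ∀ j, |p.2 j| ≤ Real.sqrt (lamT p.1 / n)) ∧
      PotX W (fun e => iv (zz e)) A B LL ≤ ∑ e, W e + 3 * LL.length / n ∧
      (Module.finrank ℝ (RL (⊤ : Submodule ℝ (E n)) (LL.map Prod.snd)) : ℝ) ≤ n / 2 ^ t ∧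
      9 / 10 * ((n : ℝ) / 2 ^ t) ≤ Module.finrank ℝ (RL (⊤ : Submodule ℝ (E n)) (LL.map Prod.snd)) ∧
      (∀ z ∈ YY n (sT n t) (MT t), xiT t * ‖iv z‖ ^ 2 ≤ pn (RL ⊤ (LL.map Prod.snd)) (iv z)) ∧
      (∀ z, z ∈ YY n (sT n t) (MT t) ∨ (∃ e, z = zz e) →
        pn (RL ⊤ (LL.map Prod.snd)) (iv z) ≤ piT t * ‖iv z‖ ^ 2) ∧
      (∀ t', ((LL.filter (fun p => p.1 = t')).length : ℝ) ≤ n / 2 ^ t') := by
  have hn' : (0 : ℝ) < n := by exact_mod_cast hn
  intro t
  induction t with
  | zero =>
    intro _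
    have h0 : Module.finrank ℝ (RL (⊤ : Submodule ℝ (E n))
        (([] : List (ℕ × E n)).map Prod.snd)) = n := by
      have : Module.finrank ℝ (⊤ : Submodule ℝ (E n)) = n := by
        rw [finrank_top]; simp
      exact this
    refine ⟨[], trivial, by simp, ?_, ?_, ?_, ?_, ?_, ?_⟩
    · simp [PotX]
    · rw [h0]; simp
    · rw [h0]
      simp only [pow_zero, div_one]
      linarith
    · intro z _
      have : xiT 0 = 1 := by unfold xiT; rw [eX_zero]; simp
      rw [this]
      simp [RL, pn_top]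
    · intro z _
      have : piT 0 = 1 := by unfold piT; simp
      rw [this]
      simp [RL, pn_top]
    · intro t'
      simp
      positivity
  | succ t ih =>
    intro ht
    obtain ⟨LL, hCh, hfl, hPot, hf1, hf2, hlo, hhi, hcnt⟩ := ih (by omega)
    set Rs := RL (⊤ : Submodule ℝ (E n)) (LL.map Prod.snd) with hRs
    have hfin := finrank_RL hCh
    rw [finrank_top, List.length_map] at hfin
    have hfinE : Module.finrank ℝ (E n) = n := by simp
    rw [hfinE, ← hRs] at hfin
    have hfin' : (Module.finrank ℝ Rs : ℝ) + LL.length = n := by exact_mod_cast hfin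
    let XS : ιX → XItem n := fun e =>
      ⟨W e * (LL.map (fun p => fX ⟨W e, A p.1 e, B p.1 e, iv (zz e)⟩ p.2)).prod, A t e, B t e,
        iv (zz e)⟩
    have hprod : ∀ e, 0 ≤ (LL.map (fun p => fX ⟨W e, A p.1 e, B p.1 e, iv (zz e)⟩ p.2)).prod := by
      intro e
      apply List.prod_nonneg
      intro a ha
      simp only [List.mem_map] at ha
      obtain ⟨p, _, rfl⟩ := ha
      exact (fX_pos _ (hB _ _) _).le
    have hTX0 : TX XS [] = PotX W (fun e => iv (zz e)) A B LL := by
      unfold TX PotX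
      simp [XS]
    obtain ⟨L, hCh1, hfl1, hTX1, hr1, hr2, hlo1, hhi1⟩ := stage XS Rs t hn (hBig t (by omega))
      (n / 2 ^ t) rfl (hρ t (by omega)) hf1 hf2 hlo (fun z hz' => hhi z (Or.inl hz'))
      (fun e => mul_nonneg (hW e) (hprod e)) (fun e => hB t e) (fun e => hA t e)
      (by
        intro e
        have h1 := hhi (zz e) (Or.inr ⟨e, rfl⟩)
        have h2 := hA t e
        have h3 := hAX t (by omega) e
        calc A t e * pn Rs (iv (zz e)) ≤ A t e * (piT t * ‖iv (zz e)‖ ^ 2) := by gcongr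
          _ ≤ _ := h3)
      (by
        rw [hTX0]
        have h1 : 3 * (LL.length : ℝ) / n + 3 * Module.finrank ℝ Rs / n = 3 := by
          field_simp
          linarith
        linarith)
    have hmap : (L.map (fun v => (t, v)) ++ LL).map Prod.snd = L ++ LL.map Prod.snd := by
      rw [List.map_append, List.map_map]
      congr 1
      simp
    refine ⟨L.map (fun v => (t, v)) ++ LL, ?_, ?_, ?_, ?_, ?_, ?_, ?_, ?_⟩
    · rw [hmap, Ch_append]
      exact ⟨hCh, hCh1⟩
    · intro p hp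
      rcases List.mem_append.mp hp with h | h
      · rw [List.mem_map] at h
        obtain ⟨v, hv, rfl⟩ := h
        exact ⟨by simp, hfl1 v hv⟩
      · exact ⟨by have := (hfl p h).1; omega, (hfl p h).2⟩
    · have h1 : PotX W (fun e => iv (zz e)) A B (L.map (fun v => (t, v)) ++ LL) = TX XS L := by
        unfold PotX TX
        apply Finset.sum_congr rfl
        intro e _
        rw [List.map_append, List.prod_append, List.map_map]
        simp only [XS]
        have h2 : (List.map ((fun p : ℕ × E n => fX ⟨W e, A p.1 e, B p.1 e, iv (zz e)⟩ p.2) ∘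
            fun v => (t, v)) L) = List.map (fX ⟨W e * (LL.map (fun p =>
              fX ⟨W e, A p.1 e, B p.1 e, iv (zz e)⟩ p.2)).prod, A t e, B t e, iv (zz e)⟩) L := by
          apply List.map_congr_left
          intro v _
          rfl
        rw [h2]
        ring
      rw [h1]
      rw [hTX0] at hTX1
      have h2 : ((L.map (fun v => (t, v)) ++ LL).length : ℝ) = L.length + LL.length := by
        simp
      rw [h2]
      have h3 : 3 * ((L.length : ℝ) + LL.length) / n = 3 * L.length / n + 3 * LL.length / n := by ring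
      rw [h3]
      linarith
    · rw [hmap, RL_append]
      have : (n : ℝ) / 2 ^ (t + 1) = n / 2 ^ t / 2 := by rw [pow_succ]; field_simp
      rw [this]
      exact hr1
    · rw [hmap, RL_append]
      have : (n : ℝ) / 2 ^ (t + 1) = n / 2 ^ t / 2 := by rw [pow_succ]; field_simp
      rw [this]
      exact hr2
    · intro z hz'
      rw [hmap, RL_append]
      exact hlo1 z (YY_succ n t hz')
    · intro z hz'
      rw [hmap, RL_append]
      rcases hz' with h | ⟨e, rfl⟩
      · exact hhi1 z (YY_succ n t h)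
      · exact hhi1 _ (hz t (by omega) e)
    · intro t'
      rw [List.filter_append, List.length_append]
      by_cases htt : t' = t
      · subst htt
        have h1 : LL.filter (fun p => decide (p.1 = t')) = [] := by
          rw [List.filter_eq_nil_iff]
          intro p hp
          have := (hfl p hp).1
          simp
          omega
        rw [h1]
        have h2 : ((L.map (fun v => (t', v))).filter (fun p => decide (p.1 = t'))).length ≤ L.length := by
          refine le_trans (List.length_filter_le _ _) (by simp)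
        have h3 := finrank_RL hCh1
        have h4 : (L.length : ℝ) ≤ Module.finrank ℝ Rs := by
          have : L.length ≤ Module.finrank ℝ Rs := by omega
          exact_mod_cast this
        have h5 : (((L.map (fun v => (t', v))).filter (fun p => decide (p.1 = t'))).length : ℝ) ≤
            L.length := by exact_mod_cast h2
        simp only [List.length_nil, add_zero]
        linarith
      · have h1 : (L.map (fun v => (t, v))).filter (fun p => decide (p.1 = t')) = [] := by
          rw [List.filter_eq_nil_iff]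
          intro p hp
          rw [List.mem_map] at hp
          obtain ⟨v, _, rfl⟩ := hp
          simp
          exact fun h => htt h.symm
        rw [h1]
        simp only [List.length_nil, zero_add]
        exact hcnt t'

/-- one unconstrained row -/
theorem un_step {n : ℕ} {ιX : Type} [Fintype ιX] [Nonempty ιX] (XS : ιX → XItem n)
    (R : Submodule ℝ (E n)) (r : ℕ) (hr : r = Module.finrank ℝ R) (hr1 : 1 ≤ r)
    (hXW : ∀ e, 0 < (XS e).W) (hXB : ∀ e, 0 < (XS e).B) (hXA : ∀ e, 0 ≤ (XS e).A)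
    (hXX : ∀ e, (XS e).A * pn R (XS e).x ≤ r / 1000) :
    ∃ v ∈ R, ‖v‖ = 1 ∧ ∑ e, (XS e).W * fX (XS e) v ≤ ∑ e, (XS e).W := by
  let G : ιX → GItem n := fun e => ⟨(XS e).W / (1 + (XS e).B), 1, (XS e).B, (XS e).A, (XS e).x⟩
  let LI : Empty → LItem n := fun e => e.elim
  have hpos1 : ∀ e, 0 < 1 + (XS e).B := fun e => by linarith [hXB e]
  have hact : ∀ v : E n, ‖v‖ ≤ 1 → act 2 v = ∅ := by
    intro v hv
    ext j
    rw [mem_act]
    constructor
    · intro h
      exfalso
      have h1 : (v j) ^ 2 ≤ ‖v‖ ^ 2 := by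
        rw [norm_sq_eq]
        exact Finset.single_le_sum (f := fun j => (v j) ^ 2) (fun _ _ => sq_nonneg _)
          (Finset.mem_univ j)
      rw [← sq_abs, h] at h1
      have := norm_nonneg v
      nlinarith
    · intro h
      simp at h
  obtain ⟨i0⟩ := (inferInstance : Nonempty ιX)
  obtain ⟨v, hvR, hv1, _, hvP⟩ := row_exists G LI R 2 (by norm_num)
    (fun e => div_nonneg (hXW e).le (hpos1 e).le) (fun e => (hXB e).le) hXA
    (fun e => e.elim) (fun e => e.elim) r hr hr1 hXX (fun e => e.elim)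
    ⟨i0, div_pos (hXW i0) (hpos1 i0), hXB i0⟩ (Or.inl inferInstance)
    (fun v _ hv _ _ => Or.inl (hact v hv))
  refine ⟨v, hvR, hv1, ?_⟩
  have h1 : Psi G LI R (act 2 v) v = ∑ e, (XS e).W * fX (XS e) v := by
    unfold Psi
    rw [Finset.univ_eq_empty (α := Empty), Finset.sum_empty, add_zero]
    apply Finset.sum_congr rfl
    intro e _
    have := hpos1 e
    simp only [G, gq, hv1, fX]
    have e1 : (XS e).A * (inner ℝ (XS e).x v) ^ 2 * (2 - 1 ^ 2) - 1 / 25 * 1 ^ 2 =
      (XS e).A * (inner ℝ (XS e).x v) ^ 2 - 1 / 25 := by ring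
    rw [e1]
    field_simp
  have h2 : Psi G LI R ∅ 0 = ∑ e, (XS e).W := by
    unfold Psi
    rw [Finset.univ_eq_empty (α := Empty), Finset.sum_empty, add_zero]
    apply Finset.sum_congr rfl
    intro e _
    have := hpos1 e
    simp only [G, gq, inner_zero_right, norm_zero]
    norm_num
    field_simp
  rw [h1, h2] at hvP
  exact hvP

/-- the unconstrained phase -/
theorem un_phase {n : ℕ} {ιX : Type} [Fintype ιX] [Nonempty ιX] (x : ιX → E n) (U : ιX → ℝ)
    (b : ℝ) (hb : 0 < b) (hU : ∀ e, 0 < U e) :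
    ∀ (r : ℕ) (W : ιX → ℝ) (R : Submodule ℝ (E n)), (∀ e, 0 < W e) → r = Module.finrank ℝ R →
      (∀ e, pn R (x e) ≤ U e) →
      ∃ LL : List (ℕ × E n), Ch R (LL.map Prod.snd) ∧ LL.map Prod.fst = (List.range' 1 r) ∧
        PotX W x (fun r e => r / (1000 * U e)) (fun _ _ => b) LL ≤ ∑ e, W e := by
  intro r
  induction r with
  | zero =>
    intro W R _ _ _
    exact ⟨[], trivial, by simp, by simp [PotX]⟩
  | succ r ih =>
    intro W R hW hr hR
    let XS : ιX → XItem n := fun e => ⟨W e, (r + 1 : ℕ) / (1000 * U e), b, x e⟩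
    have hU0 : ∀ e, 0 ≤ ((r + 1 : ℕ) : ℝ) / (1000 * U e) := fun e => by
      have := hU e
      positivity
    obtain ⟨v, hvR, hv1, hvP⟩ := un_step XS R (r + 1) hr (by omega) hW (fun _ => hb) hU0
      (by
        intro e
        have h1 := hR e
        have h2 := hU e
        calc ((r + 1 : ℕ) : ℝ) / (1000 * U e) * pn R (x e) ≤
            ((r + 1 : ℕ) : ℝ) / (1000 * U e) * U e := by gcongr
          _ = ((r + 1 : ℕ) : ℝ) / 1000 := by field_simp)
    have hfr := finrank_Rm R v hvR hv1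
    obtain ⟨LL, hCh, htag, hPot⟩ := ih (fun e => W e * fX (XS e) v) (Rm R v)
      (fun e => mul_pos (hW e) (fX_pos _ hb.le _)) (by omega)
      (fun e => (pn_mono (Rm_le R v) (x e)).trans (hR e))
    refine ⟨LL ++ [(r + 1, v)], ?_, ?_, ?_⟩
    · rw [List.map_append, Ch_append]
      refine ⟨⟨trivial, hvR, hv1⟩, hCh⟩
    · rw [List.map_append, htag]
      simp [List.range'_concat, add_comm]
    · refine le_trans (le_of_eq ?_) (hPot.trans hvP)
      unfold PotX
      apply Finset.sum_congr rfl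
      intro e _
      rw [List.map_append, List.prod_append]
      simp only [List.map_cons, List.map_nil, List.prod_cons, List.prod_nil, mul_one]
      have h1 : fX ⟨W e, ((r + 1 : ℕ) : ℝ) / (1000 * U e), b, x e⟩ v = fX (XS e) v := rfl
      rw [h1]
      have h2 : (fun p : ℕ × E n => fX ⟨W e, (p.1 : ℝ) / (1000 * U e), b, x e⟩ p.2) =
        (fun p : ℕ × E n => fX ⟨W e * fX (XS e) v, (p.1 : ℝ) / (1000 * U e), b, x e⟩ p.2) := rfl
      rw [h2]
      ring

end Run7.h589
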