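import Pool.Agent.Run7.h589.Proj

open Finset

namespace Run7.h589

/-- the integer vector as a euclidean vector -/
noncomputable def iv {n : ℕ} (z : Fin n → ℤ) : E n := WithLp.toLp 2 (fun i => (z i : ℝ))

@[simp] theorem iv_apply {n : ℕ} (z : Fin n → ℤ) (i : Fin n) : iv z i = (z i : ℝ) := rfl

/-- integer vectors with at most `s` nonzero coordinates and `ℓ¹` norm at most `s * M` -/
noncomputable def YY (n s M : ℕ) : Finset (Fin n → ℤ) :=
  (Fintype.piFinset (fun _ => Finset.Icc (-((s * M : ℕ) : ℤ)) ((s * M : ℕ) : ℤ))).filter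
    (fun z => z ≠ 0 ∧ (Finset.univ.filter (fun i => z i ≠ 0)).card ≤ s ∧
      ∑ i, |z i| ≤ ((s * M : ℕ) : ℤ))

theorem mem_YY {n s M : ℕ} {z : Fin n → ℤ} : z ∈ YY n s M ↔
    z ≠ 0 ∧ (Finset.univ.filter (fun i => z i ≠ 0)).card ≤ s ∧
      ∑ i, |z i| ≤ ((s * M : ℕ) : ℤ) := by
  unfold YY
  rw [Finset.mem_filter, Fintype.mem_piFinset]
  constructor
  · intro h
    exact h.2
  · intro h
    refine ⟨?_, h⟩
    intro i
    rw [Finset.mem_Icc, ← abs_le]
    refine le_trans ?_ h.2.2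
    exact Finset.single_le_sum (f := fun i => |z i|) (fun j _ => abs_nonneg _) (Finset.mem_univ i)

theorem YY_mono {n s M s' M' : ℕ} (hs : s ≤ s') (hM : s * M ≤ s' * M') : YY n s M ⊆ YY n s' M' := by
  intro z hz
  rw [mem_YY] at hz ⊢
  refine ⟨hz.1, hz.2.1.trans hs, hz.2.2.trans ?_⟩
  exact_mod_cast hM

theorem one_sum (N : ℕ) (Λ q : ℝ) (hΛ : 0 < Λ) (hq : 0 < q) :
    ∑ a ∈ Finset.Icc (-(N : ℤ)) (N : ℤ), (if a = 0 then 1 else Λ⁻¹ * q ^ a.natAbs) ≤
      1 + 2 * Λ⁻¹ * ∑ k ∈ Finset.range N, q ^ (k + 1) := by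
  induction N with
  | zero => simp
  | succ N ih =>
    have h1 : Finset.Icc (-((N + 1 : ℕ) : ℤ)) ((N + 1 : ℕ) : ℤ) =
        insert ((N + 1 : ℕ) : ℤ) (insert (-((N + 1 : ℕ) : ℤ)) (Finset.Icc (-(N : ℤ)) (N : ℤ))) := by
      ext a
      simp only [Finset.mem_Icc, Finset.mem_insert]
      push_cast
      omega
    rw [h1, Finset.sum_insert, Finset.sum_insert, Finset.sum_range_succ]
    · have h2 : (((N + 1 : ℕ) : ℤ)) ≠ 0 := by positivity
      have h3 : (-((N + 1 : ℕ) : ℤ)) ≠ 0 := neg_ne_zero.mpr h2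
      rw [if_neg h2, if_neg h3]
      have h4 : (-((N + 1 : ℕ) : ℤ)).natAbs = N + 1 := by omega
      have h5 : (((N + 1 : ℕ) : ℤ)).natAbs = N + 1 := by omega
      rw [h4, h5]
      linarith
    · simp only [Finset.mem_Icc]
      push_cast
      omega
    · simp only [Finset.mem_Icc, Finset.mem_insert]
      push_cast
      omega

theorem geom_le (N M : ℕ) (hM : 1 ≤ M) :
    ∑ k ∈ Finset.range N, (Real.exp (-(1 / (M : ℝ)))) ^ (k + 1) ≤ M := by
  have hM' : (0 : ℝ) < M := by exact_mod_cast hM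
  set q := Real.exp (-(1 / (M : ℝ))) with hq
  have hq0 : 0 < q := Real.exp_pos _
  have hq1 : q ≤ M * (1 - q) := by
    have h1 : 1 / (M : ℝ) + 1 ≤ Real.exp (1 / (M : ℝ)) := Real.add_one_le_exp _
    have h2 : q * Real.exp (1 / (M : ℝ)) = 1 := by
      rw [hq, ← Real.exp_add]
      simp
    have h3 : q * (1 / (M : ℝ) + 1) ≤ 1 := by
      calc q * (1 / (M : ℝ) + 1) ≤ q * Real.exp (1 / (M : ℝ)) := by gcongr
        _ = 1 := h2
    have h4 : q * (1 / (M : ℝ) + 1) * M ≤ 1 * M := by gcongr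
    have h5 : q * (1 / (M : ℝ) + 1) * M = q + q * M := by field_simp
    linarith
  have hq1' : 0 < 1 - q := by
    by_contra hc
    push Not at hc
    nlinarith
  have h : ∀ N : ℕ, (∑ k ∈ Finset.range N, q ^ (k + 1)) * (1 - q) = q - q ^ (N + 1) := by
    intro N
    induction N with
    | zero => simp
    | succ N ih =>
      rw [Finset.sum_range_succ, add_mul, ih]
      ring
  have h1 := h N
  have h2 : (∑ k ∈ Finset.range N, q ^ (k + 1)) * (1 - q) ≤ M * (1 - q) := by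
    rw [h1]
    have : 0 < q ^ (N + 1) := by positivity
    linarith
  exact le_of_mul_le_mul_right h2 hq1'

theorem YY_card (n s M : ℕ) (hs : 1 ≤ s) (hsn : s ≤ n) (hM : 1 ≤ M) :
    ((YY n s M).card : ℝ) ≤ Real.exp (s * (2 + Real.log (2 * n * M / s))) := by
  have hs' : (0 : ℝ) < s := by exact_mod_cast hs
  have hn' : (0 : ℝ) < n := by exact_mod_cast (lt_of_lt_of_le hs hsn)
  have hM' : (1 : ℝ) ≤ M := by exact_mod_cast hM
  have hsn' : (s : ℝ) ≤ n := by exact_mod_cast hsn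
  set Λ : ℝ := 2 * n * M / s with hΛ
  have hΛ0 : 0 < Λ := by positivity
  have hΛ1 : 1 ≤ Λ := by
    rw [hΛ, le_div_iff₀ hs']
    nlinarith
  set q : ℝ := Real.exp (-(1 / (M : ℝ))) with hq
  have hq0 : 0 < q := Real.exp_pos _
  let g : ℤ → ℝ := fun a => if a = 0 then 1 else Λ⁻¹ * q ^ a.natAbs
  have hg0 : ∀ a, 0 ≤ g a := by
    intro a
    simp only [g]
    split_ifs <;> positivity
  have hgprod : ∀ z : Fin n → ℤ, ∏ i, g (z i) =
      (Λ⁻¹) ^ (Finset.univ.filter (fun i => z i ≠ 0)).card * q ^ (∑ i, (z i).natAbs) := by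
    intro z
    have h1 : ∀ i, g (z i) = (if z i ≠ 0 then Λ⁻¹ else 1) * q ^ (z i).natAbs := by
      intro i
      simp only [g]
      by_cases h : z i = 0
      · simp [h]
      · simp [h]
    simp_rw [h1]
    rw [Finset.prod_mul_distrib, Finset.prod_pow_eq_pow_sum]
    congr 1
    rw [Finset.prod_ite]
    simp
  have hone : ∀ z ∈ YY n s M, 1 ≤ Real.exp s * Λ ^ s * ∏ i, g (z i) := by
    intro z hz
    rw [mem_YY] at hz
    rw [hgprod z]
    have h1 : (∑ i, (z i).natAbs) ≤ s * M := by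
      have : ((∑ i, (z i).natAbs : ℕ) : ℤ) ≤ ((s * M : ℕ) : ℤ) := by
        push_cast
        have := hz.2.2
        push_cast at this
        exact this
      exact_mod_cast this
    have h2 : q ^ (s * M) ≤ q ^ (∑ i, (z i).natAbs) := by
      apply pow_le_pow_of_le_one hq0.le _ h1
      rw [hq, Real.exp_le_one_iff]
      have : 0 < 1 / (M : ℝ) := by positivity
      linarith
    have h3 : Real.exp s * q ^ (s * M) = 1 := by
      rw [hq, ← Real.exp_nat_mul, ← Real.exp_add]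
      have : (s : ℝ) + ((s * M : ℕ) : ℝ) * -(1 / (M : ℝ)) = 0 := by
        push_cast
        field_simp
        ring
      rw [this, Real.exp_zero]
    have h4 : 1 ≤ Λ ^ s * (Λ⁻¹) ^ (Finset.univ.filter (fun i => z i ≠ 0)).card := by
      rw [inv_pow, ← div_eq_mul_inv, one_le_div (by positivity)]
      exact pow_le_pow_right₀ hΛ1 hz.2.1
    calc (1 : ℝ) = 1 * 1 := by ring
      _ ≤ (Λ ^ s * (Λ⁻¹) ^ (Finset.univ.filter (fun i => z i ≠ 0)).card) *
          (Real.exp s * q ^ (s * M)) := by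
        rw [h3]
        linarith
      _ ≤ (Λ ^ s * (Λ⁻¹) ^ (Finset.univ.filter (fun i => z i ≠ 0)).card) *
          (Real.exp s * q ^ (∑ i, (z i).natAbs)) := by gcongr
      _ = _ := by ring
  have h1 : ((YY n s M).card : ℝ) ≤ ∑ z ∈ YY n s M, Real.exp s * Λ ^ s * ∏ i, g (z i) := by
    rw [Finset.card_eq_sum_ones]
    push_cast
    exact Finset.sum_le_sum hone
  have h2 : ∑ z ∈ YY n s M, Real.exp s * Λ ^ s * ∏ i, g (z i) ≤
      ∑ z ∈ Fintype.piFinset (fun _ : Fin n => Finset.Icc (-((s * M : ℕ) : ℤ)) ((s * M : ℕ) : ℤ)),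
        Real.exp s * Λ ^ s * ∏ i, g (z i) := by
    apply Finset.sum_le_sum_of_subset_of_nonneg
    · exact Finset.filter_subset _ _
    · intro z _ _
      have : 0 ≤ ∏ i, g (z i) := Finset.prod_nonneg fun i _ => hg0 _
      positivity
  rw [← Finset.mul_sum, ← Finset.mul_sum, ← Finset.prod_univ_sum] at h2
  rw [Finset.mul_sum] at h2
  have h3 : ∑ a ∈ Finset.Icc (-((s * M : ℕ) : ℤ)) ((s * M : ℕ) : ℤ), g a ≤ 1 + s / n := by
    have h4 := one_sum (s * M) Λ q hΛ0 hq0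
    have h5 := geom_le (s * M) M hM
    refine le_trans h4 ?_
    have h6 : 2 * Λ⁻¹ * ∑ k ∈ Finset.range (s * M), q ^ (k + 1) ≤ 2 * Λ⁻¹ * M := by
      gcongr
    have h7 : 2 * Λ⁻¹ * M = s / n := by
      rw [hΛ]
      field_simp
    linarith
  have h3' : 0 ≤ ∑ a ∈ Finset.Icc (-((s * M : ℕ) : ℤ)) ((s * M : ℕ) : ℤ), g a :=
    Finset.sum_nonneg fun a _ => hg0 a
  have h4 : (∏ _i : Fin n, ∑ a ∈ Finset.Icc (-((s * M : ℕ) : ℤ)) ((s * M : ℕ) : ℤ), g a) ≤
      Real.exp s := by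
    rw [Finset.prod_const, Finset.card_univ, Fintype.card_fin]
    calc (∑ a ∈ Finset.Icc (-((s * M : ℕ) : ℤ)) ((s * M : ℕ) : ℤ), g a) ^ n ≤
        (1 + (s : ℝ) / n) ^ n := by gcongr
      _ ≤ (Real.exp ((s : ℝ) / n)) ^ n := by
        have : (s : ℝ) / n + 1 ≤ Real.exp ((s : ℝ) / n) := Real.add_one_le_exp _
        have h0 : (0 : ℝ) ≤ (s : ℝ) / n := by positivity
        gcongr
        linarith
      _ = Real.exp s := by
        rw [← Real.exp_nat_mul]
        congr 1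
        field_simp
  calc ((YY n s M).card : ℝ) ≤ Real.exp s * Λ ^ s *
        ∏ _i : Fin n, ∑ a ∈ Finset.Icc (-((s * M : ℕ) : ℤ)) ((s * M : ℕ) : ℤ), g a := h1.trans h2
    _ ≤ Real.exp s * Λ ^ s * Real.exp s := by gcongr
    _ = Real.exp (s * (2 + Real.log Λ)) := by
      have : Λ ^ s = Real.exp (s * Real.log Λ) := by
        rw [Real.exp_nat_mul, Real.exp_log hΛ0]
      rw [this, ← Real.exp_add, ← Real.exp_add]
      congr 1
      ring

/-- truncation towards zero -/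
noncomputable def tz (y : ℝ) : ℤ := if 0 ≤ y then ⌊y⌋ else -⌊-y⌋

theorem tz_abs (y : ℝ) : |(tz y : ℝ)| ≤ |y| := by
  unfold tz
  split_ifs with h
  · have h1 : (0 : ℤ) ≤ ⌊y⌋ := Int.floor_nonneg.mpr h
    have h1' : (0 : ℝ) ≤ (⌊y⌋ : ℝ) := by exact_mod_cast h1
    rw [abs_of_nonneg h1', abs_of_nonneg h]
    exact Int.floor_le y
  · push Not at h
    have h1 : (0 : ℤ) ≤ ⌊-y⌋ := Int.floor_nonneg.mpr (by linarith)
    have h1' : (0 : ℝ) ≤ (⌊-y⌋ : ℝ) := by exact_mod_cast h1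
    push_cast
    rw [abs_neg, abs_of_nonneg h1', abs_of_neg h]
    exact Int.floor_le (-y)

theorem tz_diff (y : ℝ) : |y - (tz y : ℝ)| ≤ 1 := by
  unfold tz
  split_ifs with h
  · rw [abs_le]
    constructor
    · linarith [Int.floor_le y]
    · linarith [Int.lt_floor_add_one y]
  · push_cast
    rw [abs_le]
    constructor
    · linarith [Int.lt_floor_add_one (-y)]
    · linarith [Int.floor_le (-y)]

theorem tz_zero : tz 0 = 0 := by
  simp [tz]

/-- approximating a sparse vector by an integer vector -/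
theorem approx {n : ℕ} (s M : ℕ) (hs : 1 ≤ s) (hM : 1 ≤ M) (x : E n) (T : Finset (Fin n))
    (hT : T.card ≤ s) (hx : ∀ j, j ∉ T → x j = 0) (hx1 : ‖x‖ ≤ 1) :
    ∃ z : Fin n → ℤ, (z = 0 ∨ z ∈ YY n s M) ∧ (∀ j, j ∉ T → z j = 0) ∧
      ‖x - (1 / (M * Real.sqrt s)) • iv z‖ ≤ 1 / M ∧ ‖(1 / (M * Real.sqrt s)) • iv z‖ ≤ ‖x‖ := by
  have hs' : (0 : ℝ) < s := by exact_mod_cast hs
  have hM' : (0 : ℝ) < M := by exact_mod_cast hM
  have hsq : 0 < Real.sqrt s := Real.sqrt_pos.mpr hs'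
  have hsq2 : Real.sqrt s * Real.sqrt s = s := Real.mul_self_sqrt hs'.le
  set c : ℝ := M * Real.sqrt s with hc
  have hc0 : 0 < c := by positivity
  let z : Fin n → ℤ := fun i => tz (x i * c)
  have hzsupp : ∀ j, j ∉ T → z j = 0 := by
    intro j hj
    simp only [z]
    rw [hx j hj, zero_mul, tz_zero]
  have hzabs : ∀ i, |(z i : ℝ)| ≤ |x i| * c := by
    intro i
    have := tz_abs (x i * c)
    rw [abs_mul, abs_of_pos hc0] at this
    exact this
  have hsum : ∑ i, |(z i : ℝ)| ≤ s * M := by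
    have h1 : ∑ i, |(z i : ℝ)| = ∑ i ∈ T, |(z i : ℝ)| := by
      symm
      apply Finset.sum_subset (Finset.subset_univ T)
      intro i _ hi
      simp [hzsupp i hi]
    rw [h1]
    have h2 : ∑ i ∈ T, |(z i : ℝ)| ≤ (∑ i ∈ T, |x i|) * c := by
      rw [Finset.sum_mul]
      exact Finset.sum_le_sum fun i _ => hzabs i
    have h3 : (∑ i ∈ T, |x i|) ^ 2 ≤ s := by
      have h4 := Finset.sum_mul_sq_le_sq_mul_sq T (fun _ => (1 : ℝ)) (fun i => |x i|)
      simp only [one_mul, one_pow, sum_const, nsmul_eq_mul, mul_one, sq_abs] at h4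
      have h5 : ∑ i ∈ T, (x i) ^ 2 ≤ 1 := by
        calc ∑ i ∈ T, (x i) ^ 2 ≤ ∑ i, (x i) ^ 2 :=
              Finset.sum_le_sum_of_subset_of_nonneg (Finset.subset_univ T) fun _ _ _ => sq_nonneg _
          _ = ‖x‖ ^ 2 := (norm_sq_eq x).symm
          _ ≤ 1 := by
            have := norm_nonneg x
            nlinarith
      have h6 : (T.card : ℝ) ≤ s := by exact_mod_cast hT
      calc (∑ i ∈ T, |x i|) ^ 2 ≤ T.card * ∑ i ∈ T, (x i) ^ 2 := h4
        _ ≤ s * 1 := by
          have : 0 ≤ ∑ i ∈ T, (x i) ^ 2 := Finset.sum_nonneg fun _ _ => sq_nonneg _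
          gcongr
        _ = s := by ring
    have h4 : ∑ i ∈ T, |x i| ≤ Real.sqrt s := by
      apply Real.le_sqrt_of_sq_le h3
    calc ∑ i ∈ T, |(z i : ℝ)| ≤ (∑ i ∈ T, |x i|) * c := h2
      _ ≤ Real.sqrt s * c := by gcongr
      _ = (Real.sqrt s * Real.sqrt s) * M := by rw [hc]; ring
      _ = s * M := by rw [hsq2]
  refine ⟨z, ?_, hzsupp, ?_, ?_⟩
  · by_cases hz0 : z = 0
    · exact Or.inl hz0
    · right
      rw [mem_YY]
      refine ⟨hz0, ?_, ?_⟩
      · refine le_trans (Finset.card_le_card ?_) hT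
        intro i hi
        simp only [Finset.mem_filter, Finset.mem_univ, true_and] at hi
        by_contra hc
        exact hi (hzsupp i hc)
      · have : ((∑ i, |z i| : ℤ) : ℝ) ≤ ((s * M : ℕ) : ℝ) := by
          push_cast
          exact hsum
        exact_mod_cast this
  · have h1 : ‖x - (1 / c) • iv z‖ ^ 2 ≤ (1 / (M : ℝ)) ^ 2 := by
      rw [norm_sq_eq]
      have h2 : ∀ j, ((x - (1 / c) • iv z) j) ^ 2 ≤ if j ∈ T then (1 / c) ^ 2 else 0 := by
        intro j
        split_ifs with hj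
        · have h3 : (x - (1 / c) • iv z) j = (1 / c) * (x j * c - z j) := by
            simp only [PiLp.sub_apply, PiLp.smul_apply, iv_apply, smul_eq_mul]
            field_simp
          rw [h3, mul_pow]
          have h4 : (x j * c - z j) ^ 2 ≤ 1 := by
            have := tz_diff (x j * c)
            rw [← sq_abs]
            have h0 := abs_nonneg (x j * c - (z j : ℝ))
            have h5 : |x j * c - (z j : ℝ)| ≤ 1 := this
            nlinarith
          have h5 : 0 ≤ (1 / c) ^ 2 := by positivity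
          nlinarith
        · simp [hx j hj, hzsupp j hj]
      refine le_trans (Finset.sum_le_sum fun j _ => h2 j) ?_
      rw [← Finset.sum_filter, Finset.sum_const, nsmul_eq_mul]
      have h3 : ((Finset.univ.filter (fun j => j ∈ T)).card : ℝ) ≤ s := by
        simp only [Finset.filter_mem_eq_inter, Finset.univ_inter]
        exact_mod_cast hT
      calc ((Finset.univ.filter (fun j => j ∈ T)).card : ℝ) * (1 / c) ^ 2 ≤ s * (1 / c) ^ 2 := by
            gcongr
        _ = (1 / (M : ℝ)) ^ 2 := by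
          rw [hc, div_pow, div_pow, mul_pow, Real.sq_sqrt hs'.le]
          field_simp
    exact le_of_sq_le_sq h1 (by positivity) 
  · have h1 : ‖(1 / c) • iv z‖ ^ 2 ≤ ‖x‖ ^ 2 := by
      rw [norm_sq_eq, norm_sq_eq]
      apply Finset.sum_le_sum
      intro j _
      simp only [PiLp.smul_apply, iv_apply, smul_eq_mul]
      have h2 := hzabs j
      rw [← sq_abs (x j), ← sq_abs (1 / c * (z j : ℝ)), abs_mul, abs_of_pos (by positivity : 0 < 1 / c)]
      have h3 : 1 / c * |(z j : ℝ)| ≤ |x j| := by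
        rw [one_div, inv_mul_le_iff₀ hc0]
        linarith
      have : 0 ≤ 1 / c * |(z j : ℝ)| := by positivity
      gcongr
    exact le_of_sq_le_sq h1 (norm_nonneg x)

theorem sparse_lower {n : ℕ} (s M : ℕ) (hs : 1 ≤ s) (hM : 1 ≤ M) (R : Submodule ℝ (E n))
    (ξ : ℝ) (hξ0 : 0 < ξ) (hξ1 : ξ ≤ 1) (hMξ : 4 ≤ M * Real.sqrt ξ)
    (hR : ∀ z ∈ YY n s M, ξ * ‖iv z‖ ^ 2 ≤ pn R (iv z))
    (x : E n) (T : Finset (Fin n)) (hT : T.card ≤ s) (hx : ∀ j, j ∉ T → x j = 0) :
    ξ / 4 * ‖x‖ ^ 2 ≤ pn R x := by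
  have hM' : (0 : ℝ) < M := by exact_mod_cast hM
  -- the case of unit vectors
  have key : ∀ x : E n, (∀ j, j ∉ T → x j = 0) → ‖x‖ = 1 → Real.sqrt ξ / 2 ≤ ‖R.starProjection x‖ := by
    intro x hx hx1
    obtain ⟨z, hz, _, hd, hn⟩ := approx s M hs hM x T hT hx hx1.le
    set z' := (1 / (M * Real.sqrt s)) • iv z with hz'
    have h1 : Real.sqrt ξ * ‖z'‖ ≤ ‖R.starProjection z'‖ := by
      rcases hz with h | h
      · have h0 : iv z = 0 := by
          ext i
          simp [h]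
        rw [hz', h0]
        simp
      · have h2 := hR z h
        have h3 : Real.sqrt ξ * ‖iv z‖ ≤ ‖R.starProjection (iv z)‖ := by
          unfold pn at h2
          have h4 : (Real.sqrt ξ * ‖iv z‖) ^ 2 ≤ ‖R.starProjection (iv z)‖ ^ 2 := by
            rw [mul_pow, Real.sq_sqrt hξ0.le]
            exact h2
          exact le_of_sq_le_sq h4 (norm_nonneg _)
        rw [hz', map_smul, norm_smul, norm_smul]
        calc Real.sqrt ξ * (‖1 / ((M : ℝ) * Real.sqrt s)‖ * ‖iv z‖) =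
            ‖1 / ((M : ℝ) * Real.sqrt s)‖ * (Real.sqrt ξ * ‖iv z‖) := by ring
          _ ≤ _ := by gcongr
    have h2 : ‖z'‖ ≥ 1 - 1 / M := by
      have h3 : ‖x‖ ≤ ‖x - z'‖ + ‖z'‖ := by
        calc ‖x‖ = ‖(x - z') + z'‖ := by congr 1; abel
          _ ≤ _ := norm_add_le _ _
      linarith
    have h3 : ‖R.starProjection z'‖ ≤ ‖R.starProjection x‖ + 1 / M := by
      have h4 : R.starProjection z' = R.starProjection x - R.starProjection (x - z') := by
        rw [map_sub]; abel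
      rw [h4]
      refine le_trans (norm_sub_le _ _) ?_
      have := R.norm_starProjection_apply_le (x - z')
      linarith
    have hs1 : Real.sqrt ξ ≤ 1 := by
      rw [show (1 : ℝ) = Real.sqrt 1 by simp]
      exact Real.sqrt_le_sqrt hξ1
    have hs0 : 0 < Real.sqrt ξ := Real.sqrt_pos.mpr hξ0
    have h5 : 1 / (M : ℝ) ≤ Real.sqrt ξ / 4 := by
      rw [div_le_div_iff₀ hM' (by norm_num)]
      linarith
    have h6 : Real.sqrt ξ * (1 - 1 / M) ≤ Real.sqrt ξ * ‖z'‖ := by gcongr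
    have h7 : Real.sqrt ξ * (1 / M) ≤ 1 / M := by
      have : 0 ≤ 1 / (M : ℝ) := by positivity
      nlinarith
    nlinarith
  by_cases h0 : x = 0
  · simp [h0, pn_nonneg]
  · have hn : 0 < ‖x‖ := norm_pos_iff.mpr h0
    have h1 := key (‖x‖⁻¹ • x) (by intro j hj; simp [hx j hj]) (by
      rw [norm_smul, norm_inv, norm_norm]
      field_simp)
    rw [map_smul, norm_smul, norm_inv, norm_norm] at h1
    have h2 : Real.sqrt ξ / 2 * ‖x‖ ≤ ‖R.starProjection x‖ := by
      have h3 : Real.sqrt ξ / 2 * ‖x‖ ≤ (‖x‖⁻¹ * ‖R.starProjection x‖) * ‖x‖ := by gcongr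
      have h4 : (‖x‖⁻¹ * ‖R.starProjection x‖) * ‖x‖ = ‖R.starProjection x‖ := by field_simp
      linarith
    unfold pn
    have h3 : (Real.sqrt ξ / 2 * ‖x‖) ^ 2 ≤ ‖R.starProjection x‖ ^ 2 := by
      have : 0 ≤ Real.sqrt ξ / 2 * ‖x‖ := by positivity
      gcongr
    have h4 : (Real.sqrt ξ / 2 * ‖x‖) ^ 2 = ξ / 4 * ‖x‖ ^ 2 := by
      rw [mul_pow, div_pow, Real.sq_sqrt hξ0.le]
      ring
    linarith

end Run7.h589
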