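import Pool.Agent.Run7.h589.Transfer

open Finset

namespace Run7.h589

def labN {n : ℕ} (rt : Fin n → Fin n) (i : Fin n) : Option (Fin n) := some (rt i)

def labM {n : ℕ} (rt : Fin n → Fin n) (fr : Fin n → ℕ → Fin n) (lev : Fin n → ℕ) (l : ℕ)
    (i : Fin n) : Option (Fin n) := if l < lev (rt i) then some (fr i l) else none

/-- number of chosen elements with label `k` -/
def cN {n : ℕ} (lab : Fin n → Option (Fin n)) (Ω : Finset (Fin n)) (k : Fin n) : ℕ :=
  (Ω.filter (fun i => lab i = some k)).card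

theorem sum_lab {n : ℕ} (lab : Fin n → Option (Fin n)) (Ω : Finset (Fin n)) (f : Fin n → ℝ) :
    ∑ i ∈ Ω, (lab i).elim 0 f = ∑ k, (cN lab Ω k : ℝ) * f k := by
  have h1 : ∀ k, (cN lab Ω k : ℝ) * f k = ∑ i ∈ Ω, if lab i = some k then f k else 0 := by
    intro k
    unfold cN
    rw [← Finset.sum_filter, Finset.sum_const, nsmul_eq_mul]
  simp_rw [h1]
  rw [Finset.sum_comm]
  apply Finset.sum_congr rfl
  intro i _
  rcases h : lab i with _ | a
  · simp
  · simp

structure Caps {n : ℕ} (rt : Fin n → Fin n) (fr : Fin n → ℕ → Fin n) (lev : Fin n → ℕ)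
    (Un : Finset (Fin n)) (Lm h : ℕ) (Q p kk : ℝ) (Ω : Finset (Fin n)) : Prop where
  c1 : ∀ k, k ∉ Un → cN (labN rt) Ω k ≤ h
  c2 : ∀ l < Lm, (2 : ℝ) ^ (l + 1) ≤ Q → ∀ k, cN (labM rt fr lev l) Ω k ≤ h
  c3 : ∀ k, (cN (labN rt) Ω k : ℝ) ≤ 9 * Real.log n + 2 * p * 2 ^ (lev k)
  c4 : ∀ l < Lm, ∀ k, (cN (labM rt fr lev l) Ω k : ℝ) ≤ 9 * Real.log n + 2 * p * 2 ^ (l + 1)
  c5 : (Ω.card : ℝ) ≤ 9 * Real.log n + 2 * kk

theorem ser1 (N : ℕ) : ∑ l ∈ range N, 1 / ((l : ℝ) + 1) ^ 2 ≤ 2 := by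
  have h : ∀ N : ℕ, ∑ l ∈ range (N + 1), 1 / ((l : ℝ) + 1) ^ 2 ≤ 2 - 1 / ((N : ℝ) + 1) := by
    intro N
    induction N with
    | zero => norm_num
    | succ N ih =>
      rw [Finset.sum_range_succ]
      push_cast
      have hN : (0 : ℝ) ≤ N := by positivity
      have h1 : 1 / ((N : ℝ) + 1 + 1) ^ 2 ≤ 1 / ((N : ℝ) + 1) - 1 / ((N : ℝ) + 1 + 1) := by
        rw [div_sub_div _ _ (by positivity) (by positivity), div_le_div_iff₀ (by positivity)
          (by positivity)]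
        nlinarith
      linarith
  rcases N with _ | N
  · simp
  · refine (h N).trans ?_
    have : 0 ≤ 1 / ((N : ℝ) + 1) := by positivity
    linarith

theorem ser2 (N : ℕ) : ∑ l ∈ range N, ((l : ℝ) + 1) ^ 2 * (1 / 2) ^ (l + 1) ≤ 6 := by
  have h : ∀ N : ℕ, ∑ l ∈ range N, ((l : ℝ) + 1) ^ 2 * (1 / 2) ^ (l + 1) =
      6 - ((N : ℝ) ^ 2 + 4 * N + 6) * (1 / 2) ^ N := by
    intro N
    induction N with
    | zero => norm_num
    | succ N ih =>
      rw [Finset.sum_range_succ, ih]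
      push_cast
      ring
  rw [h N]
  have : 0 ≤ ((N : ℝ) ^ 2 + 4 * N + 6) * (1 / 2) ^ N := by positivity
  linarith

theorem ser3 (N : ℕ) : ∑ l ∈ range N, ((l : ℝ) + 1) ^ 3 * (1 / 2) ^ (l + 1) ≤ 26 := by
  have h : ∀ N : ℕ, ∑ l ∈ range N, ((l : ℝ) + 1) ^ 3 * (1 / 2) ^ (l + 1) =
      26 - ((N : ℝ) ^ 3 + 6 * (N : ℝ) ^ 2 + 18 * N + 26) * (1 / 2) ^ N := by
    intro N
    induction N with
    | zero => norm_num
    | succ N ih =>
      rw [Finset.sum_range_succ, ih]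
      push_cast
      ring
  rw [h N]
  have : 0 ≤ ((N : ℝ) ^ 3 + 6 * (N : ℝ) ^ 2 + 18 * N + 26) * (1 / 2) ^ N := by positivity
  linarith

theorem mix_bound (N : ℕ) (a0 G : ℝ) (b : ℕ → ℝ)
    (hG : |G| ≤ Real.sqrt (1 / 2) ^ N * |a0| + ∑ l ∈ range N, Real.sqrt (1 / 2) ^ (l + 1) * |b l|) :
    G ^ 2 ≤ 2 * (1 / 2) ^ N * a0 ^ 2 +
      4 * ∑ l ∈ range N, ((l : ℝ) + 1) ^ 2 * (1 / 2) ^ (l + 1) * (b l) ^ 2 := by
  have hs : ∀ j : ℕ, (Real.sqrt (1 / 2) ^ j) ^ 2 = (1 / 2 : ℝ) ^ j := by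
    intro j
    rw [← pow_mul, mul_comm, pow_mul, Real.sq_sqrt (by norm_num)]
  set X := Real.sqrt (1 / 2) ^ N * |a0| with hX
  set Y := ∑ l ∈ range N, Real.sqrt (1 / 2) ^ (l + 1) * |b l| with hY
  have hX0 : 0 ≤ X := by positivity
  have hY0 : 0 ≤ Y := Finset.sum_nonneg fun l _ => by positivity
  have h1 : G ^ 2 ≤ (X + Y) ^ 2 := by
    rw [← sq_abs]
    have := abs_nonneg G
    gcongr
  have h2 : Y ^ 2 ≤ 2 * ∑ l ∈ range N, ((l : ℝ) + 1) ^ 2 * (1 / 2) ^ (l + 1) * (b l) ^ 2 := by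
    have h3 := Finset.sum_mul_sq_le_sq_mul_sq (range N) (fun l => 1 / ((l : ℝ) + 1))
      (fun l => ((l : ℝ) + 1) * (Real.sqrt (1 / 2) ^ (l + 1) * |b l|))
    have h4 : ∀ l ∈ range N, 1 / ((l : ℝ) + 1) *
        (((l : ℝ) + 1) * (Real.sqrt (1 / 2) ^ (l + 1) * |b l|)) =
        Real.sqrt (1 / 2) ^ (l + 1) * |b l| := by
      intro l _
      field_simp
    rw [Finset.sum_congr rfl h4] at h3
    have h5 : ∀ l ∈ range N, (((l : ℝ) + 1) * (Real.sqrt (1 / 2) ^ (l + 1) * |b l|)) ^ 2 =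
        ((l : ℝ) + 1) ^ 2 * (1 / 2) ^ (l + 1) * (b l) ^ 2 := by
      intro l _
      rw [mul_pow, mul_pow, hs, sq_abs]
      ring
    rw [Finset.sum_congr rfl h5] at h3
    have h6 : ∑ l ∈ range N, (1 / ((l : ℝ) + 1)) ^ 2 ≤ 2 := by
      have := ser1 N
      simpa [div_pow] using this
    refine h3.trans ?_
    have h7 : 0 ≤ ∑ l ∈ range N, ((l : ℝ) + 1) ^ 2 * (1 / 2) ^ (l + 1) * (b l) ^ 2 :=
      Finset.sum_nonneg fun l _ => by positivity
    gcongr
  have h3 : X ^ 2 = (1 / 2) ^ N * a0 ^ 2 := by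
    rw [hX, mul_pow, hs, sq_abs]
  nlinarith [sq_nonneg (X - Y)]

theorem excess {n : ℕ} (rt : Fin n → Fin n) (fr : Fin n → ℕ → Fin n) (lev : Fin n → ℕ)
    (Un : Finset (Fin n)) (Lm h : ℕ) (Q p kk lam Λ0 Λs εU εn H a1 Sb : ℝ) (bb G : Fin n → ℝ)
    (Ω : Finset (Fin n)) (hcaps : Caps rt fr lev Un Lm h Q p kk Ω) (hp : 0 ≤ p) (hQ : 0 < Q)
    (hn : 1 ≤ n) (hSb : 0 ≤ Sb) (hεU : 0 ≤ εU)
    (hbb : ∀ k, 0 ≤ bb k)
    (hG : ∀ i, G i ≤ 2 * (1 / 2) ^ (lev (rt i)) * bb (rt i) +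
      4 * ∑ l ∈ range (lev (rt i)), ((l : ℝ) + 1) ^ 2 * (1 / 2) ^ (l + 1) * bb (fr i l))
    (hF3 : ∀ i l, l < lev (rt i) → lev (fr i l) = 0) (hF4 : ∀ k ∈ Un, 1 ≤ lev k)
    (hLm : ∀ k, lev k ≤ Lm) (hΛ : Λs = 2 * lam + 104 * Λ0) (hlam : 0 ≤ lam) (hΛ0 : 0 ≤ Λ0)
    (E1 : ∑ k ∈ univ.filter (fun k => k ∉ Un), (if cN (labN rt) Ω k = 0 then 0
      else max ((1 / 2) ^ (lev k) * bb k - lam) 0) ≤ a1)
    (E2 : ∀ l < Lm, (2 : ℝ) ^ (l + 1) ≤ Q → ∑ k ∈ univ.filter (fun k => k ∉ Un ∧ lev k = 0),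
      (if cN (labM rt fr lev l) Ω k = 0 then 0 else max (bb k - Λ0 * (l + 1)) 0) ≤ a1)
    (P2 : ∀ A, A ⊆ Un → ∑ k ∈ A, (1 / 2) ^ (lev k) * bb k ≤ εU * (H + 2 * A.card * Real.log n))
    (P2' : ∑ k ∈ Un, bb k ≤ εn)
    (PSb : ∀ l < Lm, Q < (2 : ℝ) ^ (l + 1) → ∑ k ∈ univ.filter (fun k => k ∉ Un ∧ lev k = 0),
      max (bb k - Λ0 * (l + 1)) 0 ≤ Sb) :
    ∑ i ∈ Ω, max (G i - Λs) 0 ≤ 26 * h * a1 +
      18 * Real.log n * (εU * (H + 2 * (9 * Real.log n + 2 * kk) * Real.log n)) + 4 * p * εn +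
      4 * (Lm : ℝ) ^ 3 * (9 * Real.log n / Q + 2 * p) * Sb := by
  classical
  have hlogn : 0 ≤ Real.log n := Real.log_nonneg (by exact_mod_cast hn)
  let Af : Fin n → ℝ := fun k => if k ∈ Un then 2 * (1 / 2) ^ (lev k) * bb k
    else 2 * max ((1 / 2) ^ (lev k) * bb k - lam) 0
  let Bf : ℕ → Fin n → ℝ := fun l k => max (bb k - Λ0 * (l + 1)) 0
  have hBf0 : ∀ l k, 0 ≤ Bf l k := fun l k => le_max_right _ _
  -- pointwise bound
  have hpt : ∀ i, max (G i - Λs) 0 ≤ (labN rt i).elim 0 Af +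
      ∑ l ∈ range Lm, 4 * (((l : ℝ) + 1) ^ 2 * (1 / 2) ^ (l + 1)) *
        (labM rt fr lev l i).elim 0 (Bf l) := by
    intro i
    have h1 : ∑ l ∈ range Lm, 4 * (((l : ℝ) + 1) ^ 2 * (1 / 2) ^ (l + 1)) *
        (labM rt fr lev l i).elim 0 (Bf l) = 4 * ∑ l ∈ range (lev (rt i)),
        ((l : ℝ) + 1) ^ 2 * (1 / 2) ^ (l + 1) * Bf l (fr i l) := by
      rw [Finset.mul_sum]
      symm
      have hsub : range (lev (rt i)) ⊆ range Lm := Finset.range_subset_range.mpr (hLm _)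
      rw [← Finset.sum_subset hsub]
      · apply Finset.sum_congr rfl
        intro l hl
        have : labM rt fr lev l i = some (fr i l) := by
          unfold labM
          rw [if_pos (Finset.mem_range.mp hl)]
        rw [this]
        simp only [Option.elim_some]
        ring
      · intro l _ hl
        have : labM rt fr lev l i = none := by
          unfold labM
          rw [if_neg (by simpa using hl)]
        rw [this]
        simp
    rw [h1]
    have h2 : (labN rt i).elim 0 Af = Af (rt i) := rfl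
    rw [h2]
    have hB0 : 0 ≤ ∑ l ∈ range (lev (rt i)),
        ((l : ℝ) + 1) ^ 2 * (1 / 2) ^ (l + 1) * Bf l (fr i l) :=
      Finset.sum_nonneg fun l _ => mul_nonneg (by positivity) (hBf0 _ _)
    have hA0 : 0 ≤ Af (rt i) := by
      simp only [Af]
      split_ifs
      · have := hbb (rt i); positivity
      · have : (0 : ℝ) ≤ max ((1 / 2) ^ (lev (rt i)) * bb (rt i) - lam) 0 := le_max_right _ _
        positivity
    apply max_le _ (by linarith)
    have h3 : 2 * (1 / 2) ^ (lev (rt i)) * bb (rt i) ≤ 2 * lam + Af (rt i) := by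
      simp only [Af]
      split_ifs
      · linarith
      · have : (1 / 2) ^ (lev (rt i)) * bb (rt i) - lam ≤
          max ((1 / 2) ^ (lev (rt i)) * bb (rt i) - lam) 0 := le_max_left _ _
        linarith
    have h4 : ∑ l ∈ range (lev (rt i)), ((l : ℝ) + 1) ^ 2 * (1 / 2) ^ (l + 1) * bb (fr i l) ≤
        26 * Λ0 + ∑ l ∈ range (lev (rt i)),
        ((l : ℝ) + 1) ^ 2 * (1 / 2) ^ (l + 1) * Bf l (fr i l) := by
      have h5 : ∀ l ∈ range (lev (rt i)), ((l : ℝ) + 1) ^ 2 * (1 / 2) ^ (l + 1) * bb (fr i l) ≤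
          Λ0 * (((l : ℝ) + 1) ^ 3 * (1 / 2) ^ (l + 1)) +
          ((l : ℝ) + 1) ^ 2 * (1 / 2) ^ (l + 1) * Bf l (fr i l) := by
        intro l _
        have h6 : bb (fr i l) ≤ Λ0 * (l + 1) + Bf l (fr i l) := by
          have : bb (fr i l) - Λ0 * (l + 1) ≤ Bf l (fr i l) := le_max_left _ _
          linarith
        calc ((l : ℝ) + 1) ^ 2 * (1 / 2) ^ (l + 1) * bb (fr i l) ≤
            ((l : ℝ) + 1) ^ 2 * (1 / 2) ^ (l + 1) * (Λ0 * (l + 1) + Bf l (fr i l)) := by gcongr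
          _ = _ := by ring
      refine (Finset.sum_le_sum h5).trans ?_
      rw [Finset.sum_add_distrib, ← Finset.mul_sum]
      have := ser3 (lev (rt i))
      nlinarith
    have h5 := hG i
    linarith
  refine (Finset.sum_le_sum fun i _ => hpt i).trans ?_
  rw [Finset.sum_add_distrib, sum_lab, Finset.sum_comm]
  simp_rw [← Finset.mul_sum]
  have hlabM : ∀ l, ∑ i ∈ Ω, (labM rt fr lev l i).elim 0 (Bf l) =
      ∑ k, (cN (labM rt fr lev l) Ω k : ℝ) * Bf l k := fun l => sum_lab _ _ _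
  simp_rw [hlabM]
  -- the roots
  have hAsum : ∑ k, (cN (labN rt) Ω k : ℝ) * Af k ≤ 2 * h * a1 +
      (18 * Real.log n * (εU * (H + 2 * (9 * Real.log n + 2 * kk) * Real.log n)) + 4 * p * εn) := by
    rw [← Finset.sum_filter_add_sum_filter_not univ (fun k => k ∉ Un)]
    apply add_le_add
    · have h1 : ∀ k ∈ univ.filter (fun k => k ∉ Un), (cN (labN rt) Ω k : ℝ) * Af k ≤
          2 * h * (if cN (labN rt) Ω k = 0 then 0
            else max ((1 / 2) ^ (lev k) * bb k - lam) 0) := by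
        intro k hk
        have hkU : k ∉ Un := by simpa using hk
        simp only [Af, if_neg hkU]
        split_ifs with h0
        · rw [h0]; simp
        · have h2 : (cN (labN rt) Ω k : ℝ) ≤ h := by exact_mod_cast hcaps.c1 k hkU
          have h3 : (0 : ℝ) ≤ max ((1 / 2) ^ (lev k) * bb k - lam) 0 := le_max_right _ _
          nlinarith
      refine (Finset.sum_le_sum h1).trans ?_
      rw [← Finset.mul_sum]
      gcongr
    · have hfilter : univ.filter (fun k => ¬ (k ∉ Un)) = Un := by ext k; simp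
      rw [hfilter]
      set A := Un.filter (fun k => cN (labN rt) Ω k ≠ 0) with hA
      have h1 : ∑ k ∈ Un, (cN (labN rt) Ω k : ℝ) * Af k = ∑ k ∈ A, (cN (labN rt) Ω k : ℝ) * Af k := by
        rw [hA, Finset.sum_filter]
        apply Finset.sum_congr rfl
        intro k _
        by_cases h0 : cN (labN rt) Ω k = 0
        · simp [h0]
        · simp [h0]
      rw [h1]
      have hAU : A ⊆ Un := Finset.filter_subset _ _
      have h2 : ∀ k ∈ A, (cN (labN rt) Ω k : ℝ) * Af k ≤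
          18 * Real.log n * ((1 / 2) ^ (lev k) * bb k) + 4 * p * bb k := by
        intro k hk
        have hkU := hAU hk
        simp only [Af, if_pos hkU]
        have h3 := hcaps.c3 k
        have h4 := hbb k
        have h5 : 2 * (1 / 2) ^ (lev k) * bb k * (9 * Real.log n + 2 * p * 2 ^ (lev k)) =
            18 * Real.log n * ((1 / 2) ^ (lev k) * bb k) + 4 * p * bb k := by
          have : ((1 : ℝ) / 2) ^ (lev k) * 2 ^ (lev k) = 1 := by
            rw [← mul_pow]; norm_num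
          calc 2 * (1 / 2) ^ (lev k) * bb k * (9 * Real.log n + 2 * p * 2 ^ (lev k)) =
              18 * Real.log n * ((1 / 2) ^ (lev k) * bb k) +
                4 * p * bb k * (((1 : ℝ) / 2) ^ (lev k) * 2 ^ (lev k)) := by ring
            _ = _ := by rw [this]; ring
        rw [← h5, mul_comm]
        gcongr
      refine (Finset.sum_le_sum h2).trans ?_
      rw [Finset.sum_add_distrib, ← Finset.mul_sum, ← Finset.mul_sum]
      have h3 := P2 A hAU
      have h4 : ∑ k ∈ A, bb k ≤ εn := by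
        refine le_trans ?_ P2'
        exact Finset.sum_le_sum_of_subset_of_nonneg hAU fun k _ _ => hbb k
      have h5 : (A.card : ℝ) ≤ 9 * Real.log n + 2 * kk := by
        refine le_trans ?_ hcaps.c5
        have : A.card ≤ Ω.card := by
          have h6 : A ⊆ Ω.image rt := by
            intro k hk
            have h7 : cN (labN rt) Ω k ≠ 0 := by
              rw [hA] at hk
              exact (Finset.mem_filter.mp hk).2
            unfold cN at h7
            rw [Finset.card_ne_zero] at h7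
            obtain ⟨i, hi⟩ := h7
            rw [Finset.mem_filter] at hi
            rw [Finset.mem_image]
            refine ⟨i, hi.1, ?_⟩
            have := hi.2
            unfold labN at this
            exact Option.some_injective _ this
          exact (Finset.card_le_card h6).trans Finset.card_image_le
        exact_mod_cast this
      have h6 : εU * (H + 2 * A.card * Real.log n) ≤
          εU * (H + 2 * (9 * Real.log n + 2 * kk) * Real.log n) := by gcongr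
      have h7 : ∑ k ∈ A, (1 / 2) ^ (lev k) * bb k ≤
          εU * (H + 2 * (9 * Real.log n + 2 * kk) * Real.log n) := h3.trans h6
      gcongr
  -- the fresh rows
  have hFsum : ∀ l ∈ range Lm, 4 * (((l : ℝ) + 1) ^ 2 * (1 / 2) ^ (l + 1)) *
      ∑ k, (cN (labM rt fr lev l) Ω k : ℝ) * Bf l k ≤
      4 * h * a1 * (((l : ℝ) + 1) ^ 2 * (1 / 2) ^ (l + 1)) +
        4 * (Lm : ℝ) ^ 2 * ((9 * Real.log n / Q + 2 * p) * Sb) := by
    intro l hl
    have hlL := Finset.mem_range.mp hl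
    have hrestrict : ∑ k, (cN (labM rt fr lev l) Ω k : ℝ) * Bf l k =
        ∑ k ∈ univ.filter (fun k => k ∉ Un ∧ lev k = 0),
          (cN (labM rt fr lev l) Ω k : ℝ) * Bf l k := by
      symm
      apply Finset.sum_subset (Finset.filter_subset _ _)
      intro k _ hk
      have h0 : cN (labM rt fr lev l) Ω k = 0 := by
        by_contra h0
        apply hk
        unfold cN at h0
        rw [← ne_eq, Finset.card_ne_zero] at h0
        obtain ⟨i, hi⟩ := h0
        rw [Finset.mem_filter] at hi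
        have h1 := hi.2
        unfold labM at h1
        split_ifs at h1 with h2
        have h3 : fr i l = k := Option.some_injective _ h1
        have h4 := hF3 i l h2
        rw [h3] at h4
        simp only [Finset.mem_filter, Finset.mem_univ, true_and]
        refine ⟨fun h5 => ?_, h4⟩
        have := hF4 k h5
        omega
      rw [h0]
      simp
    rw [hrestrict]
    have hc0 : (0 : ℝ) ≤ ((l : ℝ) + 1) ^ 2 * (1 / 2) ^ (l + 1) := by positivity
    have hrem0 : 0 ≤ 4 * (Lm : ℝ) ^ 2 * ((9 * Real.log n / Q + 2 * p) * Sb) := by positivity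
    by_cases hlow : (2 : ℝ) ^ (l + 1) ≤ Q
    · have h1 : ∀ k ∈ univ.filter (fun k => k ∉ Un ∧ lev k = 0),
          (cN (labM rt fr lev l) Ω k : ℝ) * Bf l k ≤ h *
          (if cN (labM rt fr lev l) Ω k = 0 then 0 else max (bb k - Λ0 * (l + 1)) 0) := by
        intro k _
        split_ifs with h0
        · rw [h0]; simp
        · have h2 : (cN (labM rt fr lev l) Ω k : ℝ) ≤ h := by exact_mod_cast hcaps.c2 l hlL hlow k
          exact mul_le_mul_of_nonneg_right h2 (hBf0 l k)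
      have h2 := Finset.sum_le_sum h1
      rw [← Finset.mul_sum] at h2
      have h3 := E2 l hlL hlow
      have h4 : ∑ k ∈ univ.filter (fun k => k ∉ Un ∧ lev k = 0),
          (cN (labM rt fr lev l) Ω k : ℝ) * Bf l k ≤ h * a1 := by
        refine h2.trans ?_
        gcongr
      calc 4 * (((l : ℝ) + 1) ^ 2 * (1 / 2) ^ (l + 1)) *
            ∑ k ∈ univ.filter (fun k => k ∉ Un ∧ lev k = 0),
              (cN (labM rt fr lev l) Ω k : ℝ) * Bf l k ≤
          4 * (((l : ℝ) + 1) ^ 2 * (1 / 2) ^ (l + 1)) * (h * a1) := by gcongr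
        _ ≤ _ := by linarith
    · push Not at hlow
      have h1 : ∀ k ∈ univ.filter (fun k => k ∉ Un ∧ lev k = 0),
          (cN (labM rt fr lev l) Ω k : ℝ) * Bf l k ≤
          (9 * Real.log n + 2 * p * 2 ^ (l + 1)) * max (bb k - Λ0 * (l + 1)) 0 := by
        intro k _
        exact mul_le_mul_of_nonneg_right (hcaps.c4 l hlL k) (hBf0 l k)
      have h2 := Finset.sum_le_sum h1
      rw [← Finset.mul_sum] at h2
      have h3 := PSb l hlL hlow
      have h4 : ∑ k ∈ univ.filter (fun k => k ∉ Un ∧ lev k = 0),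
          (cN (labM rt fr lev l) Ω k : ℝ) * Bf l k ≤
          (9 * Real.log n + 2 * p * 2 ^ (l + 1)) * Sb := by
        refine h2.trans ?_
        gcongr
      have h5 : (1 / 2 : ℝ) ^ (l + 1) * (9 * Real.log n + 2 * p * 2 ^ (l + 1)) ≤
          9 * Real.log n / Q + 2 * p := by
        have h6 : (1 / 2 : ℝ) ^ (l + 1) * 2 ^ (l + 1) = 1 := by
          rw [← mul_pow]; norm_num
        have h7 : (1 / 2 : ℝ) ^ (l + 1) ≤ 1 / Q := by
          rw [one_div, inv_pow, one_div]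
          exact inv_anti₀ hQ hlow.le
        calc (1 / 2 : ℝ) ^ (l + 1) * (9 * Real.log n + 2 * p * 2 ^ (l + 1)) =
            (1 / 2 : ℝ) ^ (l + 1) * (9 * Real.log n) +
              2 * p * ((1 / 2 : ℝ) ^ (l + 1) * 2 ^ (l + 1)) := by ring
          _ ≤ 1 / Q * (9 * Real.log n) + 2 * p * 1 := by
            rw [h6]
            gcongr
          _ = _ := by ring
      have h8 : ((l : ℝ) + 1) ^ 2 ≤ (Lm : ℝ) ^ 2 := by
        have : (l : ℝ) + 1 ≤ Lm := by exact_mod_cast hlL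
        gcongr
      have ha1 : 0 ≤ a1 := by
        refine le_trans (Finset.sum_nonneg ?_) E1
        intro k _
        split_ifs
        · exact le_rfl
        · exact le_max_right _ _
      have h9 : 0 ≤ 4 * h * a1 * (((l : ℝ) + 1) ^ 2 * (1 / 2) ^ (l + 1)) := by positivity
      calc 4 * (((l : ℝ) + 1) ^ 2 * (1 / 2) ^ (l + 1)) *
            ∑ k ∈ univ.filter (fun k => k ∉ Un ∧ lev k = 0),
              (cN (labM rt fr lev l) Ω k : ℝ) * Bf l k ≤
          4 * (((l : ℝ) + 1) ^ 2 * (1 / 2) ^ (l + 1)) *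
            ((9 * Real.log n + 2 * p * 2 ^ (l + 1)) * Sb) := by gcongr
        _ = 4 * ((l : ℝ) + 1) ^ 2 *
            ((1 / 2 : ℝ) ^ (l + 1) * (9 * Real.log n + 2 * p * 2 ^ (l + 1)) * Sb) := by ring
        _ ≤ 4 * (Lm : ℝ) ^ 2 * ((9 * Real.log n / Q + 2 * p) * Sb) := by gcongr
        _ ≤ _ := by linarith
  have hFtot := Finset.sum_le_sum hFsum
  rw [Finset.sum_add_distrib, ← Finset.mul_sum, Finset.sum_const, card_range, nsmul_eq_mul] at hFtot
  have hser := ser2 Lm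
  have ha1 : 0 ≤ a1 := by
    refine le_trans (Finset.sum_nonneg ?_) E1
    intro k _
    split_ifs
    · exact le_rfl
    · exact le_max_right _ _
  have h10 : 4 * (h : ℝ) * a1 * ∑ l ∈ range Lm, ((l : ℝ) + 1) ^ 2 * (1 / 2) ^ (l + 1) ≤
      4 * h * a1 * 6 := by gcongr
  have h11 : (Lm : ℝ) * (4 * (Lm : ℝ) ^ 2 * ((9 * Real.log n / Q + 2 * p) * Sb)) =
      4 * (Lm : ℝ) ^ 3 * (9 * Real.log n / Q + 2 * p) * Sb := by ring
  linarith

end Run7.h589
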