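import Mathlib

open Finset

namespace Run7.h589

/-- expectation for a random subset in which each element is chosen with probability `p` -/
noncomputable def bE {n : ℕ} (p : ℝ) (F : Finset (Fin n) → ℝ) : ℝ :=
  ∑ Ω : Finset (Fin n), p ^ Ω.card * (1 - p) ^ (n - Ω.card) * F Ω

theorem bw_nonneg {n : ℕ} {p : ℝ} (h0 : 0 ≤ p) (h1 : p ≤ 1) (Ω : Finset (Fin n)) :
    0 ≤ p ^ Ω.card * (1 - p) ^ (n - Ω.card) := by
  have : 0 ≤ 1 - p := by linarith
  positivity

theorem bE_mono {n : ℕ} {p : ℝ} (h0 : 0 ≤ p) (h1 : p ≤ 1) {F G : Finset (Fin n) → ℝ}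
    (h : ∀ Ω, F Ω ≤ G Ω) : bE p F ≤ bE p G :=
  Finset.sum_le_sum fun Ω _ => mul_le_mul_of_nonneg_left (h Ω) (bw_nonneg h0 h1 Ω)

theorem bE_nonneg {n : ℕ} {p : ℝ} (h0 : 0 ≤ p) (h1 : p ≤ 1) {F : Finset (Fin n) → ℝ}
    (h : ∀ Ω, 0 ≤ F Ω) : 0 ≤ bE p F :=
  Finset.sum_nonneg fun Ω _ => mul_nonneg (bw_nonneg h0 h1 Ω) (h Ω)

theorem bE_mul {n : ℕ} (p c : ℝ) (F : Finset (Fin n) → ℝ) :
    bE p (fun Ω => c * F Ω) = c * bE p F := by
  unfold bE
  rw [Finset.mul_sum]
  apply Finset.sum_congr rfl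
  intro Ω _
  ring

theorem bE_add {n : ℕ} (p : ℝ) (F G : Finset (Fin n) → ℝ) :
    bE p (fun Ω => F Ω + G Ω) = bE p F + bE p G := by
  unfold bE
  rw [← Finset.sum_add_distrib]
  apply Finset.sum_congr rfl
  intro Ω _
  ring

theorem bE_sum {n : ℕ} {ι : Type*} (p : ℝ) (s : Finset ι) (F : ι → Finset (Fin n) → ℝ) :
    bE p (fun Ω => ∑ i ∈ s, F i Ω) = ∑ i ∈ s, bE p (F i) := by
  classical
  unfold bE
  rw [Finset.sum_comm]
  apply Finset.sum_congr rfl
  intro Ω _
  rw [Finset.mul_sum]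

theorem bE_prod {n : ℕ} (p : ℝ) (z : Fin n → ℝ) :
    bE p (fun Ω => ∏ i ∈ Ω, (1 + z i)) = ∏ i, (1 + p * z i) := by
  have h := Finset.prod_add (fun i => p * (1 + z i)) (fun _ => 1 - p) (univ : Finset (Fin n))
  have h1 : ∀ i : Fin n, p * (1 + z i) + (1 - p) = 1 + p * z i := fun i => by ring
  simp_rw [h1] at h
  rw [h, Finset.powerset_univ]
  unfold bE
  apply Finset.sum_congr rfl
  intro Ω _
  rw [Finset.prod_mul_distrib, Finset.prod_const, Finset.prod_const]
  have h2 : (univ \ Ω).card = n - Ω.card := by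
    rw [Finset.card_sdiff_of_subset (Finset.subset_univ Ω)]
    simp
  rw [h2]
  ring

theorem bE_one {n : ℕ} (p : ℝ) : bE p (fun _ : Finset (Fin n) => 1) = 1 := by
  have := bE_prod (n := n) p (fun _ => 0)
  simpa using this

theorem bE_const {n : ℕ} (p c : ℝ) : bE p (fun _ : Finset (Fin n) => c) = c := by
  have := bE_mul p c (fun _ : Finset (Fin n) => 1)
  simp only [mul_one] at this
  rw [this, bE_one, mul_one]

/-- a coordinate independent of `F` -/
theorem bE_indep {n : ℕ} (p : ℝ) (F : Finset (Fin n) → ℝ) (i : Fin n)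
    (hF : ∀ Ω, F (insert i Ω) = F Ω) :
    bE p (fun Ω => (if i ∈ Ω then 1 else 0) * F Ω) = p * bE p F := by
  unfold bE
  have huniv : (univ : Finset (Finset (Fin n))) = (insert i (univ.erase i)).powerset := by
    rw [Finset.insert_erase (Finset.mem_univ i), Finset.powerset_univ]
  rw [huniv, Finset.sum_powerset_insert (Finset.notMem_erase i univ),
    Finset.sum_powerset_insert (Finset.notMem_erase i univ)]
  have h1 : ∑ t ∈ (univ.erase i).powerset, p ^ t.card * (1 - p) ^ (n - t.card) *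
      ((if i ∈ t then 1 else 0) * F t) = 0 := by
    apply Finset.sum_eq_zero
    intro t ht
    have : i ∉ t := fun h => Finset.notMem_erase i univ (Finset.mem_powerset.mp ht h)
    rw [if_neg this]
    ring
  rw [h1, zero_add, ← Finset.sum_add_distrib, Finset.mul_sum]
  apply Finset.sum_congr rfl
  intro t ht
  have hit : i ∉ t := fun h => Finset.notMem_erase i univ (Finset.mem_powerset.mp ht h)
  have hcard : t.card + 1 ≤ n := by
    have h2 : (insert i t).card ≤ n := by
      have := Finset.card_le_univ (insert i t)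
      simpa using this
    rw [Finset.card_insert_of_notMem hit] at h2
    exact h2
  beta_reduce
  rw [if_pos (Finset.mem_insert_self i t), Finset.card_insert_of_notMem hit, hF t]
  have h3 : n - t.card = (n - (t.card + 1)) + 1 := by omega
  rw [h3, pow_succ, pow_succ]
  ring

/-- product over disjoint blocks -/
theorem bE_blocks {n : ℕ} {ι : Type*} [DecidableEq ι] (p : ℝ) (lab : Fin n → Option ι)
    (y : ι → ℝ) (K : Finset ι) :
    bE p (fun Ω => ∏ k ∈ K, (1 + y k * ((Ω.filter (fun i => lab i = some k)).card : ℝ))) =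
      ∏ k ∈ K, (1 + p * (univ.filter (fun i => lab i = some k)).card * y k) := by
  induction K using Finset.induction_on with
  | empty => simp [bE_one]
  | insert a K ha ih =>
    rw [Finset.prod_insert ha, ← ih]
    have h1 : ∀ Ω : Finset (Fin n), ∏ k ∈ insert a K,
        (1 + y k * ((Ω.filter (fun i => lab i = some k)).card : ℝ)) =
        ∏ k ∈ K, (1 + y k * ((Ω.filter (fun i => lab i = some k)).card : ℝ)) +
        y a * ∑ i ∈ univ.filter (fun i => lab i = some a), ((if i ∈ Ω then 1 else 0) *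
          ∏ k ∈ K, (1 + y k * ((Ω.filter (fun i => lab i = some k)).card : ℝ))) := by
      intro Ω
      rw [Finset.prod_insert ha, ← Finset.sum_mul]
      have h2 : ((Ω.filter (fun i => lab i = some a)).card : ℝ) =
          ∑ i ∈ univ.filter (fun i => lab i = some a), (if i ∈ Ω then (1 : ℝ) else 0) := by
        rw [Finset.sum_ite_mem, Finset.sum_const, nsmul_eq_mul, mul_one]
        congr 2
        ext i
        simp [and_comm]
      rw [h2]
      ring
    simp_rw [h1]
    rw [bE_add, bE_mul, bE_sum]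
    have h3 : ∀ i ∈ univ.filter (fun i => lab i = some a),
        bE p (fun Ω => (if i ∈ Ω then 1 else 0) *
          ∏ k ∈ K, (1 + y k * ((Ω.filter (fun i => lab i = some k)).card : ℝ))) =
        p * bE p (fun Ω => ∏ k ∈ K, (1 + y k * ((Ω.filter (fun i => lab i = some k)).card : ℝ))) := by
      intro i hi
      apply bE_indep
      intro Ω
      apply Finset.prod_congr rfl
      intro k hk
      have hia : lab i = some a := (Finset.mem_filter.mp hi).2
      have hak : ¬ (lab i = some k) := by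
        rw [hia]
        intro h
        apply ha
        rw [Option.some_injective _ h]
        exact hk
      rw [Finset.filter_insert, if_neg hak]
    rw [Finset.sum_congr rfl h3, Finset.sum_const, nsmul_eq_mul]
    ring

open Classical in
/-- probability for the random subset -/
noncomputable def bP {n : ℕ} (p : ℝ) (S : Finset (Fin n) → Prop) : ℝ :=
  bE p (fun Ω => if S Ω then 1 else 0)

theorem bP_le {n : ℕ} {p : ℝ} (h0 : 0 ≤ p) (h1 : p ≤ 1) (S : Finset (Fin n) → Prop)
    (F : Finset (Fin n) → ℝ) (hF : ∀ Ω, 0 ≤ F Ω) (h : ∀ Ω, S Ω → 1 ≤ F Ω) : bP p S ≤ bE p F := by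
  unfold bP
  apply bE_mono h0 h1
  intro Ω
  split_ifs with hS
  · exact h Ω hS
  · exact hF Ω

theorem bP_nonneg {n : ℕ} {p : ℝ} (h0 : 0 ≤ p) (h1 : p ≤ 1) (S : Finset (Fin n) → Prop) :
    0 ≤ bP p S := by
  unfold bP
  apply bE_nonneg h0 h1
  intro Ω
  split_ifs <;> norm_num

theorem bP_mono {n : ℕ} {p : ℝ} (h0 : 0 ≤ p) (h1 : p ≤ 1) {S S' : Finset (Fin n) → Prop}
    (h : ∀ Ω, S Ω → S' Ω) : bP p S ≤ bP p S' := by
  unfold bP
  apply bE_mono h0 h1
  intro Ω
  by_cases hS : S Ω
  · rw [if_pos hS, if_pos (h Ω hS)]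
  · rw [if_neg hS]
    split_ifs <;> norm_num

theorem bP_or {n : ℕ} {p : ℝ} (h0 : 0 ≤ p) (h1 : p ≤ 1) (S S' : Finset (Fin n) → Prop) :
    bP p (fun Ω => S Ω ∨ S' Ω) ≤ bP p S + bP p S' := by
  unfold bP
  rw [← bE_add]
  apply bE_mono h0 h1
  intro Ω
  by_cases h : S Ω <;> by_cases h' : S' Ω <;> simp [h, h']

theorem bP_union {n : ℕ} {ι : Type*} {p : ℝ} (h0 : 0 ≤ p) (h1 : p ≤ 1) (s : Finset ι)
    (S : ι → Finset (Fin n) → Prop) :
    bP p (fun Ω => ∃ i ∈ s, S i Ω) ≤ ∑ i ∈ s, bP p (S i) := by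
  classical
  unfold bP
  rw [← bE_sum]
  apply bE_mono h0 h1
  intro Ω
  by_cases h : ∃ i ∈ s, S i Ω
  · rw [if_pos h]
    obtain ⟨i, hi, hS⟩ := h
    calc (1 : ℝ) = if S i Ω then 1 else 0 := by rw [if_pos hS]
      _ ≤ ∑ i ∈ s, if S i Ω then (1 : ℝ) else 0 :=
        Finset.single_le_sum (f := fun i => if S i Ω then (1 : ℝ) else 0)
          (fun j _ => ite_nonneg (by norm_num) le_rfl) hi
  · rw [if_neg h]
    exact Finset.sum_nonneg fun j _ => by split_ifs <;> norm_num

/-- exponential moment of the size of the intersection with a set -/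
theorem cap_moment {n : ℕ} {p : ℝ} (h0 : 0 ≤ p) (h1 : p ≤ 1) (L : Finset (Fin n)) (s a : ℝ)
    (hs : 0 ≤ s) :
    bP p (fun Ω => a ≤ ((Ω.filter (fun i => i ∈ L)).card : ℝ)) ≤
      Real.exp (p * L.card * (Real.exp s - 1) - s * a) := by
  have h2 : bP p (fun Ω => a ≤ ((Ω.filter (fun i => i ∈ L)).card : ℝ)) ≤
      bE p (fun Ω => Real.exp (-(s * a)) * ∏ i ∈ Ω, (1 + if i ∈ L then (Real.exp s - 1) else 0)) := by
    have hprod : ∀ Ω : Finset (Fin n), ∏ i ∈ Ω, (1 + if i ∈ L then (Real.exp s - 1) else 0) =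
        Real.exp (s * ((Ω.filter (fun i => i ∈ L)).card : ℝ)) := by
      intro Ω
      have : ∀ i ∈ Ω, (1 + if i ∈ L then (Real.exp s - 1) else 0) =
          if i ∈ L then Real.exp s else 1 := by
        intro i _
        split_ifs <;> ring
      rw [Finset.prod_congr rfl this, Finset.prod_ite, Finset.prod_const, Finset.prod_const_one,
        mul_one, ← Real.exp_nat_mul]
      congr 1
      ring
    apply bP_le h0 h1
    · intro Ω
      rw [hprod]
      positivity
    · intro Ω hΩ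
      rw [hprod, ← Real.exp_add]
      apply Real.one_le_exp
      nlinarith
  refine h2.trans ?_
  rw [bE_mul, bE_prod]
  have h3 : ∏ i : Fin n, (1 + p * (if i ∈ L then (Real.exp s - 1) else 0)) ≤
      ∏ i : Fin n, Real.exp (p * (if i ∈ L then (Real.exp s - 1) else 0)) := by
    apply Finset.prod_le_prod
    · intro i _
      have : 0 ≤ Real.exp s - 1 := by linarith [Real.one_le_exp hs]
      split_ifs <;> positivity
    · intro i _
      linarith [Real.add_one_le_exp (p * (if i ∈ L then (Real.exp s - 1) else 0))]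
  rw [← Real.exp_sum, ← Finset.mul_sum] at h3
  have h4 : ∑ i : Fin n, (if i ∈ L then (Real.exp s - 1) else 0) = L.card * (Real.exp s - 1) := by
    rw [Finset.sum_ite_mem, Finset.univ_inter, Finset.sum_const, nsmul_eq_mul]
  rw [h4] at h3
  calc Real.exp (-(s * a)) * ∏ i : Fin n, (1 + p * (if i ∈ L then (Real.exp s - 1) else 0)) ≤
      Real.exp (-(s * a)) * Real.exp (p * (L.card * (Real.exp s - 1))) := by gcongr
    _ = _ := by
      rw [← Real.exp_add]
      congr 1
      ring

/-- hitting lemma -/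
theorem hitting {n : ℕ} {ι : Type*} [DecidableEq ι] {p : ℝ} (h0 : 0 ≤ p) (h1 : p ≤ 1)
    (lab : Fin n → Option ι) (K : Finset ι) (g : ι → ℝ) (hg : ∀ k, 0 ≤ g k) (θ a : ℝ)
    (hθ : 0 ≤ θ) :
    bP p (fun Ω => a < ∑ k ∈ K, (if (Ω.filter (fun i => lab i = some k)).card = 0 then 0
      else g k)) ≤ Real.exp (-(θ * a)) * ∏ k ∈ K,
        (1 + p * (univ.filter (fun i => lab i = some k)).card * (Real.exp (θ * g k) - 1)) := by
  rw [← bE_blocks, ← bE_mul]
  have hy : ∀ k, 0 ≤ Real.exp (θ * g k) - 1 := fun k => by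
    linarith [Real.one_le_exp (mul_nonneg hθ (hg k))]
  apply bP_le h0 h1
  · intro Ω
    apply mul_nonneg (Real.exp_pos _).le
    apply Finset.prod_nonneg
    intro k _
    have := hy k
    positivity
  · intro Ω hΩ
    have h2 : Real.exp (∑ k ∈ K, θ * (if (Ω.filter (fun i => lab i = some k)).card = 0 then 0
        else g k)) ≤ ∏ k ∈ K, (1 + (Real.exp (θ * g k) - 1) *
          ((Ω.filter (fun i => lab i = some k)).card : ℝ)) := by
      rw [Real.exp_sum]
      apply Finset.prod_le_prod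
      · intro k _; positivity
      · intro k _
        have hyk := hy k
        split_ifs with h
        · rw [h]; simp
        · have h3 : (1 : ℝ) ≤ ((Ω.filter (fun i => lab i = some k)).card : ℝ) := by
            exact_mod_cast Nat.one_le_iff_ne_zero.mpr h
          nlinarith
    rw [← Finset.mul_sum] at h2
    calc (1 : ℝ) ≤ Real.exp (-(θ * a)) * Real.exp (θ * ∑ k ∈ K,
          (if (Ω.filter (fun i => lab i = some k)).card = 0 then 0 else g k)) := by
          rw [← Real.exp_add]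
          apply Real.one_le_exp
          nlinarith
      _ ≤ _ := by gcongr

/-- bounded sums, both tails -/
theorem bounded_tail {n : ℕ} {p : ℝ} (h0 : 0 ≤ p) (h1 : p ≤ 1) (γ : Fin n → ℝ) (Λ t a S : ℝ)
    (hγ0 : ∀ i, 0 ≤ γ i) (hγ : ∀ i, γ i ≤ Λ) (ht : 0 ≤ t) (htΛ : t * Λ ≤ 1) (hΛ : 0 ≤ Λ)
    (hS : ∑ i, γ i = S) :
    bP p (fun Ω => p * S + a ≤ ∑ i ∈ Ω, γ i ∨ ∑ i ∈ Ω, γ i ≤ p * S - a) ≤
      2 * Real.exp (-(t * a) + p * t ^ 2 * Λ * S) := by
  have hup : bP p (fun Ω => p * S + a ≤ ∑ i ∈ Ω, γ i) ≤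
      Real.exp (-(t * a) + p * t ^ 2 * Λ * S) := by
    have h2 : bP p (fun Ω => p * S + a ≤ ∑ i ∈ Ω, γ i) ≤
        bE p (fun Ω => Real.exp (-(t * (p * S + a))) * ∏ i ∈ Ω, (1 + (Real.exp (t * γ i) - 1))) := by
      have hprod : ∀ Ω : Finset (Fin n), ∏ i ∈ Ω, (1 + (Real.exp (t * γ i) - 1)) =
          Real.exp (t * ∑ i ∈ Ω, γ i) := by
        intro Ω
        rw [Finset.mul_sum, Real.exp_sum]
        apply Finset.prod_congr rfl
        intro i _
        ring
      apply bP_le h0 h1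
      · intro Ω
        rw [hprod]
        positivity
      · intro Ω hΩ
        rw [hprod, ← Real.exp_add]
        apply Real.one_le_exp
        nlinarith
    refine h2.trans ?_
    rw [bE_mul, bE_prod]
    have h3 : ∏ i : Fin n, (1 + p * (Real.exp (t * γ i) - 1)) ≤
        ∏ i : Fin n, Real.exp (p * (t * γ i + t ^ 2 * Λ * γ i)) := by
      apply Finset.prod_le_prod
      · intro i _
        have : 1 ≤ Real.exp (t * γ i) := Real.one_le_exp (mul_nonneg ht (hγ0 i))
        have : 0 ≤ p * (Real.exp (t * γ i) - 1) := mul_nonneg h0 (by linarith)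
        linarith
      · intro i _
        have hu0 : 0 ≤ t * γ i := mul_nonneg ht (hγ0 i)
        have hu1 : t * γ i ≤ 1 := le_trans (mul_le_mul_of_nonneg_left (hγ i) ht) htΛ
        have h4 : Real.exp (t * γ i) ≤ 1 + t * γ i + (t * γ i) ^ 2 := by
          have h9 := Real.abs_exp_sub_one_sub_id_le (x := t * γ i) (by rw [abs_of_nonneg hu0]; exact hu1)
          have h10 := (abs_le.mp h9).2
          linarith
        have h5 : (t * γ i) ^ 2 ≤ t ^ 2 * Λ * γ i := by
          have : γ i * γ i ≤ Λ * γ i := mul_le_mul_of_nonneg_right (hγ i) (hγ0 i)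
          have h6 : 0 ≤ t ^ 2 := sq_nonneg t
          nlinarith
        have h7 : p * (Real.exp (t * γ i) - 1) ≤ p * (t * γ i + t ^ 2 * Λ * γ i) :=
          mul_le_mul_of_nonneg_left (by linarith) h0
        linarith [Real.add_one_le_exp (p * (t * γ i + t ^ 2 * Λ * γ i))]
    rw [← Real.exp_sum] at h3
    have h4 : ∑ i : Fin n, p * (t * γ i + t ^ 2 * Λ * γ i) = p * (t * S + t ^ 2 * Λ * S) := by
      rw [← Finset.mul_sum, Finset.sum_add_distrib, ← Finset.mul_sum, ← Finset.mul_sum, hS]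
    rw [h4] at h3
    calc Real.exp (-(t * (p * S + a))) * ∏ i : Fin n, (1 + p * (Real.exp (t * γ i) - 1)) ≤
        Real.exp (-(t * (p * S + a))) * Real.exp (p * (t * S + t ^ 2 * Λ * S)) := by gcongr
      _ = _ := by
        rw [← Real.exp_add]
        congr 1
        ring
  have hlo : bP p (fun Ω => ∑ i ∈ Ω, γ i ≤ p * S - a) ≤
      Real.exp (-(t * a) + p * t ^ 2 * Λ * S) := by
    have h2 : bP p (fun Ω => ∑ i ∈ Ω, γ i ≤ p * S - a) ≤
        bE p (fun Ω => Real.exp (t * (p * S - a)) * ∏ i ∈ Ω, (1 + (Real.exp (-(t * γ i)) - 1))) := by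
      have hprod : ∀ Ω : Finset (Fin n), ∏ i ∈ Ω, (1 + (Real.exp (-(t * γ i)) - 1)) =
          Real.exp (-(t * ∑ i ∈ Ω, γ i)) := by
        intro Ω
        rw [Finset.mul_sum, ← Finset.sum_neg_distrib, Real.exp_sum]
        apply Finset.prod_congr rfl
        intro i _
        ring
      apply bP_le h0 h1
      · intro Ω
        rw [hprod]
        positivity
      · intro Ω hΩ
        rw [hprod, ← Real.exp_add]
        apply Real.one_le_exp
        nlinarith
    refine h2.trans ?_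
    rw [bE_mul, bE_prod]
    have h3 : ∏ i : Fin n, (1 + p * (Real.exp (-(t * γ i)) - 1)) ≤
        ∏ i : Fin n, Real.exp (p * (-(t * γ i) + t ^ 2 * Λ * γ i)) := by
      apply Finset.prod_le_prod
      · intro i _
        have : 0 < Real.exp (-(t * γ i)) := Real.exp_pos _
        nlinarith
      · intro i _
        have hu0 : 0 ≤ t * γ i := mul_nonneg ht (hγ0 i)
        have hu1 : t * γ i ≤ 1 := le_trans (mul_le_mul_of_nonneg_left (hγ i) ht) htΛ
        have h4 : Real.exp (-(t * γ i)) ≤ 1 - t * γ i + (t * γ i) ^ 2 := by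
          have h9 := Real.abs_exp_sub_one_sub_id_le (x := -(t * γ i))
            (by rw [abs_neg, abs_of_nonneg hu0]; exact hu1)
          have h10 := (abs_le.mp h9).2
          have h11 : (-(t * γ i)) ^ 2 = (t * γ i) ^ 2 := by ring
          linarith
        have h5 : (t * γ i) ^ 2 ≤ t ^ 2 * Λ * γ i := by
          have : γ i * γ i ≤ Λ * γ i := mul_le_mul_of_nonneg_right (hγ i) (hγ0 i)
          have h6 : 0 ≤ t ^ 2 := sq_nonneg t
          nlinarith
        have h7 : p * (Real.exp (-(t * γ i)) - 1) ≤ p * (-(t * γ i) + t ^ 2 * Λ * γ i) :=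
          mul_le_mul_of_nonneg_left (by linarith) h0
        linarith [Real.add_one_le_exp (p * (-(t * γ i) + t ^ 2 * Λ * γ i))]
    rw [← Real.exp_sum] at h3
    have h4 : ∑ i : Fin n, p * (-(t * γ i) + t ^ 2 * Λ * γ i) = p * (-(t * S) + t ^ 2 * Λ * S) := by
      rw [← Finset.mul_sum, Finset.sum_add_distrib, Finset.sum_neg_distrib, ← Finset.mul_sum,
        ← Finset.mul_sum, hS]
    rw [h4] at h3
    calc Real.exp (t * (p * S - a)) * ∏ i : Fin n, (1 + p * (Real.exp (-(t * γ i)) - 1)) ≤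
        Real.exp (t * (p * S - a)) * Real.exp (p * (-(t * S) + t ^ 2 * Λ * S)) := by gcongr
      _ = _ := by
        rw [← Real.exp_add]
        congr 1
        ring
  refine (bP_or h0 h1 _ _).trans ?_
  linarith

end Run7.h589
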