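import Pool.Agent.Run7.h589.RowMain

open Finset

namespace Run7.h589

/-- remove the direction `v` from `R` -/
noncomputable def Rm {n : ℕ} (R : Submodule ℝ (E n)) (v : E n) : Submodule ℝ (E n) :=
  (Submodule.span ℝ {v})ᗮ ⊓ R

theorem mem_Rm {n : ℕ} {R : Submodule ℝ (E n)} {v x : E n} :
    x ∈ Rm R v ↔ inner ℝ v x = 0 ∧ x ∈ R := by
  unfold Rm
  rw [Submodule.mem_inf, Submodule.mem_orthogonal_singleton_iff_inner_right]

theorem Rm_le {n : ℕ} (R : Submodule ℝ (E n)) (v : E n) : Rm R v ≤ R := inf_le_right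

theorem finrank_Rm {n : ℕ} (R : Submodule ℝ (E n)) (v : E n) (hv : v ∈ R) (hv1 : ‖v‖ = 1) :
    Module.finrank ℝ (Rm R v) + 1 = Module.finrank ℝ R := by
  have h := Submodule.finrank_add_inf_finrank_orthogonal (K₁ := Submodule.span ℝ {v}) (K₂ := R)
    (by rw [Submodule.span_singleton_le_iff_mem]; exact hv)
  have hv0 : v ≠ 0 := by
    intro h0
    rw [h0] at hv1
    simp at hv1
  rw [finrank_span_singleton hv0] at h
  unfold Rm
  omega

theorem pn_Rm {n : ℕ} (R : Submodule ℝ (E n)) (v : E n) (hv : v ∈ R) (hv1 : ‖v‖ = 1) (y : E n) :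
    pn (Rm R v) y = pn R y - (inner ℝ y v) ^ 2 := by
  have h1 : (Rm R v).starProjection y = R.starProjection y - (inner ℝ y v) • v := by
    apply Submodule.eq_starProjection_of_mem_of_inner_eq_zero
    · rw [mem_Rm]
      refine ⟨?_, R.sub_mem (R.starProjection_apply_mem y) (R.smul_mem _ hv)⟩
      rw [inner_sub_right, inner_smul_right, real_inner_self_eq_norm_sq, hv1,
        real_inner_comm, inner_proj R y v hv]
      ring
    · intro w hw
      rw [mem_Rm] at hw
      have e : y - (R.starProjection y - (inner ℝ y v) • v) =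
        (y - R.starProjection y) + (inner ℝ y v) • v := by abel
      rw [e, inner_add_left, inner_smul_left, hw.1, inner_sub_left, inner_proj R y w hw.2]
      simp
  rw [pn_eq_inner, h1, inner_sub_right, inner_smul_right, ← pn_eq_inner]
  ring

theorem coord_eq_inner {n : ℕ} (v : E n) (j : Fin n) :
    inner ℝ (EuclideanSpace.single j (1 : ℝ)) v = v j := by
  rw [EuclideanSpace.inner_single_left]
  simp

theorem norm_sq_eq {n : ℕ} (v : E n) : ‖v‖ ^ 2 = ∑ j, (v j) ^ 2 := by
  rw [EuclideanSpace.real_norm_sq_eq]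

/-- the part of the projection lost by the constraints -/
theorem loss {n : ℕ} (R : Submodule ℝ (E n)) (J : Finset (Fin n)) (ξ : ℝ) (hξ : 0 < ξ)
    (hlow : ∀ z : E n, (∀ j, j ∉ J → z j = 0) → ξ * ‖z‖ ^ 2 ≤ pn R z) (y : E n) :
    pn R y - pn (EJ R J) y ≤ (1 / ξ) * ∑ j ∈ J, (R.starProjection y j) ^ 2 := by
  set p := R.starProjection y with hp
  set e := (EJ R J).starProjection y with he
  have hpR : p ∈ R := R.starProjection_apply_mem y
  have heE : e ∈ EJ R J := (EJ R J).starProjection_apply_mem y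
  set g := p - e with hg
  have hgR : g ∈ R := R.sub_mem hpR (EJ_le R J heE)
  have hgE : ∀ w ∈ EJ R J, inner ℝ g w = 0 := by
    intro w hw
    rw [hg, inner_sub_left, hp, he, inner_proj R y w (EJ_le R J hw), inner_proj (EJ R J) y w hw]
    ring
  -- the space spanned by the projections of the coordinate vectors of J
  let T : Submodule ℝ (E n) := (Submodule.span ℝ
    ((fun j : Fin n => EuclideanSpace.single j (1 : ℝ)) '' (J : Set (Fin n))))
  let S : Submodule ℝ (E n) := T.map (R.starProjection : E n →ₗ[ℝ] E n)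
  have hTz : ∀ z ∈ T, ∀ j, j ∉ J → z j = 0 := by
    intro z hz
    induction hz using Submodule.span_induction with
    | mem x hx =>
      obtain ⟨i, hi, rfl⟩ := hx
      intro j hj
      have : j ≠ i := fun h => hj (h ▸ hi)
      simp [this]
    | zero => intro j _; simp
    | add a b _ _ ha hb => intro j hj; simp [ha j hj, hb j hj]
    | smul c a _ ha => intro j hj; simp [ha j hj]
  have hSR : S ≤ R := by
    intro x hx
    obtain ⟨z, _, rfl⟩ := hx
    exact R.starProjection_apply_mem z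
  have hSperp : ∀ h ∈ R, h ∈ Sᗮ → h ∈ EJ R J := by
    intro h hh hS
    rw [mem_EJ]
    refine ⟨hh, ?_⟩
    intro j hj
    rw [Submodule.mem_orthogonal] at hS
    have h1 := hS (R.starProjection (EuclideanSpace.single j (1 : ℝ)))
      ⟨EuclideanSpace.single j (1 : ℝ), Submodule.subset_span ⟨j, hj, rfl⟩, rfl⟩
    rw [inner_proj R _ h hh, coord_eq_inner] at h1
    exact h1
  have hgS : g ∈ S := by
    set s := S.starProjection g with hs
    have hsS : s ∈ S := S.starProjection_apply_mem g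
    have h1 : g - s ∈ Sᗮ := Submodule.sub_starProjection_mem_orthogonal g
    have h2 : g - s ∈ EJ R J := hSperp _ (R.sub_mem hgR (hSR hsS)) h1
    have h3 : inner ℝ g (g - s) = 0 := hgE _ h2
    have h4 : inner ℝ s (g - s) = 0 := by
      rw [Submodule.mem_orthogonal] at h1
      exact h1 s hsS
    have h5 : inner ℝ (g - s) (g - s) = 0 := by
      rw [inner_sub_left, h3, h4]
      ring
    have h6 : g - s = 0 := inner_self_eq_zero.mp h5
    have h7 : g = s := sub_eq_zero.mp h6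
    rw [h7]
    exact hsS
  obtain ⟨z, hzT, hz⟩ := hgS
  have hz' : R.starProjection z = g := hz
  have hzsupp := hTz z hzT
  have h1 : pn R y - pn (EJ R J) y = ‖g‖ ^ 2 := by
    have h2 : ‖p‖ ^ 2 = ‖g‖ ^ 2 + ‖e‖ ^ 2 := by
      have h3 : p = g + e := by rw [hg]; abel
      rw [h3, norm_add_sq_real, hgE e heE]
      ring
    unfold pn
    rw [← hp, ← he]
    linarith
  have h2 : ‖g‖ ^ 2 = inner ℝ z p := by
    have h3 : inner ℝ g p = ‖g‖ ^ 2 := by
      have h4 : p = g + e := by rw [hg]; abel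
      rw [h4, inner_add_right, hgE e heE, real_inner_self_eq_norm_sq]
      ring
    rw [← h3, ← hz', inner_proj R z p hpR]
  have h3 : inner ℝ z p = ∑ j ∈ J, z j * p j := by
    rw [PiLp.inner_apply]
    rw [← Finset.sum_subset (Finset.subset_univ J)]
    · apply Finset.sum_congr rfl
      intro j _
      simp [mul_comm]
    · intro j _ hj
      simp [hzsupp j hj]
  have h4 : (∑ j ∈ J, z j * p j) ^ 2 ≤ (∑ j ∈ J, (z j) ^ 2) * ∑ j ∈ J, (p j) ^ 2 :=
    Finset.sum_mul_sq_le_sq_mul_sq J _ _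
  have h5 : ∑ j ∈ J, (z j) ^ 2 = ‖z‖ ^ 2 := by
    rw [norm_sq_eq]
    apply Finset.sum_subset (Finset.subset_univ J)
    intro j _ hj
    simp [hzsupp j hj]
  have h6 : ξ * ‖z‖ ^ 2 ≤ ‖g‖ ^ 2 := by
    have := hlow z hzsupp
    unfold pn at this
    rw [hz'] at this
    exact this
  have h7 : (‖g‖ ^ 2) ^ 2 ≤ ‖z‖ ^ 2 * ∑ j ∈ J, (p j) ^ 2 := by
    rw [← h5]
    calc (‖g‖ ^ 2) ^ 2 = (∑ j ∈ J, z j * p j) ^ 2 := by rw [h2, h3]
      _ ≤ _ := h4
  rw [h1]
  have h8 : 0 ≤ ∑ j ∈ J, (p j) ^ 2 := Finset.sum_nonneg fun j _ => sq_nonneg _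
  have h9 : ξ * (‖g‖ ^ 2) ^ 2 ≤ ‖g‖ ^ 2 * ∑ j ∈ J, (p j) ^ 2 := by
    calc ξ * (‖g‖ ^ 2) ^ 2 ≤ ξ * (‖z‖ ^ 2 * ∑ j ∈ J, (p j) ^ 2) := by gcongr
      _ = (ξ * ‖z‖ ^ 2) * ∑ j ∈ J, (p j) ^ 2 := by ring
      _ ≤ _ := by gcongr
  by_cases hg0 : ‖g‖ ^ 2 = 0
  · rw [hg0]
    positivity
  · have hgpos : 0 < ‖g‖ ^ 2 := lt_of_le_of_ne (by positivity) (Ne.symm hg0)
    have : ξ * ‖g‖ ^ 2 ≤ ∑ j ∈ J, (p j) ^ 2 := by
      by_contra hc
      push Not at hc
      nlinarith
    rw [one_div, inv_mul_eq_div, le_div_iff₀ hξ]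
    linarith

/-- difference of projections -/
theorem proj_diff {n : ℕ} {S R : Submodule ℝ (E n)} (h : S ≤ R) (y : E n) :
    ∑ j, (R.starProjection y j - S.starProjection y j) ^ 2 = pn R y - pn S y := by
  have h1 : ∑ j, (R.starProjection y j - S.starProjection y j) ^ 2 =
      ‖R.starProjection y - S.starProjection y‖ ^ 2 := by
    rw [norm_sq_eq]
    simp
  rw [h1, norm_sub_sq_real]
  have h2 : inner ℝ (R.starProjection y) (S.starProjection y) = ‖S.starProjection y‖ ^ 2 := by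
    rw [inner_proj R y _ (h (S.starProjection_apply_mem y)), ← pn_eq_inner]
    rfl
  rw [h2]
  unfold pn
  ring

theorem coord_sum_le {n : ℕ} {S R : Submodule ℝ (E n)} (h : S ≤ R) (y : E n)
    (J : Finset (Fin n)) :
    ∑ j ∈ J, (S.starProjection y j) ^ 2 ≤
      2 * ∑ j ∈ J, (R.starProjection y j) ^ 2 + 2 * (pn R y - pn S y) := by
  rw [← proj_diff h y]
  have h1 : ∑ j ∈ J, (R.starProjection y j - S.starProjection y j) ^ 2 ≤
      ∑ j, (R.starProjection y j - S.starProjection y j) ^ 2 :=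
    Finset.sum_le_sum_of_subset_of_nonneg (Finset.subset_univ J) (fun _ _ _ => sq_nonneg _)
  have h2 : ∑ j ∈ J, (S.starProjection y j) ^ 2 ≤ ∑ j ∈ J, (2 * (R.starProjection y j) ^ 2 +
      2 * (R.starProjection y j - S.starProjection y j) ^ 2) := by
    apply Finset.sum_le_sum
    intro j _
    nlinarith [sq_nonneg (2 * R.starProjection y j - S.starProjection y j)]
  rw [Finset.sum_add_distrib, ← Finset.mul_sum, ← Finset.mul_sum] at h2
  linarith

end Run7.h589
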