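import Pool.Agent.Run7.h589.Assemble

open Finset

namespace Run7.h589

theorem net_rip {n m : ℕ} (hm : 1 ≤ m) {F : Type} [NormedAddCommGroup F] [NormedSpace ℝ F]
    (L : E n →ₗ[ℝ] F)
    (hnet : ∀ z ∈ YY n m 16, 7 / 8 * ‖iv z‖ ^ 2 ≤ ‖L (iv z)‖ ^ 2 ∧
      ‖L (iv z)‖ ^ 2 ≤ 9 / 8 * ‖iv z‖ ^ 2) (S : Finset (Fin n)) (hS : S.card ≤ m) :
    ∀ x : E n, (∀ j, j ∉ S → x j = 0) → 4 / 5 * ‖x‖ ≤ ‖L x‖ ∧ ‖L x‖ ≤ 8 / 7 * ‖x‖ := by
  let L' := LinearMap.toContinuousLinearMap L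
  have hLb : ∀ x, ‖L x‖ ≤ ‖L'‖ * ‖x‖ := fun x => L'.le_opNorm x
  let X : Set ℝ := (fun x => ‖L x‖) '' {x : E n | (∀ j, j ∉ S → x j = 0) ∧ ‖x‖ ≤ 1}
  have hXb : BddAbove X := by
    refine ⟨‖L'‖, ?_⟩
    rintro r ⟨x, hx, rfl⟩
    refine (hLb x).trans ?_
    have := hx.2
    have := norm_nonneg L'
    nlinarith
  have hXne : X.Nonempty := ⟨_, ⟨0, ⟨by simp, by simp⟩, rfl⟩⟩
  set Θ := sSup X with hΘ
  -- upper and lower bounds on the net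
  have hup : ∀ (z : Fin n → ℤ) (c : ℝ), (z = 0 ∨ z ∈ YY n m 16) →
      ‖L (c • iv z)‖ ≤ 1.0607 * ‖c • iv z‖ ∧ 0.9354 * ‖c • iv z‖ ≤ ‖L (c • iv z)‖ := by
    intro z c hz
    rcases hz with hz | hz
    · have : iv z = 0 := by
        rw [hz]; ext i; simp
      rw [this]
      simp
    · have h1 := hnet z hz
      rw [map_smul, norm_smul, norm_smul]
      have hc := norm_nonneg c
      have h2 : ‖L (iv z)‖ ≤ 1.0607 * ‖iv z‖ := by
        apply le_of_pow_le_pow_left₀ (n := 2) (by norm_num) (by positivity)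
        refine h1.2.trans ?_
        rw [mul_pow]
        have : 0 ≤ ‖iv z‖ ^ 2 := by positivity
        nlinarith
      have h3 : 0.9354 * ‖iv z‖ ≤ ‖L (iv z)‖ := by
        apply le_of_pow_le_pow_left₀ (n := 2) (by norm_num) (by positivity)
        refine le_trans ?_ h1.1
        rw [mul_pow]
        have : 0 ≤ ‖iv z‖ ^ 2 := by positivity
        nlinarith
      constructor
      · calc ‖c‖ * ‖L (iv z)‖ ≤ ‖c‖ * (1.0607 * ‖iv z‖) := by gcongr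
          _ = _ := by ring
      · calc 0.9354 * (‖c‖ * ‖iv z‖) = ‖c‖ * (0.9354 * ‖iv z‖) := by ring
          _ ≤ _ := by gcongr
  -- approximation step
  have happ : ∀ x : E n, (∀ j, j ∉ S → x j = 0) → ‖x‖ ≤ 1 → ∃ y : E n,
      ‖L y‖ ≤ 1.0607 * ‖y‖ ∧ 0.9354 * ‖y‖ ≤ ‖L y‖ ∧ ‖x - y‖ ≤ 1 / 16 ∧ ‖y‖ ≤ ‖x‖ ∧
      ‖L (x - y)‖ ≤ Θ / 16 := by
    intro x hx hx1
    obtain ⟨z, hz, hzs, hz1, hz2⟩ := approx m 16 hm (by norm_num) x S hS hx hx1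
    push_cast at hz1 hz2
    refine ⟨(1 / (16 * Real.sqrt m)) • iv z, (hup z _ hz).1, (hup z _ hz).2, hz1, hz2, ?_⟩
    have h1 : ‖L ((16 : ℝ) • (x - (1 / (16 * Real.sqrt m)) • iv z))‖ ≤ Θ := by
      apply le_csSup hXb
      refine ⟨_, ⟨?_, ?_⟩, rfl⟩
      · intro j hj
        have h2 := hx j hj
        have h3 := hzs j hj
        simp [h2, h3]
      · rw [norm_smul]
        have : ‖(16 : ℝ)‖ = 16 := by norm_num
        rw [this]
        linarith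
    rw [map_smul, norm_smul] at h1
    have : ‖(16 : ℝ)‖ = 16 := by norm_num
    rw [this] at h1
    linarith
  have hΘle : Θ ≤ 8 / 7 := by
    have h1 : Θ ≤ 1.0607 + Θ / 16 := by
      rw [hΘ]
      apply csSup_le hXne
      rintro r ⟨x, hx, rfl⟩
      obtain ⟨y, hy1, _, _, hy4, hy5⟩ := happ x hx.1 hx.2
      have h2 : ‖L x‖ ≤ ‖L y‖ + ‖L (x - y)‖ := by
        have : L x = L y + L (x - y) := by rw [← map_add]; congr 1; abel
        rw [this]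
        exact norm_add_le _ _
      have h3 := hx.2
      rw [hΘ] at hy5
      simp only
      linarith
    linarith
  have hunit : ∀ x : E n, (∀ j, j ∉ S → x j = 0) → ‖x‖ = 1 → 4 / 5 ≤ ‖L x‖ ∧ ‖L x‖ ≤ 8 / 7 := by
    intro x hx hx1
    constructor
    · obtain ⟨y, _, hy2, hy3, hy4, hy5⟩ := happ x hx hx1.le
      have h2 : ‖L y‖ ≤ ‖L x‖ + ‖L (x - y)‖ := by
        have : L y = L x - L (x - y) := by rw [← map_sub]; congr 1; abel
        rw [this]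
        exact norm_sub_le _ _
      have h3 : ‖x‖ ≤ ‖y‖ + ‖x - y‖ := by
        have : x = y + (x - y) := by abel
        nth_rw 1 [this]
        exact norm_add_le _ _
      rw [hx1] at h3
      linarith
    · exact (le_csSup hXb ⟨x, ⟨hx, hx1.le⟩, rfl⟩).trans hΘle
  intro x hx
  by_cases h0 : x = 0
  · rw [h0]; simp
  · have hxn : 0 < ‖x‖ := norm_pos_iff.mpr h0
    have h1 := hunit ((‖x‖)⁻¹ • x) (by intro j hj; simp [hx j hj])
      (by rw [norm_smul, norm_inv, norm_norm, inv_mul_cancel₀ hxn.ne'])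
    rw [map_smul, norm_smul, norm_inv, norm_norm] at h1
    constructor
    · have := h1.1
      rw [← div_eq_inv_mul, le_div_iff₀ hxn] at this
      exact this
    · have := h1.2
      rw [← div_eq_inv_mul, div_le_iff₀ hxn] at this
      exact this

/-- the sampling operator -/
noncomputable def LΩ {n : ℕ} (b : Fin n → E n) (Ω : Finset (Fin n)) (c : ℝ) :
    E n →ₗ[ℝ] EuclideanSpace ℝ Ω where
  toFun x := WithLp.toLp 2 (fun i => c * inner ℝ (b i) x)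
  map_add' x y := by
    ext i
    simp [inner_add_right, mul_add]
  map_smul' a x := by
    ext i
    simp [inner_smul_right]
    ring

theorem LΩ_norm {n : ℕ} (b : Fin n → E n) (Ω : Finset (Fin n)) (c : ℝ) (x : E n) :
    ‖LΩ b Ω c x‖ ^ 2 = c ^ 2 * ∑ i ∈ Ω, (inner ℝ x (b i)) ^ 2 := by
  rw [EuclideanSpace.norm_sq_eq, Finset.mul_sum]
  have h1 : ∑ i : Ω, ‖(LΩ b Ω c x).ofLp i‖ ^ 2 = ∑ i : Ω, (fun i : Fin n => c ^ 2 *
      (inner ℝ x (b i)) ^ 2) i := by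
    apply Finset.sum_congr rfl
    intro i _
    rw [Real.norm_eq_abs, sq_abs]
    have : (LΩ b Ω c x).ofLp i = c * inner ℝ (b i) x := rfl
    rw [this, real_inner_comm, mul_pow]
  rw [h1]
  exact Finset.sum_coe_sort Ω (fun i : Fin n => c ^ 2 * (inner ℝ x (b i)) ^ 2)

theorem sample_rip {n m : ℕ} (hm : 1 ≤ m) (hn : 1 ≤ n) (b : Fin n → E n) (Ω : Finset (Fin n))
    (kk : ℝ) (hkk : 0 < kk)
    (hnet : ∀ z ∈ YY n m 16, 7 / 8 * kk ≤ ∑ i ∈ Ω, nq z (b i) ∧ ∑ i ∈ Ω, nq z (b i) ≤ 9 / 8 * kk)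
    (S : Finset (Fin n)) (hS : S.card ≤ m) (x : E n) (hx : ∀ j, j ∉ S → x j = 0) :
    (4 / 5) ^ 2 * ‖x‖ ^ 2 ≤ n / kk * ∑ i ∈ Ω, (inner ℝ x (b i)) ^ 2 ∧
    n / kk * ∑ i ∈ Ω, (inner ℝ x (b i)) ^ 2 ≤ (8 / 7) ^ 2 * ‖x‖ ^ 2 := by
  have hn' : (0 : ℝ) < n := by exact_mod_cast hn
  have hc2 : (Real.sqrt (n / kk)) ^ 2 = n / kk := Real.sq_sqrt (by positivity)
  have h1 := net_rip hm (LΩ b Ω (Real.sqrt (n / kk))) (by
    intro z hz
    rw [LΩ_norm, hc2]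
    have h2 := hnet z hz
    have hz0 : 0 < ‖iv z‖ := norm_pos_iff.mpr (iv_ne_zero (mem_YY.mp hz).1)
    have h3 : ∑ i ∈ Ω, nq z (b i) = n / ‖iv z‖ ^ 2 * ∑ i ∈ Ω, (inner ℝ (iv z) (b i)) ^ 2 := by
      rw [Finset.mul_sum]
      apply Finset.sum_congr rfl
      intro i _
      unfold nq
      ring
    rw [h3] at h2
    have h4 : n / kk * ∑ i ∈ Ω, (inner ℝ (iv z) (b i)) ^ 2 = ‖iv z‖ ^ 2 / kk *
        (n / ‖iv z‖ ^ 2 * ∑ i ∈ Ω, (inner ℝ (iv z) (b i)) ^ 2) := by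
      field_simp
    rw [h4]
    have h5 : 0 ≤ ‖iv z‖ ^ 2 / kk := by positivity
    constructor
    · calc 7 / 8 * ‖iv z‖ ^ 2 = ‖iv z‖ ^ 2 / kk * (7 / 8 * kk) := by field_simp
        _ ≤ _ := mul_le_mul_of_nonneg_left h2.1 h5
    · calc ‖iv z‖ ^ 2 / kk * (n / ‖iv z‖ ^ 2 * ∑ i ∈ Ω, (inner ℝ (iv z) (b i)) ^ 2) ≤
          ‖iv z‖ ^ 2 / kk * (9 / 8 * kk) := mul_le_mul_of_nonneg_left h2.2 h5
        _ = _ := by field_simp) S hS x hx
  have h2 := LΩ_norm b Ω (Real.sqrt (n / kk)) x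
  rw [hc2] at h2
  rw [← h2, ← mul_pow, ← mul_pow]
  constructor
  · have := h1.1
    gcongr
  · have := h1.2
    gcongr

end Run7.h589
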