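import Pool.Agent.Run7.h589.Base

open Finset

namespace Run7.h589

structure GItem (n : ℕ) where
  w : ℝ
  α : ℝ
  B : ℝ
  A : ℝ
  x : E n

structure LItem (n : ℕ) where
  w : ℝ
  A : ℝ
  y : E n

noncomputable def gq {n : ℕ} (A : ℝ) (x v : E n) : ℝ :=
  A * (inner ℝ x v) ^ 2 * (2 - ‖v‖ ^ 2) - (1 / 25) * ‖v‖ ^ 2

noncomputable def lq {n : ℕ} (A b : ℝ) (y v : E n) : ℝ :=
  -(A * (inner ℝ y v) ^ 2 * (1 + ‖v‖ ^ 2 / 4)) + b * ‖v‖ ^ 2

noncomputable def bJ {n : ℕ} (R : Submodule ℝ (E n)) (J : Finset (Fin n)) (A : ℝ) (y : E n) : ℝ :=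
  A * pn (EJ R J) y / (2 * Module.finrank ℝ R)

noncomputable def Psi {n : ℕ} {ι ι' : Type} [Fintype ι] [Fintype ι'] (G : ι → GItem n)
    (L : ι' → LItem n) (R : Submodule ℝ (E n)) (J : Finset (Fin n)) (v : E n) : ℝ :=
  ∑ i, (G i).w * ((G i).α + (G i).B * Real.exp (gq (G i).A (G i).x v)) +
  ∑ l, (L l).w * Real.exp (lq (L l).A (bJ R J (L l).A (L l).y) (L l).y v)

theorem exp_quartic (c0 c1 c2 c3 c4 : ℝ) :
    (∀ t : ℝ, HasDerivAt (fun t => Real.exp (c0 + c1 * t + c2 * t ^ 2 + c3 * t ^ 3 + c4 * t ^ 4))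
      (Real.exp (c0 + c1 * t + c2 * t ^ 2 + c3 * t ^ 3 + c4 * t ^ 4) *
        (c1 + 2 * c2 * t + 3 * c3 * t ^ 2 + 4 * c4 * t ^ 3)) t) ∧
    HasDerivAt (fun t => Real.exp (c0 + c1 * t + c2 * t ^ 2 + c3 * t ^ 3 + c4 * t ^ 4) *
        (c1 + 2 * c2 * t + 3 * c3 * t ^ 2 + 4 * c4 * t ^ 3))
        (Real.exp c0 * (2 * c2 + c1 ^ 2)) 0 := by
  have hq : ∀ t : ℝ, HasDerivAt (fun t : ℝ => c0 + c1 * t + c2 * t ^ 2 + c3 * t ^ 3 + c4 * t ^ 4)
      (c1 + 2 * c2 * t + 3 * c3 * t ^ 2 + 4 * c4 * t ^ 3) t := by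
    intro t
    have h := ((((hasDerivAt_const t c0).add ((hasDerivAt_id t).const_mul c1)).add
      ((hasDerivAt_pow 2 t).const_mul c2)).add ((hasDerivAt_pow 3 t).const_mul c3)).add
      ((hasDerivAt_pow 4 t).const_mul c4)
    refine h.congr_deriv ?_
    simp only [Nat.cast_ofNat]
    ring
  have hq1 : HasDerivAt (fun t : ℝ => c1 + 2 * c2 * t + 3 * c3 * t ^ 2 + 4 * c4 * t ^ 3)
      (2 * c2) 0 := by
    have h := ((((hasDerivAt_const (0 : ℝ) c1).add ((hasDerivAt_id (0 : ℝ)).const_mul (2 * c2))).add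
      ((hasDerivAt_pow 2 (0 : ℝ)).const_mul (3 * c3))).add
      ((hasDerivAt_pow 3 (0 : ℝ)).const_mul (4 * c4)))
    refine h.congr_deriv ?_
    simp
  have h1 : ∀ t : ℝ, HasDerivAt
      (fun t => Real.exp (c0 + c1 * t + c2 * t ^ 2 + c3 * t ^ 3 + c4 * t ^ 4))
      (Real.exp (c0 + c1 * t + c2 * t ^ 2 + c3 * t ^ 3 + c4 * t ^ 4) *
        (c1 + 2 * c2 * t + 3 * c3 * t ^ 2 + 4 * c4 * t ^ 3)) t := fun t => (hq t).exp
  refine ⟨h1, ?_⟩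
  have h2 := (h1 0).mul hq1
  refine h2.congr_deriv ?_
  simp
  ring

/-- second derivative of a G item along `h` -/
noncomputable def gD {n : ℕ} (A : ℝ) (x v h : E n) : ℝ :=
  2 * (A * ((inner ℝ x h) ^ 2 * (2 - ‖v‖ ^ 2) - 4 * inner ℝ x v * inner ℝ x h * inner ℝ v h
    - (inner ℝ x v) ^ 2) - 1 / 25) +
  (A * (2 * inner ℝ x v * inner ℝ x h * (2 - ‖v‖ ^ 2) - 2 * inner ℝ v h * (inner ℝ x v) ^ 2)
    - 2 * (1 / 25) * inner ℝ v h) ^ 2

/-- second derivative of an L item along `h` -/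
noncomputable def lD {n : ℕ} (A β : ℝ) (y v h : E n) : ℝ :=
  2 * (-(A * ((inner ℝ y h) ^ 2 * (1 + ‖v‖ ^ 2 / 4) + inner ℝ y v * inner ℝ y h * inner ℝ v h
    + (inner ℝ y v) ^ 2 / 4)) + β) +
  (-(A * (2 * inner ℝ y v * inner ℝ y h * (1 + ‖v‖ ^ 2 / 4) + (inner ℝ y v) ^ 2 * inner ℝ v h / 2))
    + 2 * β * inner ℝ v h) ^ 2

theorem gline {n : ℕ} (A : ℝ) (x v h : E n) (hh : ‖h‖ = 1) (t : ℝ) :
    gq A x (v + t • h) =
      (A * (inner ℝ x v) ^ 2 * (2 - ‖v‖ ^ 2) - (1 / 25) * ‖v‖ ^ 2) +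
      (A * (2 * inner ℝ x v * inner ℝ x h * (2 - ‖v‖ ^ 2) - 2 * inner ℝ v h * (inner ℝ x v) ^ 2)
        - 2 * (1 / 25) * inner ℝ v h) * t +
      (A * ((inner ℝ x h) ^ 2 * (2 - ‖v‖ ^ 2) - 4 * inner ℝ x v * inner ℝ x h * inner ℝ v h
        - (inner ℝ x v) ^ 2) - 1 / 25) * t ^ 2 +
      (A * (-2 * inner ℝ v h * (inner ℝ x h) ^ 2 - 2 * inner ℝ x v * inner ℝ x h)) * t ^ 3 +
      (-(A * (inner ℝ x h) ^ 2)) * t ^ 4 := by
  unfold gq
  have h1 : ‖v + t • h‖ ^ 2 = ‖v‖ ^ 2 + 2 * inner ℝ v h * t + t ^ 2 := by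
    rw [norm_add_sq_real, inner_smul_right, norm_smul, hh]
    simp only [Real.norm_eq_abs, mul_one, sq_abs]
    ring
  have h2 : inner ℝ x (v + t • h) = inner ℝ x v + t * inner ℝ x h := by
    rw [inner_add_right, inner_smul_right]
  rw [h1, h2]
  ring

theorem lline {n : ℕ} (A β : ℝ) (y v h : E n) (hh : ‖h‖ = 1) (t : ℝ) :
    lq A β y (v + t • h) =
      (-(A * (inner ℝ y v) ^ 2 * (1 + ‖v‖ ^ 2 / 4)) + β * ‖v‖ ^ 2) +
      (-(A * (2 * inner ℝ y v * inner ℝ y h * (1 + ‖v‖ ^ 2 / 4)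
        + (inner ℝ y v) ^ 2 * inner ℝ v h / 2)) + 2 * β * inner ℝ v h) * t +
      (-(A * ((inner ℝ y h) ^ 2 * (1 + ‖v‖ ^ 2 / 4) + inner ℝ y v * inner ℝ y h * inner ℝ v h
        + (inner ℝ y v) ^ 2 / 4)) + β) * t ^ 2 +
      (-(A * ((inner ℝ y h) ^ 2 * inner ℝ v h / 2 + inner ℝ y v * inner ℝ y h / 2))) * t ^ 3 +
      (-(A * (inner ℝ y h) ^ 2 / 4)) * t ^ 4 := by
  unfold lq
  have h1 : ‖v + t • h‖ ^ 2 = ‖v‖ ^ 2 + 2 * inner ℝ v h * t + t ^ 2 := by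
    rw [norm_add_sq_real, inner_smul_right, norm_smul, hh]
    simp only [Real.norm_eq_abs, mul_one, sq_abs]
    ring
  have h2 : inner ℝ y (v + t • h) = inner ℝ y v + t * inner ℝ y h := by
    rw [inner_add_right, inner_smul_right]
  rw [h1, h2]
  ring

theorem dir_second {n : ℕ} {ι ι' : Type} [Fintype ι] [Fintype ι'] (G : ι → GItem n)
    (L : ι' → LItem n) (R : Submodule ℝ (E n)) (J : Finset (Fin n)) (v h : E n) (hh : ‖h‖ = 1)
    (hmin : IsLocalMin (fun t : ℝ => Psi G L R J (v + t • h)) 0) :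
    0 ≤ ∑ i, (G i).w * (G i).B * (Real.exp (gq (G i).A (G i).x v) * gD (G i).A (G i).x v h) +
      ∑ l, (L l).w * (Real.exp (lq (L l).A (bJ R J (L l).A (L l).y) (L l).y v) *
        lD (L l).A (bJ R J (L l).A (L l).y) (L l).y v h) := by
  set f : ℝ → ℝ := fun t : ℝ => Psi G L R J (v + t • h) with hf
  let gc0 : ι → ℝ := fun i => ((G i).A * (inner ℝ (G i).x v) ^ 2 * (2 - ‖v‖ ^ 2) - (1 / 25) * ‖v‖ ^ 2)
  let gc1 : ι → ℝ := fun i => ((G i).A * (2 * inner ℝ (G i).x v * inner ℝ (G i).x h * (2 - ‖v‖ ^ 2)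
    - 2 * inner ℝ v h * (inner ℝ (G i).x v) ^ 2) - 2 * (1 / 25) * inner ℝ v h)
  let gc2 : ι → ℝ := fun i => ((G i).A * ((inner ℝ (G i).x h) ^ 2 * (2 - ‖v‖ ^ 2)
    - 4 * inner ℝ (G i).x v * inner ℝ (G i).x h * inner ℝ v h - (inner ℝ (G i).x v) ^ 2) - 1 / 25)
  let gc3 : ι → ℝ := fun i => ((G i).A * (-2 * inner ℝ v h * (inner ℝ (G i).x h) ^ 2
    - 2 * inner ℝ (G i).x v * inner ℝ (G i).x h))
  let gc4 : ι → ℝ := fun i => (-((G i).A * (inner ℝ (G i).x h) ^ 2))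
  let lb : ι' → ℝ := fun l => bJ R J (L l).A (L l).y
  let lc0 : ι' → ℝ := fun l => (-((L l).A * (inner ℝ (L l).y v) ^ 2 * (1 + ‖v‖ ^ 2 / 4)) + lb l * ‖v‖ ^ 2)
  let lc1 : ι' → ℝ := fun l => (-((L l).A * (2 * inner ℝ (L l).y v * inner ℝ (L l).y h * (1 + ‖v‖ ^ 2 / 4)
        + (inner ℝ (L l).y v) ^ 2 * inner ℝ v h / 2)) + 2 * lb l * inner ℝ v h)
  let lc2 : ι' → ℝ := fun l => (-((L l).A * ((inner ℝ (L l).y h) ^ 2 * (1 + ‖v‖ ^ 2 / 4)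
        + inner ℝ (L l).y v * inner ℝ (L l).y h * inner ℝ v h + (inner ℝ (L l).y v) ^ 2 / 4)) + lb l)
  let lc3 : ι' → ℝ := fun l => (-((L l).A * ((inner ℝ (L l).y h) ^ 2 * inner ℝ v h / 2
        + inner ℝ (L l).y v * inner ℝ (L l).y h / 2)))
  let lc4 : ι' → ℝ := fun l => (-((L l).A * (inner ℝ (L l).y h) ^ 2 / 4))
  have hfe : f = fun t => ∑ i, (G i).w * ((G i).α + (G i).B *
      Real.exp (gc0 i + gc1 i * t + gc2 i * t ^ 2 + gc3 i * t ^ 3 + gc4 i * t ^ 4)) +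
      ∑ l, (L l).w * Real.exp (lc0 l + lc1 l * t + lc2 l * t ^ 2 + lc3 l * t ^ 3 + lc4 l * t ^ 4) := by
    ext t
    simp only [hf, Psi]
    congr 1
    · apply Finset.sum_congr rfl
      intro i _
      rw [gline _ _ _ _ hh]
    · apply Finset.sum_congr rfl
      intro l _
      rw [lline _ _ _ _ _ hh]
  let f1 : ℝ → ℝ := fun t => ∑ i, (G i).w * ((G i).B *
      (Real.exp (gc0 i + gc1 i * t + gc2 i * t ^ 2 + gc3 i * t ^ 3 + gc4 i * t ^ 4) *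
        (gc1 i + 2 * gc2 i * t + 3 * gc3 i * t ^ 2 + 4 * gc4 i * t ^ 3))) +
      ∑ l, (L l).w * (Real.exp (lc0 l + lc1 l * t + lc2 l * t ^ 2 + lc3 l * t ^ 3 + lc4 l * t ^ 4) *
        (lc1 l + 2 * lc2 l * t + 3 * lc3 l * t ^ 2 + 4 * lc4 l * t ^ 3))
  have h1 : ∀ t, HasDerivAt f (f1 t) t := by
    intro t
    rw [hfe]
    apply HasDerivAt.fun_add
    · apply HasDerivAt.fun_sum
      intro i _
      exact (((exp_quartic (gc0 i) (gc1 i) (gc2 i) (gc3 i) (gc4 i)).1 t).const_mul _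
        |>.const_add _).const_mul _
    · apply HasDerivAt.fun_sum
      intro l _
      exact (((exp_quartic (lc0 l) (lc1 l) (lc2 l) (lc3 l) (lc4 l)).1 t)).const_mul _
  have h2 : HasDerivAt f1 (∑ i, (G i).w * ((G i).B * (Real.exp (gc0 i) * (2 * gc2 i + gc1 i ^ 2))) +
      ∑ l, (L l).w * (Real.exp (lc0 l) * (2 * lc2 l + lc1 l ^ 2))) 0 := by
    apply HasDerivAt.fun_add
    · apply HasDerivAt.fun_sum
      intro i _
      exact (((exp_quartic (gc0 i) (gc1 i) (gc2 i) (gc3 i) (gc4 i)).2).const_mul _).const_mul _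
    · apply HasDerivAt.fun_sum
      intro l _
      exact (((exp_quartic (lc0 l) (lc1 l) (lc2 l) (lc3 l) (lc4 l)).2)).const_mul _
  have h3 := second_test f f1 _ h1 h2 hmin
  have e1 : (∑ i, (G i).w * (G i).B * (Real.exp (gq (G i).A (G i).x v) * gD (G i).A (G i).x v h) +
      ∑ l, (L l).w * (Real.exp (lq (L l).A (bJ R J (L l).A (L l).y) (L l).y v) *
        lD (L l).A (bJ R J (L l).A (L l).y) (L l).y v h)) =
      (∑ i, (G i).w * ((G i).B * (Real.exp (gc0 i) * (2 * gc2 i + gc1 i ^ 2))) +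
      ∑ l, (L l).w * (Real.exp (lc0 l) * (2 * lc2 l + lc1 l ^ 2))) := by
    congr 1
    · apply Finset.sum_congr rfl
      intro i _
      rw [mul_assoc]
      rfl
  rw [e1]
  exact h3

/-- the sum of the second derivatives of a G item is negative -/
theorem gsum_neg {n : ℕ} {ι : Type} [Fintype ι] (R S : Submodule ℝ (E n)) (hS : S ≤ R)
    (b : OrthonormalBasis ι ℝ S) (A : ℝ) (hA : 0 ≤ A) (x v : E n) (hv : v ∈ R) (hv1 : ‖v‖ ≤ 1)
    (r r' : ℝ) (hr : 1 ≤ r) (hr' : (Fintype.card ι : ℝ) = r') (hAX : A * pn R x ≤ r / 1000)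
    (hcase : r' = r ∨ (20 ≤ r ∧ r / 2 ≤ r')) :
    ∑ i, gD A x v (b i : E n) < 0 := by
  set a := inner ℝ x v with ha
  set ν := ‖v‖ ^ 2 with hν
  have hν0 : 0 ≤ ν := by positivity
  have hν1 : ν ≤ 1 := by
    rw [hν]
    have := norm_nonneg v
    nlinarith
  have hX' : ∑ i, (inner ℝ x (b i : E n)) ^ 2 = pn S x := sum_onb S b x
  have hV' : ∑ i, (inner ℝ v (b i : E n)) ^ 2 = pn S v := sum_onb S b v
  have hXX : pn S x ≤ pn R x := pn_mono hS x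
  have hVV : pn S v ≤ 1 := le_trans (pn_le S v) hν1
  have hX0 : 0 ≤ pn S x := pn_nonneg S x
  have hV0 : 0 ≤ pn S v := pn_nonneg S v
  have ha2 : a ^ 2 ≤ pn R x := by
    have := inner_sq_le R x v hv
    rw [← ha, ← hν] at this
    nlinarith [pn_nonneg R x]
  have hterm : ∀ i, gD A x v (b i : E n) ≤
      (36 * A + 32 * A ^ 2 * a ^ 2) * (inner ℝ x (b i : E n)) ^ 2 +
      (A * a ^ 2 / 2 + 16 * A ^ 2 * a ^ 4 + 16 * (1 / 25) ^ 2) * (inner ℝ v (b i : E n)) ^ 2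
      - (2 * A * a ^ 2 + 2 * (1 / 25)) := by
    intro i
    unfold gD
    rw [← ha, ← hν]
    set p := inner ℝ x (b i : E n)
    set c := inner ℝ v (b i : E n)
    have h1 : 2 * A * p ^ 2 * (2 - ν) ≤ 4 * A * p ^ 2 := by
      have : 0 ≤ A * p ^ 2 * ν := by positivity
      nlinarith
    have h2 : -(8 * A * a * p * c) ≤ A * (32 * p ^ 2 + a ^ 2 * c ^ 2 / 2) := by
      have h3 : 0 ≤ A * (8 * p + a * c) ^ 2 := by positivity
      nlinarith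
    have h4 : (A * (2 * a * p * (2 - ν) - 2 * c * a ^ 2) - 2 * (1 / 25) * c) ^ 2 ≤
        32 * A ^ 2 * a ^ 2 * p ^ 2 + (16 * A ^ 2 * a ^ 4 + 16 * (1 / 25) ^ 2) * c ^ 2 := by
      have e1 : (A * (2 * a * p * (2 - ν) - 2 * c * a ^ 2) - 2 * (1 / 25) * c) ^ 2 ≤
          2 * (2 * A * a * p * (2 - ν)) ^ 2 + 2 * (2 * (A * a ^ 2 + 1 / 25) * c) ^ 2 := by
        nlinarith [sq_nonneg (2 * A * a * p * (2 - ν) + 2 * (A * a ^ 2 + 1 / 25) * c)]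
      have e2 : (2 * A * a * p * (2 - ν)) ^ 2 ≤ 16 * A ^ 2 * a ^ 2 * p ^ 2 := by
        have : (2 - ν) ^ 2 ≤ 4 := by nlinarith
        calc (2 * A * a * p * (2 - ν)) ^ 2 = 4 * A ^ 2 * a ^ 2 * p ^ 2 * (2 - ν) ^ 2 := by ring
          _ ≤ 4 * A ^ 2 * a ^ 2 * p ^ 2 * 4 := by gcongr
          _ = _ := by ring
      have e3 : (2 * (A * a ^ 2 + 1 / 25) * c) ^ 2 ≤ 8 * (A ^ 2 * a ^ 4 + (1 / 25) ^ 2) * c ^ 2 := by
        have : (A * a ^ 2 + 1 / 25) ^ 2 ≤ 2 * (A ^ 2 * a ^ 4 + (1 / 25) ^ 2) := by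
          nlinarith [sq_nonneg (A * a ^ 2 - 1 / 25)]
        calc (2 * (A * a ^ 2 + 1 / 25) * c) ^ 2 = 4 * (A * a ^ 2 + 1 / 25) ^ 2 * c ^ 2 := by ring
          _ ≤ 4 * (2 * (A ^ 2 * a ^ 4 + (1 / 25) ^ 2)) * c ^ 2 := by gcongr
          _ = _ := by ring
      nlinarith
    nlinarith
  have hsum : ∑ i, gD A x v (b i : E n) ≤
      (36 * A + 32 * A ^ 2 * a ^ 2) * pn S x +
      (A * a ^ 2 / 2 + 16 * A ^ 2 * a ^ 4 + 16 * (1 / 25) ^ 2) * pn S v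
      - (2 * A * a ^ 2 + 2 * (1 / 25)) * r' := by
    refine le_trans (Finset.sum_le_sum fun i _ => hterm i) ?_
    rw [Finset.sum_sub_distrib, Finset.sum_add_distrib, ← Finset.mul_sum, ← Finset.mul_sum, hX', hV',
      Finset.sum_const, Finset.card_univ, nsmul_eq_mul, hr']
    linarith
  refine lt_of_le_of_lt hsum ?_
  have hAXS : A * pn S x ≤ r / 1000 := le_trans (by gcongr) hAX
  have hAa : A * a ^ 2 ≤ r / 1000 := le_trans (by gcongr) hAX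
  have hAa0 : 0 ≤ A * a ^ 2 := by positivity
  have f1 : (36 * A + 32 * A ^ 2 * a ^ 2) * pn S x ≤ 36 * (r / 1000) + 32 * (A * a ^ 2) * (r / 1000) := by
    have : 32 * (A * a ^ 2) * (A * pn S x) ≤ 32 * (A * a ^ 2) * (r / 1000) := by gcongr
    linarith
  have f2 : (A * a ^ 2 / 2 + 16 * A ^ 2 * a ^ 4 + 16 * (1 / 25) ^ 2) * pn S v ≤
      A * a ^ 2 / 2 + 16 * (A * a ^ 2) * (r / 1000) + 16 * (1 / 25) ^ 2 := by
    have g1 : A ^ 2 * a ^ 4 ≤ (A * a ^ 2) * (r / 1000) := by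
      have : (A * a ^ 2) * (A * a ^ 2) ≤ (A * a ^ 2) * (r / 1000) := by gcongr
      nlinarith
    have g2 : 0 ≤ A * a ^ 2 / 2 + 16 * A ^ 2 * a ^ 4 + 16 * (1 / 25) ^ 2 := by positivity
    calc (A * a ^ 2 / 2 + 16 * A ^ 2 * a ^ 4 + 16 * (1 / 25) ^ 2) * pn S v ≤
        (A * a ^ 2 / 2 + 16 * A ^ 2 * a ^ 4 + 16 * (1 / 25) ^ 2) * 1 := by gcongr
      _ ≤ _ := by nlinarith
  rcases hcase with h | ⟨h20, h⟩
  · rw [h]
    nlinarith
  · have k1 : (2 * A * a ^ 2 + 2 * (1 / 25)) * (r / 2) ≤ (2 * A * a ^ 2 + 2 * (1 / 25)) * r' := by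
      have : 0 ≤ 2 * A * a ^ 2 + 2 * (1 / 25) := by positivity
      gcongr
    nlinarith

/-- the sum of the second derivatives of an L item is nonpositive -/
theorem lsum_nonpos {n : ℕ} {ι : Type} [Fintype ι] (R S : Submodule ℝ (E n)) (hS : S ≤ R)
    (b : OrthonormalBasis ι ℝ S) (A : ℝ) (hA : 0 ≤ A) (y v : E n) (hv : v ∈ R) (hv1 : ‖v‖ ≤ 1)
    (r r' : ℝ) (hr' : (Fintype.card ι : ℝ) = r') (hAX : A * pn R y ≤ r / 1000)
    (hr20 : 20 ≤ r) (hrr : r / 2 ≤ r') (hrr2 : r' ≤ r) (β : ℝ) (hβ : β = A * pn S y / (2 * r)) :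
    ∑ i, lD A β y v (b i : E n) ≤ 0 := by
  set a := inner ℝ y v with ha
  set ν := ‖v‖ ^ 2 with hν
  have hν0 : 0 ≤ ν := by positivity
  have hν1 : ν ≤ 1 := by
    rw [hν]
    have := norm_nonneg v
    nlinarith
  have hX' : ∑ i, (inner ℝ y (b i : E n)) ^ 2 = pn S y := sum_onb S b y
  have hV' : ∑ i, (inner ℝ v (b i : E n)) ^ 2 = pn S v := sum_onb S b v
  have hXX : pn S y ≤ pn R y := pn_mono hS y
  have hVV : pn S v ≤ 1 := le_trans (pn_le S v) hν1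
  have hX0 : 0 ≤ pn S y := pn_nonneg S y
  have hV0 : 0 ≤ pn S v := pn_nonneg S v
  have ha2 : a ^ 2 ≤ pn R y := by
    have := inner_sq_le R y v hv
    rw [← ha, ← hν] at this
    nlinarith [pn_nonneg R y]
  have hterm : ∀ i, lD A β y v (b i : E n) ≤
      (-(2 * A) + A / 4 + (75 / 4) * A ^ 2 * a ^ 2) * (inner ℝ y (b i : E n)) ^ 2 +
      (4 * A * a ^ 2 + (3 / 4) * A ^ 2 * a ^ 4 + 12 * β ^ 2) * (inner ℝ v (b i : E n)) ^ 2
      - (A * a ^ 2 / 2) + 2 * β := by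
    intro i
    unfold lD
    rw [← ha, ← hν]
    set p := inner ℝ y (b i : E n)
    set c := inner ℝ v (b i : E n)
    have h1 : -(2 * A * p ^ 2 * (1 + ν / 4)) ≤ -(2 * A * p ^ 2) := by
      have : 0 ≤ A * p ^ 2 * ν := by positivity
      nlinarith
    have h2 : -(2 * A * a * p * c) ≤ A * (p ^ 2 / 4 + 4 * a ^ 2 * c ^ 2) := by
      have h3 : 0 ≤ A * (p / 2 + 2 * a * c) ^ 2 := by positivity
      nlinarith
    have h4 : (-(A * (2 * a * p * (1 + ν / 4) + a ^ 2 * c / 2)) + 2 * β * c) ^ 2 ≤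
        (75 / 4) * A ^ 2 * a ^ 2 * p ^ 2 + ((3 / 4) * A ^ 2 * a ^ 4 + 12 * β ^ 2) * c ^ 2 := by
      have e1 : (-(A * (2 * a * p * (1 + ν / 4) + a ^ 2 * c / 2)) + 2 * β * c) ^ 2 ≤
          3 * ((2 * A * a * p * (1 + ν / 4)) ^ 2 + (A * a ^ 2 * c / 2) ^ 2 + (2 * β * c) ^ 2) := by
        nlinarith [sq_nonneg (2 * A * a * p * (1 + ν / 4) - A * a ^ 2 * c / 2),
          sq_nonneg (2 * A * a * p * (1 + ν / 4) + 2 * β * c),
          sq_nonneg (A * a ^ 2 * c / 2 + 2 * β * c)]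
      have e2 : (2 * A * a * p * (1 + ν / 4)) ^ 2 ≤ (25 / 4) * A ^ 2 * a ^ 2 * p ^ 2 := by
        have : (1 + ν / 4) ^ 2 ≤ 25 / 16 := by nlinarith
        calc (2 * A * a * p * (1 + ν / 4)) ^ 2 = 4 * A ^ 2 * a ^ 2 * p ^ 2 * (1 + ν / 4) ^ 2 := by ring
          _ ≤ 4 * A ^ 2 * a ^ 2 * p ^ 2 * (25 / 16) := by gcongr
          _ = _ := by ring
      nlinarith
    linarith
  have hsum : ∑ i, lD A β y v (b i : E n) ≤
      (-(2 * A) + A / 4 + (75 / 4) * A ^ 2 * a ^ 2) * pn S y +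
      (4 * A * a ^ 2 + (3 / 4) * A ^ 2 * a ^ 4 + 12 * β ^ 2) * pn S v
      - (A * a ^ 2 / 2) * r' + 2 * β * r' := by
    refine le_trans (Finset.sum_le_sum fun i _ => hterm i) ?_
    rw [Finset.sum_add_distrib, Finset.sum_sub_distrib, Finset.sum_add_distrib, ← Finset.mul_sum,
      ← Finset.mul_sum, hX', hV', Finset.sum_const, Finset.sum_const, Finset.card_univ, nsmul_eq_mul,
      nsmul_eq_mul, hr']
    linarith
  refine le_trans hsum ?_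
  have hAXS : A * pn S y ≤ r / 1000 := le_trans (by gcongr) hAX
  have hAa : A * a ^ 2 ≤ r / 1000 := le_trans (by gcongr) hAX
  have hAa0 : 0 ≤ A * a ^ 2 := by positivity
  have hAS0 : 0 ≤ A * pn S y := by positivity
  have hβ0 : 0 ≤ β := by rw [hβ]; positivity
  have hβr : 2 * β * r' ≤ A * pn S y := by
    have : 2 * β * r = A * pn S y := by
      rw [hβ]
      field_simp
    nlinarith
  have hβ2 : 12 * β ^ 2 ≤ (3 / 1000) * (A * pn S y) := by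
    have e1 : 2 * β ≤ 1 / 1000 := by
      rw [hβ]
      have : 2 * (A * pn S y / (2 * r)) = (A * pn S y) / r := by field_simp
      rw [this, div_le_iff₀ (by linarith)]
      linarith
    have e2 : 2 * β * 2 ≤ A * pn S y := by
      have : 2 * β * r = A * pn S y := by
        rw [hβ]
        field_simp
      nlinarith
    nlinarith
  have f1 : (75 / 4) * A ^ 2 * a ^ 2 * pn S y ≤ (75 / 4) * (A * a ^ 2) * (r / 1000) := by
    have : (75 / 4) * (A * a ^ 2) * (A * pn S y) ≤ (75 / 4) * (A * a ^ 2) * (r / 1000) := by gcongr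
    nlinarith
  have f2 : (4 * A * a ^ 2 + (3 / 4) * A ^ 2 * a ^ 4 + 12 * β ^ 2) * pn S v ≤
      4 * (A * a ^ 2) + (3 / 4) * (A * a ^ 2) * (r / 1000) + (3 / 1000) * (A * pn S y) := by
    have g1 : A ^ 2 * a ^ 4 ≤ (A * a ^ 2) * (r / 1000) := by
      have : (A * a ^ 2) * (A * a ^ 2) ≤ (A * a ^ 2) * (r / 1000) := by gcongr
      nlinarith
    have g2 : 0 ≤ 4 * A * a ^ 2 + (3 / 4) * A ^ 2 * a ^ 4 + 12 * β ^ 2 := by positivity
    calc (4 * A * a ^ 2 + (3 / 4) * A ^ 2 * a ^ 4 + 12 * β ^ 2) * pn S v ≤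
        (4 * A * a ^ 2 + (3 / 4) * A ^ 2 * a ^ 4 + 12 * β ^ 2) * 1 := by gcongr
      _ ≤ _ := by nlinarith
  have k1 : (A * a ^ 2 / 2) * (r / 2) ≤ (A * a ^ 2 / 2) * r' := by gcongr
  nlinarith

end Run7.h589
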