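import Pool.Agent.Run7.h589.Row

open Finset

namespace Run7.h589

/-- coordinates at the threshold -/
noncomputable def act {n : ℕ} (κ : ℝ) (v : E n) : Finset (Fin n) :=
  Finset.univ.filter (fun j => |v j| = κ)

theorem mem_act {n : ℕ} {κ : ℝ} {v : E n} {j : Fin n} : j ∈ act κ v ↔ |v j| = κ := by
  simp [act]

theorem finrank_EJ {n : ℕ} (R : Submodule ℝ (E n)) (J : Finset (Fin n)) :
    Module.finrank ℝ R ≤ Module.finrank ℝ (EJ R J) + J.card := by
  let φ : E n →ₗ[ℝ] (J → ℝ) :=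
    { toFun := fun v j => v j
      map_add' := by intro a b; ext j; simp
      map_smul' := by intro c a; ext j; simp }
  have h1 := LinearMap.finrank_range_add_finrank_ker (φ.domRestrict R)
  have h2 : Module.finrank ℝ (LinearMap.range (φ.domRestrict R)) ≤ J.card := by
    have := Submodule.finrank_le (LinearMap.range (φ.domRestrict R))
    simpa using this
  have h3 : LinearMap.ker (φ.domRestrict R) = Submodule.comap R.subtype (Z J) := by
    ext x
    rw [LinearMap.mem_ker, Submodule.mem_comap, mem_Z]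
    constructor
    · intro h j hj
      have := congrFun h ⟨j, hj⟩
      simpa [φ] using this
    · intro h
      ext j
      exact h j j.2
  have h4 : Module.finrank ℝ (LinearMap.ker (φ.domRestrict R)) = Module.finrank ℝ (EJ R J) := by
    rw [h3]
    have h5 := Submodule.finrank_map_subtype_eq R (Submodule.comap R.subtype (Z J))
    rw [← h5, Submodule.map_comap_subtype]
    rfl
  omega

theorem Psi_anti {n : ℕ} {ι ι' : Type} [Fintype ι] [Fintype ι'] (G : ι → GItem n)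
    (L : ι' → LItem n) (R : Submodule ℝ (E n)) {J J' : Finset (Fin n)} (h : J ⊆ J') (v : E n)
    (hw : ∀ l, 0 ≤ (L l).w) (hA : ∀ l, 0 ≤ (L l).A) :
    Psi G L R J' v ≤ Psi G L R J v := by
  unfold Psi
  apply add_le_add le_rfl
  apply Finset.sum_le_sum
  intro l _
  apply mul_le_mul_of_nonneg_left _ (hw l)
  apply Real.exp_le_exp.mpr
  unfold lq bJ
  have h1 := pn_mono (EJ_anti R h) (L l).y
  have h2 := hA l
  gcongr

theorem Psi_continuous {n : ℕ} {ι ι' : Type} [Fintype ι] [Fintype ι'] (G : ι → GItem n)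
    (L : ι' → LItem n) (R : Submodule ℝ (E n)) (J : Finset (Fin n)) :
    Continuous (fun v : E n => Psi G L R J v) := by
  unfold Psi gq lq
  fun_prop

theorem coord_continuous {n : ℕ} (j : Fin n) : Continuous (fun v : E n => v j) := by
  fun_prop

/-- the feasible set -/
def CJ {n : ℕ} (R : Submodule ℝ (E n)) (κ : ℝ) (J : Finset (Fin n)) : Set (E n) :=
  {v | v ∈ R ∧ ‖v‖ ≤ 1 ∧ (∀ j, |v j| ≤ κ) ∧ ∀ j ∈ J, |v j| = κ}

theorem CJ_compact {n : ℕ} (R : Submodule ℝ (E n)) (κ : ℝ) (J : Finset (Fin n)) :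
    IsCompact (CJ R κ J) := by
  apply IsCompact.of_isClosed_subset (isCompact_closedBall (0 : E n) 1)
  · have e : CJ R κ J = (R : Set (E n)) ∩ ({v | ‖v‖ ≤ 1} ∩ ((⋂ j, {v : E n | |v j| ≤ κ}) ∩
        (⋂ j ∈ J, {v : E n | |v j| = κ}))) := by
      ext v
      simp [CJ]
    rw [e]
    refine IsClosed.inter R.closed_of_finiteDimensional (IsClosed.inter ?_ (IsClosed.inter ?_ ?_))
    · exact isClosed_le continuous_norm continuous_const
    · exact isClosed_iInter fun j => isClosed_le (coord_continuous j).abs continuous_const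
    · exact isClosed_iInter fun j => isClosed_iInter fun _ =>
        isClosed_eq (coord_continuous j).abs continuous_const
  · intro v hv
    simpa using hv.2.1

theorem exists_min {n : ℕ} {ι ι' : Type} [Fintype ι] [Fintype ι'] (G : ι → GItem n)
    (L : ι' → LItem n) (R : Submodule ℝ (E n)) (κ : ℝ) (hκ : 0 < κ) :
    ∃ J0 v0, v0 ∈ CJ R κ J0 ∧ ∀ J v, v ∈ CJ R κ J → Psi G L R J0 v0 ≤ Psi G L R J v := by
  classical
  have h : ∀ J : Finset (Fin n), ∃ v, (CJ R κ J).Nonempty → (v ∈ CJ R κ J ∧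
      ∀ v' ∈ CJ R κ J, Psi G L R J v ≤ Psi G L R J v') := by
    intro J
    by_cases hne : (CJ R κ J).Nonempty
    · obtain ⟨v, hv, hmin⟩ := (CJ_compact R κ J).exists_isMinOn hne
        (Psi_continuous G L R J).continuousOn
      exact ⟨v, fun _ => ⟨hv, fun v' hv' => hmin hv'⟩⟩
    · exact ⟨0, fun h => absurd h hne⟩
  choose f hf using h
  have h0 : (0 : E n) ∈ CJ R κ ∅ := by
    refine ⟨R.zero_mem, by simp, ?_, by simp⟩
    intro j
    simp [hκ.le]
  obtain ⟨J0, hJ0, hmin⟩ := Finset.exists_min_image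
    (Finset.univ.filter (fun J => (CJ R κ J).Nonempty)) (fun J => Psi G L R J (f J))
    ⟨∅, by simpa using ⟨0, h0⟩⟩
  have hJ0' : (CJ R κ J0).Nonempty := by simpa using hJ0
  refine ⟨J0, f J0, (hf J0 hJ0').1, ?_⟩
  intro J v hv
  have h1 := hmin J (by simpa using ⟨v, hv⟩)
  exact le_trans h1 ((hf J ⟨v, hv⟩).2 v hv)

theorem eventually_feasible {n : ℕ} (R : Submodule ℝ (E n)) (κ : ℝ) (v h : E n)
    (hv : v ∈ CJ R κ (act κ v)) (hv1 : ‖v‖ < 1) (hh : h ∈ EJ R (act κ v)) :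
    ∀ᶠ t in nhds (0 : ℝ), v + t • h ∈ CJ R κ (act κ v) := by
  have hR : ∀ t : ℝ, v + t • h ∈ R := fun t => R.add_mem hv.1 (R.smul_mem t hh.1)
  have hline : Continuous (fun t : ℝ => v + t • h) := by fun_prop
  have h1 : ∀ᶠ t in nhds (0 : ℝ), ‖v + t • h‖ < 1 := by
    apply (hline.norm.tendsto 0).eventually_lt_const
    simpa using hv1
  have hact : ∀ j ∈ act κ v, ∀ t : ℝ, (v + t • h) j = v j := by
    intro j hj t
    have := (mem_EJ.mp hh).2 j hj
    simp [this]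
  have h2 : ∀ j, ∀ᶠ t in nhds (0 : ℝ), |(v + t • h) j| ≤ κ := by
    intro j
    by_cases hj : j ∈ act κ v
    · filter_upwards with t
      rw [hact j hj t]
      exact hv.2.2.1 j
    · have hlt : |v j| < κ := lt_of_le_of_ne (hv.2.2.1 j) (fun hc => hj (mem_act.mpr hc))
      have hc : Continuous (fun t : ℝ => |(v + t • h) j|) := ((coord_continuous j).comp hline).abs
      have : ∀ᶠ t in nhds (0 : ℝ), |(v + t • h) j| < κ := by
        apply (hc.tendsto 0).eventually_lt_const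
        simpa using hlt
      filter_upwards [this] with t ht
      exact ht.le
  have h3 : ∀ᶠ t in nhds (0 : ℝ), ∀ j, |(v + t • h) j| ≤ κ := Filter.eventually_all.mpr h2
  filter_upwards [h1, h3] with t ht1 ht3
  refine ⟨hR t, ht1.le, ht3, ?_⟩
  intro j hj
  rw [hact j hj t]
  exact mem_act.mp hj

theorem row_exists {n : ℕ} {ι ι' : Type} [Fintype ι] [Fintype ι'] (G : ι → GItem n)
    (L : ι' → LItem n) (R : Submodule ℝ (E n)) (κ : ℝ) (hκ : 0 < κ)
    (hGw : ∀ i, 0 ≤ (G i).w) (hGB : ∀ i, 0 ≤ (G i).B) (hGA : ∀ i, 0 ≤ (G i).A)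
    (hLw : ∀ i, 0 ≤ (L i).w) (hLA : ∀ i, 0 ≤ (L i).A)
    (r : ℕ) (hr : r = Module.finrank ℝ R) (hr1 : 1 ≤ r)
    (hGX : ∀ i, (G i).A * pn R (G i).x ≤ (r : ℝ) / 1000)
    (hLX : ∀ i, (L i).A * pn R (L i).y ≤ (r : ℝ) / 1000)
    (hpos : ∃ i, 0 < (G i).w ∧ 0 < (G i).B)
    (hL : IsEmpty ι' ∨ 20 ≤ r)
    (hJ : ∀ v ∈ R, ‖v‖ ≤ 1 → (∀ j, |v j| ≤ κ) → Psi G L R (act κ v) v ≤ Psi G L R ∅ 0 →
      (act κ v = ∅ ∨ (20 ≤ r ∧ 2 * (act κ v).card ≤ r))) :
    ∃ v ∈ R, ‖v‖ = 1 ∧ (∀ j, |v j| ≤ κ) ∧ Psi G L R (act κ v) v ≤ Psi G L R ∅ 0 := by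
  obtain ⟨J0, v0, hv0, hmin0⟩ := exists_min G L R κ hκ
  have hsub : J0 ⊆ act κ v0 := fun j hj => mem_act.mpr (hv0.2.2.2 j hj)
  have hmin : ∀ J v, v ∈ CJ R κ J → Psi G L R (act κ v0) v0 ≤ Psi G L R J v := fun J v hv =>
    le_trans (Psi_anti G L R hsub v0 hLw hLA) (hmin0 J v hv)
  have h0 : (0 : E n) ∈ CJ R κ ∅ := by
    refine ⟨R.zero_mem, by simp, ?_, by simp⟩
    intro j
    simp [hκ.le]
  have hle := hmin ∅ 0 h0
  by_cases hnorm : ‖v0‖ = 1
  · exact ⟨v0, hv0.1, hnorm, hv0.2.2.1, hle⟩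
  exfalso
  have hlt : ‖v0‖ < 1 := lt_of_le_of_ne hv0.2.1 hnorm
  have hJ0 := hJ v0 hv0.1 hv0.2.1 hv0.2.2.1 hle
  set J1 := act κ v0 with hJ1
  have hv1 : v0 ∈ CJ R κ J1 := ⟨hv0.1, hv0.2.1, hv0.2.2.1, fun j hj => mem_act.mp hj⟩
  set S := EJ R J1 with hS
  let b := stdOrthonormalBasis ℝ S
  have hdir : ∀ i, 0 ≤ ∑ g, (G g).w * (G g).B * (Real.exp (gq (G g).A (G g).x v0) *
        gD (G g).A (G g).x v0 (b i : E n)) +
      ∑ l, (L l).w * (Real.exp (lq (L l).A (bJ R J1 (L l).A (L l).y) (L l).y v0) *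
        lD (L l).A (bJ R J1 (L l).A (L l).y) (L l).y v0 (b i : E n)) := by
    intro i
    apply dir_second
    · have h1 : ‖b i‖ = 1 := b.orthonormal.1 i
      rw [← h1]
      rfl
    · have hev := eventually_feasible R κ v0 (b i : E n) hv1 hlt (b i).2
      filter_upwards [hev] with t ht
      simp only [zero_smul, add_zero]
      exact hmin _ _ ht
  have hsum := Finset.sum_nonneg (fun i (_ : i ∈ Finset.univ) => hdir i)
  rw [Finset.sum_add_distrib, Finset.sum_comm] at hsum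
  rw [Finset.sum_comm (f := fun i l => (L l).w * (Real.exp (lq (L l).A (bJ R J1 (L l).A (L l).y)
    (L l).y v0) * lD (L l).A (bJ R J1 (L l).A (L l).y) (L l).y v0 (b i : E n)))] at hsum
  simp_rw [← Finset.mul_sum] at hsum
  have hrank : Module.finrank ℝ R ≤ Module.finrank ℝ S + J1.card := finrank_EJ R J1
  have hrank2 : Module.finrank ℝ S ≤ r := by
    rw [hr]
    exact Submodule.finrank_mono (EJ_le R J1)
  have hrr : (1 : ℝ) ≤ r := by exact_mod_cast hr1
  have hcase : ((Module.finrank ℝ S : ℝ) = r) ∨ ((20 : ℝ) ≤ r ∧ (r : ℝ) / 2 ≤ Module.finrank ℝ S) := by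
    rcases hJ0 with h | ⟨h20, h⟩
    · left
      rw [hS, h, EJ_empty, hr]
    · right
      refine ⟨by exact_mod_cast h20, ?_⟩
      have : r ≤ 2 * Module.finrank ℝ S := by omega
      have : (r : ℝ) ≤ 2 * Module.finrank ℝ S := by exact_mod_cast this
      linarith
  have hG : ∀ g, ∑ i, gD (G g).A (G g).x v0 (b i : E n) < 0 := by
    intro g
    apply gsum_neg R S (EJ_le R J1) b (G g).A (hGA g) (G g).x v0 hv0.1 hv0.2.1 r
      (Module.finrank ℝ S) hrr (by simp) (hGX g) hcase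
  have hLs : ∀ l, ∑ i, lD (L l).A (bJ R J1 (L l).A (L l).y) (L l).y v0 (b i : E n) ≤ 0 := by
    intro l
    have h20 : 20 ≤ r := by
      rcases hL with h | h
      · exact (h.false l).elim
      · exact h
    have h20' : (20 : ℝ) ≤ r := by exact_mod_cast h20
    apply lsum_nonpos R S (EJ_le R J1) b (L l).A (hLA l) (L l).y v0 hv0.1 hv0.2.1 r
      (Module.finrank ℝ S) (by simp) (hLX l) h20'
    · rcases hcase with h | h
      · rw [h]; linarith
      · exact h.2
    · exact_mod_cast hrank2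
    · rw [bJ, ← hr]
  have hGneg : ∑ g, (G g).w * (G g).B * (Real.exp (gq (G g).A (G g).x v0) *
      ∑ i, gD (G g).A (G g).x v0 (b i : E n)) < 0 := by
    obtain ⟨g0, hg1, hg2⟩ := hpos
    apply Finset.sum_neg'
    · intro g _
      apply mul_nonpos_of_nonneg_of_nonpos (mul_nonneg (hGw g) (hGB g))
      exact mul_nonpos_of_nonneg_of_nonpos (Real.exp_pos _).le (hG g).le
    · refine ⟨g0, Finset.mem_univ _, ?_⟩
      apply mul_neg_of_pos_of_neg (mul_pos hg1 hg2)
      exact mul_neg_of_pos_of_neg (Real.exp_pos _) (hG g0)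
  have hLneg : ∑ l, (L l).w * (Real.exp (lq (L l).A (bJ R J1 (L l).A (L l).y) (L l).y v0) *
      ∑ i, lD (L l).A (bJ R J1 (L l).A (L l).y) (L l).y v0 (b i : E n)) ≤ 0 := by
    apply Finset.sum_nonpos
    intro l _
    apply mul_nonpos_of_nonneg_of_nonpos (hLw l)
    exact mul_nonpos_of_nonneg_of_nonpos (Real.exp_pos _).le (hLs l)
  linarith

end Run7.h589
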