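import Pool.Agent.Run7.h589.Absorb

open Finset

namespace Run7.h589

theorem mem_RL_inner {n : ℕ} {R : Submodule ℝ (E n)} {L : List (E n)} {x : E n}
    (hx : x ∈ RL R L) : ∀ w ∈ L, inner ℝ w x = 0 := by
  induction L with
  | nil => simp
  | cons v L ih =>
    intro w hw
    have h1 : x ∈ Rm (RL R L) v := hx
    rw [mem_Rm] at h1
    rcases List.mem_cons.mp hw with h | h
    · rw [h]; exact h1.1
    · exact ih h1.2 w h

theorem Ch_pairwise {n : ℕ} {R : Submodule ℝ (E n)} {L : List (E n)} (h : Ch R L) :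
    L.Pairwise (fun a b => inner ℝ a b = 0) := by
  induction L with
  | nil => exact List.Pairwise.nil
  | cons v L ih =>
    refine List.Pairwise.cons ?_ (ih h.1)
    intro w hw
    rw [real_inner_comm]
    exact mem_RL_inner h.2.1 w hw

theorem Ch_norm {n : ℕ} {R : Submodule ℝ (E n)} {L : List (E n)} (h : Ch R L) :
    ∀ v ∈ L, ‖v‖ = 1 := by
  induction L with
  | nil => simp
  | cons v L ih =>
    intro w hw
    rcases List.mem_cons.mp hw with h1 | h1
    · rw [h1]; exact h.2.2
    · exact ih h.1 w h1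

theorem prod_get {α : Type*} {M : Type*} [CommMonoid M] (L : List α) (n : ℕ) (h : L.length = n)
    (F : α → M) : ∏ i : Fin n, F (L.get (Fin.cast h.symm i)) = (L.map F).prod := by
  subst h
  simp only [Fin.cast_eq_self]
  rw [← List.prod_ofFn]
  congr 1
  conv_rhs => rw [← List.ofFn_get L, List.map_ofFn]
  rfl

theorem sum_get {α : Type*} {M : Type*} [AddCommMonoid M] (L : List α) (n : ℕ) (h : L.length = n)
    (F : α → M) : ∑ i : Fin n, F (L.get (Fin.cast h.symm i)) = (L.map F).sum := by
  subst h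
  simp only [Fin.cast_eq_self]
  rw [← List.sum_ofFn]
  congr 1
  conv_rhs => rw [← List.ofFn_get L, List.map_ofFn]
  rfl

theorem rows_exist {n : ℕ} {ιX : Type} [Fintype ιX] [Nonempty ιX] (W : ιX → ℝ)
    (zz : ιX → (Fin n → ℤ))
    (A B : ℕ → ιX → ℝ) (T : ℕ) (b : ℝ) (hb : 0 < b) (hn : 1 ≤ n) (hBig : ∀ t < T, BigN n t)
    (hρ : ∀ t < T, (80 : ℝ) ≤ n / 2 ^ t) (hW : ∀ e, 0 < W e) (hW2 : ∑ e, W e ≤ 1)
    (hA : ∀ t e, 0 ≤ A t e) (hB : ∀ t e, 0 ≤ B t e)
    (hAX : ∀ t < T, ∀ e, A t e * (piT t * ‖iv (zz e)‖ ^ 2) ≤ 3 * (n / 2 ^ t) / 8000)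
    (hz : ∀ t < T, ∀ e, zz e ∈ YY n (sT n t) (MT t)) (hz0 : ∀ e, zz e ≠ 0) :
    ∃ (v : Fin n → E n) (tag : Fin n → ℕ ⊕ ℕ), Orthonormal ℝ v ∧
      (∀ i t, tag i = Sum.inl t → t < T ∧ ∀ j, |v i j| ≤ Real.sqrt (lamT t / n)) ∧
      (∀ t, ((univ.filter (fun i => tag i = Sum.inl t)).card : ℝ) ≤ n / 2 ^ t) ∧
      (∀ r, (univ.filter (fun i => tag i = Sum.inr r)).card ≤ 1) ∧
      (∀ i r, tag i = Sum.inr r → 1 ≤ r ∧ (r : ℝ) ≤ n / 2 ^ T) ∧
      (∀ e, W e * ((∏ i, Sum.elim (fun t => fX ⟨W e, A t e, B t e, iv (zz e)⟩ (v i))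
          (fun _ => 1) (tag i)) *
        ∏ i, Sum.elim (fun _ => 1) (fun r : ℕ => fX ⟨W e, (r : ℝ) / (1000 * (piT T * ‖iv (zz e)‖ ^ 2)),
          b, iv (zz e)⟩ (v i)) (tag i)) ≤ 4) ∧
      (∀ e, ∑ i, Sum.elim (fun _ => (0 : ℝ)) (fun _ => (inner ℝ (iv (zz e)) (v i)) ^ 2) (tag i) ≤
        piT T * ‖iv (zz e)‖ ^ 2) := by
  have hn' : (0 : ℝ) < n := by exact_mod_cast hn
  obtain ⟨LL, hCh, hfl, hPot, hf1, hf2, _, hhi, hcnt⟩ := main_phase W zz A B T hn hBig hρ
    (fun e => (hW e).le) (by linarith) hA hB hAX hz T le_rfl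
  set R := RL (⊤ : Submodule ℝ (E n)) (LL.map Prod.snd) with hR
  have hfin := finrank_RL hCh
  rw [finrank_top, List.length_map] at hfin
  have hfinE : Module.finrank ℝ (E n) = n := by simp
  rw [hfinE, ← hR] at hfin
  set r0 := Module.finrank ℝ R with hr0
  let U : ιX → ℝ := fun e => piT T * ‖iv (zz e)‖ ^ 2
  have hU : ∀ e, 0 < U e := by
    intro e
    have h1 : 0 < ‖iv (zz e)‖ := norm_pos_iff.mpr (iv_ne_zero (hz0 e))
    have h2 := piT_pos T
    simp only [U]
    positivity
  let W' : ιX → ℝ := fun e => W e *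
    (LL.map (fun p => fX ⟨W e, A p.1 e, B p.1 e, iv (zz e)⟩ p.2)).prod
  have hprodpos : ∀ e, 0 < (LL.map (fun p => fX ⟨W e, A p.1 e, B p.1 e, iv (zz e)⟩ p.2)).prod := by
    intro e
    apply List.prod_pos
    intro a ha
    simp only [List.mem_map] at ha
    obtain ⟨p, _, rfl⟩ := ha
    exact fX_pos _ (hB _ _) _
  obtain ⟨LU, hChU, htag, hPotU⟩ := un_phase (fun e => iv (zz e)) U b hb hU r0 W' R
    (fun e => mul_pos (hW e) (hprodpos e)) hr0 (fun e => hhi (zz e) (Or.inr ⟨e, rfl⟩))
  have hlenU : LU.length = r0 := by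
    have := congrArg List.length htag
    simpa using this
  let RR : List ((ℕ ⊕ ℕ) × E n) := LU.map (fun p => (Sum.inr p.1, p.2)) ++
    LL.map (fun p => (Sum.inl p.1, p.2))
  have hlen : RR.length = n := by
    simp only [RR, List.length_append, List.length_map]
    omega
  have hRRsnd : RR.map Prod.snd = LU.map Prod.snd ++ LL.map Prod.snd := by
    simp only [RR, List.map_append, List.map_map]
    rfl
  have hChR : Ch ⊤ (RR.map Prod.snd) := by
    rw [hRRsnd, Ch_append]
    exact ⟨hCh, hChU⟩
  have hget : ∀ i : Fin n, (RR.get (Fin.cast hlen.symm i)) ∈ RR := fun i => List.get_mem _ _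
  have hsumtag : ∀ tg : ℕ ⊕ ℕ, (univ.filter (fun i : Fin n =>
      (RR.get (Fin.cast hlen.symm i)).1 = tg)).card = (RR.filter (fun p => p.1 = tg)).length := by
    intro tg
    rw [Finset.card_filter]
    rw [sum_get RR n hlen (fun p => if p.1 = tg then 1 else 0)]
    rw [← List.countP_eq_length_filter]
    induction RR with
    | nil => rfl
    | cons a t ih =>
      rw [List.map_cons, List.sum_cons, ih, List.countP_cons]
      by_cases h : a.1 = tg
      · simp [h]; ring
      · simp [h]
  refine ⟨fun i => (RR.get (Fin.cast hlen.symm i)).2, fun i => (RR.get (Fin.cast hlen.symm i)).1,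
    ?_, ?_, ?_, ?_, ?_, ?_, ?_⟩
  · constructor
    · intro i
      apply Ch_norm hChR
      rw [List.mem_map]
      exact ⟨_, hget i, rfl⟩
    · have hpw := Ch_pairwise hChR
      rw [List.pairwise_map] at hpw
      rw [List.pairwise_iff_get] at hpw
      intro i j hij
      rcases lt_or_gt_of_ne hij with h | h
      · exact hpw (Fin.cast hlen.symm i) (Fin.cast hlen.symm j) (by simpa using h)
      · have := hpw (Fin.cast hlen.symm j) (Fin.cast hlen.symm i) (by simpa using h)
        rw [real_inner_comm]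
        exact this
  · intro i t ht
    beta_reduce at ht ⊢
    have h1 := hget i
    simp only [RR] at h1
    rcases List.mem_append.mp h1 with h | h
    · exfalso
      rw [List.mem_map] at h
      obtain ⟨p, _, hp⟩ := h
      have : (RR.get (Fin.cast hlen.symm i)).1 = Sum.inr p.1 := by
        simp only [RR]
        rw [← hp]
      rw [this] at ht
      simp at ht
    · rw [List.mem_map] at h
      obtain ⟨p, hp, hpe⟩ := h
      have h2 : RR.get (Fin.cast hlen.symm i) = (Sum.inl p.1, p.2) := hpe.symm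
      rw [h2] at ht
      have h3 : p.1 = t := Sum.inl_injective ht
      have h4 := hfl p hp
      rw [h3] at h4
      refine ⟨h4.1, ?_⟩
      intro j
      rw [h2]
      exact h4.2 j
  · intro t
    rw [hsumtag (Sum.inl t)]
    refine le_trans ?_ (hcnt t)
    have : (RR.filter (fun p => decide (p.1 = Sum.inl t))).length =
        (LL.filter (fun p => decide (p.1 = t))).length := by
      simp only [RR]
      rw [List.filter_append, List.length_append, List.filter_map, List.filter_map,
        List.length_map, List.length_map]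
      have h1 : LU.filter ((fun p : (ℕ ⊕ ℕ) × E n => decide (p.1 = Sum.inl t)) ∘
          fun p => (Sum.inr p.1, p.2)) = [] := by
        rw [List.filter_eq_nil_iff]
        intro p _
        simp
      rw [h1]
      simp only [List.length_nil, zero_add]
      congr 2
      ext p
      simp
    rw [this]
  · intro r
    rw [hsumtag (Sum.inr r)]
    have : (RR.filter (fun p => decide (p.1 = Sum.inr r))).length =
        ((LU.map Prod.fst).filter (fun p => decide (p = r))).length := by
      simp only [RR]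
      rw [List.filter_append, List.length_append, List.filter_map, List.filter_map,
        List.length_map, List.length_map, List.filter_map, List.length_map]
      have h1 : LL.filter ((fun p : (ℕ ⊕ ℕ) × E n => decide (p.1 = Sum.inr r)) ∘
          fun p => (Sum.inl p.1, p.2)) = [] := by
        rw [List.filter_eq_nil_iff]
        intro p _
        simp
      rw [h1]
      simp only [List.length_nil, add_zero]
      congr 2
      ext p
      simp
    rw [this, htag]
    have hnd : (List.range' 1 r0).Nodup := List.nodup_range'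
    rw [← List.countP_eq_length_filter]
    have := List.nodup_iff_count_le_one.mp hnd r
    unfold List.count at this
    have h9 : (fun x : ℕ => x == r) = (fun p : ℕ => decide (p = r)) := by
      funext x
      by_cases h : x = r <;> simp [h]
    rw [h9] at this
    exact this
  · intro i r hr
    beta_reduce at hr
    have h1 := hget i
    simp only [RR] at h1
    rcases List.mem_append.mp h1 with h | h
    · rw [List.mem_map] at h
      obtain ⟨p, hp, hpe⟩ := h
      have h2 : RR.get (Fin.cast hlen.symm i) = (Sum.inr p.1, p.2) := hpe.symm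
      rw [h2] at hr
      have h3 : p.1 = r := Sum.inr_injective hr
      have h4 : p.1 ∈ LU.map Prod.fst := List.mem_map.mpr ⟨p, hp, rfl⟩
      rw [htag, List.mem_range'_1] at h4
      rw [h3] at h4
      refine ⟨h4.1, ?_⟩
      have h5 : r ≤ r0 := by omega
      have h6 : (r : ℝ) ≤ r0 := by exact_mod_cast h5
      linarith
    · exfalso
      rw [List.mem_map] at h
      obtain ⟨p, _, hp⟩ := h
      have : (RR.get (Fin.cast hlen.symm i)).1 = Sum.inl p.1 := by
        simp only [RR]
        rw [← hp]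
      rw [this] at hr
      simp at hr
  · intro e
    have h1 := prod_get RR n hlen (fun p => Sum.elim
      (fun t => fX ⟨W e, A t e, B t e, iv (zz e)⟩ p.2) (fun _ => (1 : ℝ)) p.1)
    have h2 := prod_get RR n hlen (fun p => Sum.elim (fun _ => (1 : ℝ))
      (fun r : ℕ => fX ⟨W e, (r : ℝ) / (1000 * (piT T * ‖iv (zz e)‖ ^ 2)), b, iv (zz e)⟩ p.2) p.1)
    beta_reduce
    rw [h1, h2]
    have h3 : (RR.map (fun p => Sum.elim (fun t => fX ⟨W e, A t e, B t e, iv (zz e)⟩ p.2)
        (fun _ => (1 : ℝ)) p.1)).prod =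
        (LL.map (fun p => fX ⟨W e, A p.1 e, B p.1 e, iv (zz e)⟩ p.2)).prod := by
      simp only [RR, List.map_append, List.map_map, List.prod_append]
      have h4 : (LU.map ((fun p : (ℕ ⊕ ℕ) × E n => Sum.elim
          (fun t => fX ⟨W e, A t e, B t e, iv (zz e)⟩ p.2) (fun _ => (1 : ℝ)) p.1) ∘
          fun p => (Sum.inr p.1, p.2))).prod = 1 := by
        apply List.prod_eq_one
        intro x hx
        rw [List.mem_map] at hx
        obtain ⟨p, _, rfl⟩ := hx
        rfl
      rw [h4, one_mul]
      rfl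
    have h5 : (RR.map (fun p => Sum.elim (fun _ => (1 : ℝ))
        (fun r : ℕ => fX ⟨W e, (r : ℝ) / (1000 * (piT T * ‖iv (zz e)‖ ^ 2)), b, iv (zz e)⟩ p.2)
        p.1)).prod =
        (LU.map (fun p => fX ⟨W' e, (p.1 : ℝ) / (1000 * U e), b, iv (zz e)⟩ p.2)).prod := by
      simp only [RR, List.map_append, List.map_map, List.prod_append]
      have h4 : (LL.map ((fun p : (ℕ ⊕ ℕ) × E n => Sum.elim (fun _ => (1 : ℝ))
          (fun r : ℕ => fX ⟨W e, (r : ℝ) / (1000 * (piT T * ‖iv (zz e)‖ ^ 2)), b, iv (zz e)⟩ p.2)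
          p.1) ∘ fun p => (Sum.inl p.1, p.2))).prod = 1 := by
        apply List.prod_eq_one
        intro x hx
        rw [List.mem_map] at hx
        obtain ⟨p, _, rfl⟩ := hx
        rfl
      rw [h4, mul_one]
      rfl
    rw [h3, h5, ← mul_assoc]
    have h6 : W' e * (LU.map (fun p => fX ⟨W' e, (p.1 : ℝ) / (1000 * U e), b, iv (zz e)⟩
        p.2)).prod ≤ ∑ e, W' e := by
      refine le_trans ?_ hPotU
      unfold PotX
      apply Finset.single_le_sum (f := fun e => W' e * (LU.map (fun p =>
        fX ⟨W' e, (p.1 : ℝ) / (1000 * U e), b, iv (zz e)⟩ p.2)).prod) _ (Finset.mem_univ e)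
      intro e _
      apply mul_nonneg (mul_pos (hW e) (hprodpos e)).le
      apply List.prod_nonneg
      intro x hx
      rw [List.mem_map] at hx
      obtain ⟨p, _, rfl⟩ := hx
      exact (fX_pos _ hb.le _).le
    refine h6.trans ?_
    have h7 : ∑ e, W' e = PotX W (fun e => iv (zz e)) A B LL := rfl
    rw [h7]
    refine hPot.trans ?_
    have h8 : 3 * (LL.length : ℝ) / n ≤ 3 := by
      rw [div_le_iff₀ hn']
      have : LL.length ≤ n := by omega
      have : (LL.length : ℝ) ≤ n := by exact_mod_cast this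
      linarith
    linarith
  · intro e
    have h1 := sum_get RR n hlen (fun p => Sum.elim (fun _ => (0 : ℝ))
      (fun _ => (inner ℝ (iv (zz e)) p.2) ^ 2) p.1)
    beta_reduce
    rw [h1]
    have h2 : (RR.map (fun p => Sum.elim (fun _ => (0 : ℝ))
        (fun _ => (inner ℝ (iv (zz e)) p.2) ^ 2) p.1)).sum = cap (iv (zz e)) (LU.map Prod.snd) := by
      simp only [RR, List.map_append, List.map_map, List.sum_append]
      have h4 : (LL.map ((fun p : (ℕ ⊕ ℕ) × E n => Sum.elim (fun _ => (0 : ℝ))
          (fun _ => (inner ℝ (iv (zz e)) p.2) ^ 2) p.1) ∘ fun p => (Sum.inl p.1, p.2))).sum = 0 := by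
        apply List.sum_eq_zero
        intro x hx
        rw [List.mem_map] at hx
        obtain ⟨p, _, rfl⟩ := hx
        rfl
      rw [h4, add_zero]
      unfold cap
      rw [List.map_map]
      rfl
    rw [h2]
    have h3 := pn_RL hChU (iv (zz e))
    have h4 := pn_nonneg (RL R (LU.map Prod.snd)) (iv (zz e))
    have h5 := hhi (zz e) (Or.inr ⟨e, rfl⟩)
    linarith

end Run7.h589
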