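import Pool.Agent.Run7.h589.Batch

open Finset

namespace Run7.h589

def eS (t : ℕ) : ℕ := 320 * (t + 1)
def eM (t : ℕ) : ℕ := 130 * (t + 1)
def eX (t : ℕ) : ℕ := 260 * t
def eD (t : ℕ) : ℕ := 59 * (t + 1)
def eH (t : ℕ) : ℕ := 11 * (t + 1)
def eC : ℕ := 260

theorem eSM_real (t : ℕ) : ((eS t + eM t + 5 : ℕ) : ℝ) = 450 * (t + 1) + 5 := by
  unfold eS eM; push_cast; ring
theorem eS_eq (t : ℕ) : eS t = eX (t + 1) + (t + 1) + eD t := by
  unfold eS eX eD; ring
theorem eX_eq (t : ℕ) : eX (t + 1) = eM t + eM t := by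
  unfold eX eM; ring
theorem eX_succ (t : ℕ) : eX (t + 1) = eX t + eC := by
  unfold eX eC; ring
theorem eD_succ (t : ℕ) : eD (t + 1) = eD t + eD 0 := by
  unfold eD; ring
theorem eS_ge (t : ℕ) : t + 5 ≤ eS t := by
  unfold eS; omega
theorem eHX_real (t : ℕ) : ((eX (t + 1) + eH t : ℕ) : ℝ) = 271 * (t + 1) := by
  unfold eX eH; push_cast; ring
theorem eH_ge (t : ℕ) : 11 ≤ eH t := by
  unfold eH; omega
theorem eC_real : ((eC : ℕ) : ℝ) = 260 := by
  unfold eC; norm_num
theorem eD_zero : (2 : ℝ) ^ (eD 0) = 2 ^ 59 := by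
  unfold eD; norm_num
theorem eX_zero : eX 0 = 0 := rfl
def eG : ℕ := 130
theorem eM_succ (t : ℕ) : eM (t + 1) = eM t + eG := by
  unfold eM eG; ring
theorem eS_succ (t : ℕ) : ∃ k, eS (t + 1) = eS t + (k + eG) := ⟨190, by unfold eS eG; ring⟩

attribute [irreducible] eS eM eX eD eH eC eG

def sT (n t : ℕ) : ℕ := n / 2 ^ (eS t)
def MT (t : ℕ) : ℕ := 2 ^ (eM t + 3)
def qT (n t : ℕ) : ℕ := 10000 * sT n t * (500 * (t + 1))
noncomputable def xiT (t : ℕ) : ℝ := (1 / 2) ^ (eX t)
noncomputable def piT (t : ℕ) : ℝ := Real.exp (-(t / 25))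
noncomputable def lamT (t : ℕ) : ℝ := 2000000 * piT t * 2 ^ t * (500 * (t + 1))

/-- `n` is large compared to the stage -/
def BigN (n t : ℕ) : Prop := (2 : ℝ) ^ (eX (t + 1)) * Real.log (8 * (n : ℝ) ^ 2) ≤ sT n t

theorem sT_pos {n t : ℕ} (hn : 1 ≤ n) (h : BigN n t) : 1 ≤ sT n t := by
  have hn' : (1 : ℝ) ≤ n := by exact_mod_cast hn
  have h1 : 0 < Real.log (8 * (n : ℝ) ^ 2) := Real.log_pos (by nlinarith)
  have h2 : (0 : ℝ) < sT n t := lt_of_lt_of_le (by positivity) h
  exact_mod_cast h2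

theorem sT_le {n t : ℕ} : (sT n t : ℝ) ≤ n / 2 ^ (eS t) := by
  unfold sT
  have := @Nat.cast_div_le ℝ _ _ _ n (2 ^ (eS t))
  push_cast at this
  exact this

theorem sT_ge {n t : ℕ} (h : 1 ≤ sT n t) : (n : ℝ) / 2 ^ (eS t + 1) ≤ sT n t := by
  have h1 : n < 2 ^ (eS t) * (sT n t + 1) := by
    unfold sT
    exact Nat.lt_mul_div_succ n (by positivity)
  have h2 : (n : ℝ) < 2 ^ (eS t) * (sT n t + 1) := by exact_mod_cast h1
  have h3 : (1 : ℝ) ≤ sT n t := by exact_mod_cast h
  rw [div_le_iff₀ (by positivity), pow_succ]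
  have h4 : (0 : ℝ) < 2 ^ (eS t) := by positivity
  nlinarith

theorem log_two_lt : Real.log 2 < 0.7 := by
  have := Real.log_two_lt_d9
  linarith

theorem log_ratio {n t : ℕ} (hn : 1 ≤ n) (h : 1 ≤ sT n t) :
    Real.log (2 * n * MT t / sT n t) ≤ 500 * (t + 1) - 4 := by
  have hs : (0 : ℝ) < sT n t := by exact_mod_cast h
  have hn' : (0 : ℝ) < n := by exact_mod_cast hn
  have h1 : (2 * n * MT t / sT n t : ℝ) ≤ 2 ^ (eS t + eM t + 5) := by
    rw [div_le_iff₀ hs]
    have h2 := sT_ge h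
    rw [div_le_iff₀ (by positivity)] at h2
    have h3 : (MT t : ℝ) = 2 ^ (eM t + 3) := by simp [MT]
    rw [h3]
    calc (2 * n * 2 ^ (eM t + 3) : ℝ) ≤
        2 * (sT n t * 2 ^ (eS t + 1)) * 2 ^ (eM t + 3) := by gcongr
      _ = 2 ^ (eS t + eM t + 5) * sT n t := by
        have : (2 : ℝ) ^ (eS t + eM t + 5) =
          2 * 2 ^ (eS t + 1) * 2 ^ (eM t + 3) := by
          rw [← pow_succ', ← pow_add]
          congr 1
          omega
        rw [this]
        ring
  have h2 : Real.log (2 * n * MT t / sT n t) ≤ Real.log ((2 : ℝ) ^ (eS t + eM t + 5)) := by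
    apply Real.log_le_log _ h1
    have : (0 : ℝ) < MT t := by simp [MT]
    positivity
  rw [Real.log_pow, eSM_real] at h2
  refine h2.trans ?_
  have h3 := log_two_lt
  have h4 : (0 : ℝ) ≤ t := by positivity
  nlinarith [Real.log_nonneg (show (1 : ℝ) ≤ 2 by norm_num)]

theorem log_card {n t : ℕ} (hn : 1 ≤ n) (hB : BigN n t) :
    Real.log (8 * n * (YY n (sT n t) (MT t)).card) ≤ sT n t * (500 * (t + 1)) := by
  have hs1 := sT_pos hn hB
  have hn' : (1 : ℝ) ≤ n := by exact_mod_cast hn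
  have hs' : (1 : ℝ) ≤ sT n t := by exact_mod_cast hs1
  have hM : 1 ≤ MT t := Nat.one_le_two_pow
  have hsn : sT n t ≤ n := Nat.div_le_self _ _
  have h1 := YY_card n (sT n t) (MT t) hs1 hsn hM
  have h2 := log_ratio hn hs1
  have hYne : (YY n (sT n t) (MT t)).Nonempty := ⟨_, single_mem_YY hs1 hM (⟨0, hn⟩ : Fin n)⟩
  have hYc : (0 : ℝ) < (YY n (sT n t) (MT t)).card := by exact_mod_cast Finset.card_pos.mpr hYne
  have h3 : Real.log ((YY n (sT n t) (MT t)).card) ≤ sT n t * (500 * (t + 1) - 2) := by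
    have h4 := Real.log_le_log hYc h1
    rw [Real.log_exp] at h4
    refine h4.trans ?_
    gcongr
    linarith
  rw [Real.log_mul (by positivity) (by positivity)]
  have h5 : Real.log (8 * n) ≤ sT n t := by
    have h6 : Real.log (8 * n) ≤ Real.log (8 * (n : ℝ) ^ 2) := by
      apply Real.log_le_log (by positivity)
      nlinarith
    have h7 : 1 * Real.log (8 * (n : ℝ) ^ 2) ≤ (2 : ℝ) ^ (eX (t + 1)) *
        Real.log (8 * (n : ℝ) ^ 2) := by
      have : 0 ≤ Real.log (8 * (n : ℝ) ^ 2) := Real.log_nonneg (by nlinarith)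
      gcongr
      exact one_le_pow₀ (by norm_num)
    have h8 : (2 : ℝ) ^ (eX (t + 1)) * Real.log (8 * (n : ℝ) ^ 2) ≤ sT n t := hB
    linarith
  linarith

theorem piT_pos (t : ℕ) : 0 < piT t := Real.exp_pos _
theorem xiT_pos (t : ℕ) : 0 < xiT t := by unfold xiT; positivity
theorem xiT_le (t : ℕ) : xiT t ≤ 1 := pow_le_one₀ (by norm_num) (by norm_num)

theorem big_pow (t : ℕ) : (260000000000 : ℝ) * (t + 1) ≤ 2 ^ (eD t) := by
  induction t with
  | zero => rw [eD_zero]; norm_num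
  | succ t ih =>
    have h : (2 : ℝ) ^ (eD (t + 1)) = 2 ^ (eD t) * 2 ^ 59 := by
      rw [← eD_zero, ← pow_add, eD_succ]
    rw [h]
    push_cast
    have h1 : (0 : ℝ) ≤ t := by positivity
    nlinarith

theorem q_small {n t : ℕ} {r0 : ℝ} (hr : (n : ℝ) / 2 ^ t / 2 < r0) :
    81 * (qT n t : ℝ) * 640 ≤ xiT (t + 1) * r0 := by
  have h1 := @sT_le n t
  have h2 := big_pow t
  have h3 : (qT n t : ℝ) = 10000 * sT n t * (500 * (t + 1)) := by
    unfold qT; push_cast; ring
  rw [h3]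
  have h4 : 81 * (10000 * (sT n t : ℝ) * (500 * (t + 1))) * 640 ≤
      81 * (10000 * (n / 2 ^ (eS t)) * (500 * (t + 1))) * 640 := by gcongr
  have h5 : 81 * (10000 * ((n : ℝ) / 2 ^ (eS t)) * (500 * (t + 1))) * 640 ≤
      n / 2 ^ (eS t) * 2 ^ (eD t) := by
    have h0 : 0 ≤ (n : ℝ) / 2 ^ (eS t) := by positivity
    nlinarith
  have h6 : (n : ℝ) / 2 ^ (eS t) * 2 ^ (eD t) = xiT (t + 1) * (n / 2 ^ t / 2) := by
    unfold xiT
    have e1 : (2 : ℝ) ^ (eS t) = 2 ^ (eX (t + 1)) * (2 ^ t * 2) * 2 ^ (eD t) := by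
      rw [← pow_succ, ← pow_add, ← pow_add, eS_eq]
    rw [e1, one_div, inv_pow]
    field_simp
  have h7 : xiT (t + 1) * (n / 2 ^ t / 2) ≤ xiT (t + 1) * r0 := by
    have := (xiT_pos (t + 1)).le
    gcongr
  linarith

theorem RL_append {n : ℕ} (R : Submodule ℝ (E n)) (L1 L : List (E n)) :
    RL R (L1 ++ L) = RL (RL R L) L1 := by
  induction L1 with
  | nil => rfl
  | cons v L1 ih => simp only [List.cons_append, RL, ih]

theorem Ch_append {n : ℕ} (R : Submodule ℝ (E n)) (L1 L : List (E n)) :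
    Ch R (L1 ++ L) ↔ Ch R L ∧ Ch (RL R L) L1 := by
  induction L1 with
  | nil => simp [Ch]
  | cons v L1 ih =>
    simp only [List.cons_append, Ch, ih, RL_append]
    tauto

theorem exp_two_le {x : ℝ} (h0 : 0 ≤ x) (h1 : x ≤ 1 / 2) : Real.exp (-(2 * x)) ≤ 1 - x := by
  rw [Real.exp_neg, inv_le_comm₀ (Real.exp_pos _) (by linarith)]
  have h2 : 2 * x + 1 ≤ Real.exp (2 * x) := Real.add_one_le_exp _
  refine le_trans ?_ h2
  rw [inv_le_iff_one_le_mul₀ (by linarith)]
  nlinarith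

/-- reweighted items -/
noncomputable def reW {n : ℕ} {ιX : Type} (XS : ιX → XItem n) (L : List (E n)) : ιX → XItem n :=
  fun e => { XS e with W := (XS e).W * (L.map (fX (XS e))).prod }

theorem TX_reW {n : ℕ} {ιX : Type} [Fintype ιX] (XS : ιX → XItem n) (L L1 : List (E n)) :
    TX (reW XS L) L1 = TX XS (L1 ++ L) := by
  unfold TX reW
  apply Finset.sum_congr rfl
  intro e _
  rw [List.map_append, List.prod_append]
  have : (fX { XS e with W := (XS e).W * (L.map (fX (XS e))).prod }) = fX (XS e) := by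
    ext v
    rfl
  rw [this]
  ring

theorem xi_step : Real.exp (-(1782 / 10)) ≥ (1 / 2) ^ eC := by
  have h : ((1 : ℝ) / 2) ^ eC = Real.exp (-(260 * Real.log 2)) := by
    rw [Real.exp_neg, one_div, inv_pow]
    congr 1
    rw [show (260 : ℝ) * Real.log 2 = Real.log ((2 : ℝ) ^ eC) by
      rw [Real.log_pow, eC_real]]
    rw [Real.exp_log (by positivity)]
  rw [h, ge_iff_le, Real.exp_le_exp]
  have := Real.log_two_gt_d9
  linarith

theorem stage {n : ℕ} {ιX : Type} [Fintype ιX] (XS : ιX → XItem n) (Rs : Submodule ℝ (E n))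
    (t : ℕ) (hn : 1 ≤ n) (hB : BigN n t) (ρ : ℝ) (hρ : ρ = n / 2 ^ t) (hρ80 : 80 ≤ ρ)
    (hr1 : (Module.finrank ℝ Rs : ℝ) ≤ ρ) (hr2 : 9 / 10 * ρ ≤ Module.finrank ℝ Rs)
    (hlow : ∀ z ∈ YY n (sT n t) (MT t), xiT t * ‖iv z‖ ^ 2 ≤ pn Rs (iv z))
    (hup : ∀ z ∈ YY n (sT n t) (MT t), pn Rs (iv z) ≤ piT t * ‖iv z‖ ^ 2)
    (hXW : ∀ e, 0 ≤ (XS e).W) (hXB : ∀ e, 0 ≤ (XS e).B) (hXA : ∀ e, 0 ≤ (XS e).A)
    (hXX : ∀ e, (XS e).A * pn Rs (XS e).x ≤ 3 * ρ / 8000)
    (hX5 : TX XS [] + 3 * Module.finrank ℝ Rs / n ≤ 5) :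
    ∃ L : List (E n), Ch Rs L ∧ (∀ v ∈ L, ∀ j, |v j| ≤ Real.sqrt (lamT t / n)) ∧
      TX XS L ≤ TX XS [] + 3 * L.length / n ∧
      (Module.finrank ℝ (RL Rs L) : ℝ) ≤ ρ / 2 ∧
      9 / 10 * (ρ / 2) ≤ Module.finrank ℝ (RL Rs L) ∧
      (∀ z ∈ YY n (sT n t) (MT t), xiT (t + 1) * ‖iv z‖ ^ 2 ≤ pn (RL Rs L) (iv z)) ∧
      (∀ z ∈ YY n (sT n t) (MT t), pn (RL Rs L) (iv z) ≤ piT (t + 1) * ‖iv z‖ ^ 2) := by
  have hn' : (0 : ℝ) < n := by exact_mod_cast hn
  have hρ0 : 0 < ρ := by linarith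
  have hs1 := sT_pos hn hB
  have hs1' : (1 : ℝ) ≤ sT n t := by exact_mod_cast hs1
  have hM1 : 1 ≤ MT t := Nat.one_le_two_pow
  set rs := Module.finrank ℝ Rs with hrs
  set q := qT n t with hq
  have hq1 : 1 ≤ q := by
    rw [hq]
    unfold qT
    have : 1 ≤ 10000 * sT n t := by omega
    exact Nat.one_le_iff_ne_zero.mpr (by positivity)
  have hqr : (q : ℝ) = 10000 * sT n t * (500 * (t + 1)) := by
    rw [hq]; unfold qT; push_cast; ring
  -- invariants
  let P : List (E n) → Prop := fun L => Ch Rs L ∧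
    (∀ v ∈ L, ∀ j, |v j| ≤ Real.sqrt (lamT t / n)) ∧
    TX XS L ≤ TX XS [] + 3 * L.length / n ∧
    9 / 10 * (ρ / 2) ≤ Module.finrank ℝ (RL Rs L) ∧
    (∀ z ∈ YY n (sT n t) (MT t), xiT t * Real.exp (-(324 * L.length / ρ)) * ‖iv z‖ ^ 2 ≤
      pn (RL Rs L) (iv z)) ∧
    (∀ z ∈ YY n (sT n t) (MT t), pn (RL Rs L) (iv z) ≤
      piT t * Real.exp (-(L.length / (10 * ρ))) * ‖iv z‖ ^ 2)
  have hP0 : P [] := by
    refine ⟨trivial, by simp, by simp, ?_, ?_, ?_⟩
    · show 9 / 10 * (ρ / 2) ≤ (rs : ℝ)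
      linarith
    · intro z hz
      simpa [RL] using hlow z hz
    · intro z hz
      simpa [RL] using hup z hz
  have hstep : ∀ L, P L → ρ / 2 < Module.finrank ℝ (RL Rs L) →
      ∃ L', P L' ∧ Module.finrank ℝ (RL Rs L') < Module.finrank ℝ (RL Rs L) := by
    intro L hL hbig
    obtain ⟨hCh, hfl, hTX, _, hlo, hhi⟩ := hL
    set R0 := RL Rs L with hR0
    set r0 := Module.finrank ℝ R0 with hr0
    have hfin : r0 + L.length = rs := finrank_RL hCh
    have hfin' : (r0 : ℝ) + L.length = rs := by exact_mod_cast hfin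
    have hr0pos : (0 : ℝ) < r0 := by linarith
    have hl0 : (0 : ℝ) ≤ L.length := by positivity
    have hlenρ : (L.length : ℝ) ≤ ρ / 2 := by linarith
    have hqs := @q_small n t r0 (by rw [← hρ]; exact hbig)
    rw [← hq] at hqs
    have h8 : 81 * (q : ℝ) / r0 ≤ xiT (t + 1) / 640 := by
      rw [div_le_div_iff₀ hr0pos (by norm_num)]
      linarith
    have hx1 := xiT_le (t + 1)
    have hx0 := xiT_pos (t + 1)
    have hq4 : 4 * q ≤ r0 := by
      have : (4 : ℝ) * q ≤ r0 := by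
        have h0 : (0 : ℝ) ≤ q := by positivity
        linarith only [hqs, h0, mul_le_mul_of_nonneg_right hx1 hr0pos.le]
      exact_mod_cast this
    have hr40 : 40 ≤ r0 := by
      have : (40 : ℝ) ≤ r0 := by linarith
      exact_mod_cast this
    have hMξ : 4 ≤ (MT t : ℝ) * Real.sqrt (xiT (t + 1) / 2) := by
      have h1 : (MT t : ℝ) = 2 ^ (eM t + 3) := by simp [MT]
      have h2 : xiT (t + 1) = ((1 / 2) ^ (eM t)) ^ 2 := by
        unfold xiT
        rw [eX_eq, pow_add, sq]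
      have h3 : (1 / 2) ^ (eM t) * (1 / 2) ≤ Real.sqrt (xiT (t + 1) / 2) := by
        apply Real.le_sqrt_of_sq_le
        rw [h2, mul_pow]
        have : (0 : ℝ) ≤ ((1 / 2) ^ (eM t)) ^ 2 := by positivity
        linarith
      calc (4 : ℝ) = 2 ^ (eM t + 3) * ((1 / 2) ^ (eM t) * (1 / 2)) := by
            rw [pow_add, one_div, inv_pow]
            field_simp
            norm_num
        _ ≤ _ := by rw [h1]; gcongr
    have hlc := log_card hn hB
    have h4 : Real.log (8 * n * (YY n (sT n t) (MT t)).card) ≤ q / 10000 := by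
      rw [hqr]
      refine hlc.trans (le_of_eq ?_)
      ring
    have hpi := piT_pos t
    have ha : 500 * (500 * ((t : ℝ) + 1)) ≤ r0 * lamT t / (2000 * piT t * n) := by
      rw [le_div_iff₀ (by positivity)]
      unfold lamT
      have h1 : (n : ℝ) = ρ * 2 ^ t := by rw [hρ]; field_simp
      rw [h1]
      have h2 : (0 : ℝ) ≤ 2000000 * piT t * 2 ^ t * (500 * (t + 1)) := by positivity
      calc 500 * (500 * ((t : ℝ) + 1)) * (2000 * piT t * (ρ * 2 ^ t)) =
          (ρ / 2) * (2000000 * piT t * 2 ^ t * (500 * (t + 1))) := by ring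
        _ ≤ _ := by gcongr
    have h5 : ((q : ℝ) + 1) / 25 + Real.log (8 * n * (YY n (sT n t) (MT t)).card) <
        sT n t * (r0 * lamT t / (2000 * piT t * n)) := by
      have h1 : (sT n t : ℝ) * (500 * (500 * ((t : ℝ) + 1))) ≤
          sT n t * (r0 * lamT t / (2000 * piT t * n)) := by gcongr
      refine lt_of_lt_of_le ?_ h1
      rw [hqr]
      have h2 : (0 : ℝ) ≤ t := by positivity
      have h3 : (500 : ℝ) ≤ sT n t * (500 * (t + 1)) := by nlinarith only [hs1', h2]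
      linarith
    have h6 : 8 * sT n t ≤ 3 * r0 := by
      have h1 := @sT_le n t
      have h2 : (8 : ℝ) * sT n t ≤ 3 * r0 := by
        have h3 : (n : ℝ) / 2 ^ (eS t) ≤ n / 2 ^ (t + 5) := by
          gcongr
          · norm_num
          · exact eS_ge t
        have h4 : (n : ℝ) / 2 ^ (t + 5) = ρ / 32 := by
          rw [hρ, pow_add]
          field_simp
          norm_num
        linarith
      exact_mod_cast h2
    have h7a : Real.log (8 * (n : ℝ) ^ 2) ≤ xiT (t + 1) * q / 1280 := by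
      have hB' : (2 : ℝ) ^ (eX (t + 1)) * Real.log (8 * (n : ℝ) ^ 2) ≤ sT n t := hB
      have h1 : Real.log (8 * (n : ℝ) ^ 2) ≤ xiT (t + 1) * sT n t := by
        have h2 : xiT (t + 1) * (2 : ℝ) ^ (eX (t + 1)) = 1 := by
          unfold xiT
          rw [← mul_pow]
          norm_num
        calc Real.log (8 * (n : ℝ) ^ 2) = xiT (t + 1) * ((2 : ℝ) ^ (eX (t + 1)) *
              Real.log (8 * (n : ℝ) ^ 2)) := by rw [← mul_assoc, h2, one_mul]
          _ ≤ _ := by gcongr
      refine h1.trans ?_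
      rw [hqr]
      have h2 : (0 : ℝ) ≤ t := by positivity
      have h3 : (0 : ℝ) ≤ xiT (t + 1) * sT n t := by positivity
      linarith only [h3, mul_nonneg h3 h2]
    have h7b : Real.exp (-(r0 * lamT t / (2000 * piT t * n)) / 2) ≤ xiT (t + 1) / 1280 := by
      have h1 : Real.exp (-(r0 * lamT t / (2000 * piT t * n)) / 2) ≤
          Real.exp (-(500 * (500 * ((t : ℝ) + 1))) / 2) := by
        apply Real.exp_le_exp.mpr
        linarith
      refine h1.trans ?_
      have h2 : xiT (t + 1) / 1280 ≥ ((1 : ℝ) / 2) ^ (eX (t + 1) + eH t) := by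
        unfold xiT
        rw [pow_add, ge_iff_le, div_eq_mul_inv]
        have e2 : ((1 : ℝ) / 2) ^ (eH t) ≤ 1280⁻¹ := by
          calc ((1 : ℝ) / 2) ^ (eH t) ≤ (1 / 2) ^ 11 :=
                pow_le_pow_of_le_one (by norm_num) (by norm_num) (eH_ge t)
            _ ≤ 1280⁻¹ := by norm_num
        exact mul_le_mul_of_nonneg_left e2 (by positivity)
      refine le_trans ?_ h2
      have h3 : ((1 : ℝ) / 2) ^ (eX (t + 1) + eH t) = Real.exp (-(271 * (t + 1) * Real.log 2)) := by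
        rw [Real.exp_neg, one_div, inv_pow]
        congr 1
        have : (271 * ((t : ℝ) + 1) * Real.log 2) = Real.log ((2 : ℝ) ^ (eX (t + 1) + eH t)) := by
          rw [Real.log_pow, eHX_real]
        rw [this, Real.exp_log (by positivity)]
      rw [h3]
      apply Real.exp_le_exp.mpr
      have := log_two_lt
      have h5 : (0 : ℝ) ≤ t := by positivity
      nlinarith only [this, h5]
    have h7c : 3 ≤ r0 * lamT t / (2000 * piT t * n) := by
      refine le_trans ?_ ha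
      have h5 : (0 : ℝ) ≤ t := by positivity
      linarith only [h5]
    have hlam : 0 < lamT t := by unfold lamT; positivity
    have hlowR : ∀ z ∈ YY n (sT n t) (MT t), xiT (t + 1) * ‖iv z‖ ^ 2 ≤ pn R0 (iv z) := by
      intro z hz
      refine le_trans ?_ (hlo z hz)
      have h1 : xiT (t + 1) ≤ xiT t * Real.exp (-(324 * L.length / ρ)) := by
        have h2 : xiT (t + 1) = xiT t * (1 / 2) ^ eC := by
          unfold xiT
          rw [← pow_add, eX_succ]
        rw [h2]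
        have h3 := xiT_pos t
        have h4 := xi_step
        have h5 : Real.exp (-(1782 / 10)) ≤ Real.exp (-(324 * L.length / ρ)) := by
          apply Real.exp_le_exp.mpr
          have : 324 * (L.length : ℝ) / ρ ≤ 1782 / 10 := by
            rw [div_le_iff₀ hρ0]
            linarith
          linarith
        have h6 : (1 / 2) ^ eC ≤ Real.exp (-(324 * L.length / ρ)) := le_trans h4 h5
        gcongr
      gcongr
    have hupR : ∀ z ∈ YY n (sT n t) (MT t), pn R0 (iv z) ≤ piT t * ‖iv z‖ ^ 2 := by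
      intro z hz
      refine (hhi z hz).trans ?_
      have h1 : Real.exp (-(L.length / (10 * ρ))) ≤ 1 := by
        rw [Real.exp_le_one_iff]
        have : 0 ≤ (L.length : ℝ) / (10 * ρ) := by positivity
        linarith
      have h2 : piT t * Real.exp (-(L.length / (10 * ρ))) ≤ piT t * 1 := by gcongr
      have h3 : 0 ≤ ‖iv z‖ ^ 2 := by positivity
      linarith only [mul_le_mul_of_nonneg_right h2 h3]
    have hXX' : ∀ e, (reW XS L e).A * pn R0 (reW XS L e).x ≤ 3 * r0 / 4000 := by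
      intro e
      have h1 := pn_mono (RL_le Rs L) (XS e).x
      have h2 := hXA e
      have h3 := hXX e
      calc (XS e).A * pn R0 (XS e).x ≤ (XS e).A * pn Rs (XS e).x := by gcongr
        _ ≤ 3 * ρ / 8000 := h3
        _ ≤ 3 * r0 / 4000 := by linarith
    have hX5' : TX (reW XS L) [] ≤ 5 := by
      rw [TX_reW]
      simp only [List.nil_append]
      refine hTX.trans (le_trans ?_ hX5)
      have : (L.length : ℝ) ≤ rs := by linarith
      gcongr
    obtain ⟨L1, hlen1, hCh1, hfl1, hTX1, hcap1⟩ := batch (reW XS L) R0 r0 (sT n t) (MT t) q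
      (xiT (t + 1)) (piT t) (lamT t) hn hr0 hs1 hM1 hx0 hx1 hpi hlam hlowR hupR
      (fun e => mul_nonneg (hXW e) (prod_fX_nonneg _ (hXB e) _)) hXB hXA hXX' hX5' hq4 hr40 hMξ h4 h5
      h6 h8 h7a h7b h7c
    have hfinN := finrank_RL hCh1
    rw [← RL_append, hlen1] at hfinN
    have hCh2 : Ch Rs (L1 ++ L) := (Ch_append Rs L1 L).mpr ⟨hCh, hCh1⟩
    have hq1' : (1 : ℝ) ≤ q := by exact_mod_cast hq1
    have hq0 : (0 : ℝ) ≤ q := by linarith
    have hr0ρ : (r0 : ℝ) ≤ ρ := by linarith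
    refine ⟨L1 ++ L, ⟨hCh2, ?_, ?_, ?_, ?_, ?_⟩, by omega⟩
    · intro v hv
      rcases List.mem_append.mp hv with h | h
      · exact hfl1 v h
      · exact hfl v h
    · rw [TX_reW, TX_reW] at hTX1
      simp only [List.nil_append] at hTX1
      rw [List.length_append, hlen1]
      have h1 : 3 / (n : ℝ) ≤ 3 * q / n := by gcongr; linarith
      have h2 : 3 * ((q + L.length : ℕ) : ℝ) / n = 3 * q / n + 3 * L.length / n := by
        push_cast
        ring
      rw [h2]
      linarith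
    · have h1 : ((Module.finrank ℝ (RL Rs (L1 ++ L)) : ℝ)) + q = r0 := by exact_mod_cast hfinN
      have h2 : (q : ℝ) ≤ ρ / 20 := by
        linarith only [hqs, hr0ρ, hq0, hρ0, mul_le_mul_of_nonneg_right hx1 hr0pos.le]
      linarith
    · intro z hz
      have h1 := (hcap1 z hz).2
      have h2 := hlo z hz
      rw [RL_append, pn_RL hCh1]
      have h3 : Real.exp (-(324 * q / ρ)) ≤ 1 - 81 * q / r0 := by
        have h4 : 81 * (q : ℝ) / r0 ≤ 1 / 2 := by linarith
        have h5 := exp_two_le (x := 81 * (q : ℝ) / r0) (by positivity) h4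
        refine le_trans ?_ h5
        apply Real.exp_le_exp.mpr
        have h6 : 2 * (81 * (q : ℝ) / r0) ≤ 324 * q / ρ := by
          rw [← mul_div_assoc, div_le_div_iff₀ hr0pos hρ0]
          linarith only [mul_le_mul_of_nonneg_left hbig.le hq0]
        linarith
      rw [List.length_append, hlen1]
      have h4 : xiT t * Real.exp (-(324 * ((q + L.length : ℕ) : ℝ) / ρ)) * ‖iv z‖ ^ 2 =
          Real.exp (-(324 * q / ρ)) * (xiT t * Real.exp (-(324 * L.length / ρ)) * ‖iv z‖ ^ 2) := by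
        have : Real.exp (-(324 * ((q + L.length : ℕ) : ℝ) / ρ)) =
          Real.exp (-(324 * q / ρ)) * Real.exp (-(324 * L.length / ρ)) := by
          rw [← Real.exp_add]
          congr 1
          push_cast
          ring
        rw [this]
        ring
      rw [h4]
      have h5 : 0 ≤ pn R0 (iv z) := pn_nonneg _ _
      calc Real.exp (-(324 * q / ρ)) * (xiT t * Real.exp (-(324 * L.length / ρ)) * ‖iv z‖ ^ 2) ≤
          Real.exp (-(324 * q / ρ)) * pn R0 (iv z) := by gcongr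
        _ ≤ (1 - 81 * q / r0) * pn R0 (iv z) := by gcongr
        _ ≤ pn R0 (iv z) - cap (iv z) L1 := by linarith
    · intro z hz
      have h1 := (hcap1 z hz).1
      have h2 := hhi z hz
      rw [RL_append, pn_RL hCh1]
      have h3 : 1 - (q : ℝ) / (10 * r0) ≤ Real.exp (-(q / (10 * ρ))) := by
        have h4 : -((q : ℝ) / (10 * ρ)) + 1 ≤ Real.exp (-(q / (10 * ρ))) := Real.add_one_le_exp _
        have h5 : (q : ℝ) / (10 * ρ) ≤ q / (10 * r0) := by gcongr
        linarith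
      rw [List.length_append, hlen1]
      have h4 : piT t * Real.exp (-(((q + L.length : ℕ) : ℝ) / (10 * ρ))) * ‖iv z‖ ^ 2 =
          Real.exp (-(q / (10 * ρ))) * (piT t * Real.exp (-(L.length / (10 * ρ))) * ‖iv z‖ ^ 2) := by
        have : Real.exp (-(((q + L.length : ℕ) : ℝ) / (10 * ρ))) =
          Real.exp (-(q / (10 * ρ))) * Real.exp (-(L.length / (10 * ρ))) := by
          rw [← Real.exp_add]
          congr 1
          push_cast
          ring
        rw [this]
        ring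
      rw [h4]
      have h5 : 0 ≤ pn R0 (iv z) := pn_nonneg _ _
      calc pn R0 (iv z) - cap (iv z) L1 ≤ (1 - (q : ℝ) / (10 * r0)) * pn R0 (iv z) := by linarith
        _ ≤ Real.exp (-(q / (10 * ρ))) * pn R0 (iv z) := by gcongr
        _ ≤ _ := by gcongr
  -- iterate
  have hiter : ∀ m : ℕ, ∀ L, P L → Module.finrank ℝ (RL Rs L) = m →
      ∃ L', P L' ∧ (Module.finrank ℝ (RL Rs L') : ℝ) ≤ ρ / 2 := by
    intro m
    induction m using Nat.strong_induction_on with
    | _ m ih =>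
      intro L hL hm
      by_cases hbig : ρ / 2 < Module.finrank ℝ (RL Rs L)
      · obtain ⟨L', hL', hlt⟩ := hstep L hL hbig
        exact ih _ (hm ▸ hlt) L' hL' rfl
      · push Not at hbig
        exact ⟨L, hL, hbig⟩
  obtain ⟨L, hL, hsmall⟩ := hiter _ [] hP0 rfl
  obtain ⟨hCh, hfl, hTX, hbig, hlo, hhi⟩ := hL
  have hfin : Module.finrank ℝ (RL Rs L) + L.length = rs := finrank_RL hCh
  have hfin' : (Module.finrank ℝ (RL Rs L) : ℝ) + L.length = rs := by exact_mod_cast hfin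
  refine ⟨L, hCh, hfl, hTX, hsmall, hbig, ?_, ?_⟩
  · intro z hz
    refine le_trans ?_ (hlo z hz)
    have h1 : xiT (t + 1) ≤ xiT t * Real.exp (-(324 * L.length / ρ)) := by
      have h2 : xiT (t + 1) = xiT t * (1 / 2) ^ eC := by
        unfold xiT
        rw [← pow_add, eX_succ]
      rw [h2]
      have h3 := xiT_pos t
      have h4 := xi_step
      have h5 : Real.exp (-(1782 / 10)) ≤ Real.exp (-(324 * L.length / ρ)) := by
        apply Real.exp_le_exp.mpr
        have : 324 * (L.length : ℝ) / ρ ≤ 1782 / 10 := by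
          rw [div_le_iff₀ hρ0]
          linarith
        linarith
      have h6 : (1 / 2) ^ eC ≤ Real.exp (-(324 * L.length / ρ)) := le_trans h4 h5
      gcongr
    gcongr
  · intro z hz
    refine (hhi z hz).trans ?_
    have h1 : piT t * Real.exp (-(L.length / (10 * ρ))) ≤ piT (t + 1) := by
      unfold piT
      rw [← Real.exp_add]
      apply Real.exp_le_exp.mpr
      have : (1 : ℝ) / 25 ≤ L.length / (10 * ρ) := by
        rw [div_le_div_iff₀ (by norm_num) (by positivity)]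
        linarith
      push_cast
      linarith
    gcongr

end Run7.h589
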