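import Pool.Agent.Run7.h589.Net

open Finset

namespace Run7.h589

structure XItem (n : ℕ) where
  W : ℝ
  A : ℝ
  B : ℝ
  x : E n

noncomputable def fX {n : ℕ} (e : XItem n) (v : E n) : ℝ :=
  (1 + e.B * Real.exp (e.A * (inner ℝ e.x v) ^ 2 - 1 / 25)) / (1 + e.B)

noncomputable def RL {n : ℕ} (R0 : Submodule ℝ (E n)) : List (E n) → Submodule ℝ (E n)
  | [] => R0
  | v :: L => Rm (RL R0 L) v

def Ch {n : ℕ} (R0 : Submodule ℝ (E n)) : List (E n) → Prop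
  | [] => True
  | v :: L => Ch R0 L ∧ v ∈ RL R0 L ∧ ‖v‖ = 1

noncomputable def cap {n : ℕ} (y : E n) (L : List (E n)) : ℝ :=
  (L.map (fun v => (inner ℝ y v) ^ 2)).sum

noncomputable def cnt {n : ℕ} (κ : ℝ) (j : Fin n) (L : List (E n)) : ℝ :=
  (L.map (fun v => if |v j| = κ then (1 : ℝ) else 0)).sum

theorem cap_nonneg {n : ℕ} (y : E n) (L : List (E n)) : 0 ≤ cap y L := by
  unfold cap
  apply List.sum_nonneg
  intro x hx
  simp only [List.mem_map] at hx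
  obtain ⟨v, _, rfl⟩ := hx
  positivity

theorem cnt_nonneg {n : ℕ} (κ : ℝ) (j : Fin n) (L : List (E n)) : 0 ≤ cnt κ j L := by
  unfold cnt
  apply List.sum_nonneg
  intro x hx
  simp only [List.mem_map] at hx
  obtain ⟨v, _, rfl⟩ := hx
  split_ifs <;> norm_num

theorem cap_cons {n : ℕ} (y v : E n) (L : List (E n)) :
    cap y (v :: L) = (inner ℝ y v) ^ 2 + cap y L := by
  simp [cap]

theorem cnt_cons {n : ℕ} (κ : ℝ) (j : Fin n) (v : E n) (L : List (E n)) :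
    cnt κ j (v :: L) = (if |v j| = κ then (1 : ℝ) else 0) + cnt κ j L := by
  simp [cnt]

theorem finrank_RL {n : ℕ} {R0 : Submodule ℝ (E n)} {L : List (E n)} (h : Ch R0 L) :
    Module.finrank ℝ (RL R0 L) + L.length = Module.finrank ℝ R0 := by
  induction L with
  | nil => rfl
  | cons v L ih =>
    have h1 := ih h.1
    have h2 : Module.finrank ℝ (RL R0 (v :: L)) + 1 = Module.finrank ℝ (RL R0 L) :=
      finrank_Rm (RL R0 L) v h.2.1 h.2.2
    rw [List.length_cons]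
    omega

theorem pn_RL {n : ℕ} {R0 : Submodule ℝ (E n)} {L : List (E n)} (h : Ch R0 L) (y : E n) :
    pn (RL R0 L) y = pn R0 y - cap y L := by
  induction L with
  | nil => simp [RL, cap]
  | cons v L ih =>
    have h1 := ih h.1
    have h2 := pn_Rm (RL R0 L) v h.2.1 h.2.2 y
    simp only [RL, cap_cons]
    rw [h2, h1]
    ring

theorem RL_le {n : ℕ} (R0 : Submodule ℝ (E n)) (L : List (E n)) : RL R0 L ≤ R0 := by
  induction L with
  | nil => simp [RL]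
  | cons v L ih => exact le_trans (Rm_le _ _) ih

noncomputable def Az {n : ℕ} (R0 : Submodule ℝ (E n)) (r0 : ℕ) (y : E n) : ℝ :=
  r0 / (2000 * pn R0 y)

noncomputable def TX {n : ℕ} {ιX : Type} [Fintype ιX] (XS : ιX → XItem n) (L : List (E n)) : ℝ :=
  ∑ e, (XS e).W * (L.map (fX (XS e))).prod

noncomputable def TU {n : ℕ} {ιY : Type} [Fintype ιY] (yv : ιY → E n)
    (R0 : Submodule ℝ (E n)) (r0 : ℕ) (w0 : ℝ) (L : List (E n)) : ℝ :=
  ∑ y, w0 * Real.exp (Az R0 r0 (yv y) * cap (yv y) L - L.length / 25)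

noncomputable def TL {n : ℕ} {ιY : Type} [Fintype ιY] (yv : ιY → E n)
    (R0 : Submodule ℝ (E n)) (r0 : ℕ) (w0 : ℝ) (L : List (E n)) (bs : ιY → ℝ) : ℝ :=
  ∑ y, w0 * Real.exp (-(5 / 4) * Az R0 r0 (yv y) * cap (yv y) L + bs y)

noncomputable def bsLow {n : ℕ} (R0 : Submodule ℝ (E n)) (r0 : ℕ) (ξ κ : ℝ) (L : List (E n))
    (y : E n) : ℝ :=
  Az R0 r0 y / (2 * r0) * (L.length * (pn R0 y - cap y L) -
    (16 / ξ) * (∑ j, cnt κ j L * (R0.starProjection y j) ^ 2 + L.length * cap y L))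

theorem fX_pos {n : ℕ} (e : XItem n) (hB : 0 ≤ e.B) (v : E n) : 0 < fX e v := by
  unfold fX
  have := Real.exp_pos (e.A * (inner ℝ e.x v) ^ 2 - 1 / 25)
  positivity

theorem prod_fX_nonneg {n : ℕ} (e : XItem n) (hB : 0 ≤ e.B) (L : List (E n)) :
    0 ≤ (L.map (fX e)).prod := by
  apply List.prod_nonneg
  intro x hx
  simp only [List.mem_map] at hx
  obtain ⟨v, _, rfl⟩ := hx
  exact (fX_pos e hB v).le

theorem TX_nonneg {n : ℕ} {ιX : Type} [Fintype ιX] (XS : ιX → XItem n) (L : List (E n))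
    (hXW : ∀ e, 0 ≤ (XS e).W) (hXB : ∀ e, 0 ≤ (XS e).B) : 0 ≤ TX XS L :=
  Finset.sum_nonneg fun e _ => mul_nonneg (hXW e) (prod_fX_nonneg _ (hXB e) _)

theorem TU_nonneg {n : ℕ} {ιY : Type} [Fintype ιY] (yv : ιY → E n)
    (R0 : Submodule ℝ (E n)) (r0 : ℕ) (w0 : ℝ) (hw0 : 0 ≤ w0) (L : List (E n)) :
    0 ≤ TU yv R0 r0 w0 L :=
  Finset.sum_nonneg fun _ _ => by positivity

theorem TL_nonneg {n : ℕ} {ιY : Type} [Fintype ιY] (yv : ιY → E n)
    (R0 : Submodule ℝ (E n)) (r0 : ℕ) (w0 : ℝ) (hw0 : 0 ≤ w0) (L : List (E n)) (bs : ιY → ℝ) :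
    0 ≤ TL yv R0 r0 w0 L bs :=
  Finset.sum_nonneg fun _ _ => by positivity

theorem TU_single {n : ℕ} {ιY : Type} [Fintype ιY] (yv : ιY → E n)
    (R0 : Submodule ℝ (E n)) (r0 : ℕ) (w0 : ℝ) (hw0 : 0 ≤ w0) (L : List (E n)) (y : ιY) :
    w0 * Real.exp (Az R0 r0 (yv y) * cap (yv y) L - L.length / 25) ≤ TU yv R0 r0 w0 L :=
  Finset.single_le_sum (f := fun y => w0 * Real.exp (Az R0 r0 (yv y) * cap (yv y) L - L.length / 25))
    (fun _ _ => by positivity) (Finset.mem_univ y)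

theorem TL_single {n : ℕ} {ιY : Type} [Fintype ιY] (yv : ιY → E n)
    (R0 : Submodule ℝ (E n)) (r0 : ℕ) (w0 : ℝ) (hw0 : 0 ≤ w0) (L : List (E n)) (bs : ιY → ℝ)
    (y : ιY) :
    w0 * Real.exp (-(5 / 4) * Az R0 r0 (yv y) * cap (yv y) L + bs y) ≤ TL yv R0 r0 w0 L bs :=
  Finset.single_le_sum (f := fun y => w0 *
    Real.exp (-(5 / 4) * Az R0 r0 (yv y) * cap (yv y) L + bs y))
    (fun _ _ => by positivity) (Finset.mem_univ y)

noncomputable def GI {n : ℕ} {ιX ιY : Type} (XS : ιX → XItem n) (yv : ιY → E n)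
    (R0 : Submodule ℝ (E n)) (r0 : ℕ) (w0 : ℝ) (L : List (E n)) : ιX ⊕ ιY → GItem n :=
  Sum.elim
    (fun e => ⟨(XS e).W * (L.map (fX (XS e))).prod / (1 + (XS e).B), 1, (XS e).B, (XS e).A, (XS e).x⟩)
    (fun y => ⟨w0 * Real.exp (Az R0 r0 (yv y) * cap (yv y) L - L.length / 25), 0, 1,
      Az R0 r0 (yv y), yv y⟩)

noncomputable def LI {n : ℕ} {ιY : Type} (yv : ιY → E n)
    (R0 : Submodule ℝ (E n)) (r0 : ℕ) (w0 : ℝ) (L : List (E n)) (bs : ιY → ℝ) : ιY → LItem n :=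
  fun y => ⟨w0 * Real.exp (-(5 / 4) * Az R0 r0 (yv y) * cap (yv y) L + bs y), Az R0 r0 (yv y), yv y⟩

theorem Psi_zero {n : ℕ} {ιX ιY : Type} [Fintype ιX] [Fintype ιY] (XS : ιX → XItem n)
    (yv : ιY → E n) (R0 R : Submodule ℝ (E n)) (r0 : ℕ) (w0 : ℝ) (L : List (E n)) (bs : ιY → ℝ)
    (hXB : ∀ e, 0 ≤ (XS e).B) :
    Psi (GI XS yv R0 r0 w0 L) (LI yv R0 r0 w0 L bs) R ∅ 0 =
      TX XS L + TU yv R0 r0 w0 L + TL yv R0 r0 w0 L bs := by
  unfold Psi TX TU TL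
  rw [Fintype.sum_sum_type]
  congr 1
  · congr 1
    · apply Finset.sum_congr rfl
      intro e _
      have h1 : 0 < 1 + (XS e).B := by linarith [hXB e]
      simp only [GI, Sum.elim_inl, gq, inner_zero_right, norm_zero]
      norm_num
      field_simp
    · apply Finset.sum_congr rfl
      intro y _
      simp only [GI, Sum.elim_inr, gq, inner_zero_right, norm_zero]
      norm_num
  · apply Finset.sum_congr rfl
    intro y _
    simp only [LI, lq, inner_zero_right, norm_zero]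
    norm_num

theorem Psi_unit {n : ℕ} {ιX ιY : Type} [Fintype ιX] [Fintype ιY] (XS : ιX → XItem n)
    (yv : ιY → E n) (R0 R : Submodule ℝ (E n)) (r0 : ℕ) (w0 : ℝ) (L : List (E n)) (bs : ιY → ℝ)
    (hXB : ∀ e, 0 ≤ (XS e).B) (J : Finset (Fin n)) (v : E n) (hv1 : ‖v‖ = 1) :
    Psi (GI XS yv R0 r0 w0 L) (LI yv R0 r0 w0 L bs) R J v =
      TX XS (v :: L) + TU yv R0 r0 w0 (v :: L) +
        TL yv R0 r0 w0 (v :: L) (fun y => bs y + bJ R J (Az R0 r0 (yv y)) (yv y)) := by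
  unfold Psi TX TU TL
  rw [Fintype.sum_sum_type]
  congr 1
  · congr 1
    · apply Finset.sum_congr rfl
      intro e _
      have h1 : 0 < 1 + (XS e).B := by linarith [hXB e]
      simp only [GI, Sum.elim_inl, gq, hv1, List.map_cons, List.prod_cons]
      have h2 : fX (XS e) v = (1 + (XS e).B * Real.exp ((XS e).A * (inner ℝ (XS e).x v) ^ 2 *
        (2 - 1 ^ 2) - 1 / 25 * 1 ^ 2)) / (1 + (XS e).B) := by
        unfold fX
        norm_num
      rw [h2]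
      field_simp
    · apply Finset.sum_congr rfl
      intro y _
      simp only [GI, Sum.elim_inr, gq, hv1, cap_cons, List.length_cons, zero_add, one_mul]
      rw [mul_assoc, ← Real.exp_add]
      congr 2
      push_cast
      ring
  · apply Finset.sum_congr rfl
    intro y _
    simp only [LI, lq, hv1, cap_cons]
    rw [mul_assoc, ← Real.exp_add]
    congr 2
    ring

theorem GI_w {n : ℕ} {ιX ιY : Type} (XS : ιX → XItem n) (yv : ιY → E n)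
    (R0 : Submodule ℝ (E n)) (r0 : ℕ) (w0 : ℝ) (hw0 : 0 ≤ w0) (L : List (E n))
    (hXW : ∀ e, 0 ≤ (XS e).W) (hXB : ∀ e, 0 ≤ (XS e).B) (i : ιX ⊕ ιY) :
    0 ≤ (GI XS yv R0 r0 w0 L i).w := by
  rcases i with e | y
  · have h1 := prod_fX_nonneg (XS e) (hXB e) L
    have h2 := hXW e
    have h3 := hXB e
    simp only [GI, Sum.elim_inl]
    positivity
  · simp only [GI, Sum.elim_inr]
    positivity

/-- the number of active coordinates is small -/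
theorem act_small {n : ℕ} {ιX ιY : Type} [Fintype ιX] [Fintype ιY] (XS : ιX → XItem n)
    (yv : ιY → E n) (R0 R : Submodule ℝ (E n)) (r0 s q : ℕ) (ϖ lam κ ℓ w0 : ℝ)
    (hn' : (0 : ℝ) < n) (hs' : (0 : ℝ) < s) (hr0' : (0 : ℝ) < r0) (hϖ0 : 0 < ϖ) (hlam : 0 < lam)
    (hκ2 : κ ^ 2 = lam / n) (hw0 : 0 < w0) (hℓ : 8 / w0 ≤ Real.exp ℓ)
    (hsign : ∀ v : E n, s ≤ (act κ v).card → ∃ y, inner ℝ (yv y) v = s * κ ∧ ‖yv y‖ ^ 2 = s)
    (hX0 : ∀ y, 0 < pn R0 (yv y)) (hup : ∀ y, pn R0 (yv y) ≤ ϖ * ‖yv y‖ ^ 2)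
    (hXW : ∀ e, 0 ≤ (XS e).W) (hXB : ∀ e, 0 ≤ (XS e).B)
    (h5 : ((q : ℝ) + 1) / 25 + ℓ < s * (r0 * lam / (2000 * ϖ * n)))
    (L : List (E n)) (bs : ιY → ℝ) (hlen : (L.length : ℝ) ≤ q)
    (J : Finset (Fin n)) (v : E n) (hv1 : ‖v‖ ≤ 1)
    (hP : Psi (GI XS yv R0 r0 w0 L) (LI yv R0 r0 w0 L bs) R J v ≤ 8) :
    (act κ v).card < s := by
  by_contra hc
  push Not at hc
  obtain ⟨y, hzv, hzn⟩ := hsign v hc
  have hA0 : 0 < Az R0 r0 (yv y) := by
    have := hX0 y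
    unfold Az
    positivity
  have h1 : w0 * Real.exp (Az R0 r0 (yv y) * cap (yv y) L - L.length / 25) *
      Real.exp (gq (Az R0 r0 (yv y)) (yv y) v) ≤ 8 := by
    refine le_trans ?_ hP
    unfold Psi
    have h2 : (GI XS yv R0 r0 w0 L (Sum.inr y)).w * ((GI XS yv R0 r0 w0 L (Sum.inr y)).α +
        (GI XS yv R0 r0 w0 L (Sum.inr y)).B *
        Real.exp (gq (GI XS yv R0 r0 w0 L (Sum.inr y)).A (GI XS yv R0 r0 w0 L (Sum.inr y)).x v)) ≤
        ∑ i, (GI XS yv R0 r0 w0 L i).w * ((GI XS yv R0 r0 w0 L i).α +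
        (GI XS yv R0 r0 w0 L i).B *
        Real.exp (gq (GI XS yv R0 r0 w0 L i).A (GI XS yv R0 r0 w0 L i).x v)) := by
      apply Finset.single_le_sum (f := fun i => (GI XS yv R0 r0 w0 L i).w *
        ((GI XS yv R0 r0 w0 L i).α + (GI XS yv R0 r0 w0 L i).B *
        Real.exp (gq (GI XS yv R0 r0 w0 L i).A (GI XS yv R0 r0 w0 L i).x v))) _ (Finset.mem_univ _)
      intro i _
      apply mul_nonneg (GI_w XS yv R0 r0 w0 hw0.le L hXW hXB i)
      rcases i with e | y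
      · have := hXB e
        simp only [GI, Sum.elim_inl]
        positivity
      · simp only [GI, Sum.elim_inr]
        positivity
    have h3 : 0 ≤ ∑ l, (LI yv R0 r0 w0 L bs l).w * Real.exp (lq (LI yv R0 r0 w0 L bs l).A
        (bJ R J (LI yv R0 r0 w0 L bs l).A (LI yv R0 r0 w0 L bs l).y) (LI yv R0 r0 w0 L bs l).y v) := by
      apply Finset.sum_nonneg
      intro l _
      simp only [LI]
      positivity
    have h4 : w0 * Real.exp (Az R0 r0 (yv y) * cap (yv y) L - L.length / 25) *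
      Real.exp (gq (Az R0 r0 (yv y)) (yv y) v) = (GI XS yv R0 r0 w0 L (Sum.inr y)).w *
        ((GI XS yv R0 r0 w0 L (Sum.inr y)).α +
        (GI XS yv R0 r0 w0 L (Sum.inr y)).B *
        Real.exp (gq (GI XS yv R0 r0 w0 L (Sum.inr y)).A (GI XS yv R0 r0 w0 L (Sum.inr y)).x v)) := by
      simp only [GI, Sum.elim_inr]
      ring
    rw [h4]
    linarith
  have h2 : s * (r0 * lam / (2000 * ϖ * n)) - 1 / 25 ≤ gq (Az R0 r0 (yv y)) (yv y) v := by
    unfold gq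
    rw [hzv]
    have h3 : s * (r0 * lam / (2000 * ϖ * n)) ≤ Az R0 r0 (yv y) * (s * κ) ^ 2 := by
      have h5 := hup y
      rw [hzn] at h5
      have h6' := hX0 y
      have h7 : (r0 : ℝ) / (2000 * (ϖ * s)) ≤ Az R0 r0 (yv y) := by
        unfold Az
        gcongr
      calc s * (r0 * lam / (2000 * ϖ * n)) = r0 / (2000 * (ϖ * s)) * (s * κ) ^ 2 := by
            rw [mul_pow, hκ2]
            field_simp
        _ ≤ _ := by gcongr
    have h4 : 0 ≤ Az R0 r0 (yv y) * (s * κ) ^ 2 := by positivity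
    have h5 : ‖v‖ ^ 2 ≤ 1 := by
      have := norm_nonneg v
      nlinarith
    nlinarith
  have h3 : -(L.length / 25 : ℝ) ≤ Az R0 r0 (yv y) * cap (yv y) L - L.length / 25 := by
    have := mul_nonneg hA0.le (cap_nonneg (yv y) L)
    linarith
  have h4 : Real.exp (-(L.length / 25 : ℝ) + (s * (r0 * lam / (2000 * ϖ * n)) - 1 / 25)) ≤
      Real.exp ℓ := by
    refine le_trans ?_ hℓ
    rw [le_div_iff₀ hw0]
    refine le_trans ?_ h1
    have : Real.exp (-(L.length / 25 : ℝ) + (s * (r0 * lam / (2000 * ϖ * n)) - 1 / 25)) ≤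
      Real.exp (Az R0 r0 (yv y) * cap (yv y) L - L.length / 25 + gq (Az R0 r0 (yv y)) (yv y) v) := by
      apply Real.exp_le_exp.mpr
      linarith
    rw [Real.exp_add (Az R0 r0 (yv y) * cap (yv y) L - L.length / 25)] at this
    calc Real.exp (-(L.length / 25 : ℝ) + (s * (r0 * lam / (2000 * ϖ * n)) - 1 / 25)) * w0 ≤
        (Real.exp (Az R0 r0 (yv y) * cap (yv y) L - L.length / 25) *
          Real.exp (gq (Az R0 r0 (yv y)) (yv y) v)) * w0 := by gcongr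
      _ = _ := by ring
  rw [Real.exp_le_exp] at h4
  have h7 : (L.length : ℝ) / 25 + 1 / 25 ≤ ((q : ℝ) + 1) / 25 := by linarith
  linarith

/-- upper bound for the captured part -/
theorem cap_upper {n : ℕ} {ιY : Type} [Fintype ιY]
    (yv : ιY → E n) (R0 : Submodule ℝ (E n)) (r0 : ℕ) (ℓ w0 : ℝ)
    (hw0 : 0 < w0) (hℓ : 8 / w0 ≤ Real.exp ℓ)
    (L : List (E n)) (hT : TU yv R0 r0 w0 L ≤ 8) (y : ιY) :
    Az R0 r0 (yv y) * cap (yv y) L ≤ L.length / 25 + ℓ := by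
  have h1 := (TU_single yv R0 r0 w0 hw0.le L y).trans hT
  have h2 : Real.exp (Az R0 r0 (yv y) * cap (yv y) L - L.length / 25) ≤ Real.exp ℓ := by
    refine le_trans ?_ hℓ
    rw [le_div_iff₀ hw0]
    linarith
  rw [Real.exp_le_exp] at h2
  linarith

theorem cap_upper2 {n : ℕ} {ιY : Type} [Fintype ιY]
    (yv : ιY → E n) (R0 : Submodule ℝ (E n)) (r0 q : ℕ) (ℓ w0 : ℝ) (hr0' : (0 : ℝ) < r0)
    (hw0 : 0 < w0) (hℓ : 8 / w0 ≤ Real.exp ℓ) (h4 : ℓ ≤ q / 10000)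
    (L : List (E n)) (hlen : (L.length : ℝ) ≤ q) (hT : TU yv R0 r0 w0 L ≤ 8) (y : ιY)
    (hX0 : 0 < pn R0 (yv y)) :
    cap (yv y) L ≤ 81 * (q : ℝ) / r0 * pn R0 (yv y) := by
  have h1 := cap_upper yv R0 r0 ℓ w0 hw0 hℓ L hT y
  have hA0 : 0 < Az R0 r0 (yv y) := by
    unfold Az
    positivity
  have h3 : cap (yv y) L ≤ (L.length / 25 + ℓ) / Az R0 r0 (yv y) := by
    rw [le_div_iff₀ hA0]
    linarith
  have h7 : (L.length / 25 + ℓ) / Az R0 r0 (yv y) =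
      (L.length / 25 + ℓ) * 2000 / r0 * pn R0 (yv y) := by
    unfold Az
    field_simp
  rw [h7] at h3
  have h9 : ((L.length : ℝ) / 25 + ℓ) * 2000 / r0 ≤ 81 * (q : ℝ) / r0 := by
    apply div_le_div_of_nonneg_right _ hr0'.le
    linarith
  calc cap (yv y) L ≤ _ := h3
    _ ≤ _ := by gcongr

/-- the step for the lower potentials -/
theorem bs_step {n : ℕ} (R0 : Submodule ℝ (E n)) (r0 s : ℕ) (ξ κ : ℝ) (hξ0 : 0 < ξ)
    (hr0' : (0 : ℝ) < r0) (L : List (E n)) (hCh : Ch R0 L) (v y : E n)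
    (hX0 : 0 < pn R0 y) (hr : (Module.finrank ℝ (RL R0 L) : ℝ) ≤ r0)
    (hr' : 0 < (Module.finrank ℝ (RL R0 L) : ℝ))
    (hcard : (act κ v).card ≤ s)
    (hsp : ∀ x : E n, ∀ T : Finset (Fin n), T.card ≤ s → (∀ j, j ∉ T → x j = 0) →
      ξ / 8 * ‖x‖ ^ 2 ≤ pn (RL R0 L) x) :
    bsLow R0 r0 ξ κ (v :: L) y ≤ bsLow R0 r0 ξ κ L y +
      bJ (RL R0 L) (act κ v) (Az R0 r0 y) y := by
  have hApos : 0 < Az R0 r0 y := by
    unfold Az
    positivity
  set R := RL R0 L with hR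
  have hRle : R ≤ R0 := RL_le R0 L
  set P : Fin n → ℝ := fun j => (R0.starProjection y j) ^ 2 with hP
  set X := pn R0 y with hX
  set c := cap y L with hc
  have hc0 : 0 ≤ c := cap_nonneg _ _
  have hpnR : pn R y = X - c := pn_RL hCh y
  have hloss : pn R y - pn (EJ R (act κ v)) y ≤ (16 / ξ) * (∑ j ∈ act κ v, P j + c) := by
    have h2 := loss R (act κ v) (ξ / 8) (by positivity)
      (fun z hz => hsp z (act κ v) hcard hz) y
    have h3 := coord_sum_le hRle y (act κ v)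
    have h4 : (1 / (ξ / 8)) * ∑ j ∈ act κ v, (R.starProjection y j) ^ 2 ≤
        (1 / (ξ / 8)) * (2 * ∑ j ∈ act κ v, (R0.starProjection y j) ^ 2 +
          2 * (pn R0 y - pn R y)) := by gcongr
    refine le_trans h2 (le_trans h4 (le_of_eq ?_))
    rw [hpnR, ← hX]
    simp only [hP]
    field_simp
    ring
  have hcntsum : ∑ j, cnt κ j (v :: L) * P j = ∑ j, cnt κ j L * P j + ∑ j ∈ act κ v, P j := by
    simp_rw [cnt_cons, add_mul]
    rw [Finset.sum_add_distrib, add_comm]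
    congr 1
    unfold act
    rw [Finset.sum_filter]
    apply Finset.sum_congr rfl
    intro j _
    split_ifs <;> simp
  have hbJ : Az R0 r0 y / (2 * r0) * ((X - c) - (16 / ξ) * (∑ j ∈ act κ v, P j + c)) ≤
      bJ R (act κ v) (Az R0 r0 y) y := by
    unfold bJ
    have h2 : (X - c) - (16 / ξ) * (∑ j ∈ act κ v, P j + c) ≤ pn (EJ R (act κ v)) y := by
      linarith
    have h3 := pn_nonneg (EJ R (act κ v)) y
    calc Az R0 r0 y / (2 * r0) * ((X - c) - (16 / ξ) * (∑ j ∈ act κ v, P j + c)) ≤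
        Az R0 r0 y / (2 * r0) * pn (EJ R (act κ v)) y := by gcongr
      _ ≤ Az R0 r0 y / (2 * (Module.finrank ℝ R : ℝ)) * pn (EJ R (act κ v)) y := by gcongr
      _ = _ := by ring
  have hfin2 : bsLow R0 r0 ξ κ (v :: L) y ≤ bsLow R0 r0 ξ κ L y +
      Az R0 r0 y / (2 * r0) * ((X - c) - (16 / ξ) * (∑ j ∈ act κ v, P j + c)) := by
    unfold bsLow
    rw [← mul_add]
    apply mul_le_mul_of_nonneg_left _ (by positivity)
    rw [cap_cons, List.length_cons]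
    rw [← hX, ← hc]
    have hcs : ∑ j, cnt κ j (v :: L) * (R0.starProjection y j) ^ 2 =
      ∑ j, cnt κ j L * (R0.starProjection y j) ^ 2 + ∑ j ∈ act κ v, P j := hcntsum
    rw [hcs]
    set d := (inner ℝ y v) ^ 2 with hd
    set S1 := ∑ j, cnt κ j L * (R0.starProjection y j) ^ 2
    set S2 := ∑ j ∈ act κ v, P j
    set ll : ℝ := (L.length : ℝ) with hll
    have hd0 : 0 ≤ d := sq_nonneg _
    have hl0 : (0 : ℝ) ≤ ll := by positivity
    have hξi : 0 ≤ 16 / ξ := by positivity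
    set g := 16 / ξ
    push_cast
    have k1 : 0 ≤ (ll + 1) * d := by positivity
    have k2 : 0 ≤ g * ((ll + 1) * d) := by positivity
    nlinarith
  linarith

theorem batch_step {n : ℕ} {ιX ιY : Type} [Fintype ιX] [Fintype ιY] [Nonempty ιY]
    (XS : ιX → XItem n) (yv : ιY → E n)
    (R0 : Submodule ℝ (E n)) (r0 s q : ℕ) (ξ ϖ lam κ ℓ w0 : ℝ)
    (hn : 1 ≤ n) (hr0 : r0 = Module.finrank ℝ R0) (hs1 : 1 ≤ s)
    (hξ0 : 0 < ξ) (hξ1 : ξ ≤ 1) (hϖ0 : 0 < ϖ) (hlam : 0 < lam)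
    (hκ : κ = Real.sqrt (lam / n)) (hw0 : 0 < w0) (hℓ : 8 / w0 ≤ Real.exp ℓ)
    (hsign : ∀ v : E n, s ≤ (act κ v).card → ∃ y, inner ℝ (yv y) v = s * κ ∧ ‖yv y‖ ^ 2 = s)
    (hsp : ∀ R : Submodule ℝ (E n), (∀ y, ξ / 2 * ‖yv y‖ ^ 2 ≤ pn R (yv y)) →
      ∀ x : E n, ∀ T : Finset (Fin n), T.card ≤ s → (∀ j, j ∉ T → x j = 0) →
      ξ / 8 * ‖x‖ ^ 2 ≤ pn R x)
    (hyne : ∀ y, yv y ≠ 0)
    (hlow : ∀ y, ξ * ‖yv y‖ ^ 2 ≤ pn R0 (yv y))
    (hup : ∀ y, pn R0 (yv y) ≤ ϖ * ‖yv y‖ ^ 2)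
    (hXW : ∀ e, 0 ≤ (XS e).W) (hXB : ∀ e, 0 ≤ (XS e).B) (hXA : ∀ e, 0 ≤ (XS e).A)
    (hXX : ∀ e, (XS e).A * pn R0 (XS e).x ≤ 3 * r0 / 4000)
    (hq4 : 4 * q ≤ r0) (hr40 : 40 ≤ r0) (h4 : ℓ ≤ q / 10000)
    (h5 : ((q : ℝ) + 1) / 25 + ℓ < s * (r0 * lam / (2000 * ϖ * n)))
    (h6 : 8 * s ≤ 3 * r0) (h8 : 81 * (q : ℝ) / r0 ≤ ξ / 640)
    (L : List (E n)) (bs : ιY → ℝ) (hlen : L.length < q) (hCh : Ch R0 L)
    (hT : TX XS L + TU yv R0 r0 w0 L + TL yv R0 r0 w0 L bs ≤ 8)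
    (hbs : ∀ y, bsLow R0 r0 ξ κ L (yv y) ≤ bs y) :
    ∃ (v : E n) (bs' : ιY → ℝ), v ∈ RL R0 L ∧ ‖v‖ = 1 ∧ (∀ j, |v j| ≤ κ) ∧
      TX XS (v :: L) + TU yv R0 r0 w0 (v :: L) + TL yv R0 r0 w0 (v :: L) bs' ≤
        TX XS L + TU yv R0 r0 w0 L + TL yv R0 r0 w0 L bs ∧
      (∀ y, bsLow R0 r0 ξ κ (v :: L) (yv y) ≤ bs' y) := by
  have hn' : (0 : ℝ) < n := by exact_mod_cast hn
  have hs' : (0 : ℝ) < s := by exact_mod_cast hs1
  have hr0' : (0 : ℝ) < r0 := by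
    have : 0 < r0 := by omega
    exact_mod_cast this
  have hκ0 : 0 < κ := by
    rw [hκ]
    exact Real.sqrt_pos.mpr (by positivity)
  have hκ2 : κ ^ 2 = lam / n := by
    rw [hκ]
    exact Real.sq_sqrt (by positivity)
  have hX0 : ∀ y, 0 < pn R0 (yv y) := by
    intro y
    have h1 := hlow y
    have h2 : 0 < ‖yv y‖ := norm_pos_iff.mpr (hyne y)
    have h3 : 0 < ξ * ‖yv y‖ ^ 2 := by positivity
    linarith
  have hA0 : ∀ y, 0 < Az R0 r0 (yv y) := by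
    intro y
    have := hX0 y
    unfold Az
    positivity
  set R := RL R0 L with hR
  have hRle : R ≤ R0 := RL_le R0 L
  have hfin := finrank_RL hCh
  set r := Module.finrank ℝ R with hr
  have hrr0 : r + L.length = r0 := by rw [hr0]; exact hfin
  have hr34 : 3 * r0 ≤ 4 * r := by omega
  have hr34' : 3 * (r0 : ℝ) ≤ 4 * r := by exact_mod_cast hr34
  have hr20 : 20 ≤ r := by omega
  have hrle : r ≤ r0 := by omega
  have hrle' : (r : ℝ) ≤ r0 := by exact_mod_cast hrle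
  have hrpos : (0 : ℝ) < r := by
    have : 0 < r := by omega
    exact_mod_cast this
  have hlen' : (L.length : ℝ) ≤ q := by exact_mod_cast hlen.le
  have hTX0 := TX_nonneg XS L hXW hXB
  have hTU0 := TU_nonneg yv R0 r0 w0 hw0.le L
  have hTL0 := TL_nonneg yv R0 r0 w0 hw0.le L bs
  have hTU : TU yv R0 r0 w0 L ≤ 8 := by linarith
  have hcapX : ∀ y, cap (yv y) L ≤ pn R0 (yv y) / 2 := by
    intro y
    have h1 := cap_upper2 yv R0 r0 q ℓ w0 hr0' hw0 hℓ h4 L hlen' hTU y (hX0 y)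
    have h2 := hX0 y
    have h3 : 81 * (q : ℝ) / r0 ≤ 1 / 2 := by linarith
    nlinarith
  have hGw := GI_w XS yv R0 r0 w0 hw0.le L hXW hXB
  have hGB : ∀ i, 0 ≤ (GI XS yv R0 r0 w0 L i).B := by
    rintro (e | y)
    · exact hXB e
    · simp [GI]
  have hGA : ∀ i, 0 ≤ (GI XS yv R0 r0 w0 L i).A := by
    rintro (e | y)
    · exact hXA e
    · exact (hA0 y).le
  have hLw : ∀ i, 0 ≤ (LI yv R0 r0 w0 L bs i).w := by
    intro y
    simp only [LI]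
    positivity
  have hLA : ∀ i, 0 ≤ (LI yv R0 r0 w0 L bs i).A := fun y => (hA0 y).le
  have hAX : ∀ y, Az R0 r0 (yv y) * pn R (yv y) ≤ (r : ℝ) / 1000 := by
    intro y
    have h1 := pn_mono hRle (yv y)
    have h2 := hX0 y
    have h3 := (hA0 y).le
    calc Az R0 r0 (yv y) * pn R (yv y) ≤ Az R0 r0 (yv y) * pn R0 (yv y) := by gcongr
      _ = r0 / 2000 := by unfold Az; field_simp
      _ ≤ r / 1000 := by linarith
  have hGX : ∀ i, (GI XS yv R0 r0 w0 L i).A * pn R (GI XS yv R0 r0 w0 L i).x ≤ (r : ℝ) / 1000 := by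
    rintro (e | y)
    · have h1 := pn_mono hRle (XS e).x
      have h2 := hXA e
      have h3 := hXX e
      calc (XS e).A * pn R (XS e).x ≤ (XS e).A * pn R0 (XS e).x := by gcongr
        _ ≤ 3 * r0 / 4000 := h3
        _ ≤ r / 1000 := by linarith
    · exact hAX y
  have hLX : ∀ i, (LI yv R0 r0 w0 L bs i).A * pn R (LI yv R0 r0 w0 L bs i).y ≤ (r : ℝ) / 1000 :=
    fun y => hAX y
  have hPsi0 := Psi_zero XS yv R0 R r0 w0 L bs hXB
  have hpos : ∃ i, 0 < (GI XS yv R0 r0 w0 L i).w ∧ 0 < (GI XS yv R0 r0 w0 L i).B := by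
    obtain ⟨y⟩ := (inferInstance : Nonempty ιY)
    refine ⟨Sum.inr y, ?_, ?_⟩
    · simp only [GI, Sum.elim_inr]
      positivity
    · simp [GI]
  have hJ : ∀ v ∈ R, ‖v‖ ≤ 1 → (∀ j, |v j| ≤ κ) →
      Psi (GI XS yv R0 r0 w0 L) (LI yv R0 r0 w0 L bs) R (act κ v) v ≤
        Psi (GI XS yv R0 r0 w0 L) (LI yv R0 r0 w0 L bs) R ∅ 0 →
      (act κ v = ∅ ∨ (20 ≤ r ∧ 2 * (act κ v).card ≤ r)) := by
    intro v _ hv1 _ hPv
    right
    refine ⟨hr20, ?_⟩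
    rw [hPsi0] at hPv
    have := act_small XS yv R0 R r0 s q ϖ lam κ ℓ w0 hn' hs' hr0' hϖ0 hlam hκ2 hw0 hℓ hsign hX0
      hup hXW hXB h5 L bs hlen' (act κ v) v hv1 (hPv.trans hT)
    omega
  obtain ⟨v, hvR, hv1, hvf, hvP⟩ := row_exists _ _ R κ hκ0 hGw hGB hGA hLw hLA r hr (by omega)
    hGX hLX hpos (Or.inr hr20) hJ
  rw [hPsi0] at hvP
  have hcard := act_small XS yv R0 R r0 s q ϖ lam κ ℓ w0 hn' hs' hr0' hϖ0 hlam hκ2 hw0 hℓ hsign hX0
      hup hXW hXB h5 L bs hlen' (act κ v) v hv1.le (hvP.trans hT)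
  rw [Psi_unit XS yv R0 R r0 w0 L bs hXB (act κ v) v hv1] at hvP
  refine ⟨v, _, hvR, hv1, hvf, hvP, ?_⟩
  intro y
  have hlowR : ∀ y, ξ / 2 * ‖yv y‖ ^ 2 ≤ pn R (yv y) := by
    intro y
    rw [hR, pn_RL hCh (yv y)]
    have h1 := hcapX y
    have h2 := hlow y
    linarith
  have h1 := bs_step R0 r0 s ξ κ hξ0 hr0' L hCh v (yv y) (hX0 y) hrle' hrpos hcard.le
    (hsp R hlowR)
  have h2 := hbs y
  linarith

end Run7.h589
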