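import Pool.Agent.Run7.h589.Prob

open Finset

namespace Run7.h589

theorem binom_mode (n k : ℕ) (hk : k < n) (p : ℝ) (hp : p = k / n) :
    1 ≤ ((n : ℝ) + 1) * (n.choose k * p ^ k * (1 - p) ^ (n - k)) := by
  have hn' : (0 : ℝ) < n := by
    have : 0 < n := by omega
    exact_mod_cast this
  have hkn : (k : ℝ) < n := by exact_mod_cast hk
  have hp0 : 0 ≤ p := by rw [hp]; positivity
  have hp1 : 0 < 1 - p := by
    rw [hp, sub_pos, div_lt_one hn']
    exact hkn
  let a : ℕ → ℝ := fun j => n.choose j * p ^ j * (1 - p) ^ (n - j)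
  have ha0 : ∀ j, 0 ≤ a j := fun j => by
    simp only [a]
    positivity
  have hrec : ∀ j, j < n → a (j + 1) * ((j + 1) * (n - k)) = a j * ((n - j) * k) := by
    intro j hj
    simp only [a]
    have h1 : ((n.choose (j + 1) : ℝ)) * (j + 1) = n.choose j * (n - j) := by
      have := Nat.choose_succ_right_eq n j
      have h2 : ((n.choose (j + 1) * (j + 1) : ℕ) : ℝ) = ((n.choose j * (n - j) : ℕ) : ℝ) := by
        rw [this]
      push_cast [Nat.cast_sub hj.le] at h2
      exact h2
    have h2 : n - j = (n - (j + 1)) + 1 := by omega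
    have h3 : (n - k : ℝ) = n * (1 - p) := by rw [hp]; field_simp
    have h4 : (k : ℝ) = n * p := by rw [hp]; field_simp
    rw [h3, h4, h2, pow_succ, pow_succ]
    calc (n.choose (j + 1) : ℝ) * (p ^ j * p) * (1 - p) ^ (n - (j + 1)) * ((j + 1) * (n * (1 - p))) =
        ((n.choose (j + 1) : ℝ) * (j + 1)) * (p ^ j * p * (1 - p) ^ (n - (j + 1)) *
          (n * (1 - p))) := by ring
      _ = _ := by rw [h1]; ring
  have hup : ∀ j, j < k → a j ≤ a (j + 1) := by
    intro j hj
    have h1 := hrec j (by omega)
    have hj' : ((j : ℝ) + 1) ≤ k := by exact_mod_cast hj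
    have h2 : ((j : ℝ) + 1) * (n - k) ≤ (n - j) * k := by nlinarith
    have h3 : 0 < ((j : ℝ) + 1) * (n - k) := by
      apply mul_pos (by positivity)
      linarith
    have h4 : a j * (((j : ℝ) + 1) * (n - k)) ≤ a (j + 1) * (((j : ℝ) + 1) * (n - k)) := by
      rw [h1]
      exact mul_le_mul_of_nonneg_left h2 (ha0 j)
    exact le_of_mul_le_mul_right h4 h3
  have hdown : ∀ j, k ≤ j → j < n → a (j + 1) ≤ a j := by
    intro j hkj hj
    have h1 := hrec j hj
    have hj' : (k : ℝ) ≤ j := by exact_mod_cast hkj
    have h2 : (n - j) * (k : ℝ) ≤ ((j : ℝ) + 1) * (n - k) := by nlinarith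
    have h3 : 0 < ((j : ℝ) + 1) * (n - k) := by
      apply mul_pos (by positivity)
      linarith
    have h4 : a (j + 1) * (((j : ℝ) + 1) * (n - k)) ≤ a j * (((j : ℝ) + 1) * (n - k)) := by
      rw [h1]
      exact mul_le_mul_of_nonneg_left h2 (ha0 j)
    exact le_of_mul_le_mul_right h4 h3
  have hlow : ∀ d, d ≤ k → a (k - d) ≤ a k := by
    intro d
    induction d with
    | zero => intro _; simp
    | succ d ih =>
      intro hd
      have h1 := hup (k - (d + 1)) (by omega)
      have h2 : k - (d + 1) + 1 = k - d := by omega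
      rw [h2] at h1
      exact h1.trans (ih (by omega))
  have hhigh : ∀ d, k + d ≤ n → a (k + d) ≤ a k := by
    intro d
    induction d with
    | zero => intro _; simp
    | succ d ih =>
      intro hd
      have h1 := hdown (k + d) (by omega) (by omega)
      exact h1.trans (ih (by omega))
  have hall : ∀ j ∈ range (n + 1), a j ≤ a k := by
    intro j hj
    rw [Finset.mem_range] at hj
    by_cases h : j ≤ k
    · have := hlow (k - j) (by omega)
      have h2 : k - (k - j) = j := by omega
      rwa [h2] at this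
    · push Not at h
      have := hhigh (j - k) (by omega)
      have h2 : k + (j - k) = j := by omega
      rwa [h2] at this
  have hsum : ∑ j ∈ range (n + 1), a j = 1 := by
    have h := add_pow p (1 - p) n
    have h1 : p + (1 - p) = 1 := by ring
    rw [h1, one_pow] at h
    rw [h]
    apply Finset.sum_congr rfl
    intro j _
    simp only [a]
    ring
  have h1 : ∑ j ∈ range (n + 1), a j ≤ ∑ _j ∈ range (n + 1), a k := Finset.sum_le_sum hall
  rw [hsum, Finset.sum_const, card_range, nsmul_eq_mul] at h1
  push_cast at h1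
  exact h1

open Classical in
theorem transfer (n k : ℕ) (hk : k < n) (p : ℝ) (hp : p = k / n) (S : Finset (Fin n) → Prop) :
    (((Finset.powersetCard k (univ : Finset (Fin n))).filter S).card : ℝ) ≤
      n.choose k * (((n : ℝ) + 1) * bP p S) := by
  have hn' : (0 : ℝ) < n := by
    have : 0 < n := by omega
    exact_mod_cast this
  have hkn : (k : ℝ) < n := by exact_mod_cast hk
  have hp0 : 0 ≤ p := by rw [hp]; positivity
  have hp1 : p ≤ 1 := by
    rw [hp, div_le_one hn']
    exact hkn.le
  have h1 := binom_mode n k hk p hp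
  set c : ℝ := p ^ k * (1 - p) ^ (n - k) with hc
  have hc0 : 0 ≤ c := by
    have : 0 ≤ 1 - p := by linarith
    positivity
  have h2 : (((Finset.powersetCard k (univ : Finset (Fin n))).filter S).card : ℝ) * c ≤ bP p S := by
    unfold bP bE
    rw [← nsmul_eq_mul, ← Finset.sum_const]
    calc ∑ _Ω ∈ (Finset.powersetCard k (univ : Finset (Fin n))).filter S, c =
        ∑ Ω ∈ (Finset.powersetCard k (univ : Finset (Fin n))).filter S,
          p ^ Ω.card * (1 - p) ^ (n - Ω.card) * (if S Ω then 1 else 0) := by
          apply Finset.sum_congr rfl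
          intro Ω hΩ
          rw [Finset.mem_filter, Finset.mem_powersetCard] at hΩ
          rw [if_pos hΩ.2, hΩ.1.2, mul_one]
      _ ≤ ∑ Ω, p ^ Ω.card * (1 - p) ^ (n - Ω.card) * (if S Ω then 1 else 0) := by
          apply Finset.sum_le_sum_of_subset_of_nonneg (Finset.subset_univ _)
          intro Ω _ _
          apply mul_nonneg (bw_nonneg hp0 hp1 Ω)
          split_ifs <;> norm_num
  have h3 : (0 : ℝ) ≤ (((Finset.powersetCard k (univ : Finset (Fin n))).filter S).card : ℝ) := by
    positivity
  calc (((Finset.powersetCard k (univ : Finset (Fin n))).filter S).card : ℝ) =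
      (((Finset.powersetCard k (univ : Finset (Fin n))).filter S).card : ℝ) * 1 := by ring
    _ ≤ (((Finset.powersetCard k (univ : Finset (Fin n))).filter S).card : ℝ) *
        (((n : ℝ) + 1) * (n.choose k * p ^ k * (1 - p) ^ (n - k))) := by gcongr
    _ = n.choose k * (((n : ℝ) + 1) *
        ((((Finset.powersetCard k (univ : Finset (Fin n))).filter S).card : ℝ) * c)) := by
        rw [hc]; ring
    _ ≤ _ := by gcongr

end Run7.h589
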